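import Pool.Agent.UQC.St

set_option autoImplicit false

noncomputable section

open scoped Classical

namespace Pool.Agent.UQC

theorem Addx.rs_zero {V : Type} (w : V → V → ℝ) (B : Finset V) (a b : V) (U : Finset V) :
    ∀ s, ((a ∉ U ∧ a ≠ s) ∨ (b ∉ U ∧ b ≠ s)) → rs w B a b U s = 0 := by
  induction U using Finset.strongInduction with
  | H U ih =>
    intro s h
    rw [rs_eq]
    split_ifs with hB h1 h2 h2
    · rfl
    · rcases h with h | h
      · exact absurd h1.1.symm h.2
      · exact absurd h1.2 h.1
    · rcases h with h | h
      · exact absurd h1.1.symm h.2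
      · exact absurd h1.2 h.1
    · rcases h with h | h
      · exact absurd h2.2 h.1
      · exact absurd h2.1.symm h.2
    · rw [add_zero, add_zero]
      apply Finset.sum_eq_zero
      intro y hy
      rw [ih (U.erase y) (Finset.erase_ssubset hy) y, mul_zero]
      rcases h with h | h
      · exact Or.inl ⟨fun h' => h.1 (Finset.mem_of_mem_erase h'), fun h' => h.1 (h' ▸ hy)⟩
      · exact Or.inr ⟨fun h' => h.1 (Finset.mem_of_mem_erase h'), fun h' => h.1 (h' ▸ hy)⟩

theorem thm_Add : St_Add := by
  intro V w B a b c hab U
  induction U using Finset.strongInduction with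
  | H U ih =>
    intro s hs
    rw [ps_eq, ps_eq w, rs_eq]
    by_cases hB : s ∈ B
    · rw [if_pos hB, if_pos hB, if_pos hB]; ring
    · rw [if_neg hB, if_neg hB, if_neg hB]
      have hterm : ∀ y ∈ U,
          (w s y + if (s = a ∧ y = b) ∨ (s = b ∧ y = a) then c else 0) *
            ps (fun x y => w x y + if (x = a ∧ y = b) ∨ (x = b ∧ y = a) then c else 0) B
              (U.erase y) y =
          w s y * ps w B (U.erase y) y + c * (w s y * rs w B a b (U.erase y) y) +
            ((if y = b then (if s = a then c * ps w B (U.erase b) b else 0) else 0) +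
             (if y = a then (if s = b then c * ps w B (U.erase a) a else 0) else 0)) := by
        intro y hy
        rw [ih (U.erase y) (Finset.erase_ssubset hy) y (Finset.notMem_erase y U)]
        by_cases h1 : s = a ∧ y = b
        · obtain ⟨rfl, rfl⟩ := h1
          have h0 : rs w B s y (U.erase y) y = 0 :=
            Addx.rs_zero w B s y (U.erase y) y
              (Or.inl ⟨fun h' => hs (Finset.mem_of_mem_erase h'), hab⟩)
          rw [h0, if_pos (Or.inl ⟨rfl, rfl⟩), if_pos rfl, if_pos rfl, if_neg (fun h => hab h.symm)]
          ring
        · by_cases h2 : s = b ∧ y = a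
          · obtain ⟨rfl, rfl⟩ := h2
            have h0 : rs w B y s (U.erase y) y = 0 :=
              Addx.rs_zero w B y s (U.erase y) y
                (Or.inr ⟨fun h' => hs (Finset.mem_of_mem_erase h'), fun h => hab h.symm⟩)
            rw [h0, if_pos (Or.inr ⟨rfl, rfl⟩), if_neg hab, if_pos rfl, if_pos rfl]
            ring
          · rw [if_neg (fun h => h.elim h1 h2)]
            have e1 : (if y = b then (if s = a then c * ps w B (U.erase b) b else 0) else 0) = 0 := by
              by_cases hy1 : y = b
              · rw [if_pos hy1, if_neg (fun h => h1 ⟨h, hy1⟩)]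
              · rw [if_neg hy1]
            have e2 : (if y = a then (if s = b then c * ps w B (U.erase a) a else 0) else 0) = 0 := by
              by_cases hy1 : y = a
              · rw [if_pos hy1, if_neg (fun h => h2 ⟨h, hy1⟩)]
              · rw [if_neg hy1]
            rw [e1, e2]
            ring
      rw [Finset.sum_congr rfl hterm, Finset.sum_add_distrib, Finset.sum_add_distrib,
        Finset.sum_add_distrib, ← Finset.mul_sum, Finset.sum_ite_eq', Finset.sum_ite_eq']
      have e1 : (if b ∈ U then (if s = a then c * ps w B (U.erase b) b else 0) else 0) =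
          c * (if s = a ∧ b ∈ U then ps w B (U.erase b) b else 0) := by
        by_cases hb : b ∈ U <;> by_cases hsa : s = a <;> simp [hb, hsa]
      have e2 : (if a ∈ U then (if s = b then c * ps w B (U.erase a) a else 0) else 0) =
          c * (if s = b ∧ a ∈ U then ps w B (U.erase a) a else 0) := by
        by_cases ha : a ∈ U <;> by_cases hsb : s = b <;> simp [ha, hsb]
      rw [e1, e2]
      ring

end Pool.Agent.UQC
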