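import Pool.Agent.UQC.St

/-!
# The sparsity bound for all sets of vertices (MP_0dee97_pr, helper57)
-/

set_option autoImplicit false

noncomputable section

namespace Pool.Agent.UQC

open scoped Classical

namespace Bnax

/-- the relation of the submap -/
def Rl {D : Type} (M : CMap D) (X : Finset (Vx M)) : D → D → Prop :=
  Relation.EqvGen (fun x y => y = M.nx x ∨ (x ∈ {d | vx M d ∈ X ∧ vx M (M.iv d) ∈ X} ∧ y = M.iv x))

theorem rs {D : Type} [Finite D] (M : CMap D) (X : Finset (Vx M)) (x y : D) (h : M.nx.SameCycle x y) :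
    Rl M X x y := by
  obtain ⟨n, hn⟩ := h.exists_nat_pow_eq
  subst hn
  clear h
  induction n with
  | zero => exact Relation.EqvGen.refl _
  | succ n ih =>
    refine Relation.EqvGen.trans _ _ _ ih (Relation.EqvGen.rel _ _ (Or.inl ?_))
    rw [pow_succ', Equiv.Perm.mul_apply]

theorem ri {D : Type} (M : CMap D) (X : Finset (Vx M)) (x : D) (h : vx M x ∈ X)
    (h' : vx M (M.iv x) ∈ X) : Rl M X x (M.iv x) :=
  Relation.EqvGen.rel _ _ (Or.inr ⟨⟨h, h'⟩, rfl⟩)

theorem ind {p q r : Prop} [Decidable p] [Decidable q] [Decidable r] (h : p → q ∨ r) :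
    (if p then 1 else 0 : ℕ) ≤ (if q then 1 else 0) + (if r then 1 else 0) := by
  by_cases hp : p
  · rcases h hp with h1 | h1
    · rw [if_pos hp, if_pos h1]
      omega
    · rw [if_pos hp, if_pos h1]
      omega
  · rw [if_neg hp]
    omega

end Bnax

theorem thm_Bna (hEsa : St_Esa) (hMmb : St_Mmb) (hBnc : St_Bnc) : St_Bna := by
  intro D _ M hM e e' hNo k1 k2 k3 k4
  have hMG := (hMmb D M hM).1
  have hE4 := (hEsa (Vx M) (mm M) hMG).2.2.2.1
  have main : ∀ n : ℕ, ∀ X : Finset (Vx M), X.card = n → X.Nonempty →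
      es (mm M) X + 4 + 2 * kk M e e' X ≤ 4 * X.card := by
    intro n
    induction n using Nat.strong_induction_on with
    | _ n ih =>
      intro X hn hX
      by_cases hc : ∀ x y : D, vx M x ∈ X → vx M y ∈ X → Bnax.Rl M X x y
      · exact hBnc D M hM e e' hNo k1 k2 k3 k4 X hX hc
      · push Not at hc
        obtain ⟨x0, y0, hx0, hy0, hxy⟩ := hc
        have hP : ∀ d : D, (∃ d', vx M d' = vx M d ∧ Bnax.Rl M X x0 d') → Bnax.Rl M X x0 d := by
          rintro d ⟨d', h1, h2⟩
          exact Relation.EqvGen.trans _ _ _ h2 (Bnax.rs M X d' d ((vx_eq M d' d).1 h1))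
        obtain ⟨Y, hY⟩ : ∃ Y : Finset (Vx M), Y = X.filter (fun v => ∃ d', vx M d' = v ∧ Bnax.Rl M X x0 d') :=
          ⟨_, rfl⟩
        obtain ⟨Z, hZ⟩ : ∃ Z : Finset (Vx M), Z = X.filter (fun v => ¬ ∃ d', vx M d' = v ∧ Bnax.Rl M X x0 d') :=
          ⟨_, rfl⟩
        have mY : ∀ d : D, vx M d ∈ Y ↔ vx M d ∈ X ∧ Bnax.Rl M X x0 d := by
          intro d
          rw [hY, Finset.mem_filter]
          exact ⟨fun h => ⟨h.1, hP d h.2⟩, fun h => ⟨h.1, d, rfl, h.2⟩⟩
        have mZ : ∀ d : D, vx M d ∈ Z ↔ vx M d ∈ X ∧ ¬ Bnax.Rl M X x0 d := by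
          intro d
          rw [hZ, Finset.mem_filter]
          exact ⟨fun h => ⟨h.1, fun h' => h.2 ⟨d, rfl, h'⟩⟩, fun h => ⟨h.1, fun h' => h.2 (hP d h')⟩⟩
        have hU : Y ∪ Z = X := by
          rw [hY, hZ, Finset.filter_union_filter_not_eq]
        have hD : Disjoint Y Z := by
          rw [hY, hZ]
          exact Finset.disjoint_filter_filter_not _ _ _
        have hYn : Y.Nonempty := ⟨vx M x0, (mY x0).2 ⟨hx0, Relation.EqvGen.refl _⟩⟩
        have hZn : Z.Nonempty := ⟨vx M y0, (mZ y0).2 ⟨hy0, hxy⟩⟩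
        have hcard : X.card = Y.card + Z.card := by
          rw [← hU, Finset.card_union_of_disjoint hD]
        have hYp := hYn.card_pos
        have hZp := hZn.card_pos
        have hno : ∀ y ∈ Y, ∀ z ∈ Z, mm M y z = 0 := by
          intro y hy z hz
          rw [mm]
          have : IsEmpty {d : D // vx M d = y ∧ vx M (M.iv d) = z} := by
            refine ⟨?_⟩
            rintro ⟨d, h1, h2⟩
            subst h1 h2
            rw [mY] at hy
            rw [mZ] at hz
            exact hz.2 (Relation.EqvGen.trans _ _ _ hy.2 (Bnax.ri M X d hy.1 hz.1))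
          exact Nat.card_of_isEmpty
        have hes := hE4 Y Z hD hno
        rw [hU] at hes
        have hind : ∀ f : D, (vx M f ∈ X ∧ vx M (M.iv f) ∈ X) →
            (vx M f ∈ Y ∧ vx M (M.iv f) ∈ Y) ∨ (vx M f ∈ Z ∧ vx M (M.iv f) ∈ Z) := by
          rintro f ⟨h1, h2⟩
          by_cases h3 : Bnax.Rl M X x0 f
          · left
            exact ⟨(mY f).2 ⟨h1, h3⟩, (mY _).2 ⟨h2, Relation.EqvGen.trans _ _ _ h3 (Bnax.ri M X f h1 h2)⟩⟩
          · right
            refine ⟨(mZ f).2 ⟨h1, h3⟩, (mZ _).2 ⟨h2, fun h4 => h3 ?_⟩⟩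
            exact Relation.EqvGen.trans _ _ _ h4 (Relation.EqvGen.symm _ _ (Bnax.ri M X f h1 h2))
        have hk : kk M e e' X ≤ kk M e e' Y + kk M e e' Z := by
          have i1 := Bnax.ind (hind e)
          have i2 := Bnax.ind (hind e')
          rw [kk, kk, kk]
          omega
        have iY := ih Y.card (by omega) Y rfl hYn
        have iZ := ih Z.card (by omega) Z rfl hZn
        omega
  intro X hX
  exact main X.card X rfl hX

end Pool.Agent.UQC
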