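import Pool.Agent.UQC.St

set_option autoImplicit false

noncomputable section

open scoped Classical

/-! # (Bnc) The bound for connected `X` -/

namespace Pool.Agent.UQC

namespace Bncx

/-- There are no loops. -/
theorem noloop {D : Type} [Finite D] (M : CMap D) (h : MG (mm M)) (d : D) :
    vx M d ≠ vx M (M.iv d) := by
  intro hd
  have h0 : mm M (vx M d) (vx M d) = 0 := h.2 _
  have h1 : Nonempty {d' : D // vx M d' = vx M d ∧ vx M (M.iv d') = vx M d} := ⟨⟨d, rfl, hd.symm⟩⟩
  have h2 : 0 < Nat.card {d' : D // vx M d' = vx M d ∧ vx M (M.iv d') = vx M d} := Nat.card_pos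
  have h3 : Nat.card {d' : D // vx M d' = vx M d ∧ vx M (M.iv d') = vx M d} = 0 := h0
  omega

/-- The map itself has one component. -/
theorem cSone {D : Type} [Finite D] (M : CMap D) (hc : M.Conn) (d0 : D) : cS M Set.univ = 1 := by
  have hsub : Subsingleton (Quotient (Relation.EqvGen.setoid
      (fun x y : D => y = M.nx x ∨ (x ∈ (Set.univ : Set D) ∧ y = M.iv x)))) := by
    refine ⟨fun a b => ?_⟩
    induction a using Quotient.inductionOn with
    | h a =>
      induction b using Quotient.inductionOn with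
      | h b =>
        apply Quotient.sound
        show Relation.EqvGen _ a b
        have h := hc a b
        induction h with
        | rel x y hxy =>
          refine Relation.EqvGen.rel _ _ ?_
          rcases hxy with hxy | hxy
          · exact Or.inl hxy
          · exact Or.inr ⟨Set.mem_univ _, hxy⟩
        | refl x => exact Relation.EqvGen.refl _
        | symm x y _ ih => exact Relation.EqvGen.symm _ _ ih
        | trans x y z _ _ ih1 ih2 => exact Relation.EqvGen.trans _ _ _ ih1 ih2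
  have hne : Nonempty (Quotient (Relation.EqvGen.setoid
      (fun x y : D => y = M.nx x ∨ (x ∈ (Set.univ : Set D) ∧ y = M.iv x)))) := ⟨Quotient.mk _ d0⟩
  exact Nat.card_eq_one_iff_unique.mpr ⟨hsub, hne⟩

/-- A property invariant under the steps is invariant under the generated equivalence. -/
theorem inv {D : Type} {r : D → D → Prop} {P : D → Prop} (hr : ∀ x y, r x y → (P x ↔ P y)) {x y : D}
    (h : Relation.EqvGen r x y) : P x ↔ P y := by
  induction h with
  | rel x y h => exact hr x y h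
  | refl x => exact Iff.rfl
  | symm x y _ ih => exact ih.symm
  | trans x y z _ _ ih1 ih2 => exact ih1.trans ih2

theorem vx_nx {D : Type} (M : CMap D) (x : D) : vx M (M.nx x) = vx M x :=
  (vx_eq M _ _).mpr ⟨-1, by simp⟩

theorem hasDart {D : Type} (M : CMap D) (X : Finset (Vx M)) (hcard : 2 ≤ X.card)
    (hconn : ∀ x y : D, vx M x ∈ X → vx M y ∈ X → Relation.EqvGen (fun x y => y = M.nx x ∨
      (x ∈ {d | vx M d ∈ X ∧ vx M (M.iv d) ∈ X} ∧ y = M.iv x)) x y) :
    ∀ x ∈ X, ∃ d ∈ {d | vx M d ∈ X ∧ vx M (M.iv d) ∈ X}, vx M d = x := by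
  intro x hx
  by_contra hno
  have hno' : ∀ d ∈ {d | vx M d ∈ X ∧ vx M (M.iv d) ∈ X}, vx M d ≠ x :=
    fun d hd hdx => hno ⟨d, hd, hdx⟩
  obtain ⟨y, hy, hyx⟩ := Finset.exists_mem_ne (by omega : 1 < X.card) x
  obtain ⟨d0, hd0⟩ : ∃ d0 : D, vx M d0 = x := Quotient.exists_rep x
  obtain ⟨d1, hd1⟩ : ∃ d1 : D, vx M d1 = y := Quotient.exists_rep y
  have key : (vx M d0 = x) ↔ (vx M d1 = x) := by
    refine inv (P := fun z => vx M z = x) ?_
      (hconn d0 d1 (by rw [hd0]; exact hx) (by rw [hd1]; exact hy))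
    intro a b hab
    rcases hab with hab | ⟨ha, hab⟩
    · subst hab
      show vx M a = x ↔ vx M (M.nx a) = x
      rw [vx_nx]
    · have hb : b ∈ {d | vx M d ∈ X ∧ vx M (M.iv d) ∈ X} := by
        subst hab
        exact ⟨ha.2, by rw [M.iv_iv]; exact ha.1⟩
      exact ⟨fun h => (hno' a ha h).elim, fun h => (hno' b hb h).elim⟩
  exact hyx (hd1.symm.trans (key.mp hd0))

end Bncx

open Bncx

theorem thm_Bnc (hGex : St_Gex) (hEuM : St_EuM) (hMmb : St_Mmb) (hCnt : St_Cnt) (hPty : St_Pty)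
    (hN0b : St_N0b) (hN2b : St_N2b) (hCsx : St_Csx) : St_Bnc := by
  intro D _ M hM e e' hNoJ h1 h2 h3 h4 X hX hconn
  obtain ⟨hMG, hesX, _, _⟩ := hMmb D M hM
  obtain ⟨x0, hx0⟩ := hX
  obtain ⟨d0, hd0⟩ : ∃ d0 : D, vx M d0 = x0 := Quotient.exists_rep x0
  have hcpos : 1 ≤ X.card := Finset.card_pos.mpr ⟨x0, hx0⟩
  rw [hesX X]
  rcases Nat.lt_or_ge X.card 2 with hlt | hge
  · have hc1 : X.card = 1 := by omega
    obtain ⟨x, hx⟩ := Finset.card_eq_one.mp hc1
    have hno : ∀ d : D, ¬ (vx M d ∈ X ∧ vx M (M.iv d) ∈ X) := by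
      intro d hd
      rw [hx, Finset.mem_singleton, Finset.mem_singleton] at hd
      exact noloop M hMG d (hd.1.trans hd.2.symm)
    have hS : {d | vx M d ∈ X ∧ vx M (M.iv d) ∈ X} = (∅ : Set D) := by
      ext d
      exact ⟨fun h => (hno d h).elim, fun h => h.elim⟩
    have hkk : kk M e e' X = 0 := by
      unfold kk
      rw [if_neg (hno e), if_neg (hno e')]
    rw [hS, hkk, Set.ncard_empty]
    omega
  · have hiv : ∀ x ∈ {d | vx M d ∈ X ∧ vx M (M.iv d) ∈ X}, M.iv x ∈ {d | vx M d ∈ X ∧ vx M (M.iv d) ∈ X} :=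
      fun x hx => ⟨hx.2, by rw [M.iv_iv]; exact hx.1⟩
    obtain ⟨g, hg⟩ := hGex D M _ hiv
    have hN0 := hN0b D M X _ g hg (hasDart M X hge hconn)
    have hone := cSone M hM.conn d0
    have heu := (hEuM D M _ g hg).2 (by rw [hone]; exact hM.euler)
    have hcs := hCsx D M X ⟨x0, hx0⟩ hconn
    have hcnt := hCnt D g _ (hPty D M hM _ g hg)
    have hmain : {d | vx M d ∈ X ∧ vx M (M.iv d) ∈ X}.ncard + 8 ≤
        4 * X.card + 2 * N2 g {d | vx M d ∈ X ∧ vx M (M.iv d) ∈ X} := by
      omega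
    by_cases hS : ∃ d, {d | vx M d ∈ X ∧ vx M (M.iv d) ∈ X} = {d, M.iv d}
    · obtain ⟨d, hd⟩ := hS
      have hcard2 : {d | vx M d ∈ X ∧ vx M (M.iv d) ∈ X}.ncard = 2 := by
        rw [hd]
        exact Set.ncard_pair (M.iv_ne d).symm
      have hmem : ∀ z : D, (vx M z ∈ X ∧ vx M (M.iv z) ∈ X) → z = d ∨ z = M.iv d := by
        intro z hz
        have hz' : z ∈ ({d, M.iv d} : Set D) := by
          rw [← hd]
          exact hz
        exact hz'
      have hkk : kk M e e' X ≤ 1 := by
        unfold kk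
        by_cases he : vx M e ∈ X ∧ vx M (M.iv e) ∈ X
        · by_cases he' : vx M e' ∈ X ∧ vx M (M.iv e') ∈ X
          · exfalso
            rcases hmem e he with h5 | h5 <;> rcases hmem e' he' with h6 | h6
            · exact h1 (by rw [h5, h6])
            · exact h3 (by rw [h5, h6])
            · exact h3 (by rw [h5, h6, M.iv_iv])
            · exact h1 (by rw [h5, h6])
          · rw [if_pos he, if_neg he']
        · rw [if_neg he]
          split_ifs <;> omega
      rw [hcard2]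
      omega
    · have hN2 := hN2b D M hM e e' hNoJ _ g hg
        (fun x hx y hy => hconn x y hx.1 hy.1) (fun d hd => hS ⟨d, hd⟩)
      have hkk : N2 g {d | vx M d ∈ X ∧ vx M (M.iv d) ∈ X} + kk M e e' X ≤ 2 := by
        refine le_trans (le_of_eq ?_) hN2
        congr 1
        unfold kk
        congr 1
        · by_cases he : vx M e ∈ X ∧ vx M (M.iv e) ∈ X
          · rw [if_pos he, if_pos (show e ∈ {d | vx M d ∈ X ∧ vx M (M.iv d) ∈ X} from he)]
          · rw [if_neg he, if_neg (show e ∉ {d | vx M d ∈ X ∧ vx M (M.iv d) ∈ X} from he)]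
        · by_cases he : vx M e' ∈ X ∧ vx M (M.iv e') ∈ X
          · rw [if_pos he, if_pos (show e' ∈ {d | vx M d ∈ X ∧ vx M (M.iv d) ∈ X} from he)]
          · rw [if_neg he, if_neg (show e' ∉ {d | vx M d ∈ X ∧ vx M (M.iv d) ∈ X} from he)]
      omega

end Pool.Agent.UQC
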