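import Pool.Agent.UQC.St

/-!
# UQC, module Cnt (MP_0dee97_pr): counting faces
-/

set_option autoImplicit false

noncomputable section

open scoped Classical

namespace Pool.Agent.UQC

namespace Cntx

theorem four_le (c : ℕ) (h : Even c) :
    4 ≤ c + 4 * (if c = 0 then 1 else 0) + 2 * (if c = 2 then 1 else 0) := by
  obtain ⟨k, rfl⟩ := h
  rcases Nat.eq_zero_or_pos k with rfl | hk
  · simp
  · rcases Nat.lt_or_ge k 2 with h2 | h2
    · have : k = 1 := by omega
      subst this
      simp
    · have : ¬ k + k = 0 := by omega
      omega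

end Cntx

theorem thm_Cnt : St_Cnt := by
  intro D _ g S hE
  haveI : Fintype D := Fintype.ofFinite _
  haveI : Fintype (Quotient (Equiv.Perm.SameCycle.setoid g)) := Fintype.ofFinite _
  set c : Quotient (Equiv.Perm.SameCycle.setoid g) → ℕ :=
    fun q => {y | y ∈ S ∧ (Quotient.mk _ y : Quotient _) = q}.ncard with hc
  have hev : ∀ q, Even (c q) := by
    intro q
    induction q using Quotient.inductionOn with
    | h x =>
      have : {y | y ∈ S ∧ (Quotient.mk (Equiv.Perm.SameCycle.setoid g) y) = Quotient.mk _ x} =
          {y | y ∈ S ∧ g.SameCycle x y} := by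
        ext y
        constructor
        · rintro ⟨hy, h⟩
          have h1 : g.SameCycle y x := Quotient.exact h
          exact ⟨hy, h1.symm⟩
        · rintro ⟨hy, h⟩
          exact ⟨hy, Quotient.sound (show g.SameCycle y x from h.symm)⟩
      have h2 := hE x
      rw [← this] at h2
      exact h2
  have hsum : S.ncard = ∑ q, c q := by
    rw [Set.ncard_eq_toFinset_card' S]
    rw [Finset.card_eq_sum_card_fiberwise (f := fun y => (Quotient.mk (Equiv.Perm.SameCycle.setoid g) y))
      (t := Finset.univ) (fun _ _ => Finset.mem_coe.2 (Finset.mem_univ _))]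
    refine Finset.sum_congr rfl fun q _ => ?_
    rw [hc]
    simp only
    rw [Set.ncard_eq_toFinset_card']
    congr 1
    ext y
    simp
  have hN0 : N0 g S = ∑ q, (if c q = 0 then 1 else 0) := by
    unfold N0
    rw [Nat.card_eq_fintype_card, Fintype.card_subtype, Finset.card_filter]
    refine Finset.sum_congr rfl fun q _ => ?_
    have : (∀ y ∈ S, (Quotient.mk (Equiv.Perm.SameCycle.setoid g) y) ≠ q) ↔ c q = 0 := by
      rw [hc]
      simp only
      rw [Set.ncard_eq_zero (Set.toFinite _), Set.eq_empty_iff_forall_notMem]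
      constructor
      · intro h y hy
        exact h y hy.1 hy.2
      · intro h y hy he
        exact h y ⟨hy, he⟩
    simp only [this]
  have hN2 : N2 g S = ∑ q, (if c q = 2 then 1 else 0) := by
    unfold N2
    rw [Nat.card_eq_fintype_card, Fintype.card_subtype, Finset.card_filter]
  have hnc : nc g = ∑ _q : Quotient (Equiv.Perm.SameCycle.setoid g), 1 := by
    unfold nc
    rw [Nat.card_eq_fintype_card]
    simp
  rw [hsum, hN0, hN2, hnc, Finset.mul_sum, Finset.mul_sum, Finset.mul_sum, ← Finset.sum_add_distrib,
    ← Finset.sum_add_distrib]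
  refine Finset.sum_le_sum fun q _ => ?_
  have := Cntx.four_le (c q) (hev q)
  simpa using this

end Pool.Agent.UQC
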