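import Pool.Agent.UQC.St

/-!
# (Col) A planar quadrangulation is bipartite
-/

set_option autoImplicit false

noncomputable section

namespace Pool.Agent.UQC

open scoped Classical

namespace Colx

/-- the double cover -/
def M2 {D : Type} (M : CMap D) : CMap (D × Bool) where
  nx := Equiv.prodCongr M.nx (Equiv.refl Bool)
  iv := Equiv.prodCongr M.iv Equiv.boolNot
  iv_iv := by
    rintro ⟨d, i⟩
    show ((M.iv (M.iv d), !(!i)) : D × Bool) = (d, i)
    rw [M.iv_iv, Bool.not_not]
  iv_ne := by
    rintro ⟨d, i⟩ h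
    exact M.iv_ne d (congrArg Prod.fst h)

theorem nx2 {D : Type} (M : CMap D) (d : D) (i : Bool) : (M2 M).nx (d, i) = (M.nx d, i) := rfl

theorem iv2 {D : Type} (M : CMap D) (d : D) (i : Bool) : (M2 M).iv (d, i) = (M.iv d, !i) := rfl

theorem fc2 {D : Type} (M : CMap D) (d : D) (i : Bool) : (M2 M).fc (d, i) = (M.fc d, !i) := rfl

theorem nx2_zpow {D : Type} (M : CMap D) (d : D) (i : Bool) (k : ℤ) :
    ((M2 M).nx ^ k) (d, i) = ((M.nx ^ k) d, i) := by
  have hnat : ∀ (n : ℕ) (e : D) (j : Bool), ((M2 M).nx ^ n) (e, j) = ((M.nx ^ n) e, j) := by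
    intro n
    induction n with
    | zero => intro e j; rfl
    | succ n ih =>
      intro e j
      rw [pow_succ', pow_succ', Equiv.Perm.mul_apply, Equiv.Perm.mul_apply, ih, nx2]
  cases k with
  | ofNat n =>
    rw [Int.ofNat_eq_natCast, zpow_natCast, zpow_natCast]
    exact hnat n d i
  | negSucc n =>
    rw [zpow_negSucc, zpow_negSucc, Equiv.Perm.inv_eq_iff_eq, hnat, ← Equiv.Perm.mul_apply,
      mul_inv_cancel, Equiv.Perm.one_apply]

theorem same2 {D : Type} (M : CMap D) (d e : D) (i j : Bool) :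
    (M2 M).nx.SameCycle (d, i) (e, j) ↔ M.nx.SameCycle d e ∧ i = j := by
  constructor
  · rintro ⟨k, hk⟩
    rw [nx2_zpow] at hk
    exact ⟨⟨k, congrArg Prod.fst hk⟩, congrArg Prod.snd hk⟩
  · rintro ⟨⟨k, hk⟩, rfl⟩
    refine ⟨k, ?_⟩
    rw [nx2_zpow, hk]

theorem nc_nx2 {D : Type} [Finite D] (M : CMap D) : nc (M2 M).nx = 2 * nc M.nx := by
  have e : Quotient (Equiv.Perm.SameCycle.setoid (M2 M).nx) ≃
      Quotient (Equiv.Perm.SameCycle.setoid M.nx) × Bool := by
    refine Equiv.ofBijective (Quotient.lift (fun x : D × Bool =>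
      ((Quotient.mk (Equiv.Perm.SameCycle.setoid M.nx) x.1, x.2) :
        Quotient (Equiv.Perm.SameCycle.setoid M.nx) × Bool)) ?_) ⟨?_, ?_⟩
    · rintro ⟨d, i⟩ ⟨e, j⟩ h
      obtain ⟨h1, h2⟩ := (same2 M d e i j).1 h
      exact Prod.ext (Quotient.sound h1) h2
    · intro a b
      induction a using Quotient.inductionOn with | _ a => ?_
      induction b using Quotient.inductionOn with | _ b => ?_
      intro h
      obtain ⟨d, i⟩ := a
      obtain ⟨e, j⟩ := b
      have h1 := congrArg Prod.fst h
      have h2 := congrArg Prod.snd h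
      exact Quotient.sound ((same2 M d e i j).2 ⟨Quotient.exact h1, h2⟩)
    · rintro ⟨a, i⟩
      induction a using Quotient.inductionOn with | _ a => ?_
      exact ⟨Quotient.mk _ (a, i), rfl⟩
  unfold nc
  rw [Nat.card_congr e, Nat.card_prod, Nat.card_eq_fintype_card (α := Bool), Fintype.card_bool]
  ring

/-- the connection in the double cover -/
def r2 {D : Type} (M : CMap D) : D × Bool → D × Bool → Prop :=
  Relation.EqvGen (fun x y => y = (M2 M).nx x ∨ (x ∈ (Set.univ : Set (D × Bool)) ∧
    y = (M2 M).iv x))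

theorem lift2 {D : Type} (M : CMap D) {x y : D}
    (h : Relation.EqvGen (fun x y => y = M.nx x ∨ y = M.iv x) x y) :
    ∃ k : Bool, ∀ i : Bool, r2 M (x, i) (y, xor i k) := by
  induction h with
  | rel x y h =>
    rcases h with rfl | rfl
    · refine ⟨false, fun i => Relation.EqvGen.rel _ _ (Or.inl ?_)⟩
      rw [Bool.xor_false]
      rfl
    · refine ⟨true, fun i => Relation.EqvGen.rel _ _ (Or.inr ⟨trivial, ?_⟩)⟩
      rw [Bool.xor_true]
      rfl
  | refl x =>
    refine ⟨false, fun i => ?_⟩
    rw [Bool.xor_false]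
    exact Relation.EqvGen.refl _
  | symm x y _ ih =>
    obtain ⟨k, hk⟩ := ih
    refine ⟨k, fun i => ?_⟩
    have h1 := hk (xor i k)
    rw [Bool.xor_assoc, Bool.xor_self, Bool.xor_false] at h1
    exact Relation.EqvGen.symm _ _ h1
  | trans x y z _ _ ih1 ih2 =>
    obtain ⟨k, hk⟩ := ih1
    obtain ⟨l, hl⟩ := ih2
    refine ⟨xor k l, fun i => ?_⟩
    have h1 := hl (xor i k)
    rw [Bool.xor_assoc] at h1
    exact Relation.EqvGen.trans _ _ _ (hk i) h1

end Colx

open Colx in
/-- (Col) A planar quadrangulation is bipartite. -/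
theorem thm_Col (hEuM : St_EuM) (hNcf : St_Ncf) : St_Col := by
  intro D _ M hM
  rcases isEmpty_or_nonempty D with hD | ⟨⟨ρ⟩⟩
  · exact ⟨fun _ => true, fun d => hD.elim d⟩
  have hsep : ¬ r2 M (ρ, true) (ρ, false) := by
    intro hc
    have hall : ∀ x : D × Bool, r2 M x (ρ, true) := by
      rintro ⟨d, i⟩
      obtain ⟨k, hk⟩ := lift2 M (hM.conn d ρ)
      have h1 := hk i
      cases hik : xor i k with
      | true => rw [hik] at h1; exact h1
      | false =>
        rw [hik] at h1
        exact Relation.EqvGen.trans _ _ _ h1 (Relation.EqvGen.symm _ _ hc)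
    have hc2 : cS (M2 M) Set.univ ≤ 1 := by
      unfold cS
      rw [Finite.card_le_one_iff_subsingleton]
      constructor
      intro a b
      induction a using Quotient.inductionOn with | _ a => ?_
      induction b using Quotient.inductionOn with | _ b => ?_
      exact Quotient.sound (Relation.EqvGen.trans _ _ _ (hall a)
        (Relation.EqvGen.symm _ _ (hall b)))
    have hsub : SubF (M2 M) Set.univ (M2 M).fc := by
      refine ⟨fun _ _ => trivial, fun x => ?_⟩
      rw [if_pos (Set.mem_univ x)]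
      rfl
    have h1 := (hEuM (D × Bool) (M2 M) Set.univ (M2 M).fc hsub).1
    have h2 : 4 * nc (M2 M).fc = Nat.card (D × Bool) := by
      refine (hNcf (D × Bool) (M2 M).fc).2 ?_ ?_
      · rintro ⟨d, i⟩
        rw [fc2, fc2, fc2, fc2, hM.four, Bool.not_not, Bool.not_not]
      · rintro ⟨d, i⟩ h
        rw [fc2, fc2] at h
        exact hM.two d (congrArg Prod.fst h)
    have h3 : 4 * nc M.fc = Nat.card D := (hNcf D M.fc).2 hM.four hM.two
    have h4 : 2 * nc M.iv = Nat.card D := (hNcf D M.iv).1 M.iv_iv M.iv_ne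
    have h5 : Nat.card (D × Bool) = 2 * Nat.card D := by
      rw [Nat.card_prod, Nat.card_eq_fintype_card (α := Bool), Fintype.card_bool]
      ring
    have h6 := hM.euler
    rw [nc_nx2, Set.ncard_univ] at h1
    omega
  refine ⟨fun d => decide (r2 M (d, true) (ρ, true)), fun d => ⟨?_, ?_⟩⟩
  · have h1 : r2 M (d, true) (M.nx d, true) := Relation.EqvGen.rel _ _ (Or.inl rfl)
    refine decide_eq_decide.2 ⟨fun h => ?_, fun h => ?_⟩
    · exact Relation.EqvGen.trans _ _ _ h1 h
    · exact Relation.EqvGen.trans _ _ _ (Relation.EqvGen.symm _ _ h1) h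
  · have h1 : r2 M (d, false) (M.iv d, true) := Relation.EqvGen.rel _ _ (Or.inr ⟨trivial, rfl⟩)
    obtain ⟨k, hk⟩ := lift2 M (hM.conn d ρ)
    have ht := hk true
    have hf := hk false
    rw [Bool.true_xor] at ht
    rw [Bool.false_xor] at hf
    have h2 : r2 M (M.iv d, true) (ρ, true) ↔ r2 M (d, false) (ρ, true) :=
      ⟨fun h => Relation.EqvGen.trans _ _ _ h1 h,
        fun h => Relation.EqvGen.trans _ _ _ (Relation.EqvGen.symm _ _ h1) h⟩
    by_cases h3 : r2 M (d, true) (ρ, true)
    · have h4 : ¬ r2 M (M.iv d, true) (ρ, true) := by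
        intro h5
        have h6 := h2.1 h5
        have h7 : r2 M (ρ, !k) (ρ, true) :=
          Relation.EqvGen.trans _ _ _ (Relation.EqvGen.symm _ _ ht) h3
        have h8 : r2 M (ρ, k) (ρ, true) :=
          Relation.EqvGen.trans _ _ _ (Relation.EqvGen.symm _ _ hf) h6
        cases k with
        | true => exact hsep (Relation.EqvGen.symm _ _ h7)
        | false => exact hsep (Relation.EqvGen.symm _ _ h8)
      show decide _ = !decide _
      rw [decide_eq_true h3, decide_eq_false h4]
      rfl
    · have h4 : r2 M (M.iv d, true) (ρ, true) := by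
        refine h2.2 ?_
        cases k with
        | true => exact hf
        | false => exact absurd ht h3
      show decide _ = !decide _
      rw [decide_eq_false h3, decide_eq_true h4]
      rfl

end Pool.Agent.UQC
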