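import Pool.Agent.UQC.St

/-!
# Cycles of `f * swap a b` (MP_0dee97_pr, helper57)
-/

set_option autoImplicit false

noncomputable section

namespace Pool.Agent.UQC

open scoped Classical

namespace Cspx

theorem clo {D : Type} [Finite D] (f : Equiv.Perm D) (P : D → Prop) (hP : ∀ x, P x → P (f x)) {x z : D}
    (h : f.SameCycle x z) (hx : P x) : P z := by
  obtain ⟨n, hn⟩ := h.exists_nat_pow_eq
  subst hn
  clear h
  induction n with
  | zero => simpa using hx
  | succ n ih =>
    rw [pow_succ', Equiv.Perm.mul_apply]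
    exact hP _ ih

end Cspx

theorem thm_Csp : St_Csp := by
  intro D _ f a b
  have ga : (f * Equiv.swap a b) a = f b := by
    rw [Equiv.Perm.mul_apply, Equiv.swap_apply_left]
  have gb : (f * Equiv.swap a b) b = f a := by
    rw [Equiv.Perm.mul_apply, Equiv.swap_apply_right]
  have gy : ∀ y, y ≠ a → y ≠ b → (f * Equiv.swap a b) y = f y := by
    intro y h1 h2
    rw [Equiv.Perm.mul_apply, Equiv.swap_apply_of_ne_of_ne h1 h2]
  refine ⟨?_, ?_, ?_⟩
  · intro z hz
    refine Cspx.clo f (fun y => (f * Equiv.swap a b).SameCycle a y ∨ (f * Equiv.swap a b).SameCycle b y)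
      ?_ hz (Or.inl (Equiv.Perm.SameCycle.refl _ _))
    intro y hy
    show (f * Equiv.swap a b).SameCycle a (f y) ∨ (f * Equiv.swap a b).SameCycle b (f y)
    by_cases h1 : y = a
    · right
      rw [h1, ← gb]
      exact Equiv.Perm.sameCycle_apply_right.2 (Equiv.Perm.SameCycle.refl _ _)
    · by_cases h2 : y = b
      · left
        rw [h2, ← ga]
        exact Equiv.Perm.sameCycle_apply_right.2 (Equiv.Perm.SameCycle.refl _ _)
      · rw [← gy y h1 h2]
        rcases hy with hy | hy
        · exact Or.inl (Equiv.Perm.sameCycle_apply_right.2 hy)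
        · exact Or.inr (Equiv.Perm.sameCycle_apply_right.2 hy)
  · intro x z hz ha hb
    refine (Cspx.clo f (fun y => f.SameCycle x y ∧ (f * Equiv.swap a b).SameCycle x y)
      ?_ hz ⟨Equiv.Perm.SameCycle.refl _ _, Equiv.Perm.SameCycle.refl _ _⟩).2
    rintro y ⟨h1, h2⟩
    have e1 : y ≠ a := by
      intro h
      exact ha (h ▸ h1).symm
    have e2 : y ≠ b := by
      intro h
      exact hb (h ▸ h1).symm
    refine ⟨Equiv.Perm.sameCycle_apply_right.2 h1, ?_⟩
    rw [← gy y e1 e2]
    exact Equiv.Perm.sameCycle_apply_right.2 h2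
  · intro hab x z hz
    refine Cspx.clo (f * Equiv.swap a b) (fun y => f.SameCycle x y) ?_ hz (Equiv.Perm.SameCycle.refl _ _)
    intro y hy
    show f.SameCycle x ((f * Equiv.swap a b) y)
    by_cases h1 : y = a
    · rw [h1, ga]
      exact Equiv.Perm.sameCycle_apply_right.2 ((h1 ▸ hy).trans hab)
    · by_cases h2 : y = b
      · rw [h2, gb]
        exact Equiv.Perm.sameCycle_apply_right.2 ((h2 ▸ hy).trans hab.symm)
      · rw [gy y h1 h2]
        exact Equiv.Perm.sameCycle_apply_right.2 hy

end Pool.Agent.UQC
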