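import Pool.Agent.UQC.St

set_option autoImplicit false

noncomputable section

open scoped Classical

namespace Pool.Agent.UQC

namespace Csxx

/-- Two darts with the same tail are equivalent. -/
theorem eqv_of_same {D : Type} (M : CMap D) (S : Set D) (x y : D) (h : M.nx.SameCycle x y) :
    Relation.EqvGen (fun x y : D => y = M.nx x ∨ (x ∈ S ∧ y = M.iv x)) x y := by
  obtain ⟨i, rfl⟩ := h
  induction i using Int.induction_on with
  | zero => exact Relation.EqvGen.refl _
  | succ i ih =>
    refine ih.trans _ _ _ (Relation.EqvGen.rel _ _ (Or.inl ?_))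
    rw [add_comm, zpow_add, zpow_one, Equiv.Perm.mul_apply]
  | pred i ih =>
    refine ih.trans _ _ _ (Relation.EqvGen.symm _ _ (Relation.EqvGen.rel _ _ (Or.inl ?_)))
    rw [← Equiv.Perm.mul_apply, ← zpow_one_add]
    congr 2
    ring

/-- The class of a dart: `none` if the tail is in `X`, the tail otherwise. -/
def cls {D : Type} (M : CMap D) (X : Finset (Vx M)) (d : D) : Option {v : Vx M // v ∉ X} :=
  if h : vx M d ∈ X then none else some ⟨vx M d, h⟩

theorem cls_none {D : Type} (M : CMap D) (X : Finset (Vx M)) (d : D) (h : vx M d ∈ X) :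
    cls M X d = none := dif_pos h

theorem cls_some {D : Type} (M : CMap D) (X : Finset (Vx M)) (d : D) (h : vx M d ∉ X) :
    cls M X d = some ⟨vx M d, h⟩ := dif_neg h

theorem cls_congr {D : Type} (M : CMap D) (X : Finset (Vx M)) (x y : D)
    (h : vx M x = vx M y) : cls M X x = cls M X y := by
  unfold cls
  simp only [h]

theorem cls_eqv {D : Type} (M : CMap D) (X : Finset (Vx M)) (x y : D)
    (h : Relation.EqvGen (fun x y : D => y = M.nx x ∨
      (x ∈ {d | vx M d ∈ X ∧ vx M (M.iv d) ∈ X} ∧ y = M.iv x)) x y) :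
    cls M X x = cls M X y := by
  induction h with
  | rel x y h =>
    rcases h with rfl | ⟨hx, rfl⟩
    · refine cls_congr M X _ _ ((vx_eq M _ _).2 ⟨1, ?_⟩)
      rw [zpow_one]
    · rw [cls_none M X _ hx.1, cls_none M X _ hx.2]
  | refl x => rfl
  | symm x y _ ih => exact ih.symm
  | trans x y z _ _ ih1 ih2 => exact ih1.trans ih2

end Csxx

theorem thm_Csx : St_Csx := by
  intro D _ M X hX hc
  set r : D → D → Prop := fun x y : D => y = M.nx x ∨
    (x ∈ {d | vx M d ∈ X ∧ vx M (M.iv d) ∈ X} ∧ y = M.iv x) with hr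
  let f : Quotient (Relation.EqvGen.setoid r) → Option {v : Vx M // v ∉ X} :=
    Quotient.lift (Csxx.cls M X) (fun x y h => Csxx.cls_eqv M X x y h)
  have hf : Function.Bijective f := by
    constructor
    · intro a b
      refine Quotient.inductionOn₂ a b fun x y h => ?_
      have h' : Csxx.cls M X x = Csxx.cls M X y := h
      refine Quotient.sound ?_
      show Relation.EqvGen r x y
      by_cases hx : vx M x ∈ X
      · by_cases hy : vx M y ∈ X
        · exact hc x y hx hy
        · rw [Csxx.cls_none M X x hx, Csxx.cls_some M X y hy] at h'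
          exact absurd h' (by simp)
      · by_cases hy : vx M y ∈ X
        · rw [Csxx.cls_some M X x hx, Csxx.cls_none M X y hy] at h'
          exact absurd h' (by simp)
        · rw [Csxx.cls_some M X x hx, Csxx.cls_some M X y hy] at h'
          have h2 : vx M x = vx M y := congrArg Subtype.val (Option.some.inj h')
          exact Csxx.eqv_of_same M _ x y ((vx_eq M x y).1 h2)
    · intro c
      cases c with
      | none =>
        obtain ⟨v, hv⟩ := hX
        obtain ⟨d, rfl⟩ := Quotient.exists_rep v
        exact ⟨Quotient.mk _ d, Csxx.cls_none M X d hv⟩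
      | some v =>
        obtain ⟨v, hv⟩ := v
        obtain ⟨d, rfl⟩ := Quotient.exists_rep v
        exact ⟨Quotient.mk _ d, Csxx.cls_some M X d hv⟩
  have h1 : cS M {d | vx M d ∈ X ∧ vx M (M.iv d) ∈ X} = Nat.card {v : Vx M // v ∉ X} + 1 := by
    rw [← Finite.card_option]
    exact Nat.card_congr (Equiv.ofBijective f hf)
  have h2 : nc M.nx = X.card + Nat.card {v : Vx M // v ∉ X} := by
    have h3 : nc M.nx = Nat.card (Vx M) := rfl
    rw [h3, ← Nat.card_congr (Equiv.sumCompl fun v : Vx M => v ∈ X), Nat.card_sum]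
    congr 1
    simp
  rw [h1, h2]
  ring

end Pool.Agent.UQC
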