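import Pool.Agent.UQC.St

/-!
# Module Ctr (helper37): contracting the edge `ab` and the set `B`
-/

set_option autoImplicit false

noncomputable section

open scoped Classical

namespace Pool.Agent.UQC

namespace Ctrx

theorem ps_split {V : Type} (w : V → V → ℝ) (B U : Finset V) (y : V) (hy : y ∉ B)
    (hd : Disjoint U B) :
    ps w B (U ∪ B) y = (∑ z ∈ B, w y z) + ∑ z ∈ U, w y z * ps w B (U.erase z ∪ B) z := by
  rw [ps_eq, if_neg hy, Finset.sum_union hd, add_comm]
  congr 1
  · refine Finset.sum_congr rfl fun z hz => ?_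
    rw [ps_eq, if_pos hz, mul_one]
  · refine Finset.sum_congr rfl fun z hz => ?_
    have hzB : z ∉ B := fun h => (Finset.disjoint_left.1 hd) hz h
    have : (U ∪ B).erase z = U.erase z ∪ B := by
      ext x
      simp only [Finset.mem_erase, Finset.mem_union]
      constructor
      · rintro ⟨h1, h2 | h2⟩
        · exact Or.inl ⟨h1, h2⟩
        · exact Or.inr h2
      · rintro (⟨h1, h2⟩ | h2)
        · exact ⟨h1, Or.inl h2⟩
        · exact ⟨fun h => hzB (h ▸ h2), Or.inr h2⟩
    rw [this]

theorem ps_comp {V : Type} (w w' : V → V → ℝ) (c : V) (B W : Finset V) (hc : c ∈ B)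
    (hd : Disjoint W B) (h1 : ∀ y ∈ W, ∀ z ∈ W, y ≠ z → w' y z = w y z)
    (h2 : ∀ y ∈ W, w' y c = ∑ z ∈ B, w y z) :
    ∀ (n : ℕ) (U : Finset V), U.card = n → U ⊆ W → ∀ y ∈ W, y ∉ U →
      ps w' {c} (U ∪ {c}) y = ps w B (U ∪ B) y := by
  intro n
  induction n with
  | zero =>
    intro U hU hUW y hy hyU
    have hU' : U = ∅ := Finset.card_eq_zero.1 hU
    subst hU'
    have hyB : y ∉ B := fun h => (Finset.disjoint_left.1 hd) hy h
    have hyc : y ∉ ({c} : Finset V) := by
      rw [Finset.mem_singleton]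
      rintro rfl
      exact hyB hc
    rw [ps_split w B ∅ y hyB (Finset.disjoint_empty_left _),
      ps_split w' {c} ∅ y hyc (Finset.disjoint_empty_left _), Finset.sum_singleton, h2 y hy]
    simp
  | succ n ih =>
    intro U hU hUW y hy hyU
    have hyB : y ∉ B := fun h => (Finset.disjoint_left.1 hd) hy h
    have hyc : y ∉ ({c} : Finset V) := by
      rw [Finset.mem_singleton]
      rintro rfl
      exact hyB hc
    have hUB : Disjoint U B := Finset.disjoint_of_subset_left hUW hd
    have hUc : Disjoint U ({c} : Finset V) := by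
      rw [Finset.disjoint_singleton_right]
      exact fun h => (Finset.disjoint_left.1 hUB) h hc
    rw [ps_split w B U y hyB hUB, ps_split w' {c} U y hyc hUc, Finset.sum_singleton, h2 y hy]
    congr 1
    refine Finset.sum_congr rfl fun z hz => ?_
    have hzy : y ≠ z := fun h => hyU (h ▸ hz)
    rw [h1 y hy z (hUW hz) hzy, ih (U.erase z) (by rw [Finset.card_erase_of_mem hz, hU]; rfl)
      ((Finset.erase_subset _ _).trans hUW) z (hUW hz) (Finset.notMem_erase _ _)]

/-- The contraction along `π`. -/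
def mc {V : Type} [Fintype V] (m : V → V → ℕ) (π : V → V) : V → V → ℕ :=
  fun x y => if x = y then 0 else
    ∑ x' ∈ Finset.univ.filter (fun z => π z = x), ∑ y' ∈ Finset.univ.filter (fun z => π z = y), m x' y'

theorem mc_MG {V : Type} [Fintype V] (m : V → V → ℕ) (hm : MG m) (π : V → V) : MG (mc m π) := by
  constructor
  · intro x y
    unfold mc
    by_cases h : x = y
    · rw [if_pos h, if_pos h.symm]
    · rw [if_neg h, if_neg (Ne.symm h), Finset.sum_comm]
      exact Finset.sum_congr rfl fun y' _ => Finset.sum_congr rfl fun x' _ => hm.1 x' y'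
  · intro x
    unfold mc
    rw [if_pos rfl]

theorem es_pre {V : Type} [Fintype V] (m : V → V → ℕ) (π : V → V) (Y : Finset V) :
    es m (Finset.univ.filter (fun z => π z ∈ Y)) =
      es (mc m π) Y + ∑ x ∈ Y, es m (Finset.univ.filter (fun z => π z = x)) := by
  have hfib : ∀ (f : V → ℕ), ∑ x' ∈ Finset.univ.filter (fun z => π z ∈ Y), f x' =
      ∑ x ∈ Y, ∑ x' ∈ Finset.univ.filter (fun z => π z = x), f x' := by
    intro f
    rw [← Finset.sum_fiberwise_of_maps_to (s := Finset.univ.filter (fun z => π z ∈ Y)) (t := Y) (g := π)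
      (fun x hx => (Finset.mem_filter.1 hx).2)]
    refine Finset.sum_congr rfl fun x hx => ?_
    refine Finset.sum_congr ?_ fun _ _ => rfl
    ext z
    simp only [Finset.mem_filter, Finset.mem_univ, true_and]
    constructor
    · rintro ⟨_, h⟩
      exact h
    · intro h
      exact ⟨h ▸ hx, h⟩
  have h1 : es m (Finset.univ.filter (fun z => π z ∈ Y)) =
      ∑ x ∈ Y, ∑ y ∈ Y, ∑ x' ∈ Finset.univ.filter (fun z => π z = x),
        ∑ y' ∈ Finset.univ.filter (fun z => π z = y), m x' y' := by
    unfold es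
    rw [hfib]
    refine Finset.sum_congr rfl fun x _ => ?_
    rw [Finset.sum_comm]
    rw [hfib]
    refine Finset.sum_congr rfl fun y _ => ?_
    rw [Finset.sum_comm]
  rw [h1]
  unfold es
  rw [← Finset.sum_add_distrib]
  refine Finset.sum_congr rfl fun x hx => ?_
  have h2 : ∀ y ∈ Y, (∑ x' ∈ Finset.univ.filter (fun z => π z = x),
      ∑ y' ∈ Finset.univ.filter (fun z => π z = y), m x' y') = mc m π x y +
        if x = y then (∑ x' ∈ Finset.univ.filter (fun z => π z = x),
          ∑ y' ∈ Finset.univ.filter (fun z => π z = x), m x' y') else 0 := by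
    intro y _
    unfold mc
    by_cases h : x = y
    · subst h
      rw [if_pos rfl, if_pos rfl, zero_add]
    · rw [if_neg h, if_neg h, add_zero]
  rw [Finset.sum_congr rfl h2, Finset.sum_add_distrib, Finset.sum_ite_eq, if_pos hx]

/-- The projection. -/
def pj {V : Type} (b a c : V) (B : Finset V) : V → V :=
  fun x => if x = b then a else if x ∈ B then c else x

section Main

variable {V : Type} [Fintype V] {m : V → V → ℕ} {a b c c' : V} {B : Finset V}

theorem pj_b : pj b a c B b = a := by
  unfold pj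
  rw [if_pos rfl]

theorem pj_B (hb : b ∉ B) {x : V} (hx : x ∈ B) : pj b a c B x = c := by
  have h1 : x ≠ b := by
    rintro rfl
    exact hb hx
  unfold pj
  rw [if_neg h1, if_pos hx]

theorem pj_o {x : V} (hb : x ≠ b) (hx : x ∉ B) : pj b a c B x = x := by
  unfold pj
  rw [if_neg hb, if_neg hx]

theorem fib_a (hab : a ≠ b) (hc : c ∈ B) (haB : a ∉ B) :
    Finset.univ.filter (fun z => pj b a c B z = a) = {a, b} := by
  ext z
  simp only [Finset.mem_filter, Finset.mem_univ, true_and, Finset.mem_insert, Finset.mem_singleton]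
  constructor
  · intro h
    by_cases h1 : z = b
    · exact Or.inr h1
    · by_cases h2 : z ∈ B
      · unfold pj at h
        rw [if_neg h1, if_pos h2] at h
        exact absurd (h ▸ hc) haB
      · rw [pj_o h1 h2] at h
        exact Or.inl h
  · rintro (rfl | rfl)
    · exact pj_o hab haB
    · exact pj_b

theorem fib_c (hc : c ∈ B) (haB : a ∉ B) (hbB : b ∉ B) :
    Finset.univ.filter (fun z => pj b a c B z = c) = B := by
  ext z
  simp only [Finset.mem_filter, Finset.mem_univ, true_and]
  constructor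
  · intro h
    by_cases h1 : z = b
    · subst h1
      rw [pj_b] at h
      exact absurd (h ▸ hc) haB
    · by_contra h2
      rw [pj_o h1 h2] at h
      exact h2 (h ▸ hc)
  · intro h
    exact pj_B hbB h

theorem fib_o (hc : c ∈ B) {x : V} (hxa : x ≠ a) (hxb : x ≠ b) (hxB : x ∉ B) :
    Finset.univ.filter (fun z => pj b a c B z = x) = {x} := by
  ext z
  simp only [Finset.mem_filter, Finset.mem_univ, true_and, Finset.mem_singleton]
  constructor
  · intro h
    by_cases h1 : z = b
    · subst h1
      rw [pj_b] at h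
      exact absurd h.symm hxa
    · by_cases h2 : z ∈ B
      · unfold pj at h
        rw [if_neg h1, if_pos h2] at h
        exact absurd (h ▸ hc) hxB
      · rw [pj_o h1 h2] at h
        exact h
  · rintro rfl
    exact pj_o hxb hxB

theorem es_sing {V : Type} {m : V → V → ℕ} (hm : MG m) (x : V) : es m {x} = 0 := by
  unfold es
  rw [Finset.sum_singleton, Finset.sum_singleton, hm.2]

theorem es_pair {V : Type} {m : V → V → ℕ} (hm : MG m) {a b : V} (hab : a ≠ b) (h1 : m a b = 1) :
    es m {a, b} = 2 := by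
  unfold es
  rw [Finset.sum_pair hab, Finset.sum_pair hab, Finset.sum_pair hab, hm.2, hm.2, hm.1 b a, h1]
  rfl

/-- The vertex set after contraction. -/
def X0 {V : Type} [Fintype V] (a b c : V) (B : Finset V) : Finset V :=
  (Finset.univ \ ({a, b} ∪ B)) ∪ {a, c}

theorem mem_X0 {x : V} : x ∈ X0 a b c B ↔ (x ≠ a ∧ x ≠ b ∧ x ∉ B) ∨ x = a ∨ x = c := by
  unfold X0
  simp only [Finset.mem_union, Finset.mem_sdiff, Finset.mem_univ, true_and, Finset.mem_insert,
    Finset.mem_singleton, not_or]
  tauto

theorem sum_es (hm : MG m) (hab : a ≠ b) (hc : c ∈ B) (haB : a ∉ B) (hbB : b ∉ B) (h1 : m a b = 1)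
    (Y : Finset V) (hY : Y ⊆ X0 a b c B) :
    ∑ x ∈ Y, es m (Finset.univ.filter (fun z => pj b a c B z = x)) =
      (if a ∈ Y then 2 else 0) + (if c ∈ Y then es m B else 0) := by
  have hca : c ≠ a := fun h => haB (h ▸ hc)
  have : ∀ x ∈ Y, es m (Finset.univ.filter (fun z => pj b a c B z = x)) =
      (if a = x then 2 else 0) + (if c = x then es m B else 0) := by
    intro x hx
    rcases mem_X0.1 (hY hx) with ⟨h2, h3, h4⟩ | h2 | h2
    · rw [fib_o hc h2 h3 h4, es_sing hm, if_neg (Ne.symm h2), if_neg]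
      rintro rfl
      exact h4 hc
    · subst h2
      rw [fib_a hab hc haB, es_pair hm hab h1, if_pos rfl, if_neg hca]
    · subst h2
      rw [fib_c hc haB hbB, if_neg (Ne.symm hca), if_pos rfl, zero_add]
  rw [Finset.sum_congr rfl this, Finset.sum_add_distrib, Finset.sum_ite_eq, Finset.sum_ite_eq]

theorem card_pre (hab : a ≠ b) (hc : c ∈ B) (haB : a ∉ B) (Y : Finset V)
    (hY : Y ⊆ (X0 a b c B).erase c) :
    (Finset.univ.filter (fun z => pj b a c B z ∈ Y)).card = Y.card + (if a ∈ Y then 1 else 0) := by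
  rw [Finset.card_eq_sum_card_fiberwise (s := Finset.univ.filter (fun z => pj b a c B z ∈ Y))
    (f := pj b a c B) (t := Y) (fun x hx => (Finset.mem_filter.1 hx).2)]
  have : ∀ x ∈ Y, ((Finset.univ.filter (fun z => pj b a c B z ∈ Y)).filter
      (fun z => pj b a c B z = x)).card = 1 + (if a = x then 1 else 0) := by
    intro x hx
    have h0 : (Finset.univ.filter (fun z => pj b a c B z ∈ Y)).filter (fun z => pj b a c B z = x) =
        Finset.univ.filter (fun z => pj b a c B z = x) := by
      ext z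
      simp only [Finset.mem_filter, Finset.mem_univ, true_and]
      constructor
      · rintro ⟨_, h⟩
        exact h
      · intro h
        exact ⟨h ▸ hx, h⟩
    rw [h0]
    have hx' := Finset.mem_erase.1 (hY hx)
    rcases mem_X0.1 hx'.2 with ⟨h2, h3, h4⟩ | h2 | h2
    · rw [fib_o hc h2 h3 h4, Finset.card_singleton, if_neg (Ne.symm h2)]
    · subst h2
      rw [fib_a hab hc haB, Finset.card_pair hab, if_pos rfl]
    · exact absurd h2 hx'.1
  rw [Finset.sum_congr rfl this, Finset.sum_add_distrib, Finset.sum_ite_eq, Finset.sum_const,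
    smul_eq_mul, mul_one]

theorem pj_mem (hc : c ∈ B) (x : V) : pj b a c B x ∈ X0 a b c B := by
  rw [mem_X0]
  unfold pj
  split_ifs with h1 h2
  · exact Or.inr (Or.inl rfl)
  · exact Or.inr (Or.inr rfl)
  · by_cases h3 : x = a
    · exact Or.inr (Or.inl h3)
    · exact Or.inl ⟨h3, h1, h2⟩

end Main

end Ctrx

open Ctrx in
theorem thm_Ctr (hEsa : St_Esa) (hThH : St_ThH) : St_Ctr := by
  intro V _ m hm a b c c' B hab hc hc' haB hbB hab1 huniv hX
  have hca : c ≠ a := fun h => haB (h ▸ hc)
  have hcb : c ≠ b := fun h => hbB (h ▸ hc)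
  have haX : a ∈ X0 a b c B := mem_X0.2 (Or.inr (Or.inl rfl))
  have hcX : c ∈ X0 a b c B := mem_X0.2 (Or.inr (Or.inr rfl))
  have hes : ∀ Y ⊆ X0 a b c B, es m (Finset.univ.filter (fun z => pj b a c B z ∈ Y)) =
      es (mc m (pj b a c B)) Y + ((if a ∈ Y then 2 else 0) + (if c ∈ Y then es m B else 0)) := by
    intro Y hY
    rw [es_pre, sum_es hm hab hc haB hbB hab1 Y hY]
  have hpa : pj b a c B a = a := pj_o hab haB
  have hpb : pj b a c B b = a := pj_b
  have hpc : pj b a c B c = c := pj_B hbB hc
  have hpc' : pj b a c B c' = c := pj_B hbB hc'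
  have hall : Finset.univ.filter (fun z => pj b a c B z ∈ X0 a b c B) = Finset.univ :=
    Finset.filter_true_of_mem fun x _ => pj_mem hc x
  have hfull : es m Finset.univ = es (mc m (pj b a c B)) (X0 a b c B) + (2 + es m B) := by
    have := hes (X0 a b c B) (Finset.Subset.refl _)
    rw [hall, if_pos haX, if_pos hcX] at this
    exact this
  have hmain := hThH V (mc m (pj b a c B)) (mc_MG m hm _) (X0 a b c B) a c haX hcX (Ne.symm hca) ?_ ?_
  · have hW : Disjoint (Finset.univ \ ({a, b} ∪ B)) B := by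
      rw [Finset.disjoint_left]
      intro x hx hxB
      simp only [Finset.mem_sdiff, Finset.mem_univ, true_and, Finset.mem_union, not_or] at hx
      exact hx.2 hxB
    have hmemW : ∀ {x : V}, x ∈ Finset.univ \ ({a, b} ∪ B) → x ≠ a ∧ x ≠ b ∧ x ∉ B := by
      intro x hx
      simp only [Finset.mem_sdiff, Finset.mem_univ, true_and, Finset.mem_union, not_or,
        Finset.mem_insert, Finset.mem_singleton] at hx
      exact ⟨hx.1.1, hx.1.2, hx.2⟩
    have hwW : ∀ y ∈ Finset.univ \ ({a, b} ∪ B), ∀ z ∈ Finset.univ \ ({a, b} ∪ B), y ≠ z →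
        hf (mc m (pj b a c B)) y z = hf m y z := by
      intro y hy z hz hyz
      obtain ⟨y1, y2, y3⟩ := hmemW hy
      obtain ⟨z1, z2, z3⟩ := hmemW hz
      unfold hf mc
      rw [if_neg hyz, fib_o hc y1 y2 y3, fib_o hc z1 z2 z3, Finset.sum_singleton, Finset.sum_singleton]
    have hwc : ∀ y ∈ Finset.univ \ ({a, b} ∪ B),
        hf (mc m (pj b a c B)) y c = ∑ z ∈ B, hf m y z := by
      intro y hy
      obtain ⟨y1, y2, y3⟩ := hmemW hy
      have hyc : y ≠ c := fun h => y3 (h ▸ hc)
      unfold hf mc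
      rw [if_neg hyc, fib_o hc y1 y2 y3, fib_c hc haB hbB, Finset.sum_singleton, Nat.cast_sum,
        Finset.sum_div]
    have hcomp := ps_comp (hf m) (hf (mc m (pj b a c B))) c B (Finset.univ \ ({a, b} ∪ B)) hc hW hwW hwc
    have hWa : Finset.univ \ {a, b} = (Finset.univ \ ({a, b} ∪ B)) ∪ B := by
      ext x
      simp only [Finset.mem_sdiff, Finset.mem_univ, true_and, Finset.mem_union, not_or,
        Finset.mem_insert, Finset.mem_singleton]
      constructor
      · rintro ⟨h1, h2⟩
        by_cases h3 : x ∈ B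
        · exact Or.inr h3
        · exact Or.inl ⟨⟨h1, h2⟩, h3⟩
      · rintro (⟨h1, _⟩ | h1)
        · exact h1
        · exact ⟨fun h => haB (h ▸ h1), fun h => hbB (h ▸ h1)⟩
    have hXa : (X0 a b c B).erase a = (Finset.univ \ ({a, b} ∪ B)) ∪ {c} := by
      ext x
      rw [Finset.mem_erase, mem_X0]
      simp only [Finset.mem_sdiff, Finset.mem_univ, true_and, Finset.mem_union, not_or,
        Finset.mem_insert, Finset.mem_singleton]
      constructor
      · rintro ⟨h1, h2 | h2 | h2⟩
        · exact Or.inl ⟨⟨h2.1, h2.2.1⟩, h2.2.2⟩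
        · exact absurd h2 h1
        · exact Or.inr h2
      · rintro (h1 | h1)
        · exact ⟨h1.1.1, Or.inl ⟨h1.1.1, h1.1.2, h1.2⟩⟩
        · exact ⟨fun h => hca (h1.symm.trans h), Or.inr (Or.inr h1)⟩
    have hac : a ∉ ({c} : Finset V) := by
      rw [Finset.mem_singleton]
      exact Ne.symm hca
    have hWc : Disjoint (Finset.univ \ ({a, b} ∪ B)) ({c} : Finset V) := by
      rw [Finset.disjoint_singleton_right]
      exact fun h => (hmemW h).2.2 hc
    rw [hXa, ps_split _ _ _ _ hac hWc] at hmain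
    rw [hWa, ps_split _ _ _ _ haB hW, ps_split _ _ _ _ hbB hW]
    refine hmain.trans (le_of_eq ?_)
    rw [Finset.sum_singleton]
    have e1 : hf (mc m (pj b a c B)) a c = (∑ z ∈ B, hf m a z) + ∑ z ∈ B, hf m b z := by
      unfold hf mc
      rw [if_neg (Ne.symm hca), fib_a hab hc haB, fib_c hc haB hbB, Finset.sum_pair hab,
        Nat.cast_add, Nat.cast_sum, Nat.cast_sum, add_div, Finset.sum_div, Finset.sum_div]
    have e2 : ∀ z ∈ Finset.univ \ ({a, b} ∪ B), hf (mc m (pj b a c B)) a z *
        ps (hf (mc m (pj b a c B))) {c} ((Finset.univ \ ({a, b} ∪ B)).erase z ∪ {c}) z =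
        hf m a z * ps (hf m) B ((Finset.univ \ ({a, b} ∪ B)).erase z ∪ B) z +
          hf m b z * ps (hf m) B ((Finset.univ \ ({a, b} ∪ B)).erase z ∪ B) z := by
      intro z hz
      obtain ⟨z1, z2, z3⟩ := hmemW hz
      rw [hcomp _ _ rfl (Finset.erase_subset _ _) z hz (Finset.notMem_erase _ _), ← add_mul]
      congr 1
      unfold hf mc
      rw [if_neg (Ne.symm z1), fib_a hab hc haB, fib_o hc z1 z2 z3, Finset.sum_pair hab,
        Finset.sum_singleton, Finset.sum_singleton, Nat.cast_add, add_div]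
    rw [e1, Finset.sum_congr rfl e2, Finset.sum_add_distrib]
    ring
  · -- (H1)
    intro U hU
    have hUX : U ⊆ X0 a b c B := hU.trans (Finset.erase_subset _ _)
    have hcU : c ∉ U := fun h => (Finset.mem_erase.1 (hU h)).1 rfl
    have h1 := hes (X0 a b c B \ U) Finset.sdiff_subset
    have hcS : c ∈ X0 a b c B \ U := Finset.mem_sdiff.2 ⟨hcX, hcU⟩
    rw [if_pos hcS] at h1
    have hcard := card_pre hab hc haB U hU
    have hcompl : (Finset.univ.filter (fun z => pj b a c B z ∈ X0 a b c B \ U)).card +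
        (Finset.univ.filter (fun z => pj b a c B z ∈ U)).card = Fintype.card V := by
      rw [← Finset.card_union_of_disjoint, ← Finset.card_univ]
      · congr 1
        ext x
        simp only [Finset.mem_union, Finset.mem_filter, Finset.mem_univ, true_and, Finset.mem_sdiff,
          iff_true]
        by_cases h : pj b a c B x ∈ U
        · exact Or.inr h
        · exact Or.inl ⟨pj_mem hc x, h⟩
      · rw [Finset.disjoint_left]
        intro x hx hx'
        simp only [Finset.mem_filter, Finset.mem_univ, true_and, Finset.mem_sdiff] at hx hx'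
        exact hx.2 hx'
    have hcP : c ∈ Finset.univ.filter (fun z => pj b a c B z ∈ X0 a b c B \ U) := by
      rw [Finset.mem_filter, hpc]
      exact ⟨Finset.mem_univ _, hcS⟩
    have hcP' : c' ∈ Finset.univ.filter (fun z => pj b a c B z ∈ X0 a b c B \ U) := by
      rw [Finset.mem_filter, hpc']
      exact ⟨Finset.mem_univ _, hcS⟩
    have h2 := hX (Finset.univ.filter (fun z => pj b a c B z ∈ X0 a b c B \ U)) ⟨c, hcP⟩
    rw [if_pos (⟨hcP, hcP'⟩ : _ ∧ _)] at h2
    by_cases haU : a ∈ U
    · rw [if_pos haU] at hcard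
      have haS : a ∉ X0 a b c B \ U := fun h => (Finset.mem_sdiff.1 h).2 haU
      rw [if_neg haS] at h1
      have h3 : 0 ≤ (if a ∈ Finset.univ.filter (fun z => pj b a c B z ∈ X0 a b c B \ U) ∧
        b ∈ Finset.univ.filter (fun z => pj b a c B z ∈ X0 a b c B \ U) then 1 else 0 : ℕ) := Nat.zero_le _
      omega
    · rw [if_neg haU] at hcard
      have haS : a ∈ X0 a b c B \ U := Finset.mem_sdiff.2 ⟨haX, haU⟩
      rw [if_pos haS] at h1
      have haP : a ∈ Finset.univ.filter (fun z => pj b a c B z ∈ X0 a b c B \ U) := by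
        rw [Finset.mem_filter, hpa]
        exact ⟨Finset.mem_univ _, haS⟩
      have hbP : b ∈ Finset.univ.filter (fun z => pj b a c B z ∈ X0 a b c B \ U) := by
        rw [Finset.mem_filter, hpb]
        exact ⟨Finset.mem_univ _, haS⟩
      rw [if_pos (⟨haP, hbP⟩ : _ ∧ _)] at h2
      omega
  · -- (H2)
    intro Y hY hYn
    have hYX : Y ⊆ X0 a b c B := hY.trans (Finset.erase_subset _ _)
    have hcY : c ∉ Y := fun h => (Finset.mem_erase.1 (hY h)).1 rfl
    have h1 := hes Y hYX
    rw [if_neg hcY] at h1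
    have hcard := card_pre hab hc haB Y hY
    have hne : (Finset.univ.filter (fun z => pj b a c B z ∈ Y)).Nonempty := by
      rw [← Finset.card_pos, hcard]
      have := hYn.card_pos
      omega
    have h2 := hX _ hne
    by_cases haY : a ∈ Y
    · rw [if_pos haY] at h1 hcard
      have haP : a ∈ Finset.univ.filter (fun z => pj b a c B z ∈ Y) := by
        rw [Finset.mem_filter, hpa]
        exact ⟨Finset.mem_univ _, haY⟩
      have hbP : b ∈ Finset.univ.filter (fun z => pj b a c B z ∈ Y) := by
        rw [Finset.mem_filter, hpb]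
        exact ⟨Finset.mem_univ _, haY⟩
      rw [if_pos (⟨haP, hbP⟩ : _ ∧ _)] at h2
      omega
    · rw [if_neg haY] at h1 hcard
      omega

end Pool.Agent.UQC
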