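import Pool.Agent.UQC.St

set_option autoImplicit false

noncomputable section

open scoped Classical

namespace Pool.Agent.UQC

open Finset

theorem thm_Del (hEsa : St_Esa) : St_Del := by
  intro V m hm X hT v hv hd
  obtain ⟨-, e2, -, -, -, -⟩ := hEsa V m hm
  have h1 := e2 X v hv
  have h2 : (X.erase v).card + 1 = X.card := card_erase_add_one hv
  have h3 := hT.1
  exact ⟨by omega, fun Y hY hne => hT.2 Y (hY.trans (erase_subset _ _)) hne⟩

end Pool.Agent.UQC
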