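import Pool.Agent.UQC.St

set_option autoImplicit false

noncomputable section

open scoped Classical

namespace Pool.Agent.UQC

open Finset

theorem Esax.two {V : Type} (m : V → V → ℕ) (hm : MG m) (X : Finset V) (v : V) (hv : v ∈ X) :
    es m X = es m (X.erase v) + 2 * dg m X v := by
  unfold es dg
  have h1 : ∑ x ∈ X, ∑ y ∈ X, m x y = ∑ y ∈ X, m v y + ∑ x ∈ X.erase v, ∑ y ∈ X, m x y :=
    (Finset.add_sum_erase X (fun x => ∑ y ∈ X, m x y) hv).symm
  have h2 : ∀ x ∈ X.erase v, ∑ y ∈ X, m x y = m x v + ∑ y ∈ X.erase v, m x y := fun x _ =>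
    (Finset.add_sum_erase X (fun y => m x y) hv).symm
  have h3 : ∑ x ∈ X.erase v, m x v = ∑ y ∈ X, m v y := by
    rw [← Finset.add_sum_erase X (fun y => m v y) hv, hm.2 v, zero_add]
    exact Finset.sum_congr rfl fun x _ => hm.1 x v
  rw [h1, Finset.sum_congr rfl h2, Finset.sum_add_distrib, h3]
  ring

theorem Esax.prod {V : Type} (m : V → V → ℕ) (X : Finset V) : es m X = ∑ p ∈ X ×ˢ X, m p.1 p.2 := by
  unfold es
  rw [Finset.sum_product]

theorem thm_Esa : St_Esa := by
  intro V m hm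
  have h6 : ∀ Y X : Finset V, Y ⊆ X → es m Y ≤ es m X := by
    intro Y X h
    rw [Esax.prod, Esax.prod]
    exact Finset.sum_le_sum_of_subset (Finset.product_subset_product h h)
  refine ⟨?_, Esax.two m hm, ?_, ?_, fun X => rfl, h6⟩
  · intro X
    induction X using Finset.strongInduction with
    | H X ih =>
      rcases X.eq_empty_or_nonempty with h | ⟨v, hv⟩
      · subst h
        unfold es
        rw [Finset.sum_empty]
        exact Even.zero
      · rw [Esax.two m hm X v hv]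
        exact (ih _ (Finset.erase_ssubset hv)).add (even_two_mul _)
  · intro Y Z
    have h1 := Finset.sum_union_inter (s₁ := Y ×ˢ Y) (s₂ := Z ×ˢ Z) (f := fun p => m p.1 p.2)
    have h2 : (Y ×ˢ Y) ∩ (Z ×ˢ Z) = (Y ∩ Z) ×ˢ (Y ∩ Z) := by
      ext p
      simp only [mem_inter, mem_product]
      tauto
    have h3 : ∑ p ∈ (Y ×ˢ Y) ∪ (Z ×ˢ Z), m p.1 p.2 ≤ ∑ p ∈ (Y ∪ Z) ×ˢ (Y ∪ Z), m p.1 p.2 := by
      apply Finset.sum_le_sum_of_subset
      intro p hp
      simp only [mem_union, mem_product] at hp ⊢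
      tauto
    rw [h2] at h1
    rw [Esax.prod, Esax.prod, Esax.prod, Esax.prod]
    omega
  · intro Y Z hd h0
    unfold es
    rw [Finset.sum_union hd]
    have h1 : ∀ x ∈ Y, ∑ y ∈ Y ∪ Z, m x y = ∑ y ∈ Y, m x y := by
      intro x hx
      rw [Finset.sum_union hd, Finset.sum_eq_zero (s := Z) fun z hz => h0 x hx z hz, add_zero]
    have h2 : ∀ x ∈ Z, ∑ y ∈ Y ∪ Z, m x y = ∑ y ∈ Z, m x y := by
      intro x hx
      rw [Finset.sum_union hd, Finset.sum_eq_zero (s := Y) fun y hy => by rw [hm.1]; exact h0 y hy x hx,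
        zero_add]
    rw [Finset.sum_congr rfl h1, Finset.sum_congr rfl h2]

end Pool.Agent.UQC
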