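import Pool.Agent.UQC.St

set_option autoImplicit false

noncomputable section

open scoped Classical

namespace Pool.Agent.UQC

open Finset

theorem Esbx.one {V : Type} (X : Finset V) (a b : V) :
    ∑ x ∈ X, ∑ y ∈ X, (if x = a ∧ y = b then 1 else 0) = if a ∈ X ∧ b ∈ X then 1 else 0 := by
  by_cases h : a ∈ X ∧ b ∈ X
  · rw [if_pos h, Finset.sum_eq_single_of_mem a h.1, Finset.sum_eq_single_of_mem b h.2]
    · rw [if_pos ⟨rfl, rfl⟩]
    · intro y _ hy
      rw [if_neg fun h => hy h.2]
    · intro x _ hx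
      exact Finset.sum_eq_zero fun y _ => if_neg fun h => hx h.1
  · rw [if_neg h]
    refine Finset.sum_eq_zero fun x hx => Finset.sum_eq_zero fun y hy => if_neg ?_
    rintro ⟨rfl, rfl⟩
    exact h ⟨hx, hy⟩

theorem thm_Esb : St_Esb := by
  intro V m hm a b hab
  refine ⟨⟨?_, ?_⟩, ?_⟩
  · intro x y
    unfold ae
    rw [hm.1 x y]
    congr 1
    by_cases h : (x = a ∧ y = b) ∨ (x = b ∧ y = a)
    · rw [if_pos h, if_pos (by tauto)]
    · rw [if_neg h, if_neg (by tauto)]
  · intro x
    unfold ae
    rw [hm.2 x, if_neg, add_zero]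
    rintro (⟨h1, h2⟩ | ⟨h1, h2⟩)
    · exact hab (h1.symm.trans h2)
    · exact hab (h2.symm.trans h1)
  · intro X
    have h1 : ∀ x y, ae m a b x y =
        m x y + ((if x = a ∧ y = b then 1 else 0) + (if x = b ∧ y = a then 1 else 0)) := by
      intro x y
      unfold ae
      congr 1
      by_cases h : x = a ∧ y = b
      · have h' : ¬ (x = b ∧ y = a) := by
          rintro ⟨h1, h2⟩
          exact hab (h.1.symm.trans h1)
        rw [if_pos (Or.inl h), if_pos h, if_neg h']
      · by_cases h' : x = b ∧ y = a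
        · rw [if_pos (Or.inr h'), if_neg h, if_pos h']
        · rw [if_neg (by tauto), if_neg h, if_neg h']
    unfold es
    simp only [h1, Finset.sum_add_distrib]
    rw [Esbx.one X a b, Esbx.one X b a]
    by_cases h : a ∈ X ∧ b ∈ X
    · rw [if_pos h, if_pos h.symm, if_pos h]
    · rw [if_neg h, if_neg fun h' => h h'.symm, if_neg h]

end Pool.Agent.UQC
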