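import Pool.Agent.UQC.St

set_option autoImplicit false

noncomputable section

open scoped Classical

namespace Pool.Agent.UQC

namespace EuMx

theorem ex_list {D : Type} [Finite D] (M : CMap D) : ∀ (n : ℕ) (T : Set D), T.ncard = n →
    (∀ x ∈ T, M.iv x ∈ T) → ∃ L : List (D × D), (∀ p ∈ L, p.1 ∈ T ∧ p.2 = M.iv p.1) ∧
      2 * L.length = T.ncard ∧ (∀ x, pl L x = if x ∈ T then M.iv x else x) ∧
      (∀ x ∈ T, (x, M.iv x) ∈ L ∨ (M.iv x, x) ∈ L) := by
  intro n
  induction n using Nat.strong_induction_on with
  | _ n ih =>
    intro T hT hinv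
    by_cases hne : T = ∅
    · subst hne
      refine ⟨[], by simp, by simp, ?_, by simp⟩
      intro x; simp [pl]
    · obtain ⟨d, hd⟩ := Set.nonempty_iff_ne_empty.mpr hne
      have hfin : T.Finite := Set.toFinite T
      set T' : Set D := T \ {d, M.iv d} with hT'
      have hsub : ({d, M.iv d} : Set D) ⊆ T := by
        intro x hx
        rcases hx with rfl | hx
        · exact hd
        · rw [Set.mem_singleton_iff] at hx; subst hx; exact hinv d hd
      have hpair : ({d, M.iv d} : Set D).ncard = 2 := Set.ncard_pair (fun h => M.iv_ne d h.symm)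
      have hcard : T'.ncard + 2 = T.ncard := by
        rw [hT', ← hpair]
        exact Set.ncard_sdiff_add_ncard_of_subset hsub
      have hinv' : ∀ x ∈ T', M.iv x ∈ T' := by
        intro x hx
        refine ⟨hinv x hx.1, ?_⟩
        intro h
        rcases h with h | h
        · apply hx.2
          right
          rw [Set.mem_singleton_iff, ← h, M.iv_iv]
        · rw [Set.mem_singleton_iff] at h
          apply hx.2
          left
          exact M.iv.injective h
      obtain ⟨L, hL1, hL2, hL3, hL4⟩ := ih T'.ncard (by omega) T' rfl hinv'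
      refine ⟨(d, M.iv d) :: L, ?_, ?_, ?_, ?_⟩
      · intro p hp
        rcases List.mem_cons.mp hp with rfl | hp
        · exact ⟨hd, rfl⟩
        · exact ⟨(hL1 p hp).1.1, (hL1 p hp).2⟩
      · simp only [List.length_cons]; omega
      · intro x
        have hp : pl ((d, M.iv d) :: L) x = Equiv.swap d (M.iv d) (pl L x) := by
          simp [pl]
        rw [hp, hL3 x]
        by_cases hx : x ∈ T'
        · rw [if_pos hx, if_pos hx.1]
          have h1 := hinv' x hx
          apply Equiv.swap_apply_of_ne_of_ne
          · intro h; exact h1.2 (Or.inl h)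
          · intro h; exact h1.2 (Or.inr h)
        · rw [if_neg hx]
          by_cases hxT : x ∈ T
          · rw [if_pos hxT]
            have : x ∈ ({d, M.iv d} : Set D) := by
              by_contra hc
              exact hx ⟨hxT, hc⟩
            rcases this with rfl | h
            · exact Equiv.swap_apply_left _ _
            · rw [Set.mem_singleton_iff] at h
              subst h
              rw [M.iv_iv]
              exact Equiv.swap_apply_right _ _
          · rw [if_neg hxT]
            apply Equiv.swap_apply_of_ne_of_ne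
            · rintro rfl; exact hxT hd
            · rintro rfl; exact hxT (hinv d hd)
      · intro x hxT
        by_cases hx : x ∈ T'
        · rcases hL4 x hx with h | h
          · left; exact List.mem_cons_of_mem _ h
          · right; exact List.mem_cons_of_mem _ h
        · have : x ∈ ({d, M.iv d} : Set D) := by
            by_contra hc
            exact hx ⟨hxT, hc⟩
          rcases this with rfl | h
          · left; exact List.mem_cons_self
          · rw [Set.mem_singleton_iff] at h
            subst h
            right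
            rw [M.iv_iv]
            exact List.mem_cons_self

theorem setoid_eq {D : Type} (r s : D → D → Prop) (h1 : ∀ x y, r x y → Relation.EqvGen s x y)
    (h2 : ∀ x y, s x y → Relation.EqvGen r x y) :
    Relation.EqvGen.setoid r = Relation.EqvGen.setoid s := by
  have k1 : ∀ x y, Relation.EqvGen r x y → Relation.EqvGen s x y := by
    intro x y h
    induction h with
    | rel x y h => exact h1 x y h
    | refl x => exact Relation.EqvGen.refl x
    | symm x y _ ih => exact Relation.EqvGen.symm _ _ ih
    | trans x y z _ _ ih1 ih2 => exact Relation.EqvGen.trans _ _ _ ih1 ih2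
  have k2 : ∀ x y, Relation.EqvGen s x y → Relation.EqvGen r x y := by
    intro x y h
    induction h with
    | rel x y h => exact h2 x y h
    | refl x => exact Relation.EqvGen.refl x
    | symm x y _ ih => exact Relation.EqvGen.symm _ _ ih
    | trans x y z _ _ ih1 ih2 => exact Relation.EqvGen.trans _ _ _ ih1 ih2
  ext x y
  exact ⟨k1 x y, k2 x y⟩

theorem cl_eq {D : Type} (M : CMap D) (S : Set D) (L : List (D × D))
    (h1 : ∀ p ∈ L, p.1 ∈ S ∧ p.2 = M.iv p.1)
    (h2 : ∀ x ∈ S, (x, M.iv x) ∈ L ∨ (M.iv x, x) ∈ L) : cl M.nx L = cS M S := by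
  unfold cl cS
  rw [setoid_eq]
  · intro x y h
    rcases h with h | h
    · exact Relation.EqvGen.rel _ _ (Or.inl h)
    · exact Relation.EqvGen.rel _ _ (Or.inr (h1 _ h))
  · intro x y h
    rcases h with h | ⟨hx, rfl⟩
    · exact Relation.EqvGen.rel _ _ (Or.inl h)
    · rcases h2 x hx with h | h
      · exact Relation.EqvGen.rel _ _ (Or.inr h)
      · exact Relation.EqvGen.symm _ _ (Relation.EqvGen.rel _ _ (Or.inr h))

theorem cl_nil {D : Type} [Finite D] (f : Equiv.Perm D) : cl f [] = nc f := by
  unfold cl nc
  have : Relation.EqvGen.setoid (fun x y : D => y = f x ∨ (x, y) ∈ ([] : List (D × D))) =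
      Equiv.Perm.SameCycle.setoid f := by
    have k1 : ∀ x y, Relation.EqvGen (fun x y : D => y = f x ∨ (x, y) ∈ ([] : List (D × D))) x y →
        f.SameCycle x y := by
      intro x y h
      induction h with
      | rel x y h =>
        rcases h with h | h
        · exact ⟨1, by simp [h]⟩
        · simp at h
      | refl x => exact Equiv.Perm.SameCycle.refl f x
      | symm x y _ ih => exact ih.symm
      | trans x y z _ _ ih1 ih2 => exact ih1.trans ih2
    have k2 : ∀ x y, f.SameCycle x y →
        Relation.EqvGen (fun x y : D => y = f x ∨ (x, y) ∈ ([] : List (D × D))) x y := by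
      intro x y h
      obtain ⟨k, hk⟩ := h.exists_nat_pow_eq
      rw [← hk]
      clear hk h
      induction k with
      | zero => exact Relation.EqvGen.refl x
      | succ k ih =>
        refine Relation.EqvGen.trans _ _ _ ih (Relation.EqvGen.rel _ _ (Or.inl ?_))
        rw [pow_succ']; rfl
    ext x y
    exact ⟨k1 x y, k2 x y⟩
  rw [this]

end EuMx

theorem thm_EuM (hEul : St_Eul) (hNcf : St_Ncf) : St_EuM := by
  intro D _ M S g hg
  obtain ⟨hS, hgx⟩ := hg
  have hSc : ∀ x ∈ Sᶜ, M.iv x ∈ Sᶜ := by
    intro x hx h
    apply hx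
    have := hS _ h
    rwa [M.iv_iv] at this
  obtain ⟨L, hL1, hL2, hL3, hL4⟩ := EuMx.ex_list M _ S rfl hS
  obtain ⟨L', hL1', hL2', hL3', hL4'⟩ := EuMx.ex_list M _ Sᶜ rfl hSc
  have hgL : M.nx * pl L = g := by
    ext x
    rw [Equiv.Perm.mul_apply, hL3, hgx]
    split_ifs <;> rfl
  have hpl : pl (L ++ L') = M.iv := by
    have : pl (L ++ L') = pl L * pl L' := by simp [pl]
    rw [this]
    ext x
    rw [Equiv.Perm.mul_apply, hL3']
    by_cases hx : x ∈ S
    · have hx' : ¬ x ∈ Sᶜ := fun h => h hx
      rw [if_neg hx', hL3, if_pos hx]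
    · have hx' : x ∈ Sᶜ := hx
      have hx2 : ¬ M.iv x ∈ S := hSc x hx'
      rw [if_pos hx', hL3, if_neg hx2]
  have hcl1 : cl M.nx L = cS M S := EuMx.cl_eq M S L hL1 hL4
  have hcl2 : cl M.nx (L ++ L') = cS M Set.univ := by
    apply EuMx.cl_eq
    · intro p hp
      rcases List.mem_append.mp hp with h | h
      · exact ⟨trivial, (hL1 p h).2⟩
      · exact ⟨trivial, (hL1' p h).2⟩
    · intro x _
      by_cases hx : x ∈ S
      · rcases hL4 x hx with h | h
        · exact Or.inl (List.mem_append_left _ h)
        · exact Or.inr (List.mem_append_left _ h)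
      · rcases hL4' x hx with h | h
        · exact Or.inl (List.mem_append_right _ h)
        · exact Or.inr (List.mem_append_right _ h)
  have hcl0 : cl M.nx [] = nc M.nx := EuMx.cl_nil _
  have hpl0 : pl ([] : List (D × D)) = 1 := rfl
  have hne : ∀ (T : Set D) (K : List (D × D)), (∀ p ∈ K, p.1 ∈ T ∧ p.2 = M.iv p.1) →
      ∀ p ∈ K, p.1 ≠ p.2 := by
    intro T K hK p hp h
    exact M.iv_ne p.1 (by rw [← (hK p hp).2, ← h])
  have ha := hEul D M.nx [] L (hne S L hL1)
  have hb := hEul D M.nx L L' (hne _ L' hL1')
  rw [List.nil_append, hcl0, hcl1, hgL, hpl0, mul_one] at ha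
  rw [hcl1, hcl2, hgL, hpl] at hb
  have hfc : M.nx * M.iv = M.fc := rfl
  rw [hfc] at hb
  have hn := (hNcf D M.iv).1 M.iv_iv M.iv_ne
  have hD : S.ncard + Sᶜ.ncard = Nat.card D := Set.ncard_add_ncard_compl S
  constructor
  · omega
  · intro h
    omega

end Pool.Agent.UQC
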