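import Pool.Agent.UQC.St

/-!
# UQC Eul: Euler's inequality (helper63)
-/

set_option autoImplicit false

open scoped Classical

namespace Pool.Agent.UQC

private def ER {D : Type} (f : Equiv.Perm D) (L : List (D × D)) (x y : D) : Prop :=
  Relation.EqvGen (fun x y : D => y = f x ∨ (x, y) ∈ L) x y

private theorem ER_f {D : Type} (f : Equiv.Perm D) (L : List (D × D)) (x : D) : ER f L x (f x) :=
  Relation.EqvGen.rel _ _ (Or.inl rfl)

private theorem ER_pl {D : Type} (f : Equiv.Perm D) : ∀ (L0 L : List (D × D)), (∀ p ∈ L0, p ∈ L) →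
    ∀ x : D, ER f L x (pl L0 x) := by
  intro L0
  induction L0 with
  | nil => intro L _ x; exact Relation.EqvGen.refl x
  | cons p L0 ih =>
    intro L h x
    have h1 := ih L (fun q hq => h q (List.mem_cons_of_mem _ hq)) x
    have h2 : pl (p :: L0) x = Equiv.swap p.1 p.2 (pl L0 x) := by simp [pl]
    rw [h2]
    refine Relation.EqvGen.trans _ _ _ h1 ?_
    generalize pl L0 x = y
    have hp : ER f L p.1 p.2 := Relation.EqvGen.rel _ _ (Or.inr (h p (List.mem_cons_self ..)))
    rcases eq_or_ne y p.1 with h3 | h3
    · rw [h3, Equiv.swap_apply_left]; exact hp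
    rcases eq_or_ne y p.2 with h4 | h4
    · rw [h4, Equiv.swap_apply_right]; exact Relation.EqvGen.symm _ _ hp
    · rw [Equiv.swap_apply_of_ne_of_ne h3 h4]; exact Relation.EqvGen.refl _

private theorem ER_cyc {D : Type} (f : Equiv.Perm D) (L : List (D × D)) {x y : D}
    (h : (f * pl L).SameCycle x y) : ER f L x y := by
  have h1 : ∀ x, ER f L x ((f * pl L) x) := fun x =>
    Relation.EqvGen.trans _ _ _ (ER_pl f L L (fun p hp => hp) x) (ER_f f L _)
  have h2 : ∀ (n : ℕ) x, ER f L x (((f * pl L) ^ n) x) := by
    intro n
    induction n with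
    | zero => intro x; exact Relation.EqvGen.refl _
    | succ n ih =>
      intro x
      have e : ((f * pl L) ^ (n + 1)) x = (f * pl L) (((f * pl L) ^ n) x) := by
        rw [pow_succ', Equiv.Perm.mul_apply]
      rw [e]
      exact Relation.EqvGen.trans _ _ _ (ih x) (h1 _)
  obtain ⟨k, hk⟩ := h
  rcases Int.eq_nat_or_neg k with ⟨n, rfl | rfl⟩
  · rw [zpow_natCast] at hk; rw [← hk]; exact h2 n x
  · have h3 : x = ((f * pl L) ^ n) y := by
      rw [← hk, zpow_neg, zpow_natCast]; simp
    rw [h3]; exact Relation.EqvGen.symm _ _ (h2 n y)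

private theorem ER_app {D : Type} (f : Equiv.Perm D) (L : List (D × D)) (p : D × D) {x y : D}
    (h : ER f (L ++ [p]) x y) : ER f L x y ∨
      ((ER f L x p.1 ∨ ER f L x p.2) ∧ (ER f L y p.1 ∨ ER f L y p.2)) := by
  induction h with
  | rel x y h =>
    rcases h with h | h
    · left; exact Relation.EqvGen.rel _ _ (Or.inl h)
    · rcases List.mem_append.1 h with h | h
      · left; exact Relation.EqvGen.rel _ _ (Or.inr h)
      · right
        have h' : (x, y) = p := by simpa using h
        rw [← h']
        exact ⟨Or.inl (Relation.EqvGen.refl _), Or.inr (Relation.EqvGen.refl _)⟩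
  | refl x => left; exact Relation.EqvGen.refl _
  | symm x y _ ih =>
    rcases ih with h | h
    · left; exact Relation.EqvGen.symm _ _ h
    · right; exact ⟨h.2, h.1⟩
  | trans x y z _ _ ih1 ih2 =>
    rcases ih1 with h1 | h1
    · rcases ih2 with h2 | h2
      · left; exact Relation.EqvGen.trans _ _ _ h1 h2
      · right
        refine ⟨?_, h2.2⟩
        rcases h2.1 with h3 | h3
        · exact Or.inl (Relation.EqvGen.trans _ _ _ h1 h3)
        · exact Or.inr (Relation.EqvGen.trans _ _ _ h1 h3)
    · rcases ih2 with h2 | h2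
      · right
        refine ⟨h1.1, ?_⟩
        have h2' := Relation.EqvGen.symm _ _ h2
        rcases h1.2 with h3 | h3
        · exact Or.inl (Relation.EqvGen.trans _ _ _ h2' h3)
        · exact Or.inr (Relation.EqvGen.trans _ _ _ h2' h3)
      · right; exact ⟨h1.1, h2.2⟩

private theorem ER_mono {D : Type} (f : Equiv.Perm D) (L : List (D × D)) (p : D × D) {x y : D}
    (h : ER f L x y) : ER f (L ++ [p]) x y := by
  induction h with
  | rel x y h =>
    exact Relation.EqvGen.rel _ _ (h.imp id (fun h => List.mem_append_left _ h))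
  | refl x => exact Relation.EqvGen.refl _
  | symm x y _ ih => exact Relation.EqvGen.symm _ _ ih
  | trans x y z _ _ ih1 ih2 => exact Relation.EqvGen.trans _ _ _ ih1 ih2

private theorem cl_le {D : Type} [Finite D] (f : Equiv.Perm D) (L : List (D × D)) (p : D × D) :
    cl f L ≤ cl f (L ++ [p]) + 1 := by
  let r := Relation.EqvGen.setoid (fun x y : D => y = f x ∨ (x, y) ∈ L)
  let r' := Relation.EqvGen.setoid (fun x y : D => y = f x ∨ (x, y) ∈ L ++ [p])
  let φ : Quotient r → Quotient r' := Quotient.lift (fun x => (Quotient.mk r' x))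
    (fun x y h => Quotient.sound (s := r') (ER_mono f L p h))
  let ψ : Quotient r → Option (Quotient r') := fun q =>
    if q = Quotient.mk r p.2 then none else some (φ q)
  have hψ : Function.Injective ψ := by
    intro q1 q2 h
    by_cases h1 : q1 = Quotient.mk r p.2
    · by_cases h2 : q2 = Quotient.mk r p.2
      · rw [h1, h2]
      · simp only [ψ, if_pos h1, if_neg h2] at h
        cases h
    · by_cases h2 : q2 = Quotient.mk r p.2
      · simp only [ψ, if_neg h1, if_pos h2] at h
        cases h
      · simp only [ψ, if_neg h1, if_neg h2, Option.some.injEq] at h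
        induction q1 using Quotient.inductionOn with | _ x =>
        induction q2 using Quotient.inductionOn with | _ y =>
        have h3 : ER f (L ++ [p]) x y := Quotient.exact (s := r') h
        have hx : ¬ ER f L x p.2 := fun h4 => h1 (Quotient.sound (s := r) h4)
        have hy : ¬ ER f L y p.2 := fun h4 => h2 (Quotient.sound (s := r) h4)
        apply Quotient.sound (s := r)
        rcases ER_app f L p h3 with h4 | h4
        · exact h4
        · exact Relation.EqvGen.trans _ _ _ (h4.1.resolve_right hx)
            (Relation.EqvGen.symm _ _ (h4.2.resolve_right hy))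
  have h5 := Nat.card_le_card_of_injective ψ hψ
  rw [Finite.card_option] at h5
  exact h5

private theorem cl_le' {D : Type} [Finite D] (f : Equiv.Perm D) (L : List (D × D)) (p : D × D)
    (hp : ER f L p.1 p.2) : cl f L ≤ cl f (L ++ [p]) := by
  let r := Relation.EqvGen.setoid (fun x y : D => y = f x ∨ (x, y) ∈ L)
  let r' := Relation.EqvGen.setoid (fun x y : D => y = f x ∨ (x, y) ∈ L ++ [p])
  let φ : Quotient r → Quotient r' := Quotient.lift (fun x => (Quotient.mk r' x))
    (fun x y h => Quotient.sound (s := r') (ER_mono f L p h))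
  have hφ : Function.Injective φ := by
    intro q1 q2 h
    induction q1 using Quotient.inductionOn with | _ x =>
    induction q2 using Quotient.inductionOn with | _ y =>
    have h3 : ER f (L ++ [p]) x y := Quotient.exact (s := r') h
    apply Quotient.sound (s := r)
    rcases ER_app f L p h3 with h4 | h4
    · exact h4
    · have hp' := Relation.EqvGen.symm _ _ hp
      have h6 : ∀ z, (ER f L z p.1 ∨ ER f L z p.2) → ER f L z p.1 := by
        intro z hz
        rcases hz with hz | hz
        · exact hz
        · exact Relation.EqvGen.trans _ _ _ hz hp'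
      exact Relation.EqvGen.trans _ _ _ (h6 x h4.1) (Relation.EqvGen.symm _ _ (h6 y h4.2))
  exact Nat.card_le_card_of_injective φ hφ

theorem thm_Eul (hNsw : St_Nsw) : St_Eul := by
  intro D _ f L L'
  induction L' generalizing L with
  | nil => intro _; simp
  | cons p L' ih =>
    intro hL'
    have h1 := ih (L ++ [p]) (fun q hq => hL' q (List.mem_cons_of_mem _ hq))
    have hp : p.1 ≠ p.2 := hL' p (List.mem_cons_self ..)
    have e1 : L ++ [p] ++ L' = L ++ p :: L' := by simp
    rw [e1] at h1
    have e2 : f * pl (L ++ [p]) = f * pl L * Equiv.swap p.1 p.2 := by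
      simp [pl, mul_assoc]
    rw [e2] at h1
    obtain ⟨h2, h3⟩ := hNsw D (f * pl L) p.1 p.2 hp
    rw [List.length_cons]
    by_cases h4 : ER f L p.1 p.2
    · have h5 := cl_le' f L p h4
      by_cases h6 : (f * pl L).SameCycle p.1 p.2
      · have h7 := h2 h6
        omega
      · have h7 := h3 h6
        omega
    · have h5 := cl_le f L p
      have h7 := h3 (fun h => h4 (ER_cyc f L h))
      omega

end Pool.Agent.UQC
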