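import Pool.Agent.UQC.St

/-!
# Exclusive sides (MP_0dee97_pr, helper57)
-/

set_option autoImplicit false

noncomputable section

namespace Pool.Agent.UQC

open scoped Classical

theorem thm_Exc (hSga : St_Sga) (hSgc : St_Sgc) : St_Exc := by
  intro D _ M hM e e' hNo
  have key : ∀ d1 d2, Par M d1 d2 →
      (e ∈ Sd M d1 d2 ∧ M.iv e ∈ Sd M d1 d2 ∧ e' ∉ Sd M d1 d2 ∧ M.iv e' ∉ Sd M d1 d2) ∨
      (e ∉ Sd M d1 d2 ∧ M.iv e ∉ Sd M d1 d2 ∧ e' ∈ Sd M d1 d2 ∧ M.iv e' ∈ Sd M d1 d2) := by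
    intro d1 d2 hP
    have h1 := hNo d1 d2 hP
    obtain ⟨-, -, -, -, -, -, -, -, -, ⟨hP', -⟩, -, -⟩ := hSga D M hM d1 d2 hP
    have h2 := hNo _ _ hP'
    obtain ⟨g1, g2, -, -, -, -⟩ := hSgc D M hM d1 d2 hP
    have hc : ∀ x, x ∈ Sd M (M.iv d2) (M.iv d1) ↔ x ∉ Sd M d1 d2 := by
      intro x
      constructor
      · intro h h'
        exact g1 x h' h
      · intro h
        exact (g2 x).resolve_left h
    rw [hc, hc, hc, hc] at h2
    by_cases q : e ∈ Sd M d1 d2 ∨ M.iv e ∈ Sd M d1 d2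
    · left
      have q1 : e' ∉ Sd M d1 d2 := fun h => h1 ⟨q, Or.inl h⟩
      have q2 : M.iv e' ∉ Sd M d1 d2 := fun h => h1 ⟨q, Or.inr h⟩
      refine ⟨?_, ?_, q1, q2⟩
      · by_contra h
        exact h2 ⟨Or.inl h, Or.inl q1⟩
      · by_contra h
        exact h2 ⟨Or.inr h, Or.inl q1⟩
    · right
      have q1 : e ∉ Sd M d1 d2 := fun h => q (Or.inl h)
      have q2 : M.iv e ∉ Sd M d1 d2 := fun h => q (Or.inr h)
      refine ⟨q1, q2, ?_, ?_⟩
      · by_contra h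
        exact h2 ⟨Or.inl q1, Or.inl h⟩
      · by_contra h
        exact h2 ⟨Or.inl q1, Or.inr h⟩
  refine ⟨key, ?_⟩
  rw [mm, Nat.card_eq_one_iff_unique]
  refine ⟨⟨?_⟩, ⟨⟨e, rfl, rfl⟩⟩⟩
  have uq : ∀ d, vx M d = vx M e → vx M (M.iv d) = vx M (M.iv e) → d = e := by
    intro d h1 h2
    by_contra hne
    rw [vx_eq] at h1 h2
    have hP : Par M d (M.iv e) := by
      refine ⟨?_, h2.symm, ?_⟩
      · rw [M.iv_iv]
        exact h1
      · intro h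
        exact hne (M.iv.injective h).symm
    obtain ⟨g1, -, g3, g4, g5, g6⟩ := hSgc D M hM d (M.iv e) hP
    rw [M.iv_iv] at g6
    have h3 := g1 e
    rcases key d (M.iv e) hP with h | h
    · apply h3 h.1
      rw [M.iv_iv]
      exact g6
    · exact h.2.1 g4
  rintro ⟨x, hx1, hx2⟩ ⟨y, hy1, hy2⟩
  have := uq x hx1 hx2
  have := uq y hy1 hy2
  subst_vars
  rfl

end Pool.Agent.UQC
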