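import Pool.Agent.UQC.St

/-!
# UQC: module Far (helper75)

There is an edge far from the origin.
-/

set_option autoImplicit false

noncomputable section

namespace Pool.Agent.UQC

open scoped Classical

namespace Farx

theorem reach_closed {D : Type} (M : CMap D) (ρ : D) (q : ℕ) (d d1 : D)
    (h : d ∈ reach M ρ q) (hc : M.nx.SameCycle d d1) : d1 ∈ reach M ρ q := by
  cases q with
  | zero => exact Equiv.Perm.SameCycle.trans h hc
  | succ q =>
    obtain ⟨d', hd', h1⟩ := h
    refine ⟨d', hd', ?_⟩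
    rcases h1 with h1 | h1
    · exact Or.inl (h1.trans hc)
    · exact Or.inr (h1.trans hc)

theorem reach_mono {D : Type} (M : CMap D) (ρ : D) (q : ℕ) (d : D)
    (h : d ∈ reach M ρ q) : d ∈ reach M ρ (q + 1) :=
  ⟨d, h, Or.inl (Equiv.Perm.SameCycle.refl _ _)⟩

theorem reach_iv {D : Type} (M : CMap D) (ρ : D) (q : ℕ) (d : D)
    (h : d ∈ reach M ρ q) : M.iv d ∈ reach M ρ (q + 1) :=
  ⟨d, h, Or.inr (Equiv.Perm.SameCycle.refl _ _)⟩

theorem reach_root {D : Type} (M : CMap D) (ρ : D) (q : ℕ) : ρ ∈ reach M ρ q := by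
  induction q with
  | zero => exact Equiv.Perm.SameCycle.refl _ _
  | succ q ih => exact reach_mono M ρ q ρ ih

theorem reach_fin {D : Type} (M : CMap D) (ρ : D)
    (hf : ∀ d, {d' | M.nx.SameCycle d d'}.Finite) (q : ℕ) : (reach M ρ q).Finite := by
  induction q with
  | zero => exact hf ρ
  | succ q ih =>
    have h1 : (⋃ d ∈ reach M ρ q, ({d' | M.nx.SameCycle d d'} ∪
        {d' | M.nx.SameCycle (M.iv d) d'})).Finite :=
      ih.biUnion (fun d _ => (hf d).union (hf (M.iv d)))
    refine h1.subset ?_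
    rintro d ⟨d', hd', h2⟩
    simp only [Set.mem_iUnion, Set.mem_union, Set.mem_ofPred_eq, exists_prop]
    exact ⟨d', hd', h2⟩

theorem exists_new {D : Type} (M : CMap D) (ρ : D) (hinf : Infinite D) (hc : M.Conn)
    (hf : ∀ d, {d' | M.nx.SameCycle d d'}.Finite) (q : ℕ) :
    ∃ d, d ∈ reach M ρ (q + 1) ∧ d ∉ reach M ρ q := by
  by_contra hcon
  push Not at hcon
  have hiv : ∀ d, d ∈ reach M ρ q → M.iv d ∈ reach M ρ q := fun d hd =>
    hcon _ (reach_iv M ρ q d hd)
  have hcl : ∀ x y : D, Relation.EqvGen (fun x y => y = M.nx x ∨ y = M.iv x) x y →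
      (x ∈ reach M ρ q ↔ y ∈ reach M ρ q) := by
    intro x y h
    induction h with
    | rel x y h =>
      rcases h with h | h
      · subst h
        constructor
        · intro hx
          exact reach_closed M ρ q x _ hx (Equiv.Perm.sameCycle_apply_right.2
            (Equiv.Perm.SameCycle.refl _ _))
        · intro hx
          exact reach_closed M ρ q _ x hx (Equiv.Perm.sameCycle_apply_left.2
            (Equiv.Perm.SameCycle.refl _ _))
      · subst h
        constructor
        · exact hiv x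
        · intro hx
          have := hiv _ hx
          rwa [M.iv_iv] at this
    | refl x => exact Iff.rfl
    | symm x y _ ih => exact ih.symm
    | trans x y z _ _ ih1 ih2 => exact ih1.trans ih2
  have hall : reach M ρ q = Set.univ := by
    ext x
    simp only [Set.mem_univ, iff_true]
    exact (hcl ρ x (hc ρ x)).1 (reach_root M ρ q)
  have hfin := reach_fin M ρ hf q
  rw [hall] at hfin
  exact Set.infinite_univ hfin

end Farx

theorem thm_Far (hRcr : St_Rcr) : St_Far := by
  intro D D' M M' ρ ρ' r p hinf hc hf hm hm'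
  obtain ⟨f, hfm⟩ := hm
  obtain ⟨f', hfm'⟩ := hm'
  have hR := hRcr D D' M M' ρ ρ' (r + 2) p f f' hfm hfm'
  obtain ⟨d, hd1, hd2⟩ := Farx.exists_new M ρ hinf hc hf (r + 1)
  have hdr : d ∈ Set.range f := by
    rw [hfm.2.1]
    exact hd1
  obtain ⟨i, rfl⟩ := hdr
  have h1 : f' i ∈ reach M' ρ' (r + 2) := (hR.2 (r + 2) le_rfl i).1 hd1
  have h2 : f' i ∉ reach M' ρ' (r + 1) := fun h => hd2 ((hR.2 (r + 1) (by omega) i).2 h)
  obtain ⟨e, he, hs⟩ := h1
  rcases hs with hs | hs
  · exact absurd (Farx.reach_closed M' ρ' (r + 1) e _ he hs) h2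
  · refine ⟨e, fun h => ?_, fun h => ?_⟩
    · exact h2 (Farx.reach_closed M' ρ' (r + 1) _ _ (Farx.reach_iv M' ρ' r e h) hs)
    · exact h2 (Farx.reach_closed M' ρ' (r + 1) _ _ (Farx.reach_mono M' ρ' r _ h) hs)

end Pool.Agent.UQC
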