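import Pool.Agent.UQC.St

/-!
# UQC, module Fsw: finiteness of the number of walks (helper18)
-/

set_option autoImplicit false

noncomputable section

open scoped Classical

namespace Pool.Agent.UQC

namespace Fswx

theorem fin {D : Type} (M : CMap D) (h : ∀ d, {d' | M.nx.SameCycle d d'}.Finite) (n : ℕ) :
    ∀ a : D, {l : List D | l.length = n ∧ (∀ d, l.head? = some d → M.nx.SameCycle a d) ∧
      l.IsChain (fun d d' => M.nx.SameCycle (M.iv d) d')}.Finite := by
  induction n with
  | zero =>
    intro a
    refine (Set.finite_singleton ([] : List D)).subset ?_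
    rintro l ⟨hl, -⟩
    exact List.length_eq_zero_iff.1 hl
  | succ n ih =>
    intro a
    refine ((h a).biUnion fun d _ => (ih (M.iv d)).image (fun l => d :: l)).subset ?_
    rintro l ⟨hl, hh, hc⟩
    cases l with
    | nil => simp at hl
    | cons d l =>
      rw [Set.mem_iUnion₂]
      refine ⟨d, hh d rfl, l, ⟨by simpa using hl, ?_, ?_⟩, rfl⟩
      · intro d' hd'
        cases l with
        | nil => simp at hd'
        | cons e l =>
          rw [List.isChain_cons_cons] at hc
          have : e = d' := by simpa using hd'
          rw [← this]
          exact hc.1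
      · cases l with
        | nil => exact List.isChain_nil
        | cons e l =>
          rw [List.isChain_cons_cons] at hc
          exact hc.2

end Fswx

theorem thm_Fsw : St_Fsw := by
  intro D M ρ h n
  have h1 := Fswx.fin M h n ρ
  have h2 : {l : List D | l.length = n ∧ IsSAW M ρ l}.Finite :=
    h1.subset fun l hl => ⟨hl.1, hl.2.1, hl.2.2.1⟩
  exact h2.to_subtype

end Pool.Agent.UQC
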