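import Pool.Agent.UQC.St

/-!
# UQC: module Gex (helper69)

The face permutation of a submap exists.
-/

set_option autoImplicit false

noncomputable section

namespace Pool.Agent.UQC

open scoped Classical

namespace Gexx

/-- The involution `x ↦ if x ∈ S then iv x else x`. -/
def inv {D : Type} (M : CMap D) (S : Set D) (hS : ∀ x ∈ S, M.iv x ∈ S) : Equiv.Perm D where
  toFun x := if x ∈ S then M.iv x else x
  invFun x := if x ∈ S then M.iv x else x
  left_inv x := by
    by_cases hx : x ∈ S
    · simp only [if_pos hx, if_pos (hS x hx), M.iv_iv]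
    · simp only [if_neg hx]
  right_inv x := by
    by_cases hx : x ∈ S
    · simp only [if_pos hx, if_pos (hS x hx), M.iv_iv]
    · simp only [if_neg hx]

end Gexx

theorem thm_Gex : St_Gex := by
  intro D _ M S hS
  refine ⟨M.nx * Gexx.inv M S hS, hS, fun x => ?_⟩
  show M.nx (if x ∈ S then M.iv x else x) = _
  by_cases hx : x ∈ S
  · rw [if_pos hx, if_pos hx]
  · rw [if_neg hx, if_neg hx]

end Pool.Agent.UQC
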