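import Pool.Agent.UQC.St

/-! UQC Lim: limsup. -/

set_option autoImplicit false
noncomputable section
open scoped Classical

namespace Pool.Agent.UQC

open Filter Topology

theorem Limx.pow_le {s : ℕ} {c : ENNReal} {n : ℕ} (hn : n ≠ 0)
    (h : (s : ENNReal) ^ (1 / (n : ℝ)) < c) : (s : ENNReal) ≤ c ^ n := by
  have hn' : (n : ℝ) ≠ 0 := Nat.cast_ne_zero.2 hn
  have h1 : ((s : ENNReal) ^ (1 / (n : ℝ))) ^ (n : ℝ) = s := by
    rw [← ENNReal.rpow_mul, one_div, inv_mul_cancel₀ hn', ENNReal.rpow_one]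
  rw [← h1, ENNReal.rpow_natCast]
  exact pow_le_pow_left' h.le n

theorem thm_Lim : St_Lim := by
  intro s hs
  by_contra hlt
  rw [not_le] at hlt
  obtain ⟨c, hc1, hc2⟩ := exists_between hlt
  have hev := Filter.eventually_lt_of_limsup_lt hc1
  obtain ⟨N0, hN0⟩ := eventually_atTop.1 (hev.and (eventually_ge_atTop 1))
  set q : ENNReal := c / 2 with hq
  have hq1 : q < 1 := by
    rw [hq, ENNReal.div_lt_iff (Or.inl two_ne_zero) (Or.inl ENNReal.ofNat_ne_top), one_mul]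
    exact hc2
  have hsum : ∀ N, N0 ≤ N → ∑' n : ℕ, (s (N + n) : ENNReal) / 2 ^ (N + n) ≤ q ^ N * (1 - q)⁻¹ := by
    intro N hN
    calc ∑' n : ℕ, (s (N + n) : ENNReal) / 2 ^ (N + n) ≤ ∑' n : ℕ, q ^ N * q ^ n := by
          refine ENNReal.tsum_le_tsum fun n => ?_
          obtain ⟨h1, h2⟩ := hN0 (N + n) (by omega)
          have h3 := Limx.pow_le (by omega) h1
          rw [← pow_add, hq, div_eq_mul_inv, div_eq_mul_inv, mul_pow, ENNReal.inv_pow]
          exact mul_le_mul_left h3 _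
      _ = q ^ N * (1 - q)⁻¹ := by rw [ENNReal.tsum_mul_left, ENNReal.tsum_geometric]
  have hK : (1 - q)⁻¹ ≠ ⊤ := by
    rw [ENNReal.inv_ne_top]
    exact (tsub_pos_of_lt hq1).ne'
  have hlim : Tendsto (fun N : ℕ => 3 * (q ^ N * (1 - q)⁻¹)) atTop (𝓝 0) := by
    have h1 := ENNReal.tendsto_pow_atTop_nhds_zero_of_lt_one hq1
    have h2 := ENNReal.Tendsto.mul_const h1 (Or.inr hK)
    rw [zero_mul] at h2
    have h3 := ENNReal.Tendsto.const_mul (a := 3) h2 (Or.inr (by norm_num))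
    rwa [mul_zero] at h3
  obtain ⟨N, hN1, hN2⟩ := ((hlim.eventually_lt_const zero_lt_one).and
    (eventually_ge_atTop N0)).exists
  have h4 := (hs N).trans (mul_le_mul_right (hsum N hN2) 3)
  exact absurd h4 (not_le.2 hN1)

end Pool.Agent.UQC
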