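import Pool.Agent.UQC.St

/-!
# UQC, module Mmb: multiplicities (helper18)
-/

set_option autoImplicit false

noncomputable section

open scoped Classical

namespace Pool.Agent.UQC

namespace Mmbx

theorem col_zpow {D : Type} (f : Equiv.Perm D) (col : D → Bool) (h : ∀ d, col (f d) = col d)
    (i : ℤ) : ∀ d, col ((f ^ i) d) = col d := by
  induction i using Int.induction_on with
  | zero => intro d; rfl
  | succ i ih =>
    intro d
    rw [zpow_add_one, Equiv.Perm.mul_apply, ih, h]
  | pred i ih =>
    intro d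
    rw [zpow_sub_one, Equiv.Perm.mul_apply, ih, ← h, ← Equiv.Perm.mul_apply, mul_inv_cancel]
    rfl

theorem col_same {D : Type} (f : Equiv.Perm D) (col : D → Bool) (h : ∀ d, col (f d) = col d)
    (x y : D) (hxy : f.SameCycle x y) : col y = col x := by
  obtain ⟨i, hi⟩ := hxy
  rw [← hi]
  exact col_zpow f col h i x

theorem mm_eq {D : Type} [Fintype D] (M : CMap D) (x y : Vx M) :
    mm M x y = (Finset.univ.filter fun d => vx M d = x ∧ vx M (M.iv d) = y).card := by
  unfold mm
  rw [Nat.card_eq_fintype_card, Fintype.card_subtype]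

theorem es_eq {D : Type} [Finite D] (M : CMap D) (X : Finset (Vx M)) :
    es (mm M) X = {d | vx M d ∈ X ∧ vx M (M.iv d) ∈ X}.ncard := by
  have : Fintype D := Fintype.ofFinite D
  have h1 : {d | vx M d ∈ X ∧ vx M (M.iv d) ∈ X} =
      ((Finset.univ.filter fun d => vx M d ∈ X ∧ vx M (M.iv d) ∈ X : Finset D) : Set D) := by
    ext d
    simp
  rw [h1, Set.ncard_coe_finset, Finset.card_eq_sum_card_fiberwise
    (f := fun d => (vx M d, vx M (M.iv d))) (t := X ×ˢ X), Finset.sum_product]
  · unfold es
    refine Finset.sum_congr rfl fun x hx => Finset.sum_congr rfl fun y hy => ?_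
    rw [mm_eq]
    congr 1
    ext d
    simp only [Finset.mem_filter, Finset.mem_univ, true_and, Prod.mk.injEq]
    constructor
    · rintro ⟨e1, e2⟩
      rw [e1, e2]
      exact ⟨⟨hx, hy⟩, rfl, rfl⟩
    · exact fun h => h.2
  · intro d hd
    simp only [Finset.coe_filter, Finset.mem_univ, true_and, Set.mem_ofPred_eq] at hd
    simpa using hd

end Mmbx

theorem thm_Mmb (hCol : St_Col) (hNcf : St_Ncf) : St_Mmb := by
  intro D _ M hM
  have hcard : Fintype.card (Vx M) = nc M.nx := by
    rw [← Nat.card_eq_fintype_card]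
    rfl
  refine ⟨⟨?_, ?_⟩, Mmbx.es_eq M, ?_, hcard⟩
  · intro x y
    unfold mm
    refine Nat.card_congr (Equiv.subtypeEquiv M.iv fun d => ?_)
    rw [M.iv_iv]
    exact and_comm
  · intro x
    obtain ⟨col, hcol⟩ := hCol D M hM
    unfold mm
    have : IsEmpty {d : D // vx M d = x ∧ vx M (M.iv d) = x} := by
      refine ⟨fun d => ?_⟩
      have h1 : vx M d.1 = vx M (M.iv d.1) := d.2.1.trans d.2.2.symm
      rw [vx_eq] at h1
      have h2 := Mmbx.col_same M.nx col (fun d => (hcol d).1) _ _ h1
      rw [(hcol d.1).2] at h2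
      cases h : col d.1 <;> rw [h] at h2 <;> simp at h2
    exact Nat.card_of_isEmpty
  · rw [Mmbx.es_eq, hcard]
    have h1 : {d | vx M d ∈ (Finset.univ : Finset (Vx M)) ∧
        vx M (M.iv d) ∈ (Finset.univ : Finset (Vx M))} = Set.univ := by
      ext d
      simp
    rw [h1, Set.ncard_univ]
    have h2 := (hNcf D M.iv).1 M.iv_iv M.iv_ne
    have h3 := (hNcf D M.fc).2 hM.four hM.two
    have h4 := hM.euler
    omega

end Pool.Agent.UQC
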