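import Pool.Agent.UQC.St

/-! UQC, module N0b (helper30): empty faces of a submap. -/

set_option autoImplicit false

noncomputable section

namespace Pool.Agent.UQC

open scoped Classical

namespace N0bx

variable {D : Type} [Finite D] {M : CMap D} {S : Set D} {g : Equiv.Perm D}

omit [Finite D] in
/-- the powers of `g` and of `nx` agree on a cycle of `g` without elements of `S` -/
theorem pow_eq (hg : SubF M S g) (x : D) (hx : ∀ y ∈ S, ¬ g.SameCycle x y) (n : ℕ) :
    (g ^ n) x = (M.nx ^ n) x := by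
  induction n with
  | zero => rfl
  | succ n ih =>
    rw [pow_succ', pow_succ', Equiv.Perm.mul_apply, Equiv.Perm.mul_apply, ← ih, hg.2]
    have h1 : (g ^ n) x ∉ S := fun h => hx _ h ⟨(n : ℤ), by rw [zpow_natCast]⟩
    rw [if_neg h1]

theorem same (hg : SubF M S g) (x : D) (hx : ∀ y ∈ S, ¬ g.SameCycle x y) (z : D)
    (h : M.nx.SameCycle x z) : g.SameCycle x z := by
  obtain ⟨n, hn⟩ := h.exists_nat_pow_eq
  refine ⟨(n : ℤ), ?_⟩
  rw [zpow_natCast, pow_eq hg x hx n]
  exact hn

end N0bx

theorem thm_N0b : St_N0b := by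
  intro D _ M X S g hg hX
  have hout : ∀ q : {q : Quotient (Equiv.Perm.SameCycle.setoid g) //
      ∀ y ∈ S, (Quotient.mk _ y : Quotient _) ≠ q}, ∀ y ∈ S, ¬ g.SameCycle q.1.out y := by
    intro q y hy hc
    apply q.2 y hy
    rw [← Quotient.out_eq q.1]
    exact Quotient.sound hc.symm
  have hcompl : ∀ q : {q : Quotient (Equiv.Perm.SameCycle.setoid g) //
      ∀ y ∈ S, (Quotient.mk _ y : Quotient _) ≠ q}, vx M q.1.out ∈ (Xᶜ : Finset (Vx M)) := by
    intro q
    rw [Finset.mem_compl]
    intro h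
    obtain ⟨d, hd, hdx⟩ := hX _ h
    exact hout q d hd (N0bx.same hg _ (hout q) d ((vx_eq M _ _).1 hdx.symm))
  have h1 : N0 g S ≤ (Xᶜ : Finset (Vx M)).card := by
    have h2 : Nat.card (Xᶜ : Finset (Vx M)) = (Xᶜ : Finset (Vx M)).card := by
      rw [Nat.card_eq_fintype_card, Fintype.card_coe]
    rw [← h2]
    refine Nat.card_le_card_of_injective (fun q => ⟨vx M q.1.out, hcompl q⟩) ?_
    intro q q' hqq
    have h3 : vx M q.1.out = vx M q'.1.out := congrArg Subtype.val hqq
    have h4 := N0bx.same hg _ (hout q) _ ((vx_eq M _ _).1 h3)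
    apply Subtype.ext
    rw [← Quotient.out_eq q.1, ← Quotient.out_eq q'.1]
    exact Quotient.sound h4
  have h5 : nc M.nx = Fintype.card (Vx M) := by
    show Nat.card (Vx M) = _
    exact Nat.card_eq_fintype_card
  rw [h5, ← Finset.card_add_card_compl X]
  omega

end Pool.Agent.UQC
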