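import Pool.Agent.UQC.St

/-!
# UQC, module (N2b): at most two faces with two darts
-/

set_option autoImplicit false

noncomputable section

open scoped Classical

namespace Pool.Agent.UQC

namespace N2bx

theorem exTwo {D : Type} [Finite D] (g : Equiv.Perm D) (S : Set D)
    (q : Quotient (Equiv.Perm.SameCycle.setoid g))
    (h : {y | y ∈ S ∧ (Quotient.mk _ y : Quotient (Equiv.Perm.SameCycle.setoid g)) = q}.ncard = 2) :
    ∃ d1 d2, TwoF S g d1 d2 ∧
      (Quotient.mk _ d1 : Quotient (Equiv.Perm.SameCycle.setoid g)) = q := by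
  obtain ⟨d1, d2, hne, hs⟩ := Set.ncard_eq_two.mp h
  have h1 : d1 ∈ {y | y ∈ S ∧
      (Quotient.mk _ y : Quotient (Equiv.Perm.SameCycle.setoid g)) = q} := by
    rw [hs]
    exact Set.mem_insert _ _
  have h2 : d2 ∈ {y | y ∈ S ∧
      (Quotient.mk _ y : Quotient (Equiv.Perm.SameCycle.setoid g)) = q} := by
    rw [hs]
    exact Set.mem_insert_of_mem _ rfl
  have h12 : g.SameCycle d1 d2 := Quotient.exact (h1.2.trans h2.2.symm)
  refine ⟨d1, d2, ⟨hne, h1.1, h2.1, h12, ?_⟩, h1.2⟩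
  intro x hx hc
  have h4 : (Quotient.mk _ d1 : Quotient (Equiv.Perm.SameCycle.setoid g)) = Quotient.mk _ x :=
    Quotient.sound hc
  have h3 : x ∈ {y | y ∈ S ∧
      (Quotient.mk _ y : Quotient (Equiv.Perm.SameCycle.setoid g)) = q} :=
    ⟨hx, h4.symm.trans h1.2⟩
  rw [hs] at h3
  rcases h3 with h3 | h3
  · exact Or.inl h3
  · exact Or.inr h3

/-- an edge of `S` is not on the side of a face with two darts -/
theorem notSide (hSgc : St_Sgc) (hTfb : St_Tfb) {D : Type} [Finite D] (M : CMap D)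
    (hM : IsQuad M) (S : Set D) (g : Equiv.Perm D) (hS : SubF M S g) (hC : SCn M S)
    (d1 d2 : D) (h2 : TwoF S g d1 d2) (hne : d2 ≠ M.iv d1) (hP : Par M d1 d2) (e : D)
    (he : e ∈ S) : ¬ (e ∈ Sd M d1 d2 ∧ M.iv e ∈ Sd M d1 d2) := by
  rintro ⟨h3, h4⟩
  obtain ⟨s1, -, -, -, s5, s6⟩ := hSgc D M hM d1 d2 hP
  rcases hTfb D M hM S g hS hC d1 d2 h2 hne e he with h | h | h
  · subst h
    exact s1 _ h4 s5
  · subst h
    exact s1 _ h4 s6
  · exact s1 _ h3 h

end N2bx

theorem thm_N2b (hSga : St_Sga) (hSgc : St_Sgc) (hExc : St_Exc) (hTfa : St_Tfa) (hTfb : St_Tfb)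
    (hTfc : St_Tfc) (hTfd : St_Tfd) : St_N2b := by
  intro D _ M hM e e' hNJ S g hS hC hne
  let Q : Type := {q : Quotient (Equiv.Perm.SameCycle.setoid g) //
    {y | y ∈ S ∧ (Quotient.mk _ y : Quotient (Equiv.Perm.SameCycle.setoid g)) = q}.ncard = 2}
  have hQ : ∀ q : Q, ∃ d1 d2, TwoF S g d1 d2 ∧ d2 ≠ M.iv d1 ∧ Par M d1 d2 ∧
      (Quotient.mk _ d1 : Quotient (Equiv.Perm.SameCycle.setoid g)) = q.1 := by
    intro q
    obtain ⟨d1, d2, h2, hq⟩ := N2bx.exTwo g S q.1 q.2
    have h3 : d2 ≠ M.iv d1 := by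
      intro h
      rw [h] at h2
      exact hne d1 (hTfd D M hM S g hS hC d1 h2)
    obtain ⟨t1, t2, -⟩ := hTfa D M hM S g hS d1 d2 h2
    exact ⟨d1, d2, h2, h3, ⟨t2.symm, t1.symm, h3⟩, hq⟩
  choose d1 d2 hT hN hP hq using hQ
  have hdis : ∀ q q' : Q, q ≠ q' → ∀ x, x ∈ Sd M (d1 q) (d2 q) → x ∉ Sd M (d1 q') (d2 q') := by
    intro q q' hqq
    refine hTfc D M hM S g hS hC (d1 q) (d2 q) (d1 q') (d2 q') (hT q) (hN q) (hT q') (hN q') ?_
    intro hcyc
    apply hqq
    apply Subtype.ext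
    have h4 : (Quotient.mk _ (d1 q) : Quotient (Equiv.Perm.SameCycle.setoid g)) =
        Quotient.mk _ (d1 q') := Quotient.sound hcyc
    rw [← hq q, ← hq q', h4]
  have hE := fun q : Q => (hExc D M hM e e' hNJ).1 (d1 q) (d2 q) (hP q)
  have heS : e ∈ S → ∀ q : Q, e ∉ Sd M (d1 q) (d2 q) := by
    intro he q h
    rcases hE q with h5 | h5
    · exact N2bx.notSide hSgc hTfb M hM S g hS hC (d1 q) (d2 q) (hT q) (hN q) (hP q) e he
        ⟨h5.1, h5.2.1⟩
    · exact h5.1 h
  have heS' : e' ∈ S → ∀ q : Q, e ∈ Sd M (d1 q) (d2 q) := by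
    intro he q
    rcases hE q with h5 | h5
    · exact h5.1
    · exact absurd ⟨h5.2.2.1, h5.2.2.2⟩
        (N2bx.notSide hSgc hTfb M hM S g hS hC (d1 q) (d2 q) (hT q) (hN q) (hP q) e' he)
  let φ : Q → Bool := fun q => decide (e ∈ Sd M (d1 q) (d2 q))
  have hφ : ∀ q, φ q = true ↔ e ∈ Sd M (d1 q) (d2 q) := fun q => decide_eq_true_iff
  have hinj : Function.Injective φ := by
    intro q q' h
    by_contra hqq
    by_cases h6 : e ∈ Sd M (d1 q) (d2 q)
    · have h7 : e ∈ Sd M (d1 q') (d2 q') := by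
        rw [← hφ, ← h, hφ]
        exact h6
      exact hdis q q' hqq e h6 h7
    · have h7 : e ∉ Sd M (d1 q') (d2 q') := by
        rw [← hφ, ← h, hφ]
        exact h6
      have h8 : e' ∈ Sd M (d1 q) (d2 q) := by
        rcases hE q with h5 | h5
        · exact absurd h5.1 h6
        · exact h5.2.2.1
      have h9 : e' ∈ Sd M (d1 q') (d2 q') := by
        rcases hE q' with h5 | h5
        · exact absurd h5.1 h7
        · exact h5.2.2.1
      exact hdis q q' hqq e' h8 h9
  have hN2 : N2 g S = Nat.card Q := rfl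
  have hfin : Finite Q := Finite.of_injective φ hinj
  have hle2 : Nat.card Q ≤ 2 := by
    have := Nat.card_le_card_of_injective φ hinj
    have hb : Nat.card Bool = 2 := by rw [Nat.card_eq_fintype_card, Fintype.card_bool]
    rwa [hb] at this
  rw [hN2]
  by_cases he : e ∈ S
  · have hsub : Subsingleton Q := by
      refine ⟨fun q q' => hinj ?_⟩
      have a1 : φ q = false := by
        rw [Bool.eq_false_iff, ne_eq, hφ]
        exact heS he q
      have a2 : φ q' = false := by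
        rw [Bool.eq_false_iff, ne_eq, hφ]
        exact heS he q'
      rw [a1, a2]
    have h1 : Nat.card Q ≤ 1 := Finite.card_le_one_iff_subsingleton.mpr hsub
    by_cases he' : e' ∈ S
    · have hemp : IsEmpty Q := ⟨fun q => heS he q (heS' he' q)⟩
      have h0 : Nat.card Q = 0 := Nat.card_of_isEmpty
      rw [h0, if_pos he, if_pos he']
    · rw [if_pos he, if_neg he']
      omega
  · by_cases he' : e' ∈ S
    · have hsub : Subsingleton Q := by
        refine ⟨fun q q' => hinj ?_⟩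
        rw [(hφ q).mpr (heS' he' q), (hφ q').mpr (heS' he' q')]
      have h1 : Nat.card Q ≤ 1 := Finite.card_le_one_iff_subsingleton.mpr hsub
      rw [if_neg he, if_pos he']
      omega
    · rw [if_neg he, if_neg he']
      omega

end Pool.Agent.UQC
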