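import Pool.Agent.UQC.St

/-! # UQC: cycles on a subtype (helper78) -/

set_option autoImplicit false

noncomputable section

namespace Pool.Agent.UQC

open scoped Classical

namespace Ncax

theorem pow_mem {D : Type} (f : Equiv.Perm D) (p : D → Prop) (h : ∀ x, p (f x) ↔ p x) (k : ℕ) (x : D) :
    p ((f ^ k) x) ↔ p x := by
  induction k with
  | zero => simp
  | succ k ih => rw [pow_succ', Equiv.Perm.mul_apply, h, ih]

theorem zpow_mem {D : Type} (f : Equiv.Perm D) (p : D → Prop) (h : ∀ x, p (f x) ↔ p x) (n : ℤ) (x : D) :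
    p ((f ^ n) x) ↔ p x := by
  cases n with
  | ofNat k => simpa using pow_mem f p h k x
  | negSucc k =>
    rw [zpow_negSucc]
    rw [← pow_mem f p h (k + 1) (((f ^ (k + 1))⁻¹) x), ← Equiv.Perm.mul_apply, mul_inv_cancel, Equiv.Perm.one_apply]

theorem same {D : Type} (f : Equiv.Perm D) (p : D → Prop) (h : ∀ x, p (f x) ↔ p x) (x y : D)
    (hxy : f.SameCycle x y) : p y ↔ p x := by
  obtain ⟨n, rfl⟩ := hxy
  exact zpow_mem f p h n x

/-- the classes inside and outside -/
def mp {D : Type} (f : Equiv.Perm D) (p : D → Prop) (h : ∀ x, p (f x) ↔ p x)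
    (h' : ∀ x, ¬ p (f x) ↔ ¬ p x) :
    Quotient (Equiv.Perm.SameCycle.setoid (f.subtypePerm h)) ⊕
      Quotient (Equiv.Perm.SameCycle.setoid (f.subtypePerm (p := fun x => ¬ p x) h')) →
      Quotient (Equiv.Perm.SameCycle.setoid f) :=
  Sum.elim
    (Quotient.map (fun x => x.1) (fun _ _ hab => Equiv.Perm.sameCycle_subtypePerm.1 hab))
    (Quotient.map (fun x => x.1) (fun _ _ hab => Equiv.Perm.sameCycle_subtypePerm.1 hab))

theorem bij {D : Type} (f : Equiv.Perm D) (p : D → Prop) (h : ∀ x, p (f x) ↔ p x)
    (h' : ∀ x, ¬ p (f x) ↔ ¬ p x) : Function.Bijective (mp f p h h') := by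
  constructor
  · rintro (a | a) (b | b) hab
    · induction a using Quotient.inductionOn with | h a => ?_
      induction b using Quotient.inductionOn with | h b => ?_
      have h1 : f.SameCycle a.1 b.1 := Quotient.exact hab
      exact congrArg Sum.inl (Quotient.sound (Equiv.Perm.sameCycle_subtypePerm.2 h1))
    · induction a using Quotient.inductionOn with | h a => ?_
      induction b using Quotient.inductionOn with | h b => ?_
      have h1 : f.SameCycle a.1 b.1 := Quotient.exact hab
      exact absurd ((same f p h _ _ h1).2 a.2) b.2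
    · induction a using Quotient.inductionOn with | h a => ?_
      induction b using Quotient.inductionOn with | h b => ?_
      have h1 : f.SameCycle a.1 b.1 := Quotient.exact hab
      exact absurd ((same f p h _ _ h1).1 b.2) a.2
    · induction a using Quotient.inductionOn with | h a => ?_
      induction b using Quotient.inductionOn with | h b => ?_
      have h1 : f.SameCycle a.1 b.1 := Quotient.exact hab
      exact congrArg Sum.inr (Quotient.sound (Equiv.Perm.sameCycle_subtypePerm.2 h1))
  · intro q
    induction q using Quotient.inductionOn with | h x => ?_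
    by_cases hx : p x
    · exact ⟨Sum.inl (Quotient.mk _ ⟨x, hx⟩), rfl⟩
    · exact ⟨Sum.inr (Quotient.mk _ ⟨x, hx⟩), rfl⟩

end Ncax

theorem thm_Nca : St_Nca := by
  intro D _ f p h h'
  unfold nc
  have : Finite (Quotient (Equiv.Perm.SameCycle.setoid (f.subtypePerm h))) := Quotient.finite _
  have : Finite (Quotient (Equiv.Perm.SameCycle.setoid (f.subtypePerm (p := fun x => ¬ p x) h'))) :=
    Quotient.finite _
  rw [← Nat.card_sum]
  exact (Nat.card_congr (Equiv.ofBijective _ (Ncax.bij f p h h'))).symm

end Pool.Agent.UQC
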