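import Pool.Agent.UQC.St

/-! # UQC, module Ncf: the number of cycles of length 2 or 4 -/

set_option autoImplicit false

noncomputable section

open scoped Classical

namespace Pool.Agent.UQC

namespace Ncfx

lemma pow_mem {D : Type} (f : Equiv.Perm D) (m : ℕ) (hm : 0 < m) (h : f ^ m = 1) (x y : D)
    (hxy : f.SameCycle x y) : ∃ i, i < m ∧ (f ^ i) x = y := by
  obtain ⟨i, hi⟩ := hxy
  have hm' : (0 : ℤ) < (m : ℤ) := by exact_mod_cast hm
  have h1 : 0 ≤ i % (m : ℤ) := Int.emod_nonneg i hm'.ne'
  have h2 : i % (m : ℤ) < m := Int.emod_lt_of_pos i hm'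
  refine ⟨(i % (m : ℤ)).toNat, by omega, ?_⟩
  have h3 : f ^ (i % (m : ℤ)).toNat = f ^ i := by
    have h4 : f ^ i = f ^ (i % (m : ℤ)) := by
      have h5 : i = i % (m : ℤ) + (m : ℤ) * (i / (m : ℤ)) := (Int.emod_add_mul_ediv i m).symm
      conv_lhs => rw [h5]
      rw [zpow_add, zpow_mul, zpow_natCast, h, one_zpow, mul_one]
    rw [h4, ← zpow_natCast, Int.toNat_of_nonneg h1]
  rw [h3, hi]

lemma card_fib {D : Type} [Finite D] (f : Equiv.Perm D) (c : ℕ)
    (h : ∀ x, ({y | f.SameCycle y x} : Set D).ncard = c) : c * nc f = Nat.card D := by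
  let s := Equiv.Perm.SameCycle.setoid f
  have h1 : Nat.card D = Nat.card (Σ q : Quotient s, {x // Quotient.mk s x = q}) :=
    Nat.card_congr (Equiv.sigmaFiberEquiv (Quotient.mk s)).symm
  have : Finite (Quotient s) := inferInstance
  have : Fintype (Quotient s) := Fintype.ofFinite _
  rw [h1, Nat.card_sigma]
  have h2 : ∀ q : Quotient s, Nat.card {x // Quotient.mk s x = q} = c := by
    intro q
    obtain ⟨x, rfl⟩ := Quotient.exists_rep q
    rw [← h x]
    show Nat.card {y // Quotient.mk s y = Quotient.mk s x} = Nat.card {y // f.SameCycle y x}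
    refine Nat.card_congr (Equiv.subtypeEquivRight fun y => ?_)
    exact ⟨fun h => Quotient.exact h, fun h => Quotient.sound h⟩
  rw [Finset.sum_congr rfl (fun q _ => h2 q)]
  simp only [Finset.sum_const, Finset.card_univ, smul_eq_mul, nc]
  rw [← Nat.card_eq_fintype_card, mul_comm]

end Ncfx

theorem thm_Ncf : St_Ncf := by
  intro D _ f
  refine ⟨fun h1 h2 => ?_, fun h1 h2 => ?_⟩
  · refine Ncfx.card_fib f 2 fun x => ?_
    have h3 : f ^ 2 = 1 := by
      ext z
      simp [pow_succ, h1]
    have h4 : ({y | f.SameCycle y x} : Set D) = {x, f x} := by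
      ext y
      simp only [Set.mem_setOf_eq, Set.mem_insert_iff, Set.mem_singleton_iff]
      constructor
      · intro h
        obtain ⟨i, hi, hi2⟩ := Ncfx.pow_mem f 2 (by norm_num) h3 x y h.symm
        interval_cases i
        · left; simpa using hi2.symm
        · right; simpa using hi2.symm
      · rintro (rfl | rfl)
        · exact Equiv.Perm.SameCycle.refl _ _
        · exact (Equiv.Perm.sameCycle_apply_left).mpr (Equiv.Perm.SameCycle.refl _ _)
    rw [h4, Set.ncard_pair (h2 x).symm]
  · refine Ncfx.card_fib f 4 fun x => ?_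
    have h3 : f ^ 4 = 1 := by
      ext z
      simp [pow_succ, h1]
    have h5 : ∀ z, f z ≠ z := fun z hz => h2 z (by rw [hz, hz])
    have h4 : ({y | f.SameCycle y x} : Set D) = {x, f x, f (f x), f (f (f x))} := by
      ext y
      simp only [Set.mem_setOf_eq, Set.mem_insert_iff, Set.mem_singleton_iff]
      constructor
      · intro h
        obtain ⟨i, hi, hi2⟩ := Ncfx.pow_mem f 4 (by norm_num) h3 x y h.symm
        interval_cases i
        · left; simpa using hi2.symm
        · right; left; simpa using hi2.symm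
        · right; right; left; simpa [pow_succ] using hi2.symm
        · right; right; right; simpa [pow_succ] using hi2.symm
      · have h6 : ∀ z, f.SameCycle (f z) x ↔ f.SameCycle z x := fun z =>
          Equiv.Perm.sameCycle_apply_left
        rintro (rfl | rfl | rfl | rfl)
        · exact Equiv.Perm.SameCycle.refl _ _
        · exact (Equiv.Perm.sameCycle_apply_left).mpr (Equiv.Perm.SameCycle.refl _ _)
        · rw [h6, h6]
        · rw [h6, h6, h6]
    have e1 : x ≠ f x := (h5 x).symm
    have e2 : x ≠ f (f x) := (h2 x).symm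
    have e3 : x ≠ f (f (f x)) := by
      intro h
      have := congrArg f h
      rw [h1] at this
      exact h5 x this
    have e4 : f x ≠ f (f x) := (h5 (f x)).symm
    have e5 : f x ≠ f (f (f x)) := (h2 (f x)).symm
    have e6 : f (f x) ≠ f (f (f x)) := (h5 _).symm
    rw [h4, Set.ncard_insert_of_notMem (by simp [e1, e2, e3]),
      Set.ncard_insert_of_notMem (by simp [e4, e5]), Set.ncard_pair e6]

end Pool.Agent.UQC
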