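import Pool.Agent.UQC.St

set_option autoImplicit false

noncomputable section

open scoped Classical

namespace Pool.Agent.UQC

namespace Nswx

theorem g_a {D : Type} (f : Equiv.Perm D) (a b : D) : (f * Equiv.swap a b) a = f b := by
  simp

theorem g_x {D : Type} (f : Equiv.Perm D) (a b x : D) (h1 : x ≠ a) (h2 : x ≠ b) :
    (f * Equiv.swap a b) x = f x := by
  rw [Equiv.Perm.mul_apply, Equiv.swap_apply_of_ne_of_ne h1 h2]

theorem back {D : Type} (f : Equiv.Perm D) (a b : D) :
    f * Equiv.swap a b * Equiv.swap a b = f := by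
  rw [mul_assoc, Equiv.swap_mul_self, mul_one]

theorem iter {D : Type} (f : Equiv.Perm D) (a b y : D) : ∀ n : ℕ,
    (∀ j < n, (f ^ j) y ≠ a ∧ (f ^ j) y ≠ b) → ((f * Equiv.swap a b) ^ n) y = (f ^ n) y := by
  intro n
  induction n with
  | zero => intro _; simp
  | succ n ih =>
    intro h
    rw [pow_succ' (f * Equiv.swap a b) n, Equiv.Perm.mul_apply, ih (fun j hj => h j (by omega)),
      g_x f a b _ (h n (by omega)).1 (h n (by omega)).2, ← Equiv.Perm.mul_apply, ← pow_succ']

/-- Different cycles are joined. -/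
theorem joined {D : Type} [Finite D] (f : Equiv.Perm D) (a b : D) (h : ¬ f.SameCycle a b) :
    (f * Equiv.swap a b).SameCycle a b := by
  have hs : f.SameCycle (f b) b := Equiv.Perm.sameCycle_apply_left.mpr (Equiv.Perm.SameCycle.refl f b)
  have hex : ∃ n : ℕ, (f ^ n) (f b) = b := hs.exists_nat_pow_eq
  have hmin : ∀ j < Nat.find hex, (f ^ j) (f b) ≠ a ∧ (f ^ j) (f b) ≠ b := by
    intro j hj
    refine ⟨fun e => h ?_, Nat.find_min hex hj⟩
    have h1 : f.SameCycle b ((f ^ j) (f b)) := by
      rw [Equiv.Perm.sameCycle_pow_right, Equiv.Perm.sameCycle_apply_right]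
    rw [e] at h1
    exact h1.symm
  have h2 := iter f a b (f b) (Nat.find hex) hmin
  rw [Nat.find_spec hex] at h2
  have h3 : ((f * Equiv.swap a b) ^ (Nat.find hex + 1)) a = b := by
    rw [pow_succ, Equiv.Perm.mul_apply, g_a, h2]
  have h4 : (f * Equiv.swap a b).SameCycle a (((f * Equiv.swap a b) ^ (Nat.find hex + 1)) a) := by
    rw [Equiv.Perm.sameCycle_pow_right]
  rw [h3] at h4
  exact h4

/-- A common cycle is cut. -/
theorem cut {D : Type} [Finite D] (f : Equiv.Perm D) (a b : D) (hab : a ≠ b)
    (h : f.SameCycle a b) : ¬ (f * Equiv.swap a b).SameCycle a b := by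
  have hs : f.SameCycle (f b) a := Equiv.Perm.sameCycle_apply_left.mpr h.symm
  have hex : ∃ n : ℕ, (f ^ n) (f b) = a := hs.exists_nat_pow_eq
  have hfind : ∀ j < Nat.find hex, (f ^ j) (f b) ≠ a := fun j hj => Nat.find_min hex hj
  have hspec := Nat.find_spec hex
  generalize Nat.find hex = n at hfind hspec
  have hb : ∀ j < n, (f ^ j) (f b) ≠ b := by
    intro j hj e
    apply hfind (n - (j + 1)) (by omega)
    have e1 : (f ^ (j + 1)) (f b) = f b := by
      rw [pow_succ', Equiv.Perm.mul_apply, e]
    have e2 : (f ^ n) (f b) = (f ^ (n - (j + 1))) ((f ^ (j + 1)) (f b)) := by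
      have e3 : f ^ n = f ^ (n - (j + 1)) * f ^ (j + 1) := by
        rw [← pow_add]
        congr 1
        omega
      rw [e3, Equiv.Perm.mul_apply]
    rw [e1, hspec] at e2
    exact e2.symm
  have hall : ∀ k : ℕ, ∃ i ≤ n, ((f * Equiv.swap a b) ^ k) a = (f ^ i) (f b) := by
    intro k
    induction k with
    | zero => exact ⟨n, le_refl n, by simpa using hspec.symm⟩
    | succ k ih =>
      obtain ⟨i, hi, hk⟩ := ih
      rw [pow_succ', Equiv.Perm.mul_apply, hk]
      rcases Nat.lt_or_ge i n with h1 | h1
      · refine ⟨i + 1, h1, ?_⟩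
        rw [g_x f a b _ (hfind i h1) (hb i h1), pow_succ', Equiv.Perm.mul_apply]
      · have h2 : i = n := by omega
        refine ⟨0, Nat.zero_le n, ?_⟩
        rw [h2, hspec, g_a]
        simp
  intro hg
  obtain ⟨k, hk⟩ := hg.exists_nat_pow_eq
  obtain ⟨i, hi, h1⟩ := hall k
  rw [hk] at h1
  rcases Nat.lt_or_ge i n with h2 | h2
  · exact hb i h2 h1.symm
  · have h3 : i = n := by omega
    rw [h3, hspec] at h1
    exact hab h1.symm

theorem cardne {Q : Type} [Finite Q] (q₀ : Q) : Nat.card {q : Q // q ≠ q₀} + 1 = Nat.card Q := by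
  rw [← Finite.card_option]
  exact Nat.card_congr (Equiv.optionSubtypeNe q₀)

theorem case2 (hCsp : St_Csp) {D : Type} [Finite D] (f : Equiv.Perm D) (a b : D)
    (h : ¬ f.SameCycle a b) : nc (f * Equiv.swap a b) + 1 = nc f := by
  have hg := joined f a b h
  obtain ⟨c1, c2, c3⟩ := hCsp D (f * Equiv.swap a b) a b
  rw [back f a b] at c1 c2 c3
  have c3' := c3 hg
  generalize (f * Equiv.swap a b) = g at hg c1 c2 c3'
  let φ : Quotient (Equiv.Perm.SameCycle.setoid f) → Quotient (Equiv.Perm.SameCycle.setoid g) :=
    Quotient.map' id (fun x z hxz => c3' x z hxz)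
  let qb : Quotient (Equiv.Perm.SameCycle.setoid f) := Quotient.mk'' b
  have hfin : Finite (Quotient (Equiv.Perm.SameCycle.setoid f)) := Quotient.finite _
  have hbij : Function.Bijective
      (fun q : {q : Quotient (Equiv.Perm.SameCycle.setoid f) // q ≠ qb} => φ q.1) := by
    constructor
    · rintro ⟨q1, h1⟩ ⟨q2, h2⟩ hq
      induction q1 using Quotient.inductionOn' with
      | h x =>
        induction q2 using Quotient.inductionOn' with
        | h z =>
          have hx : ¬ f.SameCycle b x := fun e => h1 (Quotient.sound' e.symm)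
          have hz : ¬ f.SameCycle b z := fun e => h2 (Quotient.sound' e.symm)
          have hq' : g.SameCycle x z := Quotient.exact' hq
          apply Subtype.ext
          apply Quotient.sound'
          show f.SameCycle x z
          by_cases hax : g.SameCycle a x
          · have haz : g.SameCycle a z := hax.trans hq'
            rcases c1 x hax with e | e
            · rcases c1 z haz with e' | e'
              · exact e.symm.trans e'
              · exact absurd e' hz
            · exact absurd e hx
          · exact c2 x z hq' hax (fun e => hax (hg.trans e))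
    · intro q
      induction q using Quotient.inductionOn' with
      | h x =>
        by_cases hx : f.SameCycle x b
        · refine ⟨⟨Quotient.mk'' a, fun e => h (Quotient.exact' e)⟩, ?_⟩
          apply Quotient.sound'
          show g.SameCycle a x
          exact hg.trans (c3' x b hx).symm
        · exact ⟨⟨Quotient.mk'' x, fun e => hx (Quotient.exact' e)⟩, rfl⟩
  have h1 := Nat.card_congr (Equiv.ofBijective _ hbij)
  have h2 := cardne qb
  unfold nc
  rw [← h1]
  exact h2

end Nswx

open Nswx in
theorem thm_Nsw (hCsp : St_Csp) : St_Nsw := by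
  intro D _ f a b hab
  refine ⟨fun h => ?_, fun h => case2 hCsp f a b h⟩
  have h1 := case2 hCsp (f * Equiv.swap a b) a b (cut f a b hab h)
  rw [back f a b] at h1
  exact h1.symm

end Pool.Agent.UQC
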