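import Pool.Agent.UQC.St

/-! UQC Pex: every ball has a pattern. -/

set_option autoImplicit false
noncomputable section
open scoped Classical

namespace Pool.Agent.UQC

theorem Pexx.fin {D : Type} (M : CMap D) (ρ : D) (h : ∀ d, {d' | M.nx.SameCycle d d'}.Finite)
    (r : ℕ) : (reach M ρ r).Finite := by
  induction r with
  | zero => exact h ρ
  | succ r ih =>
    have h1 : reach M ρ (r + 1) = ⋃ d' ∈ reach M ρ r,
        ({d | M.nx.SameCycle d' d} ∪ {d | M.nx.SameCycle (M.iv d') d}) := by
      ext d
      simp only [reach, Set.mem_ofPred_eq, Set.mem_iUnion, Set.mem_union, exists_prop]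
    rw [h1]
    exact ih.biUnion fun d _ => (h d).union (h (M.iv d))

theorem Pexx.nx {D : Type} (M : CMap D) (ρ : D) (r : ℕ) (d : D) :
    M.nx d ∈ reach M ρ r ↔ d ∈ reach M ρ r := by
  cases r with
  | zero => simp only [reach, Set.mem_ofPred_eq, Equiv.Perm.sameCycle_apply_right]
  | succ r => simp only [reach, Set.mem_ofPred_eq, Equiv.Perm.sameCycle_apply_right]

theorem Pexx.root {D : Type} (M : CMap D) (ρ : D) (r : ℕ) : ρ ∈ reach M ρ r := by
  induction r with
  | zero => exact Equiv.Perm.SameCycle.refl _ _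
  | succ r ih => exact ⟨ρ, ih, Or.inl (Equiv.Perm.SameCycle.refl _ _)⟩

theorem thm_Pex : St_Pex := by
  intro D M ρ h r
  have hfin := Pexx.fin M ρ h r
  have : Finite (reach M ρ r) := hfin
  set e : reach M ρ r ≃ Fin (Nat.card (reach M ρ r)) := Finite.equivFin _ with he
  refine ⟨⟨Nat.card (reach M ρ r), e ⟨ρ, Pexx.root M ρ r⟩,
    (e.symm.trans ((M.nx.subtypePerm (fun d => Pexx.nx M ρ r d) :
      Equiv.Perm (reach M ρ r)))).trans e,
    fun i => if hi : M.iv (e.symm i) ∈ reach M ρ r then some (e ⟨_, hi⟩) else none⟩,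
    fun i => (e.symm i : D), ?_, ?_, ?_, ?_, ?_⟩
  · intro i j hij
    exact e.symm.injective (Subtype.ext hij)
  · ext d
    constructor
    · rintro ⟨i, rfl⟩
      exact (e.symm i).2
    · intro hd
      exact ⟨e ⟨d, hd⟩, congrArg Subtype.val (e.symm_apply_apply _)⟩
  · exact congrArg Subtype.val (e.symm_apply_apply _)
  · intro i
    exact congrArg Subtype.val (e.symm_apply_apply _)
  · intro i j
    by_cases hi : M.iv (e.symm i) ∈ reach M ρ r
    · simp only [hi, dite_true, Option.some.injEq]
      rw [← Equiv.eq_symm_apply, Subtype.ext_iff]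
    · simp only [hi, dite_false, reduceCtorEq, false_iff]
      intro h'
      exact hi (by rw [h']; exact (e.symm j).2)

end Pool.Agent.UQC
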