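import Pool.Agent.UQC.St

/-! # UQC, module Plw: paths are self-avoiding walks (MP_0dee97_pr; helper5) -/

set_option autoImplicit false

noncomputable section

namespace Pool.Agent.UQC

open scoped Classical

namespace Plwx

variable {D : Type}

theorem reach_same (M : CMap D) (ρ : D) : ∀ (k : ℕ) (x y : D), x ∈ reach M ρ k →
    M.nx.SameCycle x y → y ∈ reach M ρ k
  | 0, _, _, hx, h => Equiv.Perm.SameCycle.trans hx h
  | _ + 1, _, _, ⟨d', hd', h1⟩, h => ⟨d', hd', h1.imp (fun h2 => h2.trans h) (fun h2 => h2.trans h)⟩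

theorem reach_succ (M : CMap D) (ρ : D) (k : ℕ) {x : D} (hx : x ∈ reach M ρ k) :
    x ∈ reach M ρ (k + 1) :=
  ⟨x, hx, Or.inl (Equiv.Perm.SameCycle.refl _ _)⟩

theorem reach_iv (M : CMap D) (ρ : D) (k : ℕ) {x : D} (hx : x ∈ reach M ρ k) :
    M.iv x ∈ reach M ρ (k + 1) :=
  ⟨x, hx, Or.inr (Equiv.Perm.SameCycle.refl _ _)⟩

theorem reach_mono (M : CMap D) (ρ : D) {k m : ℕ} (h : k ≤ m) {x : D} (hx : x ∈ reach M ρ k) :
    x ∈ reach M ρ m := by
  induction h with
  | refl => exact hx
  | step _ ih => exact reach_succ M ρ _ ih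

theorem head_eq (M : CMap D) (B : Finset (Vx M)) : ∀ (l : List D) (U : Finset (Vx M)) (s : Vx M),
    PL M B l U s → ∀ d, l.head? = some d → vx M d = s
  | [], _, _, _, d, hd => by simp at hd
  | a :: l, _, _, h, d, hd => by
    have : a = d := by simpa using hd
    subst this
    exact h.2.1

theorem tail_mem (M : CMap D) (B : Finset (Vx M)) : ∀ (l : List D) (U : Finset (Vx M)) (s : Vx M),
    PL M B l U s → ∀ d ∈ l, vx M (M.iv d) ∈ U
  | [], _, _, _, d, hd => by simp at hd
  | a :: l, _, _, h, d, hd => by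
    rcases List.mem_cons.1 hd with rfl | hd
    · exact h.2.2.1
    · exact Finset.mem_of_mem_erase (tail_mem M B l _ _ h.2.2.2 d hd)

theorem not_mem (M : CMap D) (B : Finset (Vx M)) : ∀ (l : List D) (U : Finset (Vx M)) (s : Vx M),
    PL M B l U s → ∀ d ∈ l, vx M d ∉ B
  | [], _, _, _, d, hd => by simp at hd
  | a :: l, _, _, h, d, hd => by
    rcases List.mem_cons.1 hd with rfl | hd
    · rw [h.2.1]
      exact h.1
    · exact not_mem M B l _ _ h.2.2.2 d hd

theorem chain (M : CMap D) (B : Finset (Vx M)) : ∀ (l : List D) (U : Finset (Vx M)) (s : Vx M),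
    PL M B l U s → l.IsChain (fun d d' => M.nx.SameCycle (M.iv d) d')
  | [], _, _, _ => List.IsChain.nil
  | a :: l, _, _, h => by
    rw [List.isChain_cons]
    refine ⟨fun b hb => ?_, chain M B l _ _ h.2.2.2⟩
    exact (vx_eq M _ _).1 (head_eq M B l _ _ h.2.2.2 b hb).symm

theorem avoid (M : CMap D) (B : Finset (Vx M)) : ∀ (l : List D) (U : Finset (Vx M)) (s : Vx M),
    PL M B l U s → s ∉ U → ∀ (i j : ℕ) (hi : i < l.length) (hj : j < l.length), i ≤ j →
      ¬ M.nx.SameCycle l[i] (M.iv l[j])
  | [], _, _, _, _, _, _, hi, _, _ => by simp at hi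
  | a :: l, U, s, h, hs, 0, j, _, hj, _ => by
    intro hc
    have h1 : vx M a = vx M (M.iv (a :: l)[j]) := (vx_eq M _ _).2 hc
    have h2 := tail_mem M B (a :: l) U s h ((a :: l)[j]) (List.getElem_mem hj)
    rw [← h1, h.2.1] at h2
    exact hs h2
  | a :: l, U, s, h, hs, i + 1, 0, hi, hj, hij => by omega
  | a :: l, U, s, h, hs, i + 1, j + 1, hi, hj, hij => by
    have h1 := avoid M B l _ _ h.2.2.2 (Finset.notMem_erase _ _) i j (by simpa using hi)
      (by simpa using hj) (by omega)
    simpa using h1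

theorem len (M : CMap D) (ρ : D) (r : ℕ) (B : Finset (Vx M))
    (hB : ∀ d, vx M d ∈ B ↔ d ∉ reach M ρ r) : ∀ (l : List D) (U : Finset (Vx M)) (k : ℕ) (d : D),
    PL M B l U (vx M d) → d ∈ reach M ρ k → r + 1 ≤ k + l.length
  | [], _, k, d, h, hd => by
    have h1 := (hB d).1 h
    by_contra hc
    exact h1 (reach_mono M ρ (by simp at hc; omega) hd)
  | a :: l, U, k, d, h, hd => by
    have h1 : a ∈ reach M ρ k := reach_same M ρ k d a hd ((vx_eq M _ _).1 h.2.1.symm)
    have h2 := len M ρ r B hB l _ (k + 1) (M.iv a) h.2.2.2 (reach_iv M ρ k h1)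
    simp only [List.length_cons]
    omega

theorem ne_of_col (M : CMap D) (col : D → Bool) (h : ∀ d, col (M.nx d) = col d ∧ col (M.iv d) = !col d)
    (d : D) : ¬ M.nx.SameCycle d (M.iv d) := by
  have h1 : ∀ (n : ℕ) (x : D), col ((M.nx ^ n) x) = col x := by
    intro n
    induction n with
    | zero => intro x; rfl
    | succ n ih =>
      intro x
      rw [pow_succ', Equiv.Perm.mul_apply, (h _).1, ih]
  rintro ⟨n, hn⟩
  have h2 : col ((M.nx ^ n) d) = col d := by
    rcases Int.eq_nat_or_neg n with ⟨m, rfl | rfl⟩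
    · rw [zpow_natCast]
      exact h1 m d
    · have h3 := h1 m ((M.nx ^ (-(m : ℤ))) d)
      rw [← Equiv.Perm.mul_apply, ← zpow_natCast, ← zpow_add, add_neg_cancel, zpow_zero,
        Equiv.Perm.one_apply] at h3
      exact h3.symm
  rw [hn, (h d).2] at h2
  cases hc : col d <;> simp [hc] at h2

end Plwx

open Plwx in
theorem thm_Plw (hCol : St_Col) : St_Plw := by
  intro D _ M hM ρ r B hB l
  obtain ⟨col, hcol⟩ := hCol D M hM
  have hr0 : ρ ∈ reach M ρ 0 := Equiv.Perm.SameCycle.refl _ _
  have hne : ¬ M.nx.SameCycle ρ (M.iv ρ) := ne_of_col M col hcol ρ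
  have hin : ∀ (s : Vx M) (U : Finset (Vx M)), PL M B l U s → ∀ d ∈ l, d ∈ reach M ρ r := by
    intro s U h d hd
    by_contra hc
    exact not_mem M B l U s h d hd ((hB d).2 hc)
  constructor
  · intro h
    refine ⟨⟨fun d hd => (vx_eq M _ _).1 (head_eq M B l _ _ h d hd).symm, chain M B l _ _ h,
      avoid M B l _ _ h (by simp)⟩, hin _ _ h, ?_⟩
    have h1 := len M ρ r B hB l _ 0 ρ h hr0
    omega
  · intro h
    refine ⟨⟨fun d hd => ?_, ?_, ?_⟩, ?_, ?_⟩
    · have : ρ = d := by simpa using hd
      subst this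
      exact Equiv.Perm.SameCycle.refl _ _
    · rw [List.isChain_cons]
      exact ⟨fun b hb => (vx_eq M _ _).1 (head_eq M B l _ _ h b hb).symm, chain M B l _ _ h⟩
    · intro i j hi hj hij
      cases i with
      | zero =>
        cases j with
        | zero => exact hne
        | succ j =>
          intro hc
          have hj' : j < l.length := by simpa using hj
          have h2 := tail_mem M B l _ _ h l[j] (List.getElem_mem hj')
          have h3 : vx M ρ = vx M (M.iv l[j]) := (vx_eq M _ _).2 (by simpa using hc)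
          rw [← h3] at h2
          simp at h2
      | succ i =>
        cases j with
        | zero => omega
        | succ j =>
          have h1 := avoid M B l _ _ h (by simp) i j (by simpa using hi) (by simpa using hj) (by omega)
          simpa using h1
    · intro d hd
      rcases List.mem_cons.1 hd with rfl | hd
      · exact reach_mono M _ (Nat.zero_le r) hr0
      · exact hin _ _ h d hd
    · have h1 := len M ρ r B hB l _ 1 (M.iv ρ) h (reach_iv M ρ 0 hr0)
      simp only [List.length_cons]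
      omega

end Pool.Agent.UQC
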