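import Pool.Agent.UQC.St

/-! # UQC, module Psl: path sums as sums over lists (MP_0dee97_pr; helper42) -/

set_option autoImplicit false

noncomputable section

namespace Pool.Agent.UQC

open scoped Classical

namespace Pslx

theorem nonneg {V : Type} (w : V → V → ℝ) (hw : ∀ x y, 0 ≤ w x y) (B : Finset V) :
    ∀ (n : ℕ) (U : Finset V) (s : V), U.card = n → 0 ≤ ps w B U s := by
  intro n
  induction n with
  | zero =>
    intro U s hU
    rw [Finset.card_eq_zero] at hU
    subst hU
    rw [ps_eq]
    split_ifs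
    · norm_num
    · simp
  | succ n ih =>
    intro U s hU
    rw [ps_eq]
    split_ifs
    · norm_num
    · refine Finset.sum_nonneg fun y hy => mul_nonneg (hw _ _) (ih _ _ ?_)
      rw [Finset.card_erase_of_mem hy, hU]
      rfl

/-- Splitting off the first dart. -/
def eq {D : Type} (M : CMap D) (B U : Finset (Vx M)) (s : Vx M) (hs : s ∉ B) :
    {l : List D // PL M B l U s} ≃
      (y : U) × ({d : D // vx M d = s ∧ vx M (M.iv d) = y.1} × {l : List D // PL M B l (U.erase y.1) y.1}) where
  toFun l := match l with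
    | ⟨[], h⟩ => absurd h hs
    | ⟨d :: l, h⟩ => ⟨⟨vx M (M.iv d), h.2.2.1⟩, ⟨d, h.2.1, rfl⟩, ⟨l, h.2.2.2⟩⟩
  invFun x := ⟨x.2.1.1 :: x.2.2.1, hs, x.2.1.2.1, by rw [x.2.1.2.2]; exact x.1.2, by
    have h := x.2.2.2
    rw [x.2.1.2.2]
    exact h⟩
  left_inv l := match l with
    | ⟨[], h⟩ => absurd h hs
    | ⟨d :: l, h⟩ => rfl
  right_inv x := by
    obtain ⟨⟨y, hy⟩, ⟨d, h1, h2⟩, ⟨l, hl⟩⟩ := x
    dsimp only at h1 h2 hl
    subst h2
    rfl

theorem len {D : Type} (M : CMap D) (B U : Finset (Vx M)) (s : Vx M) (hs : s ∉ B)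
    (l : {l : List D // PL M B l U s}) : l.1.length = ((eq M B U s hs) l).2.2.1.length + 1 := by
  obtain ⟨l, h⟩ := l
  cases l with
  | nil => exact absurd h hs
  | cons d l => rfl

end Pslx

theorem thm_Psl : St_Psl := by
  intro D _ M B
  suffices h : ∀ (n : ℕ) (U : Finset (Vx M)) (s : Vx M), U.card = n →
      ENNReal.ofReal (ps (hf (mm M)) B U s) = ∑' l : {l : List D // PL M B l U s}, (2 : ENNReal)⁻¹ ^ l.1.length from
    fun U s => h _ U s rfl
  have hw : ∀ x y, 0 ≤ hf (mm M) x y := fun x y => by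
    unfold hf
    positivity
  intro n
  induction n with
  | zero =>
    intro U s hU
    rw [Finset.card_eq_zero] at hU
    subst hU
    by_cases hs : s ∈ B
    · rw [ps_eq, if_pos hs]
      have hu : ∀ l : {l : List D // PL M B l ∅ s}, l = ⟨[], hs⟩ := by
        rintro ⟨l, hl⟩
        cases l with
        | nil => rfl
        | cons d l => exact absurd hs hl.1
      rw [tsum_eq_single (⟨[], hs⟩ : {l : List D // PL M B l ∅ s}) (fun l hl => absurd (hu l) hl)]
      simp
    · rw [ps_eq, if_neg hs]
      have hu : IsEmpty {l : List D // PL M B l ∅ s} := by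
        refine ⟨?_⟩
        rintro ⟨l, hl⟩
        cases l with
        | nil => exact hs hl
        | cons d l => exact absurd hl.2.2.1 (Finset.notMem_empty _)
      simp
  | succ n ih =>
    intro U s hU
    by_cases hs : s ∈ B
    · rw [ps_eq, if_pos hs]
      have hu : ∀ l : {l : List D // PL M B l U s}, l = ⟨[], hs⟩ := by
        rintro ⟨l, hl⟩
        cases l with
        | nil => rfl
        | cons d l => exact absurd hs hl.1
      rw [tsum_eq_single (⟨[], hs⟩ : {l : List D // PL M B l U s}) (fun l hl => absurd (hu l) hl)]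
      simp
    · rw [ps_eq, if_neg hs]
      have hc : ∀ y ∈ U, (U.erase y).card = n := fun y hy => by
        rw [Finset.card_erase_of_mem hy, hU]
        rfl
      rw [ENNReal.ofReal_sum_of_nonneg (fun y hy => mul_nonneg (hw _ _) (Pslx.nonneg _ hw B n _ _ (hc y hy)))]
      let F : ((y : U) × ({d : D // vx M d = s ∧ vx M (M.iv d) = y.1} ×
          {l : List D // PL M B l (U.erase y.1) y.1})) → ENNReal := fun x => (2 : ENNReal)⁻¹ ^ (x.2.2.1.length + 1)
      have h1 : ∑' l : {l : List D // PL M B l U s}, (2 : ENNReal)⁻¹ ^ l.1.length = ∑' x, F x := by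
        rw [← Equiv.tsum_eq (Pslx.eq M B U s hs) F]
        refine tsum_congr fun l => ?_
        rw [Pslx.len M B U s hs l]
      rw [h1, ENNReal.tsum_sigma']
      rw [← Finset.tsum_subtype U (fun y => ENNReal.ofReal (hf (mm M) s y * ps (hf (mm M)) B (U.erase y) y))]
      refine tsum_congr fun y => ?_
      rw [ENNReal.tsum_prod']
      have h2 : ∀ d : {d : D // vx M d = s ∧ vx M (M.iv d) = y.1},
          ∑' l : {l : List D // PL M B l (U.erase y.1) y.1}, (2 : ENNReal)⁻¹ ^ (l.1.length + 1) =
            2⁻¹ * ENNReal.ofReal (ps (hf (mm M)) B (U.erase y.1) y.1) := by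
        intro d
        rw [ih _ _ (hc y.1 y.2), ← ENNReal.tsum_mul_left]
        refine tsum_congr fun l => ?_
        rw [pow_succ, mul_comm]
      rw [tsum_congr h2, ENNReal.tsum_const, ENNReal.ofReal_mul (hw _ _)]
      have h3 : ENNReal.ofReal (hf (mm M) s y.1) = (mm M s y.1 : ENNReal) * 2⁻¹ := by
        unfold hf
        rw [div_eq_mul_inv, ENNReal.ofReal_mul (by positivity), ENNReal.ofReal_natCast,
          ENNReal.ofReal_inv_of_pos (by norm_num)]
        norm_num
      rw [h3, mul_assoc]
      congr 1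
      rw [ENat.card_eq_coe_natCard]
      rfl

end Pool.Agent.UQC
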