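import Pool.Agent.UQC.St

set_option autoImplicit false

noncomputable section

open scoped Classical

namespace Pool.Agent.UQC

theorem Psmx.nn {V : Type} (w : V → V → ℝ) (hw : ∀ x y, 0 ≤ w x y) (B : Finset V) (U : Finset V) :
    ∀ s, 0 ≤ ps w B U s := by
  induction U using Finset.strongInduction with
  | H U ih =>
    intro s
    rw [ps_eq]
    split_ifs
    · exact zero_le_one
    · exact Finset.sum_nonneg fun y hy => mul_nonneg (hw s y) (ih _ (Finset.erase_ssubset hy) y)

theorem thm_Psm : St_Psm := by
  intro V V' w w' f hf hw hww hw' B B' hB U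
  induction U using Finset.strongInduction with
  | H U ih =>
    intro U' hU s
    refine ⟨Psmx.nn w hw B U s, ?_⟩
    rw [ps_eq w, ps_eq w']
    by_cases hs : s ∈ B
    · rw [if_pos hs, if_pos ((hB s).1 hs)]
    · rw [if_neg hs, if_neg (fun h => hs ((hB s).2 h))]
      calc ∑ y ∈ U, w s y * ps w B (U.erase y) y
          ≤ ∑ y ∈ U, w' (f s) (f y) * ps w' B' (U'.erase (f y)) (f y) := by
            apply Finset.sum_le_sum
            intro y hy
            have h1 := ih (U.erase y) (Finset.erase_ssubset hy) (U'.erase (f y))
              (fun x hx => Finset.mem_erase.2 ⟨fun h => (Finset.mem_erase.1 hx).1 (hf h),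
                hU x (Finset.mem_of_mem_erase hx)⟩) y
            exact mul_le_mul (hww s y) h1.2 h1.1 (hw' _ _)
        _ = ∑ z ∈ U.image f, w' (f s) z * ps w' B' (U'.erase z) z := by
            rw [Finset.sum_image fun x _ y _ h => hf h]
        _ ≤ ∑ z ∈ U', w' (f s) z * ps w' B' (U'.erase z) z := by
            apply Finset.sum_le_sum_of_subset_of_nonneg
            · intro z hz
              obtain ⟨y, hy, rfl⟩ := Finset.mem_image.1 hz
              exact hU y hy
            · intro z _ _
              exact mul_nonneg (hw' _ _) (Psmx.nn w' hw' B' _ z)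

end Pool.Agent.UQC
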