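import Pool.Agent.UQC.St

set_option autoImplicit false

noncomputable section

open scoped Classical

namespace Pool.Agent.UQC

theorem thm_Pty (hCol : St_Col) : St_Pty := by
  intro D _ M hM S g hS x
  obtain ⟨col, hcol⟩ := hCol D M hM
  have _ := Fintype.ofFinite D
  set A : Finset D := Finset.univ.filter fun y => g.SameCycle x y ∧ col y = true with hA
  set B : Finset D := Finset.univ.filter fun y => g.SameCycle x y ∧ col (g y) = true with hB
  have h1 : ∀ y ∈ S, col (g y) = !col y := by
    intro y hy
    rw [hS.2 y, if_pos hy, (hcol _).1, (hcol y).2]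
  have h2 : ∀ y, y ∉ S → col (g y) = col y := by
    intro y hy
    rw [hS.2 y, if_neg hy, (hcol y).1]
  have hcard : A.card = B.card := by
    symm
    refine Finset.card_bij (fun y _ => g y) ?_ ?_ ?_
    · intro y hy
      rw [hB, Finset.mem_filter] at hy
      rw [hA, Finset.mem_filter]
      exact ⟨Finset.mem_univ _, Equiv.Perm.sameCycle_apply_right.2 hy.2.1, hy.2.2⟩
    · intro a _ b _ hab
      exact g.injective hab
    · intro b hb
      rw [hA, Finset.mem_filter] at hb
      refine ⟨g.symm b, ?_, g.apply_symm_apply b⟩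
      rw [hB, Finset.mem_filter]
      refine ⟨Finset.mem_univ _, ?_, ?_⟩
      · have h3 : g.SameCycle x (g (g.symm b)) := by
          rw [g.apply_symm_apply]
          exact hb.2.1
        exact Equiv.Perm.sameCycle_apply_right.1 h3
      · rw [g.apply_symm_apply]
        exact hb.2.2
  have hset : {y | y ∈ S ∧ g.SameCycle x y} = ((A \ B ∪ B \ A : Finset D) : Set D) := by
    ext y
    simp only [Set.mem_ofPred_eq, Finset.coe_union, Finset.coe_sdiff, Set.mem_union, Set.mem_sdiff,
      Finset.mem_coe, hA, hB, Finset.mem_filter, Finset.mem_univ, true_and]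
    constructor
    · rintro ⟨hy, hc⟩
      have h3 := h1 y hy
      cases hb : col y with
      | true =>
        left
        rw [hb] at h3
        refine ⟨⟨hc, rfl⟩, ?_⟩
        rintro ⟨_, h4⟩
        rw [h3] at h4
        exact absurd h4 (by decide)
      | false =>
        right
        rw [hb] at h3
        refine ⟨⟨hc, ?_⟩, ?_⟩
        · rw [h3]; rfl
        · rintro ⟨_, h4⟩
          exact absurd h4 (by decide)
    · rintro (⟨⟨hc, hb⟩, hn⟩ | ⟨⟨hc, hb⟩, hn⟩)
      · refine ⟨?_, hc⟩
        by_contra hy
        exact hn ⟨hc, by rw [h2 y hy]; exact hb⟩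
      · refine ⟨?_, hc⟩
        by_contra hy
        exact hn ⟨hc, by rw [← h2 y hy]; exact hb⟩
  rw [hset, Set.ncard_coe_finset, Finset.card_union_of_disjoint disjoint_sdiff_sdiff]
  have h5 : (A \ B).card = (B \ A).card := by
    have h6 := Finset.card_sdiff_add_card_inter A B
    have h7 := Finset.card_sdiff_add_card_inter B A
    rw [Finset.inter_comm B A] at h7
    omega
  rw [h5]
  exact ⟨_, rfl⟩

end Pool.Agent.UQC
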