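import Pool.Agent.UQC.St

/-!
# Two maps with the same ball (MP_0dee97_pr, helper57)
-/

set_option autoImplicit false

noncomputable section

namespace Pool.Agent.UQC

open scoped Classical

namespace Rcrx

theorem fz {D : Type} {M : CMap D} {ρ : D} {R : ℕ} {p : Pat} {f : Fin p.k → D} (h : MB R M ρ p f) (n : ℤ)
    (i : Fin p.k) : f ((p.nx ^ n) i) = (M.nx ^ n) (f i) := by
  obtain ⟨-, -, -, hn, -⟩ := h
  have hi : ∀ i, f (p.nx⁻¹ i) = M.nx⁻¹ (f i) := by
    intro i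
    have h1 := hn (p.nx⁻¹ i)
    have e1 : p.nx (p.nx⁻¹ i) = i := p.nx.apply_symm_apply i
    rw [e1] at h1
    rw [h1]
    exact (M.nx.symm_apply_apply _).symm
  induction n generalizing i with
  | zero => simp
  | succ n ih =>
    rw [zpow_add_one, zpow_add_one, Equiv.Perm.mul_apply, Equiv.Perm.mul_apply, ih, hn]
  | pred n ih =>
    rw [zpow_sub_one, zpow_sub_one, Equiv.Perm.mul_apply, Equiv.Perm.mul_apply, ih, hi]

theorem sc {D : Type} {M : CMap D} {ρ : D} {R : ℕ} {p : Pat} {f : Fin p.k → D} (h : MB R M ρ p f)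
    (i j : Fin p.k) : M.nx.SameCycle (f i) (f j) ↔ p.nx.SameCycle i j := by
  constructor
  · rintro ⟨n, hn⟩
    rw [← fz h] at hn
    exact ⟨n, h.1 hn⟩
  · rintro ⟨n, hn⟩
    refine ⟨n, ?_⟩
    rw [← fz h, hn]

theorem rcl {D : Type} (M : CMap D) (ρ : D) (q : ℕ) (x y : D) (hx : x ∈ reach M ρ q)
    (h : M.nx.SameCycle x y) : y ∈ reach M ρ q := by
  cases q with
  | zero => exact Equiv.Perm.SameCycle.trans hx h
  | succ q =>
    obtain ⟨d, hd, h1⟩ := hx
    exact ⟨d, hd, h1.imp (fun k => k.trans h) (fun k => k.trans h)⟩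

theorem rmo {D : Type} (M : CMap D) (ρ : D) {q r : ℕ} (hq : q ≤ r) : reach M ρ q ⊆ reach M ρ r := by
  induction hq with
  | refl => exact subset_rfl
  | step _ ih =>
    intro x hx
    exact ⟨x, ih hx, Or.inl (Equiv.Perm.SameCycle.refl _ _)⟩

theorem one {D D' : Type} {M : CMap D} {M' : CMap D'} {ρ : D} {ρ' : D'} {R : ℕ} {p : Pat}
    {f : Fin p.k → D} {f' : Fin p.k → D'} (h : MB R M ρ p f) (h' : MB R M' ρ' p f') :
    ∀ q ≤ R, ∀ i, f i ∈ reach M ρ q → f' i ∈ reach M' ρ' q := by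
  intro q
  induction q with
  | zero =>
    intro _ i hi
    have h1 : M.nx.SameCycle (f p.rt) (f i) := by
      rw [h.2.2.1]
      exact hi
    rw [sc h, ← sc h', h'.2.2.1] at h1
    exact h1
  | succ q ih =>
    intro hq i hi
    have hR := rmo M ρ hq hi
    obtain ⟨d, hd, h1⟩ := hi
    have hd' : d ∈ Set.range f := by
      rw [h.2.1]
      exact rmo M ρ (by omega : q ≤ R) hd
    obtain ⟨j, rfl⟩ := hd'
    have hj := ih (by omega) j hd
    rcases h1 with h1 | h1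
    · exact ⟨f' j, hj, Or.inl (by rw [sc h', ← sc h]; exact h1)⟩
    · have h2 : M.iv (f j) ∈ Set.range f := by
        rw [h.2.1]
        exact rcl M ρ R _ _ hR h1.symm
      obtain ⟨l, hl⟩ := h2
      have h3 : M'.iv (f' j) = f' l := (h'.2.2.2.2 j l).1 ((h.2.2.2.2 j l).2 hl.symm)
      refine ⟨f' j, hj, Or.inr ?_⟩
      rw [h3, sc h', ← sc h, hl]
      exact h1

end Rcrx

theorem thm_Rcr : St_Rcr := by
  intro D D' M M' ρ ρ' R p f f' h h'
  refine ⟨fun i j => by rw [Rcrx.sc h, Rcrx.sc h'], fun q hq i => ⟨Rcrx.one h h' q hq i, Rcrx.one h' h q hq i⟩⟩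

end Pool.Agent.UQC
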