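import Pool.Agent.UQC.St

set_option autoImplicit false

noncomputable section

namespace Pool.Agent.UQC

open scoped Classical

namespace Redx

variable {V : Type}

/-- one edge `ab` less -/
def de (m : V → V → ℕ) (a b : V) : V → V → ℕ :=
  fun x y => m x y - if (x = a ∧ y = b) ∨ (x = b ∧ y = a) then 1 else 0

theorem de_le (m : V → V → ℕ) (a b x y : V) : de m a b x y ≤ m x y := Nat.sub_le _ _

theorem de_MG {m : V → V → ℕ} (hm : MG m) (a b : V) : MG (de m a b) := by
  refine ⟨fun x y => ?_, fun x => ?_⟩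
  · unfold de
    rw [hm.1 x y]
    congr 1
    have : ((x = a ∧ y = b) ∨ (x = b ∧ y = a)) ↔ ((y = a ∧ x = b) ∨ (y = b ∧ x = a)) := by tauto
    simp only [this]
  · unfold de
    rw [hm.2 x, Nat.zero_sub]

theorem sum_ind (Y : Finset V) (a b : V) :
    ∑ x ∈ Y, ∑ y ∈ Y, (if x = a ∧ y = b then 1 else 0) = if a ∈ Y ∧ b ∈ Y then 1 else 0 := by
  have h1 : ∀ x ∈ Y, ∑ y ∈ Y, (if x = a ∧ y = b then 1 else 0) =
      if x = a then (if b ∈ Y then 1 else 0) else 0 := by
    intro x _
    by_cases hx : x = a
    · simp [hx]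
    · simp [hx]
  rw [Finset.sum_congr rfl h1, Finset.sum_ite_eq']
  by_cases ha : a ∈ Y
  · by_cases hb : b ∈ Y
    · simp [ha, hb]
    · simp [ha, hb]
  · simp [ha]

theorem es_de {m : V → V → ℕ} (hm : MG m) {a b : V} (hab : a ≠ b) (hp : m a b ≠ 0)
    (Y : Finset V) : es m Y = es (de m a b) Y + if a ∈ Y ∧ b ∈ Y then 2 else 0 := by
  have h1 : ∀ x y, m x y = de m a b x y + ((if x = a ∧ y = b then 1 else 0) +
      (if x = b ∧ y = a then 1 else 0)) := by
    intro x y
    unfold de
    by_cases h : x = a ∧ y = b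
    · obtain ⟨rfl, rfl⟩ := h
      have : ¬ (x = y ∧ y = x) := fun h => hab h.1
      simp only [this, and_self, or_false, if_true, if_false]
      omega
    · by_cases h' : x = b ∧ y = a
      · obtain ⟨rfl, rfl⟩ := h'
        have h2 : m x y ≠ 0 := by rwa [hm.1 x y]
        simp only [h, and_self, or_true, if_true, if_false]
        omega
      · simp only [h, h', or_false, if_false]
        omega
  have h2 : es m Y = ∑ x ∈ Y, ∑ y ∈ Y, (de m a b x y + ((if x = a ∧ y = b then 1 else 0) +
      (if x = b ∧ y = a then 1 else 0))) := by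
    unfold es
    exact Finset.sum_congr rfl fun x _ => Finset.sum_congr rfl fun y _ => h1 x y
  rw [h2]
  simp only [Finset.sum_add_distrib]
  rw [sum_ind, sum_ind]
  unfold es
  by_cases h : a ∈ Y ∧ b ∈ Y
  · simp [h]
  · have h' : ¬ (b ∈ Y ∧ a ∈ Y) := fun h'' => h ⟨h''.2, h''.1⟩
    simp [h, h']

theorem good_union (hEsa : St_Esa) {m : V → V → ℕ} (hm : MG m) {X T : Finset V}
    (H1 : ∀ U ⊆ T, es m (X \ U) + 4 * U.card ≤ es m X) {U1 U2 : Finset V}
    (h1 : U1 ⊆ T) (h2 : U2 ⊆ T) (e1 : es m (X \ U1) + 4 * U1.card = es m X)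
    (e2 : es m (X \ U2) + 4 * U2.card = es m X) :
    es m (X \ (U1 ∪ U2)) + 4 * (U1 ∪ U2).card = es m X := by
  have h3 := (hEsa V m hm).2.2.1 (X \ U1) (X \ U2)
  have h4 : X \ U1 ∪ X \ U2 = X \ (U1 ∩ U2) := by
    ext x
    simp only [Finset.mem_union, Finset.mem_sdiff, Finset.mem_inter]
    tauto
  have h5 : X \ U1 ∩ (X \ U2) = X \ (U1 ∪ U2) := by
    ext x
    simp only [Finset.mem_union, Finset.mem_sdiff, Finset.mem_inter]
    tauto
  rw [h4, h5] at h3
  have h6 := H1 (U1 ∩ U2) (Finset.inter_subset_left.trans h1)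
  have h7 := H1 (U1 ∪ U2) (Finset.union_subset h1 h2)
  have h8 := Finset.card_union_add_card_inter U1 U2
  omega

end Redx

open Redx

theorem thm_Red (hEsa : St_Esa) : St_Red := by
  intro V m hm X t ht H1 H2
  obtain ⟨n, hn⟩ : ∃ n, es m X = n := ⟨_, rfl⟩
  induction n using Nat.strong_induction_on generalizing m with
  | _ n ih =>
    have hX : 1 ≤ X.card := Finset.card_pos.2 ⟨t, ht⟩
    have hXe : (X.erase t).card = X.card - 1 := Finset.card_erase_of_mem ht
    by_cases htight : es m X + 4 = 4 * X.card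
    · refine ⟨m, hm, fun _ _ => le_rfl, htight, fun Y hY hYn => ?_⟩
      by_cases htY : t ∈ Y
      · have hU : X \ Y ⊆ X.erase t := by
          intro x hx
          rw [Finset.mem_sdiff] at hx
          exact Finset.mem_erase.2 ⟨fun h => hx.2 (h ▸ htY), hx.1⟩
        have h1 := H1 _ hU
        rw [Finset.sdiff_sdiff_eq_self hY] at h1
        have h2 := Finset.card_sdiff_add_card_eq_card hY
        omega
      · exact H2 Y (fun y hy => Finset.mem_erase.2 ⟨fun h => htY (h ▸ hy), hY hy⟩) hYn
    · have h0 := H1 (X.erase t) (Finset.Subset.refl _)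
      rw [hXe] at h0
      set p : Finset V → Prop := fun U => U ⊆ X.erase t ∧ es m (X \ U) + 4 * U.card = es m X with hp
      set U0 : Finset V := ((X.erase t).powerset.filter p).sup id with hU0
      have hgood : p U0 := by
        rw [hU0]
        refine Finset.sup_induction ?_ ?_ ?_
        · refine ⟨Finset.empty_subset _, ?_⟩
          show es m (X \ ∅) + 4 * (∅ : Finset V).card = es m X
          rw [Finset.sdiff_empty, Finset.card_empty]
          omega
        · rintro U1 ⟨a1, b1⟩ U2 ⟨a2, b2⟩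
          exact ⟨Finset.union_subset a1 a2, good_union hEsa hm H1 a1 a2 b1 b2⟩
        · intro U hU
          exact (Finset.mem_filter.1 hU).2
      have hmax : ∀ U, p U → U ⊆ U0 := fun U hU =>
        Finset.le_sup (f := id) (Finset.mem_filter.2 ⟨Finset.mem_powerset.2 hU.1, hU⟩)
      have hne : es m (X \ U0) ≠ 0 := by
        intro h
        have h1 := hgood.2
        rw [h] at h1
        have h2 := Finset.card_le_card hgood.1
        rw [hXe] at h2
        omega
      obtain ⟨a, ha, ha'⟩ := Finset.exists_ne_zero_of_sum_ne_zero hne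
      obtain ⟨b, hb, hb'⟩ := Finset.exists_ne_zero_of_sum_ne_zero ha'
      rw [Finset.mem_sdiff] at ha hb
      have hab : a ≠ b := fun h => hb' (by rw [h]; exact hm.2 b)
      have hes := es_de hm hab hb'
      have hesX := hes X
      rw [if_pos ⟨ha.1, hb.1⟩] at hesX
      have hm' := de_MG hm a b
      have H1' : ∀ U ⊆ X.erase t, es (de m a b) (X \ U) + 4 * U.card ≤ es (de m a b) X := by
        intro U hU
        have h1 := hes (X \ U)
        by_cases hc : a ∈ X \ U ∧ b ∈ X \ U
        · rw [if_pos hc] at h1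
          have h2 := H1 U hU
          omega
        · have hnot : ¬ p U := by
            intro hpU
            have h3 := hmax U hpU
            apply hc
            rw [Finset.mem_sdiff, Finset.mem_sdiff]
            exact ⟨⟨ha.1, fun h => ha.2 (h3 h)⟩, ⟨hb.1, fun h => hb.2 (h3 h)⟩⟩
          have h2 := H1 U hU
          have h4 : es m (X \ U) + 4 * U.card ≠ es m X := fun h => hnot ⟨hU, h⟩
          have h5 := (hEsa V m hm).1 (X \ U)
          have h6 := (hEsa V m hm).1 X
          rw [Nat.even_iff] at h5 h6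
          rw [if_neg hc] at h1
          omega
      have H2' : ∀ Y ⊆ X.erase t, Y.Nonempty → es (de m a b) Y + 4 ≤ 4 * Y.card := by
        intro Y hY hYn
        have h1 := hes Y
        have h2 := H2 Y hY hYn
        omega
      obtain ⟨m'', k1, k2, k3⟩ := ih (es (de m a b) X) (by omega) (de m a b) hm' H1' H2' rfl
      exact ⟨m'', k1, fun x y => (k2 x y).trans (de_le m a b x y), k3⟩

end Pool.Agent.UQC
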