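import Pool.Agent.UQC.St

/-!
# The series (MP_0dee97_pr, module Ser)
-/

set_option autoImplicit false

noncomputable section

namespace Pool.Agent.UQC

open scoped Classical

namespace Serx

/-- `reach` is closed under `SameCycle`. -/
theorem reach_closed {D : Type} (M : CMap D) (ρ : D) (r : ℕ) (d d' : D)
    (hd : d ∈ reach M ρ r) (h : M.nx.SameCycle d d') : d' ∈ reach M ρ r := by
  cases r with
  | zero => exact Equiv.Perm.SameCycle.trans hd h
  | succ r =>
    obtain ⟨e, he, h1⟩ := hd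
    exact ⟨e, he, h1.imp (fun h1 => h1.trans h) (fun h1 => h1.trans h)⟩

/-- The root is in all `reach`. -/
theorem root_mem {D : Type} (M : CMap D) (ρ : D) (r : ℕ) : ρ ∈ reach M ρ r := by
  induction r with
  | zero => exact Equiv.Perm.SameCycle.refl _ _
  | succ r ih => exact ⟨ρ, ih, Or.inl (Equiv.Perm.SameCycle.refl _ _)⟩

/-- The other end of the root edge. -/
theorem iv_root_mem {D : Type} (M : CMap D) (ρ : D) (r : ℕ) : M.iv ρ ∈ reach M ρ (r + 1) :=
  ⟨ρ, root_mem M ρ r, Or.inr (Equiv.Perm.SameCycle.refl _ _)⟩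

/-- The vertices whose darts are not in `reach`. -/
theorem exists_B {D : Type} [Finite D] (M : CMap D) (ρ : D) (r : ℕ) :
    ∃ B : Finset (Vx M), ∀ d, vx M d ∈ B ↔ d ∉ reach M ρ r := by
  refine ⟨Finset.univ.filter (fun v => ∃ d, vx M d = v ∧ d ∉ reach M ρ r), fun d => ?_⟩
  rw [Finset.mem_filter]
  constructor
  · rintro ⟨-, d', h1, h2⟩ h3
    exact h2 (reach_closed M ρ r d d' h3 ((vx_eq M d d').mp h1.symm))
  · intro h
    exact ⟨Finset.mem_univ _, d, rfl, h⟩

/-- The walks of a finite map in the ball of radius `r`, of length at least `N`. -/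
def SW {D : Type} (M : CMap D) (ρ : D) (r N : ℕ) : Set (List D) :=
  {l | IsSAW M ρ l ∧ (∀ d ∈ l, d ∈ reach M ρ r) ∧ N ≤ l.length}

/-- Comparison with the number of walks. -/
theorem sum_le {D D' : Type} (M : CMap D) (M' : CMap D') (ρ : D) (ρ' : D') (r N : ℕ)
    (hfin : ∀ n : ℕ, Finite {l : List D // l.length = n ∧ IsSAW M ρ l})
    (F : List D' → List D)
    (hF : ∀ l, IsSAW M' ρ' l → (∀ d ∈ l, d ∈ reach M' ρ' r) →
      IsSAW M ρ (F l) ∧ (F l).length = l.length)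
    (hinj : Set.InjOn F {l | ∀ d ∈ l, d ∈ reach M' ρ' r}) :
    ∑' l : SW M' ρ' r N, (2 : ENNReal)⁻¹ ^ l.1.length ≤
      ∑' n : ℕ, (saws M ρ (N + n) : ENNReal) / 2 ^ (N + n) := by
  let φ : SW M' ρ' r N → (n : ℕ) × {l : List D // l.length = N + n ∧ IsSAW M ρ l} := fun l =>
    ⟨l.1.length - N, ⟨F l.1, by
      have h := hF l.1 l.2.1 l.2.2.1
      have h2 := l.2.2.2
      exact ⟨by omega, h.1⟩⟩⟩
  have hφ : Function.Injective φ := by
    intro l l' h
    have h1 : F l.1 = F l'.1 := by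
      have h2 : ((φ l).2 : List D) = ((φ l').2 : List D) := by rw [h]
      exact h2
    exact Subtype.ext (hinj l.2.2.1 l'.2.2.1 h1)
  let g : ((n : ℕ) × {l : List D // l.length = N + n ∧ IsSAW M ρ l}) → ENNReal :=
    fun x => (2 : ENNReal)⁻¹ ^ (N + x.1)
  have h1 : ∑' l : SW M' ρ' r N, (2 : ENNReal)⁻¹ ^ l.1.length = ∑' l : SW M' ρ' r N, g (φ l) := by
    apply tsum_congr
    intro l
    have h2 := l.2.2.2
    have h3 : N + (l.1.length - N) = l.1.length := by omega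
    show (2 : ENNReal)⁻¹ ^ l.1.length = (2 : ENNReal)⁻¹ ^ (N + (l.1.length - N))
    rw [h3]
  rw [h1]
  refine (ENNReal.tsum_comp_le_tsum_of_injective hφ g).trans ?_
  rw [ENNReal.tsum_sigma']
  apply le_of_eq
  apply tsum_congr
  intro n
  have := hfin (N + n)
  have := Fintype.ofFinite {l : List D // l.length = N + n ∧ IsSAW M ρ l}
  show ∑' _ : {l : List D // l.length = N + n ∧ IsSAW M ρ l}, (2 : ENNReal)⁻¹ ^ (N + n) = _
  rw [tsum_fintype, Finset.sum_const, Finset.card_univ, nsmul_eq_mul, saws,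
    Nat.card_eq_fintype_card, ENNReal.div_eq_inv_mul, ENNReal.inv_pow, mul_comm]

end Serx

open Serx in
theorem thm_Ser (hT1 : St_T1) (hPsl : St_Psl) (hPlw : St_Plw) (hTrf : St_Trf) (hFsw : St_Fsw)
    (hFar : St_Far) : St_Ser := by
  intro D M ρ hM N
  obtain ⟨n, M', p, hQ, hm, hm'⟩ := hM.ball (N + 1 + 2)
  obtain ⟨B, hB⟩ := exists_B M' 0 (N + 1)
  obtain ⟨e', he1, he2⟩ := hFar D (Fin (4 * n + 4)) M M' ρ 0 (N + 1) p hM.inf hM.conn hM.locfin hm hm'
  obtain ⟨F, hF, hinj⟩ := hTrf D (Fin (4 * n + 4)) M M' ρ 0 (N + 1) p hm hm'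
  have h1 : (1 : ℝ) ≤ TT M' 0 B := by
    apply hT1 _ M' hQ 0 e' B
    · rw [hB]
      exact fun h => h (root_mem M' 0 (N + 1))
    · rw [hB]
      exact fun h => h (iv_root_mem M' 0 N)
    · rw [hB]
      exact he1
    · rw [hB]
      exact he2
  set S0 : ENNReal := ∑' n : ℕ, (saws M ρ (N + n) : ENNReal) / 2 ^ (N + n) with hS0
  have hS : ∑' l : SW M' 0 (N + 1) N, (2 : ENNReal)⁻¹ ^ l.1.length ≤ S0 :=
    sum_le M M' ρ 0 (N + 1) N (hFsw D M ρ hM.locfin) F hF hinj
  have hpl := hPlw _ M' hQ 0 (N + 1) B hB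
  have h2 : (1 : ENNReal) ≤ ENNReal.ofReal (TT M' 0 B) := by
    rw [← ENNReal.ofReal_one]
    exact ENNReal.ofReal_le_ofReal h1
  refine h2.trans ?_
  unfold TT
  refine ENNReal.ofReal_add_le.trans ?_
  rw [hPsl, hPsl]
  have hA : ∑' l : {l : List (Fin (4 * n + 4)) // PL M' B l
      (Finset.univ \ {vx M' 0, vx M' (M'.iv 0)}) (vx M' 0)}, (2 : ENNReal)⁻¹ ^ l.1.length ≤ S0 := by
    refine le_trans ?_ hS
    let ψ : {l : List (Fin (4 * n + 4)) // PL M' B l
      (Finset.univ \ {vx M' 0, vx M' (M'.iv 0)}) (vx M' 0)} → SW M' 0 (N + 1) N := fun l =>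
      ⟨l.1, ((hpl l.1).1 l.2).1, ((hpl l.1).1 l.2).2.1, by
        have := ((hpl l.1).1 l.2).2.2
        omega⟩
    have hψ : Function.Injective ψ := by
      intro l l' h
      have h3 : (ψ l).1 = (ψ l').1 := by rw [h]
      exact Subtype.ext h3
    exact ENNReal.tsum_comp_le_tsum_of_injective hψ
      (fun l : SW M' 0 (N + 1) N => (2 : ENNReal)⁻¹ ^ l.1.length)
  have hBB : ∑' l : {l : List (Fin (4 * n + 4)) // PL M' B l
      (Finset.univ \ {vx M' 0, vx M' (M'.iv 0)}) (vx M' (M'.iv 0))}, (2 : ENNReal)⁻¹ ^ l.1.length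
      ≤ 2 * S0 := by
    refine le_trans ?_ (mul_le_mul_right hS 2)
    let ψ : {l : List (Fin (4 * n + 4)) // PL M' B l
      (Finset.univ \ {vx M' 0, vx M' (M'.iv 0)}) (vx M' (M'.iv 0))} → SW M' 0 (N + 1) N := fun l =>
      ⟨0 :: l.1, ((hpl l.1).2 l.2).1, ((hpl l.1).2 l.2).2.1, by
        have := ((hpl l.1).2 l.2).2.2
        omega⟩
    have hψ : Function.Injective ψ := by
      intro l l' h
      have h3 : (ψ l).1 = (ψ l').1 := by rw [h]
      exact Subtype.ext (List.cons_injective h3)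
    have h4 := ENNReal.tsum_comp_le_tsum_of_injective hψ
      (fun l : SW M' 0 (N + 1) N => (2 : ENNReal)⁻¹ ^ l.1.length)
    refine le_trans ?_ (mul_le_mul_right h4 2)
    rw [← ENNReal.tsum_mul_left]
    apply le_of_eq
    apply tsum_congr
    intro l
    show _ = 2 * (2 : ENNReal)⁻¹ ^ ((0 :: l.1 : List (Fin (4 * n + 4))).length)
    rw [List.length_cons, pow_succ', ← mul_assoc,
      ENNReal.mul_inv_cancel (by norm_num) (by norm_num), one_mul]
  calc _ ≤ S0 + 2 * S0 := add_le_add hA hBB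
    _ = 3 * S0 := by ring

end Pool.Agent.UQC
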