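import Pool.Agent.UQC.St

/-! # UQC, module Sga: cut and zip, elementary facts -/

set_option autoImplicit false

noncomputable section

open scoped Classical

namespace Pool.Agent.UQC

namespace Sgax

lemma col_same {D : Type} (M : CMap D) (col : D → Bool) (h : ∀ d, col (M.nx d) = col d)
    {x y : D} (hxy : M.nx.SameCycle x y) : col x = col y := by
  obtain ⟨i, rfl⟩ := hxy
  have h1 : ∀ (n : ℕ) (z : D), col ((M.nx ^ n) z) = col z := by
    intro n
    induction n with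
    | zero => intro z; rfl
    | succ n ih => intro z; rw [pow_succ, Equiv.Perm.mul_apply, ih, h]
  cases i with
  | ofNat n => exact (h1 n x).symm
  | negSucc n =>
    rw [zpow_negSucc]
    have h2 := h1 (n + 1) ((M.nx ^ (n + 1))⁻¹ x)
    have h3 : (M.nx ^ (n + 1)) ((M.nx ^ (n + 1))⁻¹ x) = x := (M.nx ^ (n + 1)).apply_symm_apply x
    rw [h3] at h2
    exact h2

end Sgax

theorem thm_Sga (hCol : St_Col) : St_Sga := by
  intro D _ M hM d1 d2 hP
  obtain ⟨col, hcol⟩ := hCol D M hM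
  have hc1 : ∀ {x y : D}, M.nx.SameCycle x y → col x = col y :=
    fun h => Sgax.col_same M col (fun d => (hcol d).1) h
  obtain ⟨p1, p2, p3⟩ := hP
  have hc2 : col d1 = !col d2 := by rw [hc1 p1, (hcol d2).2]
  have n12 : d1 ≠ d2 := by
    rintro rfl
    revert hc2
    cases col d1 <;> simp
  have hns : ¬ M.nx.SameCycle d1 d2 := by
    intro h
    have := hc1 h
    rw [hc2] at this
    revert this
    cases col d2 <;> simp
  have n1i2 : d1 ≠ M.iv d2 := by
    intro h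
    apply p3
    rw [h, M.iv_iv]
  have n1i1 : d1 ≠ M.iv d1 := (M.iv_ne d1).symm
  have ni22 : M.iv d2 ≠ d2 := M.iv_ne d2
  have ni2i1 : M.iv d2 ≠ M.iv d1 := fun h => n12 (M.iv.injective h).symm
  have t1 : tau M d1 d2 d1 = M.iv d2 := by
    simp only [tau, Equiv.Perm.mul_apply]
    rw [Equiv.swap_apply_of_ne_of_ne n12 n1i1, Equiv.swap_apply_left]
  have t2 : tau M d1 d2 d2 = M.iv d1 := by
    simp only [tau, Equiv.Perm.mul_apply]
    rw [Equiv.swap_apply_left, Equiv.swap_apply_of_ne_of_ne n1i1.symm ni2i1.symm]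
  have t3 : tau M d1 d2 (M.iv d1) = d2 := by
    simp only [tau, Equiv.Perm.mul_apply]
    rw [Equiv.swap_apply_right, Equiv.swap_apply_of_ne_of_ne n12.symm ni22.symm]
  have t4 : tau M d1 d2 (M.iv d2) = d1 := by
    simp only [tau, Equiv.Perm.mul_apply]
    rw [Equiv.swap_apply_of_ne_of_ne ni22 ni2i1, Equiv.swap_apply_right]
  have t5 : ∀ x, x ≠ d1 → x ≠ d2 → x ≠ M.iv d1 → x ≠ M.iv d2 → tau M d1 d2 x = x := by
    intro x h1 h2 h3 h4
    simp only [tau, Equiv.Perm.mul_apply]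
    rw [Equiv.swap_apply_of_ne_of_ne h2 h3, Equiv.swap_apply_of_ne_of_ne h1 h4]
  have tt : ∀ x, tau M d1 d2 (tau M d1 d2 x) = x := by
    intro x
    by_cases h1 : x = d1
    · rw [h1, t1, t4]
    by_cases h2 : x = d2
    · rw [h2, t2, t3]
    by_cases h3 : x = M.iv d1
    · rw [h3, t3, t2]
    by_cases h4 : x = M.iv d2
    · rw [h4, t4, t1]
    rw [t5 x h1 h2 h3 h4, t5 x h1 h2 h3 h4]
  have ti : ∀ x, M.iv (tau M d1 d2 x) = tau M d1 d2 (M.iv x) := by
    intro x
    by_cases h1 : x = d1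
    · rw [h1, t1, t3, M.iv_iv]
    by_cases h2 : x = d2
    · rw [h2, t2, t4, M.iv_iv]
    by_cases h3 : x = M.iv d1
    · rw [h3, t3, M.iv_iv, t1]
    by_cases h4 : x = M.iv d2
    · rw [h4, t4, M.iv_iv, t2]
    rw [t5 x h1 h2 h3 h4, t5 (M.iv x)]
    · intro h; exact h3 (by rw [← h, M.iv_iv])
    · intro h; exact h4 (by rw [← h, M.iv_iv])
    · intro h; exact h1 (M.iv.injective h)
    · intro h; exact h2 (M.iv.injective h)
  refine ⟨?_, hns, tt, t1, t2, t3, t4, t5, ?_, ⟨⟨?_, ?_, ?_⟩, ?_⟩, ⟨⟨p2, p1, n1i2⟩, ?_⟩, ?_⟩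
  · simp only [List.nodup_cons, List.mem_cons, List.not_mem_nil, or_false, not_or,
      not_false_eq_true, List.nodup_nil, and_true]
    exact ⟨⟨n1i2, n12, n1i1⟩, ⟨ni22, ni2i1⟩, p3⟩
  · intro x
    by_cases h1 : x = d1
    · rw [h1, t1]; exact p1.symm
    by_cases h2 : x = d2
    · rw [h2, t2]; exact p2.symm
    by_cases h3 : x = M.iv d1
    · rw [h3, t3]; exact p2
    by_cases h4 : x = M.iv d2
    · rw [h4, t4]; exact p1
    rw [t5 x h1 h2 h3 h4]
  · rw [M.iv_iv]; exact p1.symm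
  · rw [M.iv_iv]; exact p2.symm
  · rw [M.iv_iv]; exact p3.symm
  · simp only [tau, M.iv_iv]
    rw [Equiv.swap_comm (M.iv d2) d1, Equiv.swap_comm (M.iv d1) d2]
  · refine Equiv.ext fun x => ?_
    have u : tau M d2 d1 = Equiv.swap d2 (M.iv d1) * Equiv.swap d1 (M.iv d2) := rfl
    by_cases h1 : x = d1
    · rw [h1, t1, u, Equiv.Perm.mul_apply, Equiv.swap_apply_left,
        Equiv.swap_apply_of_ne_of_ne ni22 ni2i1]
    by_cases h2 : x = d2
    · rw [h2, t2, u, Equiv.Perm.mul_apply, Equiv.swap_apply_of_ne_of_ne n12.symm ni22.symm,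
        Equiv.swap_apply_left]
    by_cases h3 : x = M.iv d1
    · rw [h3, t3, u, Equiv.Perm.mul_apply, Equiv.swap_apply_of_ne_of_ne n1i1.symm ni2i1.symm,
        Equiv.swap_apply_right]
    by_cases h4 : x = M.iv d2
    · rw [h4, t4, u, Equiv.Perm.mul_apply, Equiv.swap_apply_right,
        Equiv.swap_apply_of_ne_of_ne n12 n1i1]
    rw [t5 x h1 h2 h3 h4, u, Equiv.Perm.mul_apply, Equiv.swap_apply_of_ne_of_ne h1 h4,
      Equiv.swap_apply_of_ne_of_ne h2 h3]
  · refine ⟨⟨sn M d1 d2, si M d1 d2, ?_, ?_⟩, rfl, rfl, ?_⟩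
    · intro d
      simp only [si, Equiv.Perm.mul_apply]
      rw [ti, M.iv_iv, tt]
    · intro d hd
      simp only [si, Equiv.Perm.mul_apply] at hd
      have hd2 : M.iv d = tau M d1 d2 d := by rw [← tt (M.iv d), hd]
      by_cases h1 : d = d1
      · rw [h1, t1] at hd2; exact ni2i1 hd2.symm
      by_cases h2 : d = d2
      · rw [h2, t2] at hd2; exact ni2i1 hd2
      by_cases h3 : d = M.iv d1
      · rw [h3, t3, M.iv_iv] at hd2; exact n12 hd2
      by_cases h4 : d = M.iv d2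
      · rw [h4, t4, M.iv_iv] at hd2; exact n12 hd2.symm
      rw [t5 d h1 h2 h3 h4] at hd2
      exact M.iv_ne d hd2
    · refine Equiv.ext fun x => ?_
      show sn M d1 d2 (si M d1 d2 x) = M.nx (M.iv x)
      simp only [sn, si, Equiv.Perm.mul_apply]
      rw [tt]

end Pool.Agent.UQC
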