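import Pool.Agent.UQC.St

/-!
# Two more vertices after cut and zip (MP_0dee97_pr, helper57)
-/

set_option autoImplicit false

noncomputable section

namespace Pool.Agent.UQC

open scoped Classical

theorem thm_Sgb (hCsp : St_Csp) (hNsw : St_Nsw) (hSga : St_Sga) : St_Sgb := by
  intro D _ M hM d1 d2 hP
  obtain ⟨hnd, hns, -⟩ := hSga D M hM d1 d2 hP
  have e1 : d1 ≠ M.iv d2 := by
    intro h
    simp [h] at hnd
  have e2 : d2 ≠ M.iv d1 := by
    intro h
    have h' : d2 ∉ [M.iv d1] := (List.nodup_cons.1 (List.nodup_cons.1 (List.nodup_cons.1 hnd).2).2).1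
    exact h' (by simp [h])
  obtain ⟨c1, c2, -⟩ := hP
  have h1 := (hNsw D M.nx d1 (M.iv d2) e1).1 c1
  have h2 : (M.nx * Equiv.swap d1 (M.iv d2)).SameCycle d2 (M.iv d1) :=
    (hCsp D M.nx d1 (M.iv d2)).2.1 d2 (M.iv d1) c2 hns (fun h => hns (c1.trans h))
  have h3 := (hNsw D (M.nx * Equiv.swap d1 (M.iv d2)) d2 (M.iv d1) e2).1 h2
  have h4 : sn M d1 d2 = M.nx * Equiv.swap d1 (M.iv d2) * Equiv.swap d2 (M.iv d1) := by
    rw [sn, tau, mul_assoc]
  rw [h4, h3, h1]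

end Pool.Agent.UQC
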