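import Pool.Agent.UQC.St

/-!
# UQC, module Sgc (MP_0dee97_pr): there are exactly two sides
-/

set_option autoImplicit false

noncomputable section

open scoped Classical

namespace Pool.Agent.UQC

namespace Sgcx

/-- a property which is invariant under the steps is invariant under the generated equivalence -/
theorem inv {D : Type} {r : D → D → Prop} {P : D → Prop} (h : ∀ x y, r x y → (P x ↔ P y)) {x y : D}
    (hxy : Relation.EqvGen r x y) : P x ↔ P y := by
  induction hxy with
  | rel x y hr => exact h x y hr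
  | refl x => exact Iff.rfl
  | symm x y _ ih => exact ih.symm
  | trans x y z _ _ ih1 ih2 => exact ih1.trans ih2

theorem mono {D : Type} {r s : D → D → Prop} (h : ∀ x y, r x y → s x y) {x y : D}
    (hxy : Relation.EqvGen r x y) : Relation.EqvGen s x y := by
  induction hxy with
  | rel x y hr => exact Relation.EqvGen.rel _ _ (h x y hr)
  | refl x => exact Relation.EqvGen.refl x
  | symm x y _ ih => exact ih.symm _ _
  | trans x y z _ _ ih1 ih2 => exact ih1.trans _ _ _ ih2

end Sgcx

theorem thm_Sgc (hEuM : St_EuM) (hNcf : St_Ncf) (hSga : St_Sga) (hSgb : St_Sgb) : St_Sgc := by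
  intro D _ M hM d1 d2 hPar
  obtain ⟨-, -, htt, ht1, ht2, ht3, ht4, ht5, -, ⟨-, htau⟩, -, N, hNn, hNi, hNf⟩ :=
    hSga D M hM d1 d2 hPar
  have hsn : sn M (M.iv d2) (M.iv d1) = sn M d1 d2 := by
    unfold sn
    rw [htau]
  have hsi : si M (M.iv d2) (M.iv d1) = si M d1 d2 := by
    unfold si
    rw [htau]
  -- the steps
  obtain ⟨r, hr⟩ : ∃ r : D → D → Prop, r = fun x y => y = sn M d1 d2 x ∨ y = si M d1 d2 x :=
    ⟨_, rfl⟩
  have hA : ∀ x, x ∈ Sd M d1 d2 ↔ Relation.EqvGen r d1 x := by
    intro x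
    rw [hr]
    rfl
  have hA' : ∀ x, x ∈ Sd M (M.iv d2) (M.iv d1) ↔ Relation.EqvGen r (M.iv d2) x := by
    intro x
    rw [hr, ← hsn, ← hsi]
    rfl
  have hrn : ∀ x, r x (sn M d1 d2 x) := fun x => by rw [hr]; exact Or.inl rfl
  have hri : ∀ x, r x (si M d1 d2 x) := fun x => by rw [hr]; exact Or.inr rfl
  have hsi1 : si M d1 d2 d1 = d2 := ht3
  have hsi2 : si M d1 d2 (M.iv d2) = M.iv d1 := by
    show tau M d1 d2 (M.iv (M.iv d2)) = M.iv d1
    rw [M.iv_iv, ht2]
  -- the four darts
  have h1 : d1 ∈ Sd M d1 d2 := (hA d1).2 (Relation.EqvGen.refl _)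
  have h2 : d2 ∈ Sd M d1 d2 := by
    rw [hA]
    have h := hri d1
    rw [hsi1] at h
    exact Relation.EqvGen.rel _ _ h
  have h4 : M.iv d2 ∈ Sd M (M.iv d2) (M.iv d1) := (hA' _).2 (Relation.EqvGen.refl _)
  have h3 : M.iv d1 ∈ Sd M (M.iv d2) (M.iv d1) := by
    rw [hA']
    have h := hri (M.iv d2)
    rw [hsi2] at h
    exact Relation.EqvGen.rel _ _ h
  -- everything is on one of the two sides
  obtain ⟨P, hP⟩ : ∃ P : D → Prop, P = fun x => Relation.EqvGen r d1 x ∨
    Relation.EqvGen r (M.iv d2) x := ⟨_, rfl⟩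
  have hPr : ∀ x y, r x y → (P x ↔ P y) := by
    intro x y hxy
    rw [hP]
    constructor
    · rintro (h | h)
      · exact Or.inl (h.trans _ _ _ (Relation.EqvGen.rel _ _ hxy))
      · exact Or.inr (h.trans _ _ _ (Relation.EqvGen.rel _ _ hxy))
    · rintro (h | h)
      · exact Or.inl (h.trans _ _ _ ((Relation.EqvGen.rel _ _ hxy).symm _ _))
      · exact Or.inr (h.trans _ _ _ ((Relation.EqvGen.rel _ _ hxy).symm _ _))
  have hP1 : P d1 := by rw [hP]; exact Or.inl ((hA _).1 h1)
  have hP2 : P d2 := by rw [hP]; exact Or.inl ((hA _).1 h2)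
  have hP3 : P (M.iv d1) := by rw [hP]; exact Or.inr ((hA' _).1 h3)
  have hP4 : P (M.iv d2) := by rw [hP]; exact Or.inr ((hA' _).1 h4)
  have hPt : ∀ x, P (tau M d1 d2 x) ↔ P x := by
    intro x
    by_cases e1 : x = d1
    · rw [e1, ht1]; exact ⟨fun _ => hP1, fun _ => hP4⟩
    by_cases e2 : x = d2
    · rw [e2, ht2]; exact ⟨fun _ => hP2, fun _ => hP3⟩
    by_cases e3 : x = M.iv d1
    · rw [e3, ht3]; exact ⟨fun _ => hP3, fun _ => hP2⟩
    by_cases e4 : x = M.iv d2
    · rw [e4, ht4]; exact ⟨fun _ => hP4, fun _ => hP1⟩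
    rw [ht5 x e1 e2 e3 e4]
  have hPn : ∀ x, P x ↔ P (M.nx x) := by
    intro x
    have h5 : sn M d1 d2 (tau M d1 d2 x) = M.nx x := by
      show M.nx (tau M d1 d2 (tau M d1 d2 x)) = M.nx x
      rw [htt]
    rw [← hPt x, hPr _ _ (hrn (tau M d1 d2 x)), h5]
  have hPi : ∀ x, P x ↔ P (M.iv x) := by
    intro x
    rw [hPr _ _ (hri x)]
    exact hPt (M.iv x)
  have hall : ∀ x, P x := by
    intro x
    have h5 := hM.conn d1 x
    refine (Sgcx.inv (P := P) ?_ h5).1 hP1
    rintro a b (rfl | rfl)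
    · exact hPn a
    · exact hPi a
  refine ⟨?_, ?_, h1, h2, h3, h4⟩
  · intro x hx hx'
    rw [hA] at hx
    rw [hA'] at hx'
    -- one component
    have hone : ∀ y, Relation.EqvGen r d1 y := by
      intro y
      have h5 := hall y
      rw [hP] at h5
      rcases h5 with h5 | h5
      · exact h5
      · exact (hx.trans _ _ _ (hx'.symm _ _)).trans _ _ _ h5
    have hc : cS N Set.univ ≤ 1 := by
      unfold cS
      rw [Finite.card_le_one_iff_subsingleton]
      constructor
      intro a b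
      induction a using Quotient.inductionOn with
      | _ a =>
        induction b using Quotient.inductionOn with
        | _ b =>
          apply Quotient.sound
          have h5 : Relation.EqvGen r a b := ((hone a).symm _ _).trans _ _ _ (hone b)
          show Relation.EqvGen (fun x y : D => y = N.nx x ∨ (x ∈ Set.univ ∧ y = N.iv x)) a b
          refine Sgcx.mono ?_ h5
          intro u v huv
          rw [hr] at huv
          rw [hNn, hNi]
          rcases huv with h | h
          · exact Or.inl h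
          · exact Or.inr ⟨trivial, h⟩
    have hsub : SubF N Set.univ N.fc := by
      refine ⟨fun x _ => trivial, fun x => ?_⟩
      rw [if_pos (Set.mem_univ x)]
      rfl
    have hE := (hEuM D N Set.univ N.fc hsub).1
    rw [hNn, hSgb D M hM d1 d2 hPar, hNf, Set.ncard_univ] at hE
    have h6 := (hNcf D M.iv).1 M.iv_iv M.iv_ne
    have h7 := hM.euler
    omega
  · intro x
    rw [hA, hA']
    have h5 := hall x
    rw [hP] at h5
    exact h5

end Pool.Agent.UQC
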