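import Pool.Agent.UQC.St

/-!
# UQC, module Sgd (MP_0dee97_pr): each side is a planar quadrangulation
-/

set_option autoImplicit false

noncomputable section

open scoped Classical

namespace Pool.Agent.UQC

namespace Sgdx

/-- connected steps inside an invariant set -/
theorem lift {D : Type} {r : D → D → Prop} {p : D → Prop} (hp : ∀ x y, r x y → (p x ↔ p y))
    {x y : D} (h : Relation.EqvGen r x y) : ∀ (hx : p x) (hy : p y),
      Relation.EqvGen (fun a b : {x // p x} => r a.1 b.1) ⟨x, hx⟩ ⟨y, hy⟩ := by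
  have inv : ∀ {a b : D}, Relation.EqvGen r a b → (p a ↔ p b) := by
    intro a b hab
    induction hab with
    | rel a b hr => exact hp a b hr
    | refl a => exact Iff.rfl
    | symm a b _ ih => exact ih.symm
    | trans a b c _ _ ih1 ih2 => exact ih1.trans ih2
  induction h with
  | rel x y hr => exact fun hx hy => Relation.EqvGen.rel _ _ hr
  | refl x => exact fun hx hy => Relation.EqvGen.refl _
  | symm x y _ ih => exact fun hx hy => (ih hy hx).symm _ _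
  | trans x y z h1 h2 ih1 ih2 =>
    intro hx hz
    have hy : p y := (inv h1).1 hx
    exact (ih1 hx hy).trans _ _ _ (ih2 hy hz)

theorem mono {D : Type} {r s : D → D → Prop} (h : ∀ x y, r x y → s x y) {x y : D}
    (hxy : Relation.EqvGen r x y) : Relation.EqvGen s x y := by
  induction hxy with
  | rel x y hr => exact Relation.EqvGen.rel _ _ (h x y hr)
  | refl x => exact Relation.EqvGen.refl x
  | symm x y _ ih => exact ih.symm _ _
  | trans x y z _ _ ih1 ih2 => exact ih1.trans _ _ _ ih2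

/-- the restriction of a map to an invariant connected nonempty set of darts -/
theorem core (hEuM : St_EuM) (hNcf : St_Ncf) {D : Type} [Finite D] (N : CMap D) (p : D → Prop)
    (h1 : ∀ x, p (N.nx x) ↔ p x) (h2 : ∀ x, p (N.iv x) ↔ p x) (h3 : ∀ x, p (N.fc x) ↔ p x)
    (hc : ∀ x y, p x → p y → Relation.EqvGen (fun x y => y = N.nx x ∨ y = N.iv x) x y) :
    ∃ M' : CMap {x // p x}, M'.Conn ∧ M'.nx = N.nx.subtypePerm h1 ∧
      M'.iv = N.iv.subtypePerm h2 ∧ M'.fc = N.fc.subtypePerm h3 ∧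
      nc M'.nx + nc M'.fc ≤ nc M'.iv + 2 := by
  obtain ⟨M', hn, hi⟩ : ∃ M' : CMap {x // p x}, M'.nx = N.nx.subtypePerm h1 ∧
      M'.iv = N.iv.subtypePerm h2 :=
    ⟨⟨N.nx.subtypePerm h1, N.iv.subtypePerm h2, fun d => Subtype.ext (N.iv_iv d.1),
      fun d hd => N.iv_ne d.1 (congrArg Subtype.val hd)⟩, rfl, rfl⟩
  have hnv : ∀ x : {x // p x}, (M'.nx x).1 = N.nx x.1 := by
    intro x
    rw [hn]
    rfl
  have hiv : ∀ x : {x // p x}, (M'.iv x).1 = N.iv x.1 := by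
    intro x
    rw [hi]
    rfl
  have hconn : M'.Conn := by
    intro x y
    have h := lift (r := fun x y => y = N.nx x ∨ y = N.iv x) (p := p) (by
      rintro a b (rfl | rfl)
      · exact (h1 a).symm
      · exact (h2 a).symm) (hc x.1 y.1 x.2 y.2) x.2 y.2
    refine mono ?_ h
    rintro a b (hab | hab)
    · exact Or.inl (Subtype.ext (by rw [hnv, hab]))
    · exact Or.inr (Subtype.ext (by rw [hiv, hab]))
  have hfc : M'.fc = N.fc.subtypePerm h3 := by
    apply Equiv.ext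
    intro x
    apply Subtype.ext
    show (M'.nx (M'.iv x)).1 = N.nx (N.iv x.1)
    rw [hnv, hiv]
  refine ⟨M', hconn, hn, hi, hfc, ?_⟩
  have hsub : SubF M' Set.univ M'.fc := by
    refine ⟨fun x _ => trivial, fun x => ?_⟩
    rw [if_pos (Set.mem_univ x)]
    rfl
  have hE := (hEuM _ M' Set.univ M'.fc hsub).1
  have h6 := (hNcf _ M'.iv).1 M'.iv_iv M'.iv_ne
  have hcS : cS M' Set.univ ≤ 1 := by
    unfold cS
    rw [Finite.card_le_one_iff_subsingleton]
    constructor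
    intro a b
    induction a using Quotient.inductionOn with
    | _ a =>
      induction b using Quotient.inductionOn with
      | _ b =>
        apply Quotient.sound
        show Relation.EqvGen (fun x y => y = M'.nx x ∨ (x ∈ Set.univ ∧ y = M'.iv x)) a b
        refine mono ?_ (hconn a b)
        rintro u v (h | h)
        · exact Or.inl h
        · exact Or.inr ⟨trivial, h⟩
  rw [Set.ncard_univ] at hE
  omega

end Sgdx

theorem thm_Sgd (hCsp : St_Csp) (hNca : St_Nca) (hEuM : St_EuM) (hNcf : St_Ncf) (hSga : St_Sga)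
    (hSgb : St_Sgb) (hSgc : St_Sgc) : St_Sgd := by
  intro D _ M hM d1 d2 hPar
  obtain ⟨-, hn12, htt, ht1, ht2, ht3, ht4, ht5, -, ⟨-, htau⟩, -, N, hNn, hNi, hNf⟩ :=
    hSga D M hM d1 d2 hPar
  obtain ⟨hdis, hun, hm1, hm2, hm3, hm4⟩ := hSgc D M hM d1 d2 hPar
  obtain ⟨hp1, hp2, hp3⟩ := hPar
  have hsn : sn M (M.iv d2) (M.iv d1) = sn M d1 d2 := by
    unfold sn
    rw [htau]
  have hsi : si M (M.iv d2) (M.iv d1) = si M d1 d2 := by
    unfold si
    rw [htau]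
  have hA : ∀ x, x ∈ Sd M d1 d2 ↔
      Relation.EqvGen (fun x y => y = N.nx x ∨ y = N.iv x) d1 x := by
    intro x
    rw [hNn, hNi]
    rfl
  have hA' : ∀ x, x ∈ Sd M (M.iv d2) (M.iv d1) ↔
      Relation.EqvGen (fun x y => y = N.nx x ∨ y = N.iv x) (M.iv d2) x := by
    intro x
    rw [hNn, hNi, ← hsn, ← hsi]
    rfl
  have hB : ∀ x, x ∉ Sd M d1 d2 ↔ x ∈ Sd M (M.iv d2) (M.iv d1) := by
    intro x
    constructor
    · intro hx
      rcases hun x with h | h
      · exact absurd h hx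
      · exact h
    · intro hx h
      exact hdis x h hx
  have hm3' : M.iv d1 ∉ Sd M d1 d2 := (hB _).2 hm3
  have hm4' : M.iv d2 ∉ Sd M d1 d2 := (hB _).2 hm4
  -- the predicate
  have hn : ∀ x, N.nx x ∈ Sd M d1 d2 ↔ x ∈ Sd M d1 d2 := by
    intro x
    rw [hA, hA]
    have e : Relation.EqvGen (fun x y => y = N.nx x ∨ y = N.iv x) x (N.nx x) :=
      Relation.EqvGen.rel _ _ (Or.inl rfl)
    exact ⟨fun h => h.trans _ _ _ (e.symm _ _), fun h => h.trans _ _ _ e⟩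
  have hi : ∀ x, N.iv x ∈ Sd M d1 d2 ↔ x ∈ Sd M d1 d2 := by
    intro x
    rw [hA, hA]
    have e : Relation.EqvGen (fun x y => y = N.nx x ∨ y = N.iv x) x (N.iv x) :=
      Relation.EqvGen.rel _ _ (Or.inr rfl)
    exact ⟨fun h => h.trans _ _ _ (e.symm _ _), fun h => h.trans _ _ _ e⟩
  have hf : ∀ x, N.fc x ∈ Sd M d1 d2 ↔ x ∈ Sd M d1 d2 := by
    intro x
    show N.nx (N.iv x) ∈ Sd M d1 d2 ↔ x ∈ Sd M d1 d2
    rw [hn, hi]
  have hn' : ∀ x, ¬ (N.nx x ∈ Sd M d1 d2) ↔ ¬ (x ∈ Sd M d1 d2) := fun x => not_congr (hn x)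
  have hi' : ∀ x, ¬ (N.iv x ∈ Sd M d1 d2) ↔ ¬ (x ∈ Sd M d1 d2) := fun x => not_congr (hi x)
  have hf' : ∀ x, ¬ (N.fc x ∈ Sd M d1 d2) ↔ ¬ (x ∈ Sd M d1 d2) := fun x => not_congr (hf x)
  obtain ⟨MA, hAc, hAn, hAi, hAf, hAe⟩ := Sgdx.core hEuM hNcf N (fun x => x ∈ Sd M d1 d2) hn hi hf
    (fun x y hx hy => (((hA x).1 hx).symm _ _).trans _ _ _ ((hA y).1 hy))
  obtain ⟨MB, hBc, hBn, hBi, hBf, hBe⟩ := Sgdx.core hEuM hNcf N (fun x => ¬ (x ∈ Sd M d1 d2))
    hn' hi' hf' (fun x y hx hy => (((hA' x).1 ((hB x).1 hx)).symm _ _).trans _ _ _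
      ((hA' y).1 ((hB y).1 hy)))
  -- counting
  have c1 := hNca D N.nx (fun x => x ∈ Sd M d1 d2) hn hn'
  have c2 := hNca D N.fc (fun x => x ∈ Sd M d1 d2) hf hf'
  have c3 := hNca D N.iv (fun x => x ∈ Sd M d1 d2) hi hi'
  rw [← hAn, ← hBn] at c1
  rw [← hAf, ← hBf] at c2
  rw [← hAi, ← hBi] at c3
  have c4 := (hNcf D N.iv).1 N.iv_iv N.iv_ne
  have c5 := (hNcf D M.iv).1 M.iv_iv M.iv_ne
  have c6 : nc N.nx = nc M.nx + 2 := by
    rw [hNn]
    exact hSgb D M hM d1 d2 ⟨hp1, hp2, hp3⟩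
  have c7 := hM.euler
  rw [← hNf] at c7
  have hAeq : nc MA.nx + nc MA.fc = nc MA.iv + 2 := by omega
  have hfcv : ∀ x : {x // x ∈ Sd M d1 d2}, (MA.fc x).1 = M.fc x.1 := by
    intro x
    rw [hAf, ← hNf]
    rfl
  -- the cycles
  obtain ⟨f1, hf1⟩ : ∃ f1 : Equiv.Perm D, f1 = M.nx * Equiv.swap d1 (M.iv d2) := ⟨_, rfl⟩
  have hs : N.nx = f1 * Equiv.swap d2 (M.iv d1) := by
    rw [hNn, hf1]
    unfold sn tau
    rw [mul_assoc]
  obtain ⟨k1, k2, k3⟩ := hCsp D M.nx d1 (M.iv d2)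
  rw [← hf1] at k1 k2 k3
  obtain ⟨l1, l2, l3⟩ := hCsp D f1 d2 (M.iv d1)
  rw [← hs] at l1 l2 l3
  have k3' := k3 hp1
  have hnd : ¬ M.nx.SameCycle (M.iv d2) d2 := fun h => hn12 (hp1.trans h)
  have hf12 : f1.SameCycle d2 (M.iv d1) := k2 _ _ hp2 hn12 hnd
  have l3' := l3 hf12
  have hcyc : ∀ x y, N.nx.SameCycle x y → (x ∈ Sd M d1 d2 ↔ y ∈ Sd M d1 d2) := by
    intro x y hxy
    obtain ⟨n, hn1⟩ := hxy.exists_nat_pow_eq
    have key : ∀ n : ℕ, ((N.nx ^ n) x ∈ Sd M d1 d2 ↔ x ∈ Sd M d1 d2) := by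
      intro n
      induction n with
      | zero => exact Iff.rfl
      | succ n ih =>
        rw [pow_succ', Equiv.Perm.mul_apply, hn]
        exact ih
    rw [← hn1, key]
  have hone : ∀ x, x ∈ Sd M d1 d2 → M.nx.SameCycle d1 x → N.nx.SameCycle d1 x := by
    intro x hx h
    rcases k1 x h with h' | h'
    · refine l2 _ _ h' ?_ ?_
      · exact fun h2 => hn12 (k3' _ _ h2).symm
      · exact fun h2 => hn12 ((hp2.trans (k3' _ _ h2)).symm)
    · exfalso
      have h5 : N.nx.SameCycle (M.iv d2) x := by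
        refine l2 _ _ h' ?_ ?_
        · exact fun h2 => hnd (k3' _ _ h2).symm
        · exact fun h2 => hnd ((hp2.trans (k3' _ _ h2)).symm)
      exact hm4' ((hcyc _ _ h5).2 hx)
  have htwo : ∀ x, x ∈ Sd M d1 d2 → M.nx.SameCycle d2 x → N.nx.SameCycle d2 x := by
    intro x hx h
    have h1 : f1.SameCycle d2 x := k2 _ _ h hn12 hnd
    rcases l1 x h1 with h' | h'
    · exact h'
    · exact absurd ((hcyc _ _ h').2 hx) hm3'
  have hmain : ∀ x y, x ∈ Sd M d1 d2 → y ∈ Sd M d1 d2 →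
      (N.nx.SameCycle x y ↔ M.nx.SameCycle x y) := by
    intro x y hx hy
    constructor
    · exact fun h => k3' _ _ (l3' _ _ h)
    · intro h
      by_cases h1 : M.nx.SameCycle d1 x
      · exact (hone x hx h1).symm.trans (hone y hy (h1.trans h))
      by_cases h2 : M.nx.SameCycle d2 x
      · exact (htwo x hx h2).symm.trans (htwo y hy (h2.trans h))
      have h3 : f1.SameCycle x y := k2 _ _ h h1 (fun h4 => h1 (hp1.trans h4))
      exact l2 _ _ h3 (fun h4 => h2 (k3' _ _ h4)) (fun h4 => h2 (hp2.trans (k3' _ _ h4)))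
  refine ⟨MA, ⟨hAc, ?_, ?_, hAeq⟩, ?_, ?_, ?_, ?_⟩
  · intro d
    apply Subtype.ext
    rw [hfcv, hfcv, hfcv, hfcv]
    exact hM.four d.1
  · intro d hd
    have h := congrArg Subtype.val hd
    rw [hfcv, hfcv] at h
    exact hM.two d.1 h
  · intro x
    rw [hAn, ← hNn]
    rfl
  · intro x
    rw [hAi, ← hNi]
    rfl
  · intro x y
    rw [hAn]
    rw [Equiv.Perm.sameCycle_subtypePerm]
    exact hmain x.1 y.1 x.2 y.2
  · rw [Nat.card_coe_set_eq, ← Set.ncard_univ]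
    exact Set.ncard_lt_ncard (Set.ssubset_univ_iff.2 (fun h => hm3' (h ▸ Set.mem_univ _)))

end Pool.Agent.UQC
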