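import Pool.Agent.UQC.St

set_option autoImplicit false

noncomputable section

open scoped Classical

namespace Pool.Agent.UQC

namespace Stex

/-- The map of the vertices of a side to the vertices of `M`. -/
def fv {D : Type} {M : CMap D} {d1 d2 : D} (M' : CMap (Sd M d1 d2))
    (hnx : ∀ x y : Sd M d1 d2, M'.nx.SameCycle x y ↔ M.nx.SameCycle (x : D) (y : D)) :
    Vx M' → Vx M :=
  Quotient.lift (fun x : Sd M d1 d2 => vx M (x : D))
    (fun x y h => (vx_eq M (x : D) (y : D)).2 ((hnx x y).1 h))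

theorem fv_vx {D : Type} {M : CMap D} {d1 d2 : D} (M' : CMap (Sd M d1 d2))
    (hnx : ∀ x y : Sd M d1 d2, M'.nx.SameCycle x y ↔ M.nx.SameCycle (x : D) (y : D))
    (x : Sd M d1 d2) : fv M' hnx (vx M' x) = vx M (x : D) := rfl

theorem exists_vx {D : Type} (M : CMap D) (p : Vx M) : ∃ x : D, vx M x = p :=
  Quotient.exists_rep p

theorem fv_inj {D : Type} {M : CMap D} {d1 d2 : D} (M' : CMap (Sd M d1 d2))
    (hnx : ∀ x y : Sd M d1 d2, M'.nx.SameCycle x y ↔ M.nx.SameCycle (x : D) (y : D)) :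
    Function.Injective (fv M' hnx) := by
  intro p q h
  obtain ⟨x, rfl⟩ := exists_vx M' p
  obtain ⟨y, rfl⟩ := exists_vx M' q
  rw [fv_vx, fv_vx] at h
  exact (vx_eq M' x y).2 ((hnx x y).2 ((vx_eq M (x : D) (y : D)).1 h))

theorem mm_le {D : Type} [Finite D] {M : CMap D} {d1 d2 : D} (M' : CMap (Sd M d1 d2))
    (hnx : ∀ x y : Sd M d1 d2, M'.nx.SameCycle x y ↔ M.nx.SameCycle (x : D) (y : D))
    (hiv : ∀ x : Sd M d1 d2, vx M ((M'.iv x : Sd M d1 d2) : D) = vx M (M.iv (x : D)))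
    (p q : Vx M') : mm M' p q ≤ mm M (fv M' hnx p) (fv M' hnx q) := by
  have hm : ∀ d : Sd M d1 d2, vx M' d = p ∧ vx M' (M'.iv d) = q →
      vx M (d : D) = fv M' hnx p ∧ vx M (M.iv (d : D)) = fv M' hnx q := by
    intro d hd
    refine ⟨?_, ?_⟩
    · have h1 := congrArg (fv M' hnx) hd.1
      exact h1
    · have h1 := congrArg (fv M' hnx) hd.2
      exact (hiv d).symm.trans h1
  unfold mm
  refine Nat.card_le_card_of_injective
    (fun x : {d : Sd M d1 d2 // vx M' d = p ∧ vx M' (M'.iv d) = q} =>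
      (⟨((x.1 : Sd M d1 d2) : D), hm x.1 x.2⟩ :
        {d : D // vx M d = fv M' hnx p ∧ vx M (M.iv d) = fv M' hnx q})) ?_
  intro x y h
  have h2 : ((x.1 : Sd M d1 d2) : D) = ((y.1 : Sd M d1 d2) : D) := by
    have h3 := Subtype.ext_iff.1 h
    exact h3
  exact Subtype.ext (Subtype.ext h2)

theorem hf_pos {V : Type} (m : V → V → ℕ) (x y : V) : 0 ≤ hf m x y := by
  unfold hf
  positivity

end Stex

open Stex in
theorem thm_Ste (hPsm : St_Psm) (hSga : St_Sga) : St_Ste := by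
  intro D _ M hM
  refine ⟨?_, ?_⟩
  · intro d1 d2 hpar M' hiv hnx e B' B hB
    obtain ⟨-, -, -, -, -, -, -, -, hsame, -⟩ := hSga D M hM d1 d2 hpar
    have hiv' : ∀ x : Sd M d1 d2, vx M ((M'.iv x : Sd M d1 d2) : D) = vx M (M.iv (x : D)) := by
      intro x
      rw [hiv x]
      exact (vx_eq M _ _).2 (hsame (M.iv (x : D)))
    have hle : ∀ x y : Vx M', hf (mm M') x y ≤ hf (mm M) (fv M' hnx x) (fv M' hnx y) := by
      intro x y
      unfold hf
      have h := mm_le M' hnx hiv' x y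
      have h' : ((mm M' x y : ℕ) : ℝ) ≤ ((mm M (fv M' hnx x) (fv M' hnx y) : ℕ) : ℝ) := by
        exact_mod_cast h
      linarith
    have hBB : ∀ x : Vx M', x ∈ B' ↔ fv M' hnx x ∈ B := by
      intro p
      obtain ⟨x, rfl⟩ := exists_vx M' p
      rw [fv_vx]
      exact hB x
    have h1 : fv M' hnx (vx M' e) = vx M (e : D) := fv_vx M' hnx e
    have h2 : fv M' hnx (vx M' (M'.iv e)) = vx M (M.iv (e : D)) := by
      rw [fv_vx]
      exact hiv' e
    have hU : ∀ x ∈ (Finset.univ \ {vx M' e, vx M' (M'.iv e)} : Finset (Vx M')),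
        fv M' hnx x ∈ (Finset.univ \ {vx M (e : D), vx M (M.iv (e : D))} : Finset (Vx M)) := by
      intro x hx
      simp only [Finset.mem_sdiff, Finset.mem_univ, true_and, Finset.mem_insert,
        Finset.mem_singleton, not_or] at hx ⊢
      refine ⟨?_, ?_⟩
      · intro hc
        rw [← h1] at hc
        exact hx.1 (fv_inj M' hnx hc)
      · intro hc
        rw [← h2] at hc
        exact hx.2 (fv_inj M' hnx hc)
    have key : ∀ s : Vx M', ps (hf (mm M')) B' (Finset.univ \ {vx M' e, vx M' (M'.iv e)}) s ≤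
        ps (hf (mm M)) B (Finset.univ \ {vx M (e : D), vx M (M.iv (e : D))}) (fv M' hnx s) :=
      fun s => (hPsm (Vx M') (Vx M) (hf (mm M')) (hf (mm M)) (fv M' hnx) (fv_inj M' hnx)
        (hf_pos _) hle (hf_pos _) B' B hBB _ _ hU s).2
    unfold TT
    have k1 := key (vx M' e)
    have k2 := key (vx M' (M'.iv e))
    rw [h1] at k1
    rw [h2] at k2
    exact add_le_add k1 k2
  · intro e B
    unfold TT
    rw [M.iv_iv e, Finset.pair_comm (vx M (M.iv e)) (vx M e), add_comm]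

end Pool.Agent.UQC
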