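import Pool.Agent.UQC.St

/-!
# MP_0dee97_pr, module Str: paths through a vertex (helper4)
-/

set_option autoImplicit false

noncomputable section

namespace Pool.Agent.UQC

open scoped Classical

namespace Strx

/-- `ps` is nonnegative for nonnegative weights. -/
theorem psnn {V : Type} (w : V → V → ℝ) (hw : ∀ x y, 0 ≤ w x y) (B : Finset V) :
    ∀ (n : ℕ) (U : Finset V), U.card = n → ∀ s : V, 0 ≤ ps w B U s := by
  intro n
  induction n using Nat.strong_induction_on with
  | _ n ih =>
    intro U hU s
    rw [ps_eq]
    split_ifs with h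
    · exact zero_le_one
    · refine Finset.sum_nonneg fun y hy => mul_nonneg (hw s y) ?_
      exact ih (U.erase y).card (by rw [← hU]; exact Finset.card_erase_lt_of_mem hy) _ rfl y

/-- The extra terms. -/
theorem extra {V : Type} (w : V → V → ℝ) (hw : ∀ x y, 0 ≤ w x y) (hs : ∀ x y, w x y = w y x)
    (B : Finset V) (v r : V) (F : Finset V) (hvB : v ∉ B) (hrF : r ∉ F)
    (U : Finset V) (s : V) :
    ∑ p ∈ F, w v p * w v r * ((if s = p ∧ r ∈ U then ps w B (U.erase r) r else 0) +
      (if s = r ∧ p ∈ U then ps w B (U.erase p) p else 0)) ≤ w s v * ps w B U v := by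
  have hnn : ∀ (W : Finset V) (y : V), 0 ≤ ps w B W y := fun W y => psnn w hw B _ W rfl y
  have hps : ps w B U v = ∑ y ∈ U, w v y * ps w B (U.erase y) y := by
    rw [ps_eq, if_neg hvB]
  have hterm : ∀ y ∈ U, 0 ≤ w v y * ps w B (U.erase y) y := fun y _ =>
    mul_nonneg (hw v y) (hnn _ y)
  by_cases hsr : s = r
  · subst hsr
    have h1 : ∀ p ∈ F, w v p * w v s * ((if s = p ∧ s ∈ U then ps w B (U.erase s) s else 0) +
        (if s = s ∧ p ∈ U then ps w B (U.erase p) p else 0)) =
        w v s * (if p ∈ U then w v p * ps w B (U.erase p) p else 0) := by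
      intro p hp
      have hsp : s ≠ p := fun h => hrF (h ▸ hp)
      rw [if_neg (fun h => hsp h.1)]
      by_cases hpU : p ∈ U
      · rw [if_pos ⟨rfl, hpU⟩, if_pos hpU]
        ring
      · rw [if_neg (fun h => hpU h.2), if_neg hpU]
        ring
    rw [Finset.sum_congr rfl h1, ← Finset.mul_sum, hs s v, hps]
    refine mul_le_mul_of_nonneg_left ?_ (hw v s)
    rw [← Finset.sum_filter]
    refine Finset.sum_le_sum_of_subset_of_nonneg ?_ ?_
    · intro p hp
      exact (Finset.mem_filter.mp hp).2
    · intro y hy _
      exact hterm y hy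
  · have h1 : ∀ p ∈ F, w v p * w v r * ((if s = p ∧ r ∈ U then ps w B (U.erase r) r else 0) +
        (if s = r ∧ p ∈ U then ps w B (U.erase p) p else 0)) =
        if s = p then w v s * (if r ∈ U then w v r * ps w B (U.erase r) r else 0) else 0 := by
      intro p _
      rw [if_neg (fun h : s = r ∧ p ∈ U => hsr h.1)]
      by_cases hsp : s = p
      · subst hsp
        by_cases hrU : r ∈ U
        · rw [if_pos ⟨rfl, hrU⟩, if_pos rfl, if_pos hrU]
          ring
        · rw [if_neg (fun h => hrU h.2), if_pos rfl, if_neg hrU]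
          ring
      · rw [if_neg (fun h => hsp h.1), if_neg hsp]
        ring
    rw [Finset.sum_congr rfl h1, Finset.sum_ite_eq, hs s v]
    split_ifs with h2 h3
    · refine mul_le_mul_of_nonneg_left ?_ (hw v s)
      rw [hps]
      exact Finset.single_le_sum (f := fun y => w v y * ps w B (U.erase y) y) hterm h3
    · rw [mul_zero]
      exact mul_nonneg (hw v s) (hnn _ _)
    · exact mul_nonneg (hw v s) (hnn _ _)

/-- The main induction. -/
theorem main {V : Type} (w : V → V → ℝ) (hw : ∀ x y, 0 ≤ w x y) (hs : ∀ x y, w x y = w y x)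
    (B : Finset V) (v r : V) (F : Finset V) (hvB : v ∉ B) (hrF : r ∉ F) :
    ∀ (n : ℕ) (U : Finset V), U.card = n → ∀ s : V, v ∉ U → s ∉ U → s ≠ v →
      ps w B U s + ∑ p ∈ F, w v p * w v r * rs w B p r U s ≤ ps w B (insert v U) s := by
  intro n
  induction n using Nat.strong_induction_on with
  | _ n ih =>
    intro U hU s hvU hsU hsv
    by_cases hsB : s ∈ B
    · rw [ps_eq w B U s, ps_eq w B (insert v U) s, if_pos hsB, if_pos hsB]
      have h0 : ∀ p ∈ F, w v p * w v r * rs w B p r U s = 0 := by
        intro p _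
        rw [rs_eq, if_pos hsB, mul_zero]
      rw [Finset.sum_congr rfl h0, Finset.sum_const_zero, add_zero]
    · have hR : ps w B (insert v U) s = w s v * ps w B U v +
          ∑ y ∈ U, w s y * ps w B (insert v (U.erase y)) y := by
        rw [ps_eq, if_neg hsB, Finset.sum_insert hvU, Finset.erase_insert hvU]
        congr 1
        refine Finset.sum_congr rfl fun y hy => ?_
        have hyv : y ≠ v := fun h => hvU (h ▸ hy)
        rw [Finset.erase_insert_of_ne hyv.symm]
      have hL1 : ps w B U s = ∑ y ∈ U, w s y * ps w B (U.erase y) y := by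
        rw [ps_eq, if_neg hsB]
      have hL2 : ∀ p ∈ F, w v p * w v r * rs w B p r U s =
          (∑ y ∈ U, w s y * (w v p * w v r * rs w B p r (U.erase y) y)) +
          w v p * w v r * ((if s = p ∧ r ∈ U then ps w B (U.erase r) r else 0) +
            (if s = r ∧ p ∈ U then ps w B (U.erase p) p else 0)) := by
        intro p _
        rw [rs_eq, if_neg hsB, add_assoc, mul_add, Finset.mul_sum]
        congr 1
        refine Finset.sum_congr rfl fun y _ => ?_
        ring
      have hIH : ∀ y ∈ U, w s y * (ps w B (U.erase y) y +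
          ∑ p ∈ F, w v p * w v r * rs w B p r (U.erase y) y) ≤
          w s y * ps w B (insert v (U.erase y)) y := by
        intro y hy
        refine mul_le_mul_of_nonneg_left ?_ (hw s y)
        refine ih (U.erase y).card (by rw [← hU]; exact Finset.card_erase_lt_of_mem hy) _ rfl y
          (fun h => hvU (Finset.mem_of_mem_erase h)) (Finset.notMem_erase y U) ?_
        exact fun h => hvU (h ▸ hy)
      have hsum := Finset.sum_le_sum hIH
      have hex := extra w hw hs B v r F hvB hrF U s
      have hcomm : ∑ p ∈ F, ∑ y ∈ U, w s y * (w v p * w v r * rs w B p r (U.erase y) y) =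
          ∑ y ∈ U, w s y * ∑ p ∈ F, w v p * w v r * rs w B p r (U.erase y) y := by
        rw [Finset.sum_comm]
        refine Finset.sum_congr rfl fun y _ => ?_
        rw [Finset.mul_sum]
      rw [hR, hL1, Finset.sum_congr rfl hL2, Finset.sum_add_distrib, hcomm]
      simp only [mul_add, Finset.sum_add_distrib] at hsum hex ⊢
      linarith

end Strx

/-- **Str**. Lower bound for the paths through the vertex `v`. -/
theorem thm_Str : St_Str := by
  intro V w hw hs B v r F hvB _ _ hrF U s hvU hsU hsv
  exact Strx.main w hw hs B v r F hvB hrF _ U rfl s hvU hsU hsv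

end Pool.Agent.UQC
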