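import Pool.Agent.UQC.St

set_option autoImplicit false

noncomputable section

/-!
# Module T1: the theorem for finite planar quadrangulations (helper12)
-/

namespace Pool.Agent.UQC

open scoped Classical

theorem thm_T1 (hSga : St_Sga) (hSgd : St_Sgd) (hMmb : St_Mmb) (hSte : St_Ste) (hExc : St_Exc)
    (hBna : St_Bna) (hCtr : St_Ctr) : St_T1 := by
  have key : ∀ (n : ℕ) (D : Type) [Finite D], Nat.card D = n → ∀ (M : CMap D), IsQuad M →
      ∀ (e e' : D) (B : Finset (Vx M)), vx M e ∉ B → vx M (M.iv e) ∉ B → vx M e' ∈ B →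
        vx M (M.iv e') ∈ B → 1 ≤ TT M e B := by
    intro n
    induction n using Nat.strong_induction_on with
    | _ n ih =>
    intro D _ hn M hM e e' B h1 h2 h3 h4
    by_cases hJ : NoJ M e e'
    · obtain ⟨_, hE2⟩ := hExc D M hM e e' hJ
      obtain ⟨hm1, _, hm3, _⟩ := hMmb D M hM
      have hne : vx M e ≠ vx M (M.iv e) := by
        intro h
        rw [← h, hm1.2] at hE2
        exact absurd hE2 (by norm_num)
      have hne' : ∀ p q : Vx M, p ∉ B → q ∈ B → p ≠ q := by
        rintro p q hp hq rfl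
        exact hp hq
      exact hCtr (Vx M) (mm M) hm1 (vx M e) (vx M (M.iv e)) (vx M e') (vx M (M.iv e')) B hne
        h3 h4 h1 h2 hE2 hm3 (fun X hX => hBna D M hM e e' hJ (hne' _ _ h1 h3) (hne' _ _ h1 h4)
          (hne' _ _ h2 h3) (hne' _ _ h2 h4) X hX)
    · unfold NoJ at hJ
      simp only [not_forall, not_not] at hJ
      obtain ⟨d1, d2, hP, he, he'⟩ := hJ
      obtain ⟨M', hM', _, hiv, hsc, hcard⟩ := hSgd D M hM d1 d2 hP
      obtain ⟨_, _, _, _, _, _, _, _, htau, _⟩ := hSga D M hM d1 d2 hP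
      have hend : ∀ x : Sd M d1 d2, vx M ((M'.iv x : Sd M d1 d2) : D) = vx M (M.iv (x : D)) := by
        intro x
        rw [hiv, vx_eq]
        exact htau _
      let B' : Finset (Vx M') :=
        Finset.univ.filter (fun v => ∃ x : Sd M d1 d2, vx M' x = v ∧ vx M (x : D) ∈ B)
      have hB : ∀ x : Sd M d1 d2, vx M' x ∈ B' ↔ vx M (x : D) ∈ B := by
        intro x
        constructor
        · intro hx
          obtain ⟨y, hy, hyB⟩ := (Finset.mem_filter.mp hx).2
          rw [vx_eq, hsc] at hy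
          rwa [(vx_eq M _ _).mpr hy] at hyB
        · intro hx
          exact Finset.mem_filter.mpr ⟨Finset.mem_univ _, x, rfl, hx⟩
      -- the copy of `e`
      obtain ⟨e0, he0, hb1, hb2, hT⟩ : ∃ e0, ∃ _ : e0 ∈ Sd M d1 d2, vx M e0 ∉ B ∧
          vx M (M.iv e0) ∉ B ∧ TT M e0 B = TT M e B := by
        rcases he with he | he
        · exact ⟨e, he, h1, h2, rfl⟩
        · exact ⟨M.iv e, he, h2, by rwa [M.iv_iv], (hSte D M hM).2 e B⟩
      obtain ⟨e0', he0', hb3, hb4⟩ : ∃ e0', ∃ _ : e0' ∈ Sd M d1 d2, vx M e0' ∈ B ∧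
          vx M (M.iv e0') ∈ B := by
        rcases he' with he' | he'
        · exact ⟨e', he', h3, h4⟩
        · exact ⟨M.iv e', he', h4, by rwa [M.iv_iv]⟩
      have h5 := ih (Nat.card (Sd M d1 d2)) (by rw [← hn]; exact hcard) (Sd M d1 d2) rfl M' hM'
        ⟨e0, he0⟩ ⟨e0', he0'⟩ B' (by rw [hB]; exact hb1) (by rw [hB, hend]; exact hb2)
        (by rw [hB]; exact hb3) (by rw [hB, hend]; exact hb4)
      have h6 := (hSte D M hM).1 d1 d2 hP M' hiv hsc ⟨e0, he0⟩ B' B hB
      rw [← hT]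
      exact h5.trans h6
  intro D _ M hM e e' B h1 h2 h3 h4
  exact key _ D rfl M hM e e' B h1 h2 h3 h4

end Pool.Agent.UQC
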