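import Pool.Agent.UQC.St

/-!
# (Tfa) Faces with two darts (MP_0dee97_pr; helper46 for helper63)
-/

set_option autoImplicit false

noncomputable section

open scoped Classical

namespace Pool.Agent.UQC

namespace Tfax

theorem red {D : Type} (f : Equiv.Perm D) (a x : D) (k : ℕ) (hk : 0 < k) (h : (f ^ k) a = a)
    (hx : f.SameCycle a x) : ∃ i < k, (f ^ i) a = x := by
  obtain ⟨n, hn⟩ := hx
  have hk' : (k : ℤ) ≠ 0 := by omega
  have h1 : 0 ≤ n % (k : ℤ) := Int.emod_nonneg _ hk'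
  have h2 : n % (k : ℤ) < k := Int.emod_lt_of_pos _ (by omega)
  refine ⟨(n % (k : ℤ)).toNat, by omega, ?_⟩
  have h4 : n = (((n % (k : ℤ)).toNat : ℕ) : ℤ) + (k : ℤ) * (n / (k : ℤ)) := by
    rw [Int.toNat_of_nonneg h1]
    exact (Int.emod_add_mul_ediv n k).symm
  have h5 : ((f ^ k) ^ (n / (k : ℤ))) a = a := Equiv.Perm.zpow_apply_eq_self_of_apply_eq_self h _
  have h3 : f ^ n = f ^ ((n % (k : ℤ)).toNat) * (f ^ k) ^ (n / (k : ℤ)) := by
    conv_lhs => rw [h4, zpow_add, zpow_mul, zpow_natCast, zpow_natCast]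
  rw [h3, Equiv.Perm.mul_apply, h5] at hn
  exact hn

/-- the walk along the face from `d1` to the next dart of `S` -/
theorem walk {D : Type} [Finite D] (M : CMap D) (S : Set D) (g : Equiv.Perm D) (hg : SubF M S g)
    (d1 d2 : D) (h : TwoF S g d1 d2) :
    ∃ k : ℕ, 0 < k ∧ (M.nx ^ k) (M.iv d1) = d2 ∧
      ∀ j, 0 < j → j < k → (M.nx ^ j) (M.iv d1) ∉ S := by
  obtain ⟨hne, hd1, hd2, hcy, hall⟩ := h
  have hex : ∃ k : ℕ, 0 < k ∧ (g ^ k) d1 ∈ S := by
    refine ⟨orderOf g, orderOf_pos g, ?_⟩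
    rw [pow_orderOf_eq_one]
    exact hd1
  have hk := Nat.find_spec hex
  have hmin : ∀ j, 0 < j → j < Nat.find hex → (g ^ j) d1 ∉ S := fun j h1 h2 h3 =>
    Nat.find_min hex h2 ⟨h1, h3⟩
  generalize Nat.find hex = k at hk hmin
  obtain ⟨hk0, hkS⟩ := hk
  have hpow : ∀ j, 0 < j → j ≤ k → (g ^ j) d1 = (M.nx ^ j) (M.iv d1) := by
    intro j
    induction j with
    | zero => intro h; omega
    | succ j ih =>
      intro _ hjk
      rcases Nat.eq_zero_or_pos j with hj | hj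
      · subst hj
        rw [zero_add, pow_one, pow_one, hg.2, if_pos hd1]
      · rw [pow_succ', pow_succ', Equiv.Perm.mul_apply, Equiv.Perm.mul_apply,
          ih hj (by omega), hg.2, if_neg]
        rw [← ih hj (by omega)]
        exact hmin j hj (by omega)
  have hkd : (g ^ k) d1 = d2 := by
    rcases hall _ hkS ⟨k, by rw [zpow_natCast]⟩ with h1 | h1
    · exfalso
      obtain ⟨i, hi, hi2⟩ := red g d1 d2 k hk0 h1 hcy
      rcases Nat.eq_zero_or_pos i with h0 | h0
      · subst h0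
        exact hne hi2
      · apply hmin i h0 hi
        rw [hi2]
        exact hd2
    · exact h1
  refine ⟨k, hk0, ?_, fun j hj hjk => ?_⟩
  · rw [← hpow k hk0 le_rfl, hkd]
  · rw [← hpow j hj hjk.le]
    exact hmin j hj hjk

/-- the first half of part (i) -/
theorem half {D : Type} [Finite D] (hCsp : St_Csp) (hSga : St_Sga) (M : CMap D) (hM : IsQuad M)
    (S : Set D) (g : Equiv.Perm D) (hg : SubF M S g) (d1 d2 : D) (h : TwoF S g d1 d2)
    (hP : Par M d1 d2) :
    ∀ x ∈ S, M.nx.SameCycle d2 x → x = d2 ∨ (sn M d1 d2).SameCycle (M.iv d1) x := by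
  intro x hx hcx
  obtain ⟨k, hk0, hk, hkS⟩ := walk M S g hg d1 d2 h
  obtain ⟨hne, hd1, hd2, hcy, hall⟩ := h
  obtain ⟨_, hnc, _, _, ht2, ht3, _, ht5, _⟩ := hSga D M hM d1 d2 hP
  have hsn : sn M d1 d2 = (M.nx * Equiv.swap d1 (M.iv d2)) * Equiv.swap d2 (M.iv d1) := by
    unfold sn tau
    rw [mul_assoc]
  have hn1 : ¬ M.nx.SameCycle d1 d2 := hnc
  have hn2 : ¬ M.nx.SameCycle (M.iv d2) d2 := fun h => hnc (hP.1.trans h)
  have h1 : (M.nx * Equiv.swap d1 (M.iv d2)).SameCycle d2 x :=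
    (hCsp D M.nx d1 (M.iv d2)).2.1 d2 x hcx hn1 hn2
  have h2 := (hCsp D (M.nx * Equiv.swap d1 (M.iv d2)) d2 (M.iv d1)).1 x h1
  rw [← hsn] at h2
  rcases h2 with h2 | h2
  · left
    have hpow : ∀ j, 0 < j → j ≤ k → (sn M d1 d2 ^ j) d2 = (M.nx ^ j) (M.iv d1) := by
      intro j
      induction j with
      | zero => intro h; omega
      | succ j ih =>
        intro _ hjk
        rcases Nat.eq_zero_or_pos j with hj | hj
        · subst hj
          rw [zero_add, pow_one, pow_one]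
          show M.nx (tau M d1 d2 d2) = _
          rw [ht2]
        · rw [pow_succ', pow_succ', Equiv.Perm.mul_apply, Equiv.Perm.mul_apply,
            ih hj (by omega)]
          have h3 : (M.nx ^ j) (M.iv d1) ∉ S := hkS j hj (by omega)
          show M.nx (tau M d1 d2 ((M.nx ^ j) (M.iv d1))) = _
          rw [ht5]
          · intro h4
            rw [h4] at h3
            exact h3 hd1
          · intro h4
            rw [h4] at h3
            exact h3 hd2
          · intro h4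
            rw [h4] at h3
            exact h3 (hg.1 _ hd1)
          · intro h4
            rw [h4] at h3
            exact h3 (hg.1 _ hd2)
    obtain ⟨i, hi, hi2⟩ := red (sn M d1 d2) d2 x k hk0 (by rw [hpow k hk0 le_rfl, hk]) h2
    rcases Nat.eq_zero_or_pos i with h0 | h0
    · subst h0
      exact hi2.symm
    · exfalso
      rw [hpow i h0 hi.le] at hi2
      exact hkS i h0 hi (hi2 ▸ hx)
  · right
    exact h2

theorem symm2 {D : Type} (S : Set D) (g : Equiv.Perm D) (d1 d2 : D) (h : TwoF S g d1 d2) :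
    TwoF S g d2 d1 := by
  obtain ⟨hne, hd1, hd2, hcy, hall⟩ := h
  exact ⟨hne.symm, hd2, hd1, hcy.symm, fun x hx hc => (hall x hx (hcy.trans hc)).symm⟩

end Tfax

theorem thm_Tfa (hCsp : St_Csp) (hSga : St_Sga) : St_Tfa := by
  intro D _ M hM S g hg d1 d2 h
  have h' := Tfax.symm2 S g d1 d2 h
  obtain ⟨k, hk0, hk, hkS⟩ := Tfax.walk M S g hg d1 d2 h
  obtain ⟨l, hl0, hl, hlS⟩ := Tfax.walk M S g hg d2 d1 h'
  have hc1 : M.nx.SameCycle (M.iv d1) d2 := ⟨k, by rw [zpow_natCast]; exact hk⟩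
  have hc2 : M.nx.SameCycle (M.iv d2) d1 := ⟨l, by rw [zpow_natCast]; exact hl⟩
  refine ⟨hc1, hc2, ?_, ?_⟩
  · intro hne
    have hP : Par M d1 d2 := ⟨hc2.symm, hc1.symm, hne⟩
    obtain ⟨hP', ht⟩ := (hSga D M hM d1 d2 hP).2.2.2.2.2.2.2.2.2.2.1
    refine ⟨Tfax.half hCsp hSga M hM S g hg d1 d2 h hP, ?_⟩
    have h1 := Tfax.half hCsp hSga M hM S g hg d2 d1 h' hP'
    have h2 : sn M d2 d1 = sn M d1 d2 := by
      unfold sn
      rw [ht]
    rw [h2] at h1
    exact h1
  · intro heq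
    refine ⟨fun x hx hc => ?_, fun x hx hc => ?_⟩
    · have h1 : M.iv d2 = d1 := by rw [heq, M.iv_iv]
      rw [h1] at hl hlS
      obtain ⟨i, hi, hi2⟩ := Tfax.red M.nx d1 x l hl0 hl hc
      rcases Nat.eq_zero_or_pos i with h0 | h0
      · subst h0
        exact hi2.symm
      · exact absurd (hi2 ▸ hx) (hlS i h0 hi)
    · rw [← heq] at hk hkS
      obtain ⟨i, hi, hi2⟩ := Tfax.red M.nx d2 x k hk0 hk hc
      rcases Nat.eq_zero_or_pos i with h0 | h0
      · subst h0
        exact hi2.symm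
      · exact absurd (hi2 ▸ hx) (hkS i h0 hi)

end Pool.Agent.UQC
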