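import Pool.Agent.UQC.St

/-!
# UQC, module Tfb: only `d1`, `d2` are darts of `S` on the side of `d1`
-/

set_option autoImplicit false

noncomputable section

open scoped Classical

namespace Pool.Agent.UQC

namespace Tfbx

/-- A set closed under the steps of a generated equivalence is closed under the equivalence. -/
theorem eg_iff {D : Type} (r : D → D → Prop) (P : D → Prop) (h : ∀ x y, r x y → (P x ↔ P y))
    (x y : D) (hxy : Relation.EqvGen r x y) : P x ↔ P y := by
  induction hxy with
  | rel x y hr => exact h x y hr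
  | refl x => exact Iff.rfl
  | symm x y _ ih => exact ih.symm
  | trans x y z _ _ ih1 ih2 => exact ih1.trans ih2

/-- Members of a side stay in the side under the cycles of `sn`. -/
theorem sd_cyc {D : Type} [Finite D] (M : CMap D) (a b : D) (x y : D)
    (hx : x ∈ Sd M a b) (hxy : (sn M a b).SameCycle x y) : y ∈ Sd M a b := by
  obtain ⟨k, hk⟩ := hxy.exists_nat_pow_eq
  have key : ∀ k : ℕ, ((sn M a b) ^ k) x ∈ Sd M a b := by
    intro k
    induction k with
    | zero => exact hx
    | succ k ih =>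
      rw [pow_succ', Equiv.Perm.mul_apply]
      exact Relation.EqvGen.trans _ _ _ ih (Relation.EqvGen.rel _ _ (Or.inl rfl))
  rw [← hk]
  exact key k

/-- Members of a side stay in the side under `si`. -/
theorem sd_si {D : Type} (M : CMap D) (a b : D) (x : D)
    (hx : x ∈ Sd M a b) : si M a b x ∈ Sd M a b :=
  Relation.EqvGen.trans _ _ _ hx (Relation.EqvGen.rel _ _ (Or.inr rfl))

end Tfbx

theorem thm_Tfb (hSga : St_Sga) (hSgc : St_Sgc) (hTfa : St_Tfa) : St_Tfb := by
  intro D _ M hQ S g hg hS d1 d2 hT hne x hx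
  obtain ⟨t1, t2, t3, _⟩ := hTfa D M hQ S g hg d1 d2 hT
  obtain ⟨t4, t5⟩ := t3 hne
  obtain ⟨_, hd1, hd2, _, _⟩ := hT
  have hPar : Par M d1 d2 := ⟨t2.symm, t1.symm, hne⟩
  obtain ⟨_, _, a3, a4, a5, a6, a7, a8, a9, ⟨a10, a11⟩, _, _⟩ := hSga D M hQ d1 d2 hPar
  obtain ⟨_, _, _, _, b5, b6⟩ := hSgc D M hQ d1 d2 hPar
  have hsn : sn M (M.iv d2) (M.iv d1) = sn M d1 d2 := by
    unfold sn
    rw [a11]
  have hsi : si M (M.iv d2) (M.iv d1) = si M d1 d2 := by
    unfold si
    rw [a11]
  -- the other side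
  set B : Set D := Sd M (M.iv d2) (M.iv d1) with hB
  have Bcyc : ∀ x y, x ∈ B → (sn M d1 d2).SameCycle x y → y ∈ B := by
    intro x y hx hxy
    rw [← hsn] at hxy
    exact Tfbx.sd_cyc M _ _ x y hx hxy
  have Bsi : ∀ x, x ∈ B → si M d1 d2 x ∈ B := by
    intro x hx
    rw [← hsi]
    exact Tfbx.sd_si M _ _ x hx
  have hii : ∀ z, M.iv (M.iv z) = z := M.iv_iv
  -- the property `P`
  let P : D → Prop := fun z => ∀ x ∈ S, M.nx.SameCycle z x → x = d1 ∨ x = d2 ∨ x ∈ B
  have P1 : ∀ z, M.nx.SameCycle d1 z → P z := by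
    intro z hz x hx hzx
    rcases t5 x hx (hz.trans hzx) with h | h
    · exact Or.inl h
    · exact Or.inr (Or.inr (Bcyc _ _ b6 h))
  have P2 : ∀ z, M.nx.SameCycle d2 z → P z := by
    intro z hz x hx hzx
    rcases t4 x hx (hz.trans hzx) with h | h
    · exact Or.inr (Or.inl h)
    · exact Or.inr (Or.inr (Bcyc _ _ b5 h))
  have Pnx : ∀ z, P z ↔ P (M.nx z) := by
    intro z
    constructor
    · intro h x hx hzx
      exact h x hx (Equiv.Perm.sameCycle_apply_left.mp hzx)
    · intro h x hx hzx
      exact h x hx (Equiv.Perm.sameCycle_apply_left.mpr hzx)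
  have Piv : ∀ z ∈ S, P z → P (M.iv z) := by
    intro z hz hP
    by_cases c1 : M.nx.SameCycle d1 (M.iv z)
    · exact P1 _ c1
    by_cases c2 : M.nx.SameCycle d2 (M.iv z)
    · exact P2 _ c2
    have n1 : z ≠ d1 := by
      intro h
      rw [h] at c2
      exact c2 t1.symm
    have n2 : z ≠ d2 := by
      intro h
      rw [h] at c1
      exact c1 t2.symm
    have zB : z ∈ B := by
      rcases hP z hz (Equiv.Perm.SameCycle.refl _ _) with h | h | h
      · exact absurd h n1
      · exact absurd h n2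
      · exact h
    have n3 : M.iv z ≠ d1 := by
      intro h
      rw [h] at c1
      exact c1 (Equiv.Perm.SameCycle.refl _ _)
    have n4 : M.iv z ≠ d2 := by
      intro h
      rw [h] at c2
      exact c2 (Equiv.Perm.SameCycle.refl _ _)
    have n5 : M.iv z ≠ M.iv d1 := fun h => n1 (M.iv.injective h)
    have n6 : M.iv z ≠ M.iv d2 := fun h => n2 (M.iv.injective h)
    have ivB : M.iv z ∈ B := by
      have h := Bsi z zB
      have h' : si M d1 d2 z = M.iv z := by
        show tau M d1 d2 (M.iv z) = M.iv z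
        exact a8 _ n3 n4 n5 n6
      rwa [h'] at h
    -- the cycle of `iv z`
    have cyc : ∀ k : ℕ, (M.nx ^ k) (M.iv z) ∈ B := by
      intro k
      induction k with
      | zero => exact ivB
      | succ k ih =>
        have hc : M.nx.SameCycle (M.iv z) ((M.nx ^ k) (M.iv z)) :=
          Equiv.Perm.sameCycle_pow_right.mpr (Equiv.Perm.SameCycle.refl _ _)
        have m1 : (M.nx ^ k) (M.iv z) ≠ d1 := by
          intro h
          rw [h] at hc
          exact c1 hc.symm
        have m2 : (M.nx ^ k) (M.iv z) ≠ d2 := by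
          intro h
          rw [h] at hc
          exact c2 hc.symm
        have m3 : (M.nx ^ k) (M.iv z) ≠ M.iv d1 := by
          intro h
          rw [h] at hc
          exact c2 (t1.symm.trans hc.symm)
        have m4 : (M.nx ^ k) (M.iv z) ≠ M.iv d2 := by
          intro h
          rw [h] at hc
          exact c1 (t2.symm.trans hc.symm)
        have h1 : (M.nx ^ (k + 1)) (M.iv z) = sn M d1 d2 ((M.nx ^ k) (M.iv z)) := by
          rw [pow_succ', Equiv.Perm.mul_apply]
          show _ = M.nx (tau M d1 d2 ((M.nx ^ k) (M.iv z)))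
          rw [a8 _ m1 m2 m3 m4]
        rw [h1]
        exact Bcyc _ _ ih (Equiv.Perm.sameCycle_apply_right.mpr (Equiv.Perm.SameCycle.refl _ _))
    intro x _ hzx
    obtain ⟨k, hk⟩ := hzx.exists_nat_pow_eq
    rw [← hk]
    exact Or.inr (Or.inr (cyc k))
  have Pall : P x := by
    have h := Tfbx.eg_iff (fun x y => y = M.nx x ∨ (x ∈ S ∧ y = M.iv x)) P (by
      rintro x y (h | ⟨hxS, h⟩)
      · rw [h]
        exact Pnx x
      · rw [h]
        constructor
        · exact Piv x hxS
        · intro h'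
          have h'' := Piv (M.iv x) (hg.1 x hxS) h'
          rwa [hii] at h'') d1 x (hS d1 hd1 x hx)
    exact h.mp (P1 d1 (Equiv.Perm.SameCycle.refl _ _))
  exact Pall x hx (Equiv.Perm.SameCycle.refl _ _)

end Pool.Agent.UQC
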