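import Pool.Agent.UQC.St

/-!
# Module Tfc (helper44): different faces with two darts have disjoint sides
-/

set_option autoImplicit false

noncomputable section

namespace Pool.Agent.UQC

open scoped Classical

namespace Tfcx

/-- A side is closed under the new rotation and the new reversal. -/
theorem sd_sn {D : Type} (M : CMap D) (d1 d2 x : D) :
    x ∈ Sd M d1 d2 ↔ sn M d1 d2 x ∈ Sd M d1 d2 :=
  ⟨fun h => Relation.EqvGen.trans _ _ _ h (Relation.EqvGen.rel _ _ (Or.inl rfl)),
    fun h => Relation.EqvGen.trans _ _ _ h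
      (Relation.EqvGen.symm _ _ (Relation.EqvGen.rel _ _ (Or.inl rfl)))⟩

theorem sd_si {D : Type} (M : CMap D) (d1 d2 x : D) :
    x ∈ Sd M d1 d2 ↔ si M d1 d2 x ∈ Sd M d1 d2 :=
  ⟨fun h => Relation.EqvGen.trans _ _ _ h (Relation.EqvGen.rel _ _ (Or.inr rfl)),
    fun h => Relation.EqvGen.trans _ _ _ h
      (Relation.EqvGen.symm _ _ (Relation.EqvGen.rel _ _ (Or.inr rfl)))⟩

end Tfcx

open Tfcx in
theorem thm_Tfc (hSga : St_Sga) (hSgc : St_Sgc) (hTfa : St_Tfa) (hTfb : St_Tfb) : St_Tfc := by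
  intro D _ M hM S g hSg hSC d1 d2 c1 c2 hd hdn hc hcn hcyc x hx
  -- the pairs are parallel
  have hPd : Par M d1 d2 :=
    ⟨(hTfa D M hM S g hSg d1 d2 hd).2.1.symm, (hTfa D M hM S g hSg d1 d2 hd).1.symm, hdn⟩
  have hPc : Par M c1 c2 :=
    ⟨(hTfa D M hM S g hSg c1 c2 hc).2.1.symm, (hTfa D M hM S g hSg c1 c2 hc).1.symm, hcn⟩
  obtain ⟨_, _, _, hdt1, hdt2, hdt3, hdt4, hdt5, _, _, _, _⟩ := hSga D M hM d1 d2 hPd
  obtain ⟨_, _, hct0, hct1, hct2, hct3, hct4, hct5, _, ⟨_, hcs⟩, _, _⟩ := hSga D M hM c1 c2 hPc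
  obtain ⟨hdA, _, hd1A, _, _, _⟩ := hSgc D M hM d1 d2 hPd
  obtain ⟨hcA, _, _, _, hc1B, hc2B⟩ := hSgc D M hM c1 c2 hPc
  have hTd := hTfb D M hM S g hSg hSC d1 d2 hd hdn
  have hTc := hTfb D M hM S g hSg hSC c1 c2 hc hcn
  obtain ⟨_, hd1S, hd2S, hd12, _⟩ := hd
  obtain ⟨_, hc1S, hc2S, hc12, _⟩ := hc
  have hiS := hSg.1
  -- the four darts are different from c1, c2
  have h11 : d1 ≠ c1 := fun h => hcyc (h ▸ Equiv.Perm.SameCycle.refl _ _)
  have h12 : d1 ≠ c2 := fun h => hcyc (by rw [h]; exact hc12.symm)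
  have h21 : d2 ≠ c1 := fun h => hcyc (by rw [← h]; exact hd12)
  have h22 : d2 ≠ c2 := fun h => hcyc (hd12.trans (by rw [h]; exact hc12.symm))
  have hd1B : d1 ∈ Sd M (M.iv c2) (M.iv c1) := by
    rcases hTc d1 hd1S with h | h | h
    · exact absurd h h11
    · exact absurd h h12
    · exact h
  have hd2B : d2 ∈ Sd M (M.iv c2) (M.iv c1) := by
    rcases hTc d2 hd2S with h | h | h
    · exact absurd h h21
    · exact absurd h h22
    · exact h
  -- closure of the other side of c
  have hBn : ∀ z, z ∈ Sd M (M.iv c2) (M.iv c1) ↔ sn M c1 c2 z ∈ Sd M (M.iv c2) (M.iv c1) := by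
    intro z
    have h := sd_sn M (M.iv c2) (M.iv c1) z
    have e : sn M (M.iv c2) (M.iv c1) = sn M c1 c2 := by simp only [sn, hcs]
    rw [e] at h
    exact h
  have hBi : ∀ z, z ∈ Sd M (M.iv c2) (M.iv c1) ↔ si M c1 c2 z ∈ Sd M (M.iv c2) (M.iv c1) := by
    intro z
    have h := sd_si M (M.iv c2) (M.iv c1) z
    have e : si M (M.iv c2) (M.iv c1) = si M c1 c2 := by simp only [si, hcs]
    rw [e] at h
    exact h
  -- darts of S in the side of d1
  have hAS : ∀ z ∈ S, z ∈ Sd M d1 d2 → z = d1 ∨ z = d2 := by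
    intro z hz hzA
    rcases hTd z hz with h | h | h
    · exact Or.inl h
    · exact Or.inr h
    · exact absurd h (hdA z hzA)
  -- the images of the darts under the rotation
  have hiv : ∀ z, z ∈ S → M.iv z ≠ M.iv c1 → M.iv z ≠ M.iv c2 →
      M.nx (M.iv z) ∈ Sd M (M.iv c2) (M.iv c1) := by
    intro z hz n1 n2
    have hzS : M.iv z ∈ S := hiS z hz
    have key : tau M c1 c2 (M.iv z) ∈ Sd M (M.iv c2) (M.iv c1) := by
      by_cases e1 : M.iv z = c1
      · rw [e1, hct1]; exact hc2B
      · by_cases e2 : M.iv z = c2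
        · rw [e2, hct2]; exact hc1B
        · rw [hct5 _ e1 e2 n1 n2]
          rcases hTc _ hzS with h | h | h
          · exact absurd h e1
          · exact absurd h e2
          · exact h
    have := (hBn _).1 key
    have e : sn M c1 c2 (tau M c1 c2 (M.iv z)) = M.nx (M.iv z) := by
      show M.nx (tau M c1 c2 (tau M c1 c2 (M.iv z))) = _
      rw [hct0]
    rwa [e] at this
  have hout : ∀ z, z ∉ S → tau M d1 d2 z = z ∧ tau M c1 c2 z = z := by
    intro z hz
    constructor
    · apply hdt5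
      · rintro rfl; exact hz hd1S
      · rintro rfl; exact hz hd2S
      · rintro rfl; exact hz (hiS _ hd1S)
      · rintro rfl; exact hz (hiS _ hd2S)
    · apply hct5
      · rintro rfl; exact hz hc1S
      · rintro rfl; exact hz hc2S
      · rintro rfl; exact hz (hiS _ hc1S)
      · rintro rfl; exact hz (hiS _ hc2S)
  have main : ∀ y z, Relation.EqvGen (fun x y => y = sn M d1 d2 x ∨ y = si M d1 d2 x) y z →
      (y ∈ Sd M d1 d2 ↔ z ∈ Sd M d1 d2) ∧
        (y ∈ Sd M d1 d2 → (y ∈ Sd M (M.iv c2) (M.iv c1) ↔ z ∈ Sd M (M.iv c2) (M.iv c1))) := by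
    intro y z h
    induction h with
    | rel y z h =>
      rcases h with rfl | rfl
      · refine ⟨sd_sn M d1 d2 y, fun hy => ?_⟩
        by_cases hyS : y ∈ S
        · rcases hAS y hyS hy with rfl | rfl
          · have e : sn M y d2 y = M.nx (M.iv d2) := by
              show M.nx (tau M y d2 y) = _
              rw [hdt1]
            rw [e]
            refine ⟨fun _ => ?_, fun _ => hd1B⟩
            exact hiv d2 hd2S (fun h => h21 (M.iv.injective h)) (fun h => h22 (M.iv.injective h))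
          · have e : sn M d1 y y = M.nx (M.iv d1) := by
              show M.nx (tau M d1 y y) = _
              rw [hdt2]
            rw [e]
            refine ⟨fun _ => ?_, fun _ => hd2B⟩
            exact hiv d1 hd1S (fun h => h11 (M.iv.injective h)) (fun h => h12 (M.iv.injective h))
        · have e : sn M d1 d2 y = sn M c1 c2 y := by
            show M.nx (tau M d1 d2 y) = M.nx (tau M c1 c2 y)
            rw [(hout y hyS).1, (hout y hyS).2]
          rw [e]
          exact hBn y
      · refine ⟨sd_si M d1 d2 y, fun hy => ?_⟩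
        by_cases hyS : y ∈ S
        · rcases hAS y hyS hy with rfl | rfl
          · have e : si M y d2 y = d2 := by
              show tau M y d2 (M.iv y) = _
              rw [hdt3]
            rw [e]
            exact ⟨fun _ => hd2B, fun _ => hd1B⟩
          · have e : si M d1 y y = d1 := by
              show tau M d1 y (M.iv y) = _
              rw [hdt4]
            rw [e]
            exact ⟨fun _ => hd1B, fun _ => hd2B⟩
        · have hiyS : M.iv y ∉ S := fun h => hyS (by have := hiS _ h; rwa [M.iv_iv] at this)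
          have e : si M d1 d2 y = si M c1 c2 y := by
            show tau M d1 d2 (M.iv y) = tau M c1 c2 (M.iv y)
            rw [(hout _ hiyS).1, (hout _ hiyS).2]
          rw [e]
          exact hBi y
    | refl y => exact ⟨Iff.rfl, fun _ => Iff.rfl⟩
    | symm y z _ ih => exact ⟨ih.1.symm, fun h => (ih.2 (ih.1.2 h)).symm⟩
    | trans y z w _ _ ih1 ih2 =>
      exact ⟨ih1.1.trans ih2.1, fun h => (ih1.2 h).trans (ih2.2 (ih1.1.1 h))⟩
  have hxB : x ∈ Sd M (M.iv c2) (M.iv c1) := ((main d1 x hx).2 hd1A).1 hd1B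
  exact fun h => hcA x h hxB

end Pool.Agent.UQC
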