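import Pool.Agent.UQC.St

/-!
# UQC: module Tfd (helper75)

A face with the darts `d, iv d` only: the submap is a single edge.
-/

set_option autoImplicit false

noncomputable section

namespace Pool.Agent.UQC

open scoped Classical

theorem thm_Tfd (hTfa : St_Tfa) : St_Tfd := by
  intro D _ M hM S g hS hC d hT
  obtain ⟨-, -, -, hd⟩ := hTfa D M hM S g hS d (M.iv d) hT
  obtain ⟨h1, h2⟩ := hd rfl
  have hdS : d ∈ S := hT.2.1
  have hivS : M.iv d ∈ S := hT.2.2.1
  -- the property P
  have hPd : ∀ x ∈ S, M.nx.SameCycle d x → x = d ∨ x = M.iv d := fun x hx hc => Or.inl (h1 x hx hc)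
  have hPi : ∀ x ∈ S, M.nx.SameCycle (M.iv d) x → x = d ∨ x = M.iv d :=
    fun x hx hc => Or.inr (h2 x hx hc)
  have key : ∀ a b : D, Relation.EqvGen (fun x y => y = M.nx x ∨ (x ∈ S ∧ y = M.iv x)) a b →
      ((∀ x ∈ S, M.nx.SameCycle a x → x = d ∨ x = M.iv d) ↔
        (∀ x ∈ S, M.nx.SameCycle b x → x = d ∨ x = M.iv d)) := by
    intro a b h
    induction h with
    | rel a b h =>
      rcases h with h | ⟨haS, h⟩
      · subst h
        simp only [Equiv.Perm.sameCycle_apply_left]
      · subst h
        constructor
        · intro hP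
          rcases hP a haS (Equiv.Perm.SameCycle.refl _ _) with h | h
          · rw [h]; exact hPi
          · rw [h, M.iv_iv]; exact hPd
        · intro hP
          rcases hP (M.iv a) (hS.1 a haS) (Equiv.Perm.SameCycle.refl _ _) with h | h
          · have : a = M.iv d := by rw [← h, M.iv_iv]
            rw [this]; exact hPi
          · have : a = d := by
              have := congrArg M.iv h
              rwa [M.iv_iv, M.iv_iv] at this
            rw [this]; exact hPd
    | refl a => exact Iff.rfl
    | symm a b _ ih => exact ih.symm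
    | trans a b c _ _ ih1 ih2 => exact ih1.trans ih2
  ext x
  simp only [Set.mem_insert_iff, Set.mem_singleton_iff]
  constructor
  · intro hx
    exact (key d x (hC d hdS x hx)).1 hPd x hx (Equiv.Perm.SameCycle.refl _ _)
  · rintro (h | h)
    · rw [h]; exact hdS
    · rw [h]; exact hivS

end Pool.Agent.UQC
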