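import Pool.Agent.UQC.St

/-!
# UQC, module ThA : the graph theorem
-/

set_option autoImplicit false

noncomputable section

namespace Pool.Agent.UQC

open scoped Classical

namespace ThAx

theorem hf_nonneg {V : Type} (m : V → V → ℕ) (x y : V) : 0 ≤ hf m x y := by
  unfold hf
  positivity

theorem hf_symm {V : Type} {m : V → V → ℕ} (hm : MG m) (x y : V) : hf m x y = hf m y x := by
  unfold hf
  rw [hm.1]

theorem ps_t {V : Type} (w : V → V → ℝ) (t : V) (U : Finset V) : ps w {t} U t = 1 := by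
  rw [ps_eq, if_pos (Finset.mem_singleton_self t)]

/-- The claim for the sets with `n` elements. -/
def Cl (V : Type) (n : ℕ) : Prop := ∀ m : V → V → ℕ, MG m → ∀ X : Finset V, X.card = n →
  Tg m X → ∀ s t : V, s ∈ X → t ∈ X → s ≠ t → 1 ≤ ps (hf m) {t} (X.erase s) s

theorem case1 (hDel : St_Del) {V : Type} {n : ℕ} (ih : Cl V n) {m : V → V → ℕ} (hm : MG m)
    {X : Finset V} (hX : X.card = n + 1) (hT : Tg m X) {s t : V} (hs : s ∈ X) (ht : t ∈ X)
    (hst : s ≠ t) (hd : dg m X s = 2) : 1 ≤ ps (hf m) {t} (X.erase s) s := by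
  have hT' := hDel V m hm X hT s hs hd
  have hcard : (X.erase s).card = n := by
    rw [Finset.card_erase_of_mem hs, hX]
    rfl
  have hts : t ∈ X.erase s := Finset.mem_erase.2 ⟨hst.symm, ht⟩
  have key : ∀ y ∈ X.erase s, 1 ≤ ps (hf m) {t} ((X.erase s).erase y) y := by
    intro y hy
    by_cases hyt : y = t
    · rw [hyt, ps_t]
    · exact ih m hm (X.erase s) hcard hT' y t hy hts hyt
  have hsum : ∑ y ∈ X.erase s, hf m s y = 1 := by
    have h1 : dg m X s = ∑ y ∈ X.erase s, m s y := by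
      unfold dg
      rw [← Finset.add_sum_erase X _ hs, hm.2, zero_add]
    have h2 : ((∑ y ∈ X.erase s, m s y : ℕ) : ℝ) = 2 := by
      rw [← h1, hd]
      norm_num
    unfold hf
    rw [← Finset.sum_div]
    push_cast at h2
    rw [h2]
    norm_num
  rw [ps_eq, if_neg (by rw [Finset.mem_singleton]; exact hst), ← hsum]
  apply Finset.sum_le_sum
  intro y hy
  exact le_mul_of_one_le_right (hf_nonneg m s y) (key y hy)

theorem case2 (hPsm : St_Psm) (hDel : St_Del) {V : Type} {n : ℕ} (ih : Cl V n) {m : V → V → ℕ}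
    (hm : MG m) {X : Finset V} (hX : X.card = n + 1) (hT : Tg m X) {s t v : V} (hs : s ∈ X)
    (ht : t ∈ X) (hst : s ≠ t) (hv : v ∈ X) (hvs : v ≠ s) (hvt : v ≠ t) (hd : dg m X v = 2) :
    1 ≤ ps (hf m) {t} (X.erase s) s := by
  have hT' := hDel V m hm X hT v hv hd
  have hcard : (X.erase v).card = n := by
    rw [Finset.card_erase_of_mem hv, hX]
    rfl
  have h1 := ih m hm (X.erase v) hcard hT' s t (Finset.mem_erase.2 ⟨hvs.symm, hs⟩)
    (Finset.mem_erase.2 ⟨hvt.symm, ht⟩) hst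
  have h2 := (hPsm V V (hf m) (hf m) id Function.injective_id (hf_nonneg m)
    (fun x y => le_rfl) (hf_nonneg m) {t} {t} (fun x => Iff.rfl) ((X.erase v).erase s) (X.erase s)
    (by
      intro x hx
      rw [Finset.mem_erase, Finset.mem_erase] at hx
      exact Finset.mem_erase.2 ⟨hx.1, hx.2.2⟩) s).2
  exact h1.trans h2

theorem case3 (hAdd : St_Add) (hStr : St_Str) (hEsb : St_Esb) (hSpl : St_Spl) {V : Type} {n : ℕ}
    (ih : Cl V n) {m : V → V → ℕ} (hm : MG m) {X : Finset V} (hX : X.card = n + 1) (hT : Tg m X)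
    {s t v : V} (hs : s ∈ X) (ht : t ∈ X) (hst : s ≠ t) (hv : v ∈ X) (hvs : v ≠ s)
    (hvt : v ≠ t) (hd : dg m X v = 3) : 1 ≤ ps (hf m) {t} (X.erase s) s := by
  obtain ⟨r, F, hr, hF, hrF, hTF, hsum⟩ := hSpl V m hm X hT v hv hd
  have hcard : (X.erase v).card = n := by
    rw [Finset.card_erase_of_mem hv, hX]
    rfl
  obtain ⟨U, hU⟩ : ∃ U : Finset V, U = (X.erase v).erase s := ⟨_, rfl⟩
  have hXU : X.erase s = insert v U := by
    rw [hU, Finset.erase_right_comm, Finset.insert_erase]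
    exact Finset.mem_erase.2 ⟨hvs, hv⟩
  have hsU : s ∉ U := by
    rw [hU]
    exact Finset.notMem_erase _ _
  have hvU : v ∉ U := by
    rw [hU]
    intro h
    exact Finset.notMem_erase v X (Finset.mem_of_mem_erase h)
  have hvF : v ∉ F := fun h => Finset.notMem_erase v X (hF h)
  have hrv : r ≠ v := Finset.ne_of_mem_erase hr
  have hp : ∀ p ∈ F, 1 ≤ ps (hf m) {t} U s + 1 / 2 * rs (hf m) {t} p r U s := by
    intro p hp
    have hpr : p ≠ r := fun h => hrF (h ▸ hp)
    have h1 := ih (ae m p r) (hEsb V m hm p r hpr).1 (X.erase v) hcard (hTF p hp) s t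
      (Finset.mem_erase.2 ⟨hvs.symm, hs⟩) (Finset.mem_erase.2 ⟨hvt.symm, ht⟩) hst
    rw [← hU] at h1
    have h2 : hf (ae m p r) = fun x y => hf m x y +
        if (x = p ∧ y = r) ∨ (x = r ∧ y = p) then (1 / 2 : ℝ) else 0 := by
      funext x y
      unfold hf ae
      split_ifs
      · push_cast
        ring
      · push_cast
        ring
    rw [h2, hAdd V (hf m) {t} p r (1 / 2) hpr U s hsU] at h1
    exact h1
  have hst3 := hStr V (hf m) (hf_nonneg m) (hf_symm hm) {t} v r F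
    (by rw [Finset.mem_singleton]; exact hvt) hrv hvF hrF U s hvU hsU hvs.symm
  rw [hXU]
  refine le_trans ?_ hst3
  obtain ⟨A, hA⟩ : ∃ A : ℝ, A = ps (hf m) {t} U s := ⟨_, rfl⟩
  rw [← hA] at hp ⊢
  have hc : ∑ p ∈ F, (m v p : ℝ) * (m v r : ℝ) = 2 := by
    have : ((∑ p ∈ F, m v p * m v r : ℕ) : ℝ) = 2 := by
      rw [hsum]
      norm_num
    push_cast at this
    exact this
  have h4 : ∑ p ∈ F, ((m v p : ℝ) * (m v r : ℝ) / 2) * 1 ≤
      ∑ p ∈ F, ((m v p : ℝ) * (m v r : ℝ) / 2) * (A + 1 / 2 * rs (hf m) {t} p r U s) :=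
    Finset.sum_le_sum (fun p hpF => mul_le_mul_of_nonneg_left (hp p hpF) (by positivity))
  have h5 : ∑ p ∈ F, ((m v p : ℝ) * (m v r : ℝ) / 2) * 1 = 1 := by
    simp only [mul_one]
    rw [← Finset.sum_div, hc]
    norm_num
  have h6 : ∑ p ∈ F, ((m v p : ℝ) * (m v r : ℝ) / 2) * (A + 1 / 2 * rs (hf m) {t} p r U s) =
      A + ∑ p ∈ F, hf m v p * hf m v r * rs (hf m) {t} p r U s := by
    have h7 : ∀ p ∈ F, ((m v p : ℝ) * (m v r : ℝ) / 2) *
        (A + 1 / 2 * rs (hf m) {t} p r U s) =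
        ((m v p : ℝ) * (m v r : ℝ)) * (A / 2) + hf m v p * hf m v r * rs (hf m) {t} p r U s := by
      intro p _
      unfold hf
      ring
    rw [Finset.sum_congr rfl h7, Finset.sum_add_distrib, ← Finset.sum_mul, hc]
    ring
  rw [h5, h6] at h4
  exact h4

end ThAx

/-- (ThA) The graph theorem. -/
theorem thm_ThA (hPsm : St_Psm) (hAdd : St_Add) (hStr : St_Str) (hEsb : St_Esb) (hLow : St_Low)
    (hDel : St_Del) (hSpl : St_Spl) : St_ThA := by
  intro V
  have main : ∀ n : ℕ, ThAx.Cl V n := by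
    intro n
    induction n with
    | zero =>
      intro m _ X hX _ s t hs
      rw [Finset.card_eq_zero] at hX
      rw [hX] at hs
      exact absurd hs (Finset.notMem_empty s)
    | succ n ih =>
      intro m hm X hX hT s t hs ht hst
      rcases hLow V m hm X hT s t hs ht hst with hd | ⟨v, hv, hvs, hvt, hd | hd⟩
      · exact ThAx.case1 hDel ih hm hX hT hs ht hst hd
      · exact ThAx.case2 hPsm hDel ih hm hX hT hs ht hst hv hvs hvt hd
      · exact ThAx.case3 hAdd hStr hEsb hSpl ih hm hX hT hs ht hst hv hvs hvt hd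
  intro m hm X hT s t hs ht hst
  exact main X.card m hm X rfl hT s t hs ht hst

end Pool.Agent.UQC
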