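import Pool.Agent.UQC.St

set_option autoImplicit false

noncomputable section

open scoped Classical

namespace Pool.Agent.UQC

open Finset

theorem thm_ThH (hPsm : St_Psm) (hThA : St_ThA) (hRed : St_Red) : St_ThH := by
  intro V m hm X s t hs ht hst h1 h2
  obtain ⟨m', hm', hle, hT⟩ := hRed V m hm X t ht h1 h2
  have h3 := hThA V m' hm' X hT s t hs ht hst
  have h4 := hPsm V V (hf m') (hf m) id Function.injective_id (fun x y => by unfold hf; positivity)
    (fun x y => by
      unfold hf
      have : (m' x y : ℝ) ≤ m x y := by exact_mod_cast hle x y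
      simp only [id]
      linarith)
    (fun x y => by unfold hf; positivity) {t} {t} (fun x => Iff.rfl) (X.erase s) (X.erase s) (fun x hx => hx) s
  exact h3.trans h4.2

end Pool.Agent.UQC
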