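import Pool.Agent.UQC.St

/-!
# (Trf) Transfer of walks (MP_0dee97_pr; helper46 for helper63)
-/

set_option autoImplicit false

noncomputable section

open scoped Classical

namespace Pool.Agent.UQC

theorem thm_Trf (hRcr : St_Rcr) : St_Trf := by
  intro D D' M M' ρ ρ' r p hm hm'
  obtain ⟨f, hf⟩ := hm
  obtain ⟨f', hf'⟩ := hm'
  obtain ⟨hsame, -⟩ := hRcr D D' M M' ρ ρ' (r + 2) p f f' hf hf'
  obtain ⟨hinj, hran, hrt, hnx, hiv⟩ := hf
  obtain ⟨hinj', hran', hrt', hnx', hiv'⟩ := hf'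
  -- the transfer of darts
  let φ : D' → D := fun d => if h : ∃ i, f' i = d then f h.choose else ρ
  have hφ : ∀ i, φ (f' i) = f i := by
    intro i
    have h : ∃ j, f' j = f' i := ⟨i, rfl⟩
    have h1 : φ (f' i) = f h.choose := dif_pos h
    rw [h1, hinj' h.choose_spec]
  have hmono : ∀ q : ℕ, ∀ d ∈ reach M' ρ' q, d ∈ reach M' ρ' (q + 1) := fun q d hd =>
    ⟨d, hd, Or.inl (Equiv.Perm.SameCycle.refl _ _)⟩
  have hin : ∀ d ∈ reach M' ρ' r, ∃ i, f' i = d := by
    intro d hd
    have h1 : d ∈ reach M' ρ' (r + 2) := hmono _ _ (hmono _ _ hd)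
    rw [← hran'] at h1
    exact h1
  have hin2 : ∀ d ∈ reach M' ρ' r, ∃ i, f' i = M'.iv d := by
    intro d hd
    have h0 : M'.iv d ∈ reach M' ρ' (r + 1) := ⟨d, hd, Or.inr (Equiv.Perm.SameCycle.refl _ _)⟩
    have h1 : M'.iv d ∈ reach M' ρ' (r + 2) := hmono _ _ h0
    rw [← hran'] at h1
    exact h1
  have hφiv : ∀ d ∈ reach M' ρ' r, M.iv (φ d) = φ (M'.iv d) := by
    intro d hd
    obtain ⟨i, hi⟩ := hin d hd
    obtain ⟨j, hj⟩ := hin2 d hd
    have h1 : p.iv i = some j := (hiv' i j).2 (by rw [hi, hj])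
    have h2 := (hiv i j).1 h1
    rw [← hj, hφ j, ← hi, hφ i]
    exact h2
  -- the two forms of the transfer of cycles
  have hs : ∀ a b : D', (∃ i, f' i = a) → (∃ j, f' j = b) →
      (M.nx.SameCycle (φ a) (φ b) ↔ M'.nx.SameCycle a b) := by
    rintro a b ⟨i, hi⟩ ⟨j, hj⟩
    rw [← hi, ← hj, hφ i, hφ j]
    exact hsame i j
  refine ⟨List.map φ, ?_, ?_⟩
  · intro l hl hd
    obtain ⟨h1, h2, h3⟩ := hl
    refine ⟨⟨?_, ?_, ?_⟩, List.length_map _⟩
    · intro x hx
      rw [List.head?_map, Option.map_eq_some_iff] at hx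
      obtain ⟨d, hd1, hd2⟩ := hx
      have hdm : d ∈ l := List.mem_of_mem_head? hd1
      have h4 := h1 d hd1
      have h5 := (hs ρ' d ⟨p.rt, hrt'⟩ (hin d (hd d hdm))).2 h4
      have h6 : φ ρ' = ρ := by rw [← hrt', hφ, hrt]
      rw [h6, hd2] at h5
      exact h5
    · rw [List.isChain_iff_getElem] at h2 ⊢
      intro i hi
      have hi' : i + 1 < l.length := by
        rw [List.length_map] at hi
        exact hi
      rw [List.getElem_map, List.getElem_map]
      have hm1 : l[i] ∈ l := List.getElem_mem _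
      have hm2 : l[i + 1] ∈ l := List.getElem_mem _
      have h4 := h2 i hi'
      rw [hφiv _ (hd _ hm1)]
      exact (hs _ _ (hin2 _ (hd _ hm1)) (hin _ (hd _ hm2))).2 h4
    · intro i j hi hj hij hc
      rw [List.length_map] at hi hj
      rw [List.getElem_map, List.getElem_map] at hc
      have hm1 : l[i] ∈ l := List.getElem_mem _
      have hm2 : l[j] ∈ l := List.getElem_mem _
      rw [hφiv _ (hd _ hm2)] at hc
      exact h3 i j hi hj hij ((hs _ _ (hin _ (hd _ hm1)) (hin2 _ (hd _ hm2))).1 hc)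
  · intro l1 h1 l2 h2 h
    have hlen : l1.length = l2.length := by
      have h3 := congrArg List.length h
      rw [List.length_map, List.length_map] at h3
      exact h3
    refine List.ext_getElem hlen fun i hi1 hi2 => ?_
    have h3 : φ l1[i] = φ l2[i] := by
      have h4 : (List.map φ l1)[i]'(by rw [List.length_map]; exact hi1) =
          (List.map φ l2)[i]'(by rw [List.length_map]; exact hi2) := by
        simp only [h]
      rw [List.getElem_map, List.getElem_map] at h4
      exact h4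
    obtain ⟨a, ha⟩ := hin _ (h1 _ (List.getElem_mem hi1))
    obtain ⟨b, hb⟩ := hin _ (h2 _ (List.getElem_mem hi2))
    rw [← ha, ← hb, hφ, hφ] at h3
    rw [← ha, ← hb, hinj h3]

end Pool.Agent.UQC
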