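import Pool.Agent.UQC.St

set_option autoImplicit false

noncomputable section

namespace Pool.Agent.UQC

open scoped Classical
open MeasureTheory Filter

namespace UIax

theorem countable_pat : Countable Pat := by
  let φ : Pat → Σ k : ℕ, Fin k × Equiv.Perm (Fin k) × (Fin k → Option (Fin k)) :=
    fun p => ⟨p.k, p.rt, p.nx, p.iv⟩
  have hφ : Function.Injective φ := by
    rintro ⟨k, a, b, c⟩ ⟨k', a', b', c'⟩ h
    obtain ⟨rfl, h⟩ := Sigma.mk.inj h
    have h := eq_of_heq h
    simp only [Prod.mk.injEq] at h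
    obtain ⟨rfl, rfl, rfl⟩ := h
    rfl
  exact hφ.countable

end UIax

theorem thm_UIa (hPex : St_Pex) : St_UIa := by
  intro Ω _ P _ Q hQ
  have := UIax.countable_pat
  have hae : ∀ᵐ ω ∂P, ∀ (r : ℕ) (p : Pat), P.real {ω | Match r (Q ω) 0 p} = 0 →
      ¬ Match r (Q ω) 0 p := by
    rw [ae_all_iff]
    intro r
    rw [ae_all_iff]
    intro p
    by_cases h0 : P.real {ω | Match r (Q ω) 0 p} = 0
    · have h1 : P {ω | Match r (Q ω) 0 p} = 0 := by
        rwa [measureReal_eq_zero_iff (measure_ne_top P _)] at h0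
      have h2 := (measure_eq_zero_iff_ae_notMem.1 h1)
      filter_upwards [h2] with ω hω _
      exact hω
    · exact Filter.Eventually.of_forall fun ω h => absurd h h0
  filter_upwards [hQ.conn, hQ.locfin, hae] with ω hc hl ha
  refine ⟨inferInstance, hc, hl, fun r => ?_⟩
  obtain ⟨p, hp⟩ := hPex ℕ (Q ω) 0 hl r
  have h0 : P.real {ω | Match r (Q ω) 0 p} ≠ 0 := fun h => ha r p h hp
  have hev := (hQ.ball r p).eventually_ne h0
  obtain ⟨n, hn⟩ := hev.exists
  have h1 : Nat.card {M : CMap (Fin (4 * n + 4)) // IsQuad M ∧ Match r M 0 p} ≠ 0 := by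
    intro h
    apply hn
    rw [h]
    simp
  obtain ⟨⟨M, hM⟩⟩ := (Nat.card_ne_zero.1 h1).1
  exact ⟨n, M, p, hM.1, hp, hM.2⟩

end Pool.Agent.UQC
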