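import Pool.Agent.UQC.Add
import Pool.Agent.UQC.Bna
import Pool.Agent.UQC.Bnc
import Pool.Agent.UQC.Cnt
import Pool.Agent.UQC.Col
import Pool.Agent.UQC.Csp
import Pool.Agent.UQC.Csx
import Pool.Agent.UQC.Ctr
import Pool.Agent.UQC.Del
import Pool.Agent.UQC.Esa
import Pool.Agent.UQC.Esb
import Pool.Agent.UQC.EuM
import Pool.Agent.UQC.Eul
import Pool.Agent.UQC.Exc
import Pool.Agent.UQC.Far
import Pool.Agent.UQC.Fsw
import Pool.Agent.UQC.Gex
import Pool.Agent.UQC.Lim
import Pool.Agent.UQC.Low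
import Pool.Agent.UQC.Mmb
import Pool.Agent.UQC.N0b
import Pool.Agent.UQC.N2b
import Pool.Agent.UQC.Nca
import Pool.Agent.UQC.Ncf
import Pool.Agent.UQC.Nsw
import Pool.Agent.UQC.Pex
import Pool.Agent.UQC.Plw
import Pool.Agent.UQC.Psl
import Pool.Agent.UQC.Psm
import Pool.Agent.UQC.Pty
import Pool.Agent.UQC.Rcr
import Pool.Agent.UQC.Red
import Pool.Agent.UQC.Ser
import Pool.Agent.UQC.Sga
import Pool.Agent.UQC.Sgb
import Pool.Agent.UQC.Sgc
import Pool.Agent.UQC.Sgd
import Pool.Agent.UQC.Spl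
import Pool.Agent.UQC.Ste
import Pool.Agent.UQC.Str
import Pool.Agent.UQC.T1
import Pool.Agent.UQC.Tfa
import Pool.Agent.UQC.Tfb
import Pool.Agent.UQC.Tfc
import Pool.Agent.UQC.Tfd
import Pool.Agent.UQC.ThA
import Pool.Agent.UQC.ThH
import Pool.Agent.UQC.Trf
import Pool.Agent.UQC.UIa

/-!
# UQC: assembly (helper63)
-/

set_option autoImplicit false

namespace Pool.Agent.UQC

theorem all_Psm : St_Psm := thm_Psm

theorem all_Add : St_Add := thm_Add

theorem all_Str : St_Str := thm_Str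

theorem all_Esa : St_Esa := thm_Esa

theorem all_Esb : St_Esb := thm_Esb

theorem all_Low : St_Low := thm_Low all_Esa

theorem all_Del : St_Del := thm_Del all_Esa

theorem all_Spl : St_Spl := thm_Spl all_Esa all_Esb

theorem all_ThA : St_ThA := thm_ThA all_Psm all_Add all_Str all_Esb all_Low all_Del all_Spl

theorem all_Red : St_Red := thm_Red all_Esa

theorem all_ThH : St_ThH := thm_ThH all_Psm all_ThA all_Red

theorem all_Ctr : St_Ctr := thm_Ctr all_Esa all_ThH

theorem all_Csp : St_Csp := thm_Csp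

theorem all_Nsw : St_Nsw := thm_Nsw all_Csp

theorem all_Nca : St_Nca := thm_Nca

theorem all_Ncf : St_Ncf := thm_Ncf

theorem all_Eul : St_Eul := thm_Eul all_Nsw

theorem all_Gex : St_Gex := thm_Gex

theorem all_EuM : St_EuM := thm_EuM all_Eul all_Ncf

theorem all_Col : St_Col := thm_Col all_EuM all_Ncf

theorem all_Sga : St_Sga := thm_Sga all_Col

theorem all_Sgb : St_Sgb := thm_Sgb all_Csp all_Nsw all_Sga

theorem all_Sgc : St_Sgc := thm_Sgc all_EuM all_Ncf all_Sga all_Sgb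

theorem all_Sgd : St_Sgd := thm_Sgd all_Csp all_Nca all_EuM all_Ncf all_Sga all_Sgb all_Sgc

theorem all_Mmb : St_Mmb := thm_Mmb all_Col all_Ncf

theorem all_Ste : St_Ste := thm_Ste all_Psm all_Sga

theorem all_Exc : St_Exc := thm_Exc all_Sga all_Sgc

theorem all_Tfa : St_Tfa := thm_Tfa all_Csp all_Sga

theorem all_Tfb : St_Tfb := thm_Tfb all_Sga all_Sgc all_Tfa

theorem all_Tfc : St_Tfc := thm_Tfc all_Sga all_Sgc all_Tfa all_Tfb

theorem all_Tfd : St_Tfd := thm_Tfd all_Tfa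

theorem all_Cnt : St_Cnt := thm_Cnt

theorem all_Pty : St_Pty := thm_Pty all_Col

theorem all_N0b : St_N0b := thm_N0b

theorem all_N2b : St_N2b := thm_N2b all_Sga all_Sgc all_Exc all_Tfa all_Tfb all_Tfc all_Tfd

theorem all_Csx : St_Csx := thm_Csx

theorem all_Bnc : St_Bnc := thm_Bnc all_Gex all_EuM all_Mmb all_Cnt all_Pty all_N0b all_N2b all_Csx

theorem all_Bna : St_Bna := thm_Bna all_Esa all_Mmb all_Bnc

theorem all_T1 : St_T1 := thm_T1 all_Sga all_Sgd all_Mmb all_Ste all_Exc all_Bna all_Ctr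

theorem all_Psl : St_Psl := thm_Psl

theorem all_Plw : St_Plw := thm_Plw all_Col

theorem all_Rcr : St_Rcr := thm_Rcr

theorem all_Trf : St_Trf := thm_Trf all_Rcr

theorem all_Fsw : St_Fsw := thm_Fsw

theorem all_Far : St_Far := thm_Far all_Rcr

theorem all_Ser : St_Ser := thm_Ser all_T1 all_Psl all_Plw all_Trf all_Fsw all_Far

theorem all_Lim : St_Lim := thm_Lim

theorem all_Pex : St_Pex := thm_Pex

theorem all_UIa : St_UIa := thm_UIa all_Pex

theorem all_Fin : St_Fin := by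
  have h1 : ∀ (D : Type) (M : CMap D) (ρ : D), IsInfQuad M ρ → 2 ≤ mu M ρ := fun D M ρ h =>
    all_Lim (saws M ρ) (fun N => all_Ser D M ρ h N)
  refine ⟨h1, ?_⟩
  intro Ω _ P _ Q hQ
  filter_upwards [all_UIa Ω P Q hQ] with ω hω
  exact h1 ℕ (Q ω) 0 hω

end Pool.Agent.UQC
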