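import Mathlib

/-!
# Self-avoiding walks on infinite planar quadrangulations (MP_0dee97_pr): definitions (helper63)
-/

set_option autoImplicit false

noncomputable section

namespace Pool.Agent.UQC

/-- A map on oriented surfaces, given by its darts (oriented edges): `iv d` is the dart `d` reversed and
`nx d` is the dart that follows `d` in the rotation around the tail of `d`. The vertices are the cycles of
`nx`, the edges are the cycles of `iv`, the faces are the cycles of `fc = nx * iv`. -/
structure CMap (D : Type) where
  /-- rotation around the tail -/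
  nx : Equiv.Perm D
  /-- reversal -/
  iv : Equiv.Perm D
  iv_iv : ∀ d, iv (iv d) = d
  iv_ne : ∀ d, iv d ≠ d

/-- The face permutation: the dart that follows `d` along the face at its side. -/
def CMap.fc {D : Type} (M : CMap D) : Equiv.Perm D := M.nx * M.iv

/-- The number of cycles of a permutation (fixed points included). -/
def nc {D : Type} (f : Equiv.Perm D) : ℕ := Nat.card (Quotient (Equiv.Perm.SameCycle.setoid f))

/-- The map is connected. -/
def CMap.Conn {D : Type} (M : CMap D) : Prop :=
  ∀ x y : D, Relation.EqvGen (fun x y => y = M.nx x ∨ y = M.iv x) x y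

/-- A finite planar quadrangulation (of the sphere): connected, every face has exactly four darts, and
`V + F = E + 2`. -/
structure IsQuad {D : Type} (M : CMap D) : Prop where
  conn : M.Conn
  four : ∀ d, M.fc (M.fc (M.fc (M.fc d))) = d
  two : ∀ d, M.fc (M.fc d) ≠ d
  euler : nc M.nx + nc M.fc = nc M.iv + 2

/-- The darts whose tail is at graph distance at most `r` from the origin (the tail of the root dart `ρ`). -/
def reach {D : Type} (M : CMap D) (ρ : D) : ℕ → Set D
  | 0 => {d | M.nx.SameCycle ρ d}
  | r + 1 => {d | ∃ d' ∈ reach M ρ r, M.nx.SameCycle d' d ∨ M.nx.SameCycle (M.iv d') d}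

/-- A finite rooted map with some unpaired darts (half-edges), on the darts `0, …, k-1`. -/
structure Pat where
  k : ℕ
  rt : Fin k
  nx : Equiv.Perm (Fin k)
  iv : Fin k → Option (Fin k)

/-- The ball of radius `r` around the origin of the rooted map `(M, ρ)` (all vertices at distance at most
`r`, all edges between them, and the half-edges that leave it, with the rotations) is isomorphic to `p`. -/
def Match {D : Type} (r : ℕ) (M : CMap D) (ρ : D) (p : Pat) : Prop :=
  ∃ f : Fin p.k → D, Function.Injective f ∧ Set.range f = reach M ρ r ∧ f p.rt = ρ ∧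
    (∀ i, f (p.nx i) = M.nx (f i)) ∧ ∀ i j, p.iv i = some j ↔ M.iv (f i) = f j

/-- An infinite rooted planar quadrangulation: infinite, connected, locally finite, and every ball around
the origin is also the ball of a finite rooted planar quadrangulation (with `n + 1` faces, darts
`0, …, 4n+3` and root dart `0`). -/
structure IsInfQuad {D : Type} (M : CMap D) (ρ : D) : Prop where
  inf : Infinite D
  conn : M.Conn
  locfin : ∀ d, {d' | M.nx.SameCycle d d'}.Finite
  ball : ∀ r : ℕ, ∃ (n : ℕ) (M' : CMap (Fin (4 * n + 4))) (p : Pat),
    IsQuad M' ∧ Match r M ρ p ∧ Match r M' 0 p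

/-- The self-avoiding walks from the origin, as lists of darts `d₁, …, dₙ`: the tail of `d₁` is the origin,
the head of a dart is the tail of the next one, and the head of `dⱼ` is different from the tails of
`d₁, …, dⱼ` (so that the `n + 1` vertices are different). -/
def IsSAW {D : Type} (M : CMap D) (ρ : D) (l : List D) : Prop :=
  (∀ d, l.head? = some d → M.nx.SameCycle ρ d) ∧
    l.IsChain (fun d d' => M.nx.SameCycle (M.iv d) d') ∧
      ∀ (i j : ℕ) (hi : i < l.length) (hj : j < l.length), i ≤ j →
        ¬ M.nx.SameCycle l[i] (M.iv l[j])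

/-- The number of self-avoiding walks with `n` steps from the origin. -/
def saws {D : Type} (M : CMap D) (ρ : D) (n : ℕ) : ℕ :=
  Nat.card {l : List D // l.length = n ∧ IsSAW M ρ l}

/-- The connective constant. -/
def mu {D : Type} (M : CMap D) (ρ : D) : ENNReal :=
  Filter.limsup (fun n : ℕ => (saws M ρ n : ENNReal) ^ (1 / (n : ℝ))) Filter.atTop

open MeasureTheory in
/-- The uniform infinite planar quadrangulation, as a random infinite rooted map (darts `0, 1, 2, …`, root
dart `0`), connected and locally finite, whose balls are the limits in law of the balls of the uniform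
rooted planar quadrangulations with `n` faces, `n → ∞`. -/
structure IsUIPQ {Ω : Type} [MeasurableSpace Ω] (P : Measure Ω) (Q : Ω → CMap ℕ) : Prop where
  conn : ∀ᵐ ω ∂P, (Q ω).Conn
  locfin : ∀ᵐ ω ∂P, ∀ d, {d' | (Q ω).nx.SameCycle d d'}.Finite
  ball : ∀ (r : ℕ) (p : Pat), Filter.Tendsto
    (fun n : ℕ => (Nat.card {M : CMap (Fin (4 * n + 4)) // IsQuad M ∧ Match r M 0 p} : ℝ) /
      (Nat.card {M : CMap (Fin (4 * n + 4)) // IsQuad M} : ℝ))
    Filter.atTop (nhds (P.real {ω | Match r (Q ω) 0 p}))

end Pool.Agent.UQC
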