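import Pool.Agent.UQC.St

set_option autoImplicit false

noncomputable section

open scoped Classical

namespace Pool.Agent.UQC

open Finset

theorem thm_Low (hEsa : St_Esa) : St_Low := by
  intro V m hm X hT s t hs ht hst
  obtain ⟨-, e2, -, -, e5, -⟩ := hEsa V m hm
  have hts : t ∈ X.erase s := mem_erase.2 ⟨hst.symm, ht⟩
  have hc1 : (X.erase s).card + 1 = X.card := card_erase_add_one hs
  have hc2 : ((X.erase s).erase t).card + 1 = (X.erase s).card := card_erase_add_one hts
  have h2 : ∀ v ∈ X, 2 ≤ dg m X v := by
    intro v hv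
    have hcv : (X.erase v).card + 1 = X.card := card_erase_add_one hv
    have hne : (X.erase v).Nonempty := card_pos.1 (by omega)
    have h3 := hT.2 (X.erase v) (erase_subset _ _) hne
    have h4 := e2 X v hv
    have h5 := hT.1
    omega
  by_contra hcon
  push Not at hcon
  obtain ⟨hc, hc'⟩ := hcon
  have h3 : 3 ≤ dg m X s := by
    have := h2 s hs
    omega
  have h4 : ((X.erase s).erase t).card * 4 ≤ ∑ v ∈ (X.erase s).erase t, dg m X v := by
    rw [← smul_eq_mul]
    apply Finset.card_nsmul_le_sum
    intro v hv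
    have hv1 := mem_erase.1 hv
    have hv2 := mem_erase.1 hv1.2
    have h5 := h2 v hv2.2
    have h6 := hc' v hv2.2 hv2.1 hv1.1
    omega
  have h5 := e5 X
  rw [← Finset.add_sum_erase X (fun v => dg m X v) hs,
    ← Finset.add_sum_erase (X.erase s) (fun v => dg m X v) hts] at h5
  have h6 := hT.1
  have h7 := h2 t ht
  omega

end Pool.Agent.UQC
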