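import Pool.Agent.UQC.St

/-! # UQC, module Spl (splitting at a vertex of degree 3) -/

set_option autoImplicit false

noncomputable section

open scoped Classical

namespace Pool.Agent.UQC

namespace Splx

/-- A tight set meets the neighbourhood of `v` in at most two edges. -/
theorem tight_le (hEsa : St_Esa) {V : Type} {m : V → V → ℕ} (hm : MG m) {X : Finset V} (hX : Tg m X)
    {v : V} (hv : v ∈ X) {Y : Finset V} (hY : Y ⊆ X.erase v) (ht : es m Y + 4 = 4 * Y.card) :
    ∑ y ∈ Y, m v y ≤ 2 := by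
  have hvY : v ∉ Y := fun h => (Finset.mem_erase.1 (hY h)).1 rfl
  have hsub : insert v Y ⊆ X := by
    intro z hz
    rcases Finset.mem_insert.1 hz with h | h
    · rw [h]; exact hv
    · exact (Finset.mem_erase.1 (hY h)).2
  have h1 := hX.2 (insert v Y) hsub (Finset.insert_nonempty v Y)
  have h2 := (hEsa V m hm).2.1 (insert v Y) v (Finset.mem_insert_self v Y)
  rw [Finset.erase_insert hvY] at h2
  have h3 : dg m (insert v Y) v = ∑ y ∈ Y, m v y := by
    unfold dg
    rw [Finset.sum_insert hvY, hm.2 v, Nat.zero_add]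
  rw [h3] at h2
  rw [Finset.card_insert_of_notMem hvY] at h1
  omega

/-- A pair which is not contained in a tight set may be joined. -/
theorem unblocked (hEsa : St_Esa) (hEsb : St_Esb) {V : Type} {m : V → V → ℕ} (hm : MG m)
    {X : Finset V} (hX : Tg m X) {v : V} (he : es m (X.erase v) + 6 = 4 * (X.erase v).card)
    {a b : V} (hab : a ≠ b) (ha : a ∈ X.erase v) (hb : b ∈ X.erase v)
    (hno : ∀ Y ⊆ X.erase v, a ∈ Y → b ∈ Y → es m Y + 4 ≠ 4 * Y.card) :
    Tg (ae m a b) (X.erase v) := by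
  have hE := (hEsb V m hm a b hab).2
  refine ⟨?_, ?_⟩
  · rw [hE (X.erase v), if_pos ⟨ha, hb⟩]
    omega
  · intro Y hY hne
    have h1 := hX.2 Y (hY.trans (Finset.erase_subset v X)) hne
    rw [hE Y]
    by_cases h : a ∈ Y ∧ b ∈ Y
    · rw [if_pos h]
      have h2 := hno Y hY h.1 h.2
      obtain ⟨k, hk⟩ := (hEsa V m hm).1 Y
      omega
    · rw [if_neg h]
      omega

/-- Two pairs with a common vertex are not both blocked. -/
theorem two_blocked (hEsa : St_Esa) {V : Type} {m : V → V → ℕ} (hm : MG m) {X : Finset V}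
    (hX : Tg m X) {v : V} (hv : v ∈ X) {x y z : V} (hxy : x ≠ y) (hxz : x ≠ z) (hyz : y ≠ z)
    (h1 : m v x = 1) (h2 : m v y = 1) (h3 : m v z = 1)
    (hb : ∃ Y ⊆ X.erase v, x ∈ Y ∧ y ∈ Y ∧ es m Y + 4 = 4 * Y.card)
    (hc : ∃ Y ⊆ X.erase v, x ∈ Y ∧ z ∈ Y ∧ es m Y + 4 = 4 * Y.card) : False := by
  obtain ⟨Y, hY, hxY, hyY, htY⟩ := hb
  obtain ⟨Z, hZ, hxZ, hzZ, htZ⟩ := hc
  have e1 := (hEsa V m hm).2.2.1 Y Z
  have e2 := hX.2 (Y ∩ Z) ((Finset.inter_subset_left.trans hY).trans (Finset.erase_subset v X))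
    ⟨x, Finset.mem_inter.2 ⟨hxY, hxZ⟩⟩
  have e3 := Finset.card_union_add_card_inter Y Z
  have e4 := hX.2 (Y ∪ Z) ((Finset.union_subset hY hZ).trans (Finset.erase_subset v X))
    ⟨x, Finset.mem_union.2 (Or.inl hxY)⟩
  have e5 : es m (Y ∪ Z) + 4 = 4 * (Y ∪ Z).card := by omega
  have e6 := tight_le hEsa hm hX hv (Finset.union_subset hY hZ) e5
  have hsub : ({x, y, z} : Finset V) ⊆ Y ∪ Z := by
    intro w hw
    simp only [Finset.mem_insert, Finset.mem_singleton] at hw
    rcases hw with h | h | h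
    · rw [h]; exact Finset.mem_union.2 (Or.inl hxY)
    · rw [h]; exact Finset.mem_union.2 (Or.inl hyY)
    · rw [h]; exact Finset.mem_union.2 (Or.inr hzZ)
  have e7 : ∑ w ∈ ({x, y, z} : Finset V), m v w ≤ ∑ w ∈ Y ∪ Z, m v w :=
    Finset.sum_le_sum_of_subset hsub
  have e8 : ∑ w ∈ ({x, y, z} : Finset V), m v w = 3 := by
    rw [Finset.sum_insert (by simp [hxy, hxz]), Finset.sum_insert (by simp [hyz]),
      Finset.sum_singleton, h1, h2, h3]
    norm_num
  omega

/-- The conclusion from two pairs which are not blocked. -/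
theorem fin_pair (hEsa : St_Esa) (hEsb : St_Esb) {V : Type} {m : V → V → ℕ} (hm : MG m)
    {X : Finset V} (hX : Tg m X) {v : V} (he : es m (X.erase v) + 6 = 4 * (X.erase v).card)
    {r p q : V} (hpr : p ≠ r) (hqr : q ≠ r) (hpq : p ≠ q)
    (hr : r ∈ X.erase v) (hp : p ∈ X.erase v) (hq : q ∈ X.erase v)
    (h1 : m v r = 1) (h2 : m v p = 1) (h3 : m v q = 1)
    (hb : ¬ ∃ Y ⊆ X.erase v, p ∈ Y ∧ r ∈ Y ∧ es m Y + 4 = 4 * Y.card)
    (hc : ¬ ∃ Y ⊆ X.erase v, q ∈ Y ∧ r ∈ Y ∧ es m Y + 4 = 4 * Y.card) :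
    ∃ (r : V) (F : Finset V), r ∈ X.erase v ∧ F ⊆ X.erase v ∧ r ∉ F ∧
      (∀ p ∈ F, Tg (ae m p r) (X.erase v)) ∧ ∑ p ∈ F, m v p * m v r = 2 := by
  refine ⟨r, {p, q}, hr, ?_, ?_, ?_, ?_⟩
  · intro w hw
    rcases Finset.mem_insert.1 hw with h | h
    · rw [h]; exact hp
    · rw [Finset.mem_singleton.1 h]; exact hq
  · intro h
    rcases Finset.mem_insert.1 h with h | h
    · exact hpr h.symm
    · exact hqr (Finset.mem_singleton.1 h).symm
  · intro w hw
    rcases Finset.mem_insert.1 hw with h | h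
    · rw [h]
      exact unblocked hEsa hEsb hm hX he hpr hp hr (fun Y hY ha hb' ht => hb ⟨Y, hY, ha, hb', ht⟩)
    · rw [Finset.mem_singleton.1 h]
      exact unblocked hEsa hEsb hm hX he hqr hq hr (fun Y hY ha hb' ht => hc ⟨Y, hY, ha, hb', ht⟩)
  · rw [Finset.sum_insert (by simp [hpq]), Finset.sum_singleton, h1, h2, h3]

end Splx

theorem thm_Spl (hEsa : St_Esa) (hEsb : St_Esb) : St_Spl := by
  intro V m hm X hX v hv hd
  have hcard := Finset.card_erase_add_one hv
  have he : es m (X.erase v) + 6 = 4 * (X.erase v).card := by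
    have h1 := (hEsa V m hm).2.1 X v hv
    have h2 := hX.1
    omega
  have hs : ∑ y ∈ X.erase v, m v y = 3 := by
    have h1 : dg m X v = m v v + ∑ y ∈ X.erase v, m v y := by
      unfold dg
      exact (Finset.add_sum_erase X (fun y => m v y) hv).symm
    rw [hm.2 v] at h1
    omega
  have hle : ∀ x ∈ X.erase v, m v x ≤ 2 := by
    intro x hx
    have h1 := Splx.tight_le hEsa hm hX hv (Y := {x}) (Finset.singleton_subset_iff.2 hx) (by
      unfold es
      simp [hm.2 x])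
    simpa using h1
  by_cases hex : ∃ x1 ∈ X.erase v, m v x1 = 2
  · obtain ⟨x1, hx1, h1⟩ := hex
    have h2 : ∑ y ∈ (X.erase v).erase x1, m v y = 1 := by
      have h0 : m v x1 + ∑ y ∈ (X.erase v).erase x1, m v y = ∑ y ∈ X.erase v, m v y :=
        Finset.add_sum_erase (X.erase v) (fun y => m v y) hx1
      omega
    have h3 : ∃ x2 ∈ (X.erase v).erase x1, m v x2 ≠ 0 := by
      by_contra hcon
      push Not at hcon
      rw [Finset.sum_eq_zero hcon] at h2
      omega
    obtain ⟨x2, hx2, h4⟩ := h3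
    have h5 : m v x2 ≤ 1 := by
      rw [← h2]
      exact Finset.single_le_sum (f := fun y => m v y) (fun _ _ => Nat.zero_le _) hx2
    have h6 : m v x2 = 1 := by omega
    have h7 : x2 ≠ x1 := (Finset.mem_erase.1 hx2).1
    have h8 : x2 ∈ X.erase v := (Finset.mem_erase.1 hx2).2
    refine ⟨x1, {x2}, hx1, Finset.singleton_subset_iff.2 h8, ?_, ?_, ?_⟩
    · intro h
      exact h7 (Finset.mem_singleton.1 h).symm
    · intro p hp
      rw [Finset.mem_singleton.1 hp]
      refine Splx.unblocked hEsa hEsb hm hX he h7 h8 hx1 ?_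
      intro Y hY ha hb ht
      have e1 := Splx.tight_le hEsa hm hX hv hY ht
      have e2 : ∑ w ∈ ({x1, x2} : Finset V), m v w ≤ ∑ w ∈ Y, m v w := by
        apply Finset.sum_le_sum_of_subset
        intro w hw
        rcases Finset.mem_insert.1 hw with h | h
        · rw [h]; exact hb
        · rw [Finset.mem_singleton.1 h]; exact ha
      have e3 : ∑ w ∈ ({x1, x2} : Finset V), m v w = 3 := by
        rw [Finset.sum_insert (by simp [h7.symm]), Finset.sum_singleton, h1, h6]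
      omega
    · rw [Finset.sum_singleton, h1, h6]
  · have hle1 : ∀ x ∈ X.erase v, m v x ≤ 1 := by
      intro x hx
      have h1 := hle x hx
      have h2 : m v x ≠ 2 := fun h => hex ⟨x, hx, h⟩
      omega
    have hT : ((X.erase v).filter (fun x => m v x = 1)).card = 3 := by
      rw [Finset.card_filter, ← hs]
      apply Finset.sum_congr rfl
      intro x hx
      have h1 := hle1 x hx
      by_cases h : m v x = 1
      · rw [if_pos h, h]
      · rw [if_neg h]; omega
    obtain ⟨x1, x2, x3, h12, h13, h23, hT3⟩ := Finset.card_eq_three.1 hT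
    have g1 : x1 ∈ (X.erase v).filter (fun x => m v x = 1) := by rw [hT3]; simp
    have g2 : x2 ∈ (X.erase v).filter (fun x => m v x = 1) := by rw [hT3]; simp
    have g3 : x3 ∈ (X.erase v).filter (fun x => m v x = 1) := by rw [hT3]; simp
    obtain ⟨a1, b1⟩ := Finset.mem_filter.1 g1
    obtain ⟨a2, b2⟩ := Finset.mem_filter.1 g2
    obtain ⟨a3, b3⟩ := Finset.mem_filter.1 g3
    have sw : ∀ {a b : V}, (∃ Y ⊆ X.erase v, a ∈ Y ∧ b ∈ Y ∧ es m Y + 4 = 4 * Y.card) →
        ∃ Y ⊆ X.erase v, b ∈ Y ∧ a ∈ Y ∧ es m Y + 4 = 4 * Y.card := by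
      rintro a b ⟨Y, h1, h2, h3, h4⟩
      exact ⟨Y, h1, h3, h2, h4⟩
    by_cases c12 : ∃ Y ⊆ X.erase v, x1 ∈ Y ∧ x2 ∈ Y ∧ es m Y + 4 = 4 * Y.card
    · refine Splx.fin_pair hEsa hEsb hm hX he (r := x3) (p := x1) (q := x2) h13 h23 h12 a3 a1 a2
        b3 b1 b2 ?_ ?_
      · intro c13
        exact Splx.two_blocked hEsa hm hX hv h12 h13 h23 b1 b2 b3 c12 c13
      · intro c23
        exact Splx.two_blocked hEsa hm hX hv h12.symm h23 h13 b2 b1 b3 (sw c12) c23
    · by_cases c13 : ∃ Y ⊆ X.erase v, x1 ∈ Y ∧ x3 ∈ Y ∧ es m Y + 4 = 4 * Y.card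
      · refine Splx.fin_pair hEsa hEsb hm hX he (r := x2) (p := x1) (q := x3) h12 h23.symm h13
          a2 a1 a3 b2 b1 b3 c12 ?_
        intro c32
        exact Splx.two_blocked hEsa hm hX hv h13.symm h23.symm h12 b3 b1 b2 (sw c13) c32
      · refine Splx.fin_pair hEsa hEsb hm hX he (r := x1) (p := x2) (q := x3) h12.symm h13.symm h23
          a1 a2 a3 b1 b2 b3 (fun h => c12 (sw h)) (fun h => c13 (sw h))

end Pool.Agent.UQC
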