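import Pool.Agent.UQC.Defs

/-!
# The connective constant of the UIPQ is at least 2 (MP_0dee97_pr): statements (helper63)

THEOREM. (1) Every infinite rooted planar quadrangulation (`IsInfQuad`) has connective constant `mu ≥ 2`. (2) So has the
uniform infinite planar quadrangulation, almost surely.

IDEA. (A) Graph theory (`ThA`): let `G` be a finite multigraph with `e(X) ≤ 2|X| - 2` for every nonempty set `X` of vertices and
`e(V) = 2|V| - 2` (equivalently: `G` is the union of two edge-disjoint spanning trees). Then for all vertices `s ≠ t` the sum over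
all simple paths `P` from `s` to `t` of `2^(-length P)` is at least `1`. Induction: if `s` has degree 2 delete `s`; if another vertex
`v ≠ t` has degree 2 delete it; otherwise some `v ≠ s, t` has degree 3, and deleting `v` and joining two of its three neighbours by
a new edge is allowed for at least two of the three pairs; `T(G) = T(G-v) + (R_12 + R_13 + R_23)/4` and
`T(G-v+x_i x_j) = T(G-v) + R_ij/2`. (B) Planar maps: everything comes from `V - E + F ≤ 2c` (`EuM`): a planar quadrangulation is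
bipartite (`Col`, Euler for the double cover); two edges with the same ends can be cut and zipped, which gives two planar
quadrangulations (`Sgd`: Euler for the map `(sn, si)`, which has the same faces and two more vertices); submaps of planar maps are
planar. By induction on the number of darts (`T1`): if `e`, `e'` are edges without common vertex and some pair of parallel edges has
`e` and `e'` on the same side, pass to that side; otherwise `Q / e / e'` satisfies the hypotheses of (A), so that the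
sum of `2^(-length)` over the paths from `e` to any set `B` containing `e'` is `≥ 1`. (C) An infinite quadrangulation looks like
a finite one up to distance `r`; take `e` = the root edge, `B` = all vertices at distance `> r`.

CONVENTIONS. Module `X` proves `theorem thm_X (h.. : St_..) : St_X` in `Pool/Agent/UQC/X.lean`, namespace `Pool.Agent.UQC`,
`import Pool.Agent.UQC.St`, first lines `set_option autoImplicit false`, `noncomputable section`, `open scoped Classical`; the
hypotheses are the statements listed after `needs`, in the order listed. Auxiliary lemmas in the sub-namespace `Xx`.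
All finite types are `[Finite D]`; everything decidable is classical.
-/

set_option autoImplicit false

noncomputable section

namespace Pool.Agent.UQC

open scoped Classical

/-! ### A. Path sums -/

/-- `ps w B U s`: the sum over the simple paths which start at `s`, go on inside `U` and stop at their first vertex in `B`, of
the product of the weights of the steps. (For `s ∉ U`.) -/
def ps {V : Type} (w : V → V → ℝ) (B : Finset V) (U : Finset V) (s : V) : ℝ :=
  if s ∈ B then 1 else ∑ y ∈ U.attach, w s y.1 * ps w B (U.erase y.1) y.1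
termination_by U.card
decreasing_by exact Finset.card_erase_lt_of_mem y.2

theorem ps_eq {V : Type} (w : V → V → ℝ) (B U : Finset V) (s : V) :
    ps w B U s = if s ∈ B then 1 else ∑ y ∈ U, w s y * ps w B (U.erase y) y := by
  rw [ps]
  congr 1
  exact Finset.sum_attach U (fun y => w s y * ps w B (U.erase y) y)

/-- `rs w B a b U s`: the same sum over the paths which use the step `ab` or `ba`, this step having weight `1`. -/
def rs {V : Type} (w : V → V → ℝ) (B : Finset V) (a b : V) (U : Finset V) (s : V) : ℝ :=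
  if s ∈ B then 0 else
    (∑ y ∈ U.attach, w s y.1 * rs w B a b (U.erase y.1) y.1) +
      (if s = a ∧ b ∈ U then ps w B (U.erase b) b else 0) +
      (if s = b ∧ a ∈ U then ps w B (U.erase a) a else 0)
termination_by U.card
decreasing_by exact Finset.card_erase_lt_of_mem y.2

theorem rs_eq {V : Type} (w : V → V → ℝ) (B : Finset V) (a b : V) (U : Finset V) (s : V) :
    rs w B a b U s = if s ∈ B then 0 else
      (∑ y ∈ U, w s y * rs w B a b (U.erase y) y) +
        (if s = a ∧ b ∈ U then ps w B (U.erase b) b else 0) +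
        (if s = b ∧ a ∈ U then ps w B (U.erase a) a else 0) := by
  rw [rs]
  congr 3
  exact Finset.sum_attach U (fun y => w s y * rs w B a b (U.erase y) y)

/-- (Psm) `ps` is nonnegative and monotone under injective maps `f` of the vertices which do not decrease the weights.
(Used with `f = id` too.) Proof: induction on `U.card`, for all `U'` and `s`. If `s ∈ B` both sides are `1`. Otherwise
`w s y * ps w B (U.erase y) y ≤ w' (f s) (f y) * ps w' B' (U'.erase (f y)) (f y)` for `y ∈ U` (the hypothesis for `U.erase y`,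
`U'.erase (f y)` holds by injectivity), and the terms of the right-hand side for `z ∈ U'` which are not of the form `f y` are
nonnegative (nonnegativity of `ps w'` is the first part for `f = id`: prove it first). -/
def St_Psm : Prop := ∀ (V V' : Type) (w : V → V → ℝ) (w' : V' → V' → ℝ) (f : V → V'),
  Function.Injective f → (∀ x y, 0 ≤ w x y) → (∀ x y, w x y ≤ w' (f x) (f y)) → (∀ x y, 0 ≤ w' x y) →
  ∀ (B : Finset V) (B' : Finset V'), (∀ x, x ∈ B ↔ f x ∈ B') →
  ∀ (U : Finset V) (U' : Finset V'), (∀ x ∈ U, f x ∈ U') → ∀ s,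
    0 ≤ ps w B U s ∧ ps w B U s ≤ ps w' B' U' (f s)

/-- (Add) Adding weight `c` to the edge `ab`. Proof: first `rs w B a b U s = 0` if (`a ∉ U` and `a ≠ s`) or (`b ∉ U` and
`b ≠ s`) (induction on `U.card`: the property passes to `(U.erase y, y)` for `y ∈ U`, and the two extra terms vanish). Then
induction on `U.card`: for `s ∉ B` the new weight of the step `s → y` is `w s y`, plus `c` if `(s, y)` is `(a, b)` or `(b, a)`; by
induction `ps w' B (U.erase y) y = ps w B (U.erase y) y + c * rs w B a b (U.erase y) y`, and if `s = a`, `y = b` then the last `rs` is `0`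
because `a = s ∉ U` and `a ≠ b`. Comparing with `rs_eq` gives the claim. -/
def St_Add : Prop := ∀ (V : Type) (w : V → V → ℝ) (B : Finset V) (a b : V) (c : ℝ), a ≠ b →
  ∀ (U : Finset V) (s : V), s ∉ U →
    ps (fun x y => w x y + if (x = a ∧ y = b) ∨ (x = b ∧ y = a) then c else 0) B U s =
      ps w B U s + c * rs w B a b U s

/-- (Str) Lower bound for the paths through the vertex `v`. Proof: `ps ≥ 0` for nonnegative weights (easy induction; or `Psm`).
Induction on `U.card`. If `s ∈ B`: `1 + 0 ≤ 1`. Otherwise `(insert v U).erase v = U` and `(insert v U).erase y = insert v (U.erase y)` for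
`y ∈ U`, so by `ps_eq` and induction
`ps w B (insert v U) s = w s v * ps w B U v + ∑ y ∈ U, w s y * ps w B (insert v (U.erase y)) y
  ≥ w s v * ps w B U v + ∑ y ∈ U, w s y * (ps w B (U.erase y) y + ∑ p ∈ F, w v p * w v r * rs w B p r (U.erase y) y)`.
By `rs_eq` it remains to show `∑ p ∈ F, w v p * w v r * ((if s = p ∧ r ∈ U then ps w B (U.erase r) r else 0) +
(if s = r ∧ p ∈ U then ps w B (U.erase p) p else 0)) ≤ w s v * ps w B U v`, where `ps w B U v = ∑ y ∈ U, w v y * ps w B (U.erase y) y` as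
`v ∉ B`. If `s = r` the left side is `w v r * ∑ p ∈ F ∩ U, w v p * ps w B (U.erase p) p`; if `s = p ∈ F` (then `s ≠ r`) it is
`w v s * w v r * ps w B (U.erase r) r` if `r ∈ U` and `0` otherwise; if `s ∉ F`, `s ≠ r` it is `0`. -/
def St_Str : Prop := ∀ (V : Type) (w : V → V → ℝ), (∀ x y, 0 ≤ w x y) → (∀ x y, w x y = w y x) →
  ∀ (B : Finset V) (v r : V) (F : Finset V), v ∉ B → r ≠ v → v ∉ F → r ∉ F →
  ∀ (U : Finset V) (s : V), v ∉ U → s ∉ U → s ≠ v →
    ps w B U s + ∑ p ∈ F, w v p * w v r * rs w B p r U s ≤ ps w B (insert v U) s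

/-! ### B. Multigraphs: `m x y` = number of edges between `x` and `y` -/

/-- Twice the number of edges inside `X`. -/
def es {V : Type} (m : V → V → ℕ) (X : Finset V) : ℕ := ∑ x ∈ X, ∑ y ∈ X, m x y

/-- The number of edges from `v` to `X`. -/
def dg {V : Type} (m : V → V → ℕ) (X : Finset V) (v : V) : ℕ := ∑ y ∈ X, m v y

/-- Every edge has weight `1/2`. -/
def hf {V : Type} (m : V → V → ℕ) : V → V → ℝ := fun x y => (m x y : ℝ) / 2

/-- A multigraph without loops. -/
def MG {V : Type} (m : V → V → ℕ) : Prop := (∀ x y, m x y = m y x) ∧ ∀ x, m x x = 0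

/-- `(2,2)`-tight on `X`. -/
def Tg {V : Type} (m : V → V → ℕ) (X : Finset V) : Prop :=
  es m X + 4 = 4 * X.card ∧ ∀ Y ⊆ X, Y.Nonempty → es m Y + 4 ≤ 4 * Y.card

/-- `m` with one more edge between `a` and `b`. -/
def ae {V : Type} (m : V → V → ℕ) (a b : V) : V → V → ℕ :=
  fun x y => m x y + if (x = a ∧ y = b) ∨ (x = b ∧ y = a) then 1 else 0

/-- (Esa) Elementary facts on `es`. Proof: (1) pairs `(x,y)`, `(y,x)` and zero diagonal (or induction with (2)); (2) split off the
row and the column of `v`; (3) `es m Y` counts the pairs of `Y ×ˢ Y`, and `(Y ×ˢ Y) ∪ (Z ×ˢ Z) ⊆ (Y ∪ Z) ×ˢ (Y ∪ Z)`, with intersection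
`(Y ∩ Z) ×ˢ (Y ∩ Z)`; (4) split the double sum; (5) by definition; (6) subset of the pairs. -/
def St_Esa : Prop := ∀ (V : Type) (m : V → V → ℕ), MG m →
  (∀ X : Finset V, Even (es m X)) ∧
  (∀ (X : Finset V) (v : V), v ∈ X → es m X = es m (X.erase v) + 2 * dg m X v) ∧
  (∀ Y Z : Finset V, es m Y + es m Z ≤ es m (Y ∪ Z) + es m (Y ∩ Z)) ∧
  (∀ Y Z : Finset V, Disjoint Y Z → (∀ y ∈ Y, ∀ z ∈ Z, m y z = 0) → es m (Y ∪ Z) = es m Y + es m Z) ∧
  (∀ X : Finset V, ∑ v ∈ X, dg m X v = es m X) ∧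
  (∀ Y X : Finset V, Y ⊆ X → es m Y ≤ es m X)

/-- (Esb) One more edge. Proof: direct. -/
def St_Esb : Prop := ∀ (V : Type) (m : V → V → ℕ), MG m → ∀ a b : V, a ≠ b →
  MG (ae m a b) ∧ ∀ X : Finset V, es (ae m a b) X = es m X + if a ∈ X ∧ b ∈ X then 2 else 0

/-- (Low) needs `Esa`. Vertices of small degree. Proof: for `v ∈ X`, `X.erase v` is nonempty (`|X| ≥ 2`), so
`es m (X.erase v) + 4 ≤ 4 (|X| - 1)`, and `es m X = es m (X.erase v) + 2 dg m X v = 4|X| - 4` gives `dg m X v ≥ 2`. If the claim is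
false then `dg s ≥ 3`, `dg t ≥ 2` and `dg v ≥ 4` for all other `v ∈ X`, so `es m X = ∑ dg ≥ 5 + 4 (|X| - 2) = 4|X| - 3`, a contradiction. -/
def St_Low : Prop := ∀ (V : Type) (m : V → V → ℕ), MG m → ∀ X : Finset V, Tg m X →
  ∀ s t : V, s ∈ X → t ∈ X → s ≠ t →
    dg m X s = 2 ∨ ∃ v ∈ X, v ≠ s ∧ v ≠ t ∧ (dg m X v = 2 ∨ dg m X v = 3)

/-- (Del) needs `Esa`. Deleting a vertex of degree 2. Proof: `es m (X.erase v) = es m X - 4`. -/
def St_Del : Prop := ∀ (V : Type) (m : V → V → ℕ), MG m → ∀ X : Finset V, Tg m X →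
  ∀ v ∈ X, dg m X v = 2 → Tg m (X.erase v)

/-- (Spl) needs `Esa`, `Esb`. Splitting at a vertex of degree 3. Proof: put `X' = X.erase v`; `es m X' + 6 + 4 = 4|X|`, so
`es m X' + 6 = 4 |X'|`. For `x ∈ X'`: `es m {v, x} = 2 m v x ≤ 4` by tightness, so `m v x ≤ 2` (and `m v v = 0`). For `a ≠ b` in `X'`:
`Tg (ae m a b) X'` if and only if there is no `Y ⊆ X'` with `a, b ∈ Y` and `es m Y + 4 = 4|Y|` (all `es` are even, so otherwise
`es m Y + 6 ≤ 4|Y|`); call the pair `a, b` blocked if there is such a `Y`. If `Y ⊆ X'` is tight (`es m Y + 4 = 4|Y|`, `Y` nonempty) then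
`∑ y ∈ Y, m v y ≤ 2`, because `es m (insert v Y) = es m Y + 2 ∑ y ∈ Y, m v y ≤ 4|Y|` (`Esa` (2)). Case 1: `m v x1 = 2`, `m v x2 = 1`,
`x1 ≠ x2`: `x1, x2` is not blocked, take `r = x1`, `F = {x2}`. Case 2: three different `x1, x2, x3` with `m v xi = 1`. If two different
pairs are blocked by `Y` and `Z`, then `Y ∩ Z` is nonempty (common vertex), so by `Esa` (3) `es m (Y ∪ Z) ≥ 4|Y| - 4 + 4|Z| - 4 -
(4|Y ∩ Z| - 4)`, that is `Y ∪ Z` is tight, and it contains all three `xi`: contradiction to `∑ ≤ 2`. So two of the three pairs are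
not blocked; they have a common vertex `r`: take `F` = the other two vertices. -/
def St_Spl : Prop := ∀ (V : Type) (m : V → V → ℕ), MG m → ∀ X : Finset V, Tg m X →
  ∀ v ∈ X, dg m X v = 3 →
    ∃ (r : V) (F : Finset V), r ∈ X.erase v ∧ F ⊆ X.erase v ∧ r ∉ F ∧
      (∀ p ∈ F, Tg (ae m p r) (X.erase v)) ∧ ∑ p ∈ F, m v p * m v r = 2

/-- (ThA) needs `Psm`, `Add`, `Str`, `Esb`, `Low`, `Del`, `Spl`. The graph theorem. Proof: induction on `|X|` (for all `m`, `s`).
Write `T = ps (hf m) {t} (X.erase s) s`. By `Low` there are three cases. (1) `dg m X s = 2`: `T = ∑ y ∈ X.erase s, (m s y / 2) *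
ps (hf m) {t} ((X.erase s).erase y) y`, and the last factor is `1` if `y = t` and `≥ 1` by induction otherwise (`Del` for `s`); so
`T ≥ ∑ y, m s y / 2 = 1` (`m s s = 0`). (2) `dg m X v = 2`, `v ≠ s, t`: `T ≥ ps (hf m) {t} ((X.erase v).erase s) s ≥ 1` by `Psm`
(`f = id`) and induction. (3) `dg m X v = 3`, `v ≠ s, t`: take `r`, `F` from `Spl`, `U = (X.erase v).erase s`, so `X.erase s = insert v U`.
By induction and `Add` (`c = 1/2`, `hf (ae m p r) = hf m + 1/2 on pr`): `ps (hf m) {t} U s + rs (hf m) {t} p r U s / 2 ≥ 1` for `p ∈ F`.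
Multiply by `m v p * m v r / 2` and add: the sum of these factors is `1`, so `ps (hf m) {t} U s + ∑ p ∈ F, (m v p * m v r / 4) *
rs (hf m) {t} p r U s ≥ 1`, and the left side is at most `T` by `Str`. -/
def St_ThA : Prop := ∀ (V : Type) (m : V → V → ℕ), MG m → ∀ X : Finset V, Tg m X →
  ∀ s t : V, s ∈ X → t ∈ X → s ≠ t → 1 ≤ ps (hf m) {t} (X.erase s) s

/-- (Red) needs `Esa`. Deleting edges until the graph is tight. Proof: induction on `es m X`. (H1) for `U = X.erase t` gives
`4 (|X| - 1) ≤ es m X`. (i) If `es m X + 4 = 4|X|` then `m' = m` is tight: for `Y ⊆ X` nonempty with `t ∉ Y` use (H2), with `t ∈ Y` use (H1) for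
`U = X \ Y`. (ii) Otherwise `es m X + 4 > 4|X|`. Call `U ⊆ X.erase t` good if `es m (X \ U) + 4|U| = es m X`. `∅` is good and the union of two
good sets is good (`Esa` (3) for `X \ U1`, `X \ U2`, and (H1) for union and intersection); let `U0` be the union of all good sets.
If `es m (X \ U0) = 0` then `es m X = 4|U0| ≤ 4(|X|-1)`, excluded. So there are `a ≠ b` in `X \ U0` with `m a b > 0`. Let `m'` be `m` with
one edge `ab` less. (H2) for `m'` is clear. (H1) for `m'`, `U`: `es m' X = es m X - 2`; if `a, b ∉ U` then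
`es m' (X \ U) = es m (X \ U) - 2` and (H1) for `m` is enough; if `a ∈ U` or `b ∈ U` then `U` is not contained in `U0`, so it is not good,
and by parity (`Esa` (1)) `es m (X \ U) + 4|U| ≤ es m X - 2`. Now use the induction hypothesis for `m'`. -/
def St_Red : Prop := ∀ (V : Type) (m : V → V → ℕ), MG m → ∀ (X : Finset V) (t : V), t ∈ X →
  (∀ U ⊆ X.erase t, es m (X \ U) + 4 * U.card ≤ es m X) →
  (∀ Y ⊆ X.erase t, Y.Nonempty → es m Y + 4 ≤ 4 * Y.card) →
    ∃ m' : V → V → ℕ, MG m' ∧ (∀ x y, m' x y ≤ m x y) ∧ Tg m' X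

/-- (ThH) needs `Psm`, `ThA`, `Red`. Proof: `Red`, `ThA` for `m'`, and `Psm` with `f = id`. -/
def St_ThH : Prop := ∀ (V : Type) (m : V → V → ℕ), MG m → ∀ (X : Finset V) (s t : V), s ∈ X → t ∈ X → s ≠ t →
  (∀ U ⊆ X.erase t, es m (X \ U) + 4 * U.card ≤ es m X) →
  (∀ Y ⊆ X.erase t, Y.Nonempty → es m Y + 4 ≤ 4 * Y.card) →
    1 ≤ ps (hf m) {t} (X.erase s) s

/-- (Ctr) needs `Esa`, `ThH`. Contracting the edge `ab` and the set `B`. Proof: let `W = univ \ ({a,b} ∪ B)`, `X0 = W ∪ {a, c}`,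
`K x` = `{a,b}` for `x = a`, `B` for `x = c`, `{x}` for `x ∈ W` (disjoint sets with union `univ`), and `m' x y = ∑ x' ∈ K x, ∑ y' ∈ K y,
m x' y'` for `x ≠ y` in `X0`, `m' x y = 0` otherwise. For `Y ⊆ X0` and `K Y = ⋃ K x`: `es m' Y = es m (K Y) - ∑ x ∈ Y, es m (K x)`, where
`es m (K x) = 0` for `x ∈ W`, `es m (K a) = 2`; let `β = es m B`. Hypotheses of `ThH` for `m'`, `X0`, `s = a`, `t = c`: (H2) `Y ⊆ X0.erase c`
nonempty: if `a ∉ Y` then `es m' Y = es m Y`; if `a ∈ Y` then `es m' Y = es m (K Y) - 2`, `|K Y| = |Y| + 1` and the hypothesis with the summand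
for `a, b` gives `es m (K Y) + 6 ≤ 4|Y| + 4`. (H1) `U ⊆ X0.erase c`: if `a ∉ U` then `K (X0 \ U) = univ \ U` contains `a, b, c, c'`, so
`es m (univ \ U) + 8 ≤ 4 (|V| - |U|)` and `es m' (X0 \ U) = es m (univ \ U) - 2 - β ≤ es m univ - 2 - β - 4|U| = es m' X0 - 4|U|`; if `a ∈ U`
then `K (X0 \ U) = univ \ (insert b U)` contains `c, c'`, so `es m (..) + 6 ≤ 4 (|V| - |U| - 1)` and `es m' (X0 \ U) = es m (..) - β ≤
4|V| - 4|U| - 10 - β = es m' X0 - 4|U|`. So `1 ≤ ps (hf m') {c} (X0.erase a) a`. Finally, for `y ∈ W` and `U ⊆ W` with `y ∉ U`: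
`ps (hf m') {c} (insert c U) y = ps (hf m) B (U ∪ B) y` (induction on `|U|`, `m' y c = ∑ z ∈ B, m y z`, `ps (..) c = 1`), and
`ps (hf m') {c} (X0.erase a) a = ∑ y ∈ W, (m a y + m b y)/2 * ps (hf m) B ((W.erase y) ∪ B) y + ∑ z ∈ B, (m a z + m b z)/2`, which is the
right-hand side (`univ \ {a,b} = W ∪ B`; erasing elements of `B` only matters when the path has stopped). -/
def St_Ctr : Prop := ∀ (V : Type) [Fintype V] (m : V → V → ℕ), MG m → ∀ (a b c c' : V) (B : Finset V),
  a ≠ b → c ∈ B → c' ∈ B → a ∉ B → b ∉ B → m a b = 1 → es m Finset.univ + 8 = 4 * Fintype.card V →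
  (∀ X : Finset V, X.Nonempty →
    es m X + 4 + 2 * ((if a ∈ X ∧ b ∈ X then 1 else 0) + (if c ∈ X ∧ c' ∈ X then 1 else 0)) ≤ 4 * X.card) →
  1 ≤ ps (hf m) B (Finset.univ \ {a, b}) a + ps (hf m) B (Finset.univ \ {a, b}) b

/-! ### C. Cycles of permutations and Euler's inequality -/

/-- (Csp) Cycles of `f * swap a b`. Proof: `g = f * swap a b` has `g a = f b`, `g b = f a`, `g x = f x` otherwise. (1) `z = f^k a` with `k : ℕ`
(finite type); induction on `k`: if `y` is in the `g`-cycle of `a` or `b` so is `f y` (`f a = g b`, `f b = g a`, `f y = g y`). (2) on the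
`f`-cycle of `x` one has `g = f`. (3) `g x` is in the `f`-cycle of `x`. -/
def St_Csp : Prop := ∀ (D : Type) [Finite D] (f : Equiv.Perm D) (a b : D),
  (∀ z, f.SameCycle a z → (f * Equiv.swap a b).SameCycle a z ∨ (f * Equiv.swap a b).SameCycle b z) ∧
  (∀ x z, f.SameCycle x z → ¬ f.SameCycle a x → ¬ f.SameCycle b x → (f * Equiv.swap a b).SameCycle x z) ∧
  (f.SameCycle a b → ∀ x z, (f * Equiv.swap a b).SameCycle x z → f.SameCycle x z)

/-- (Nsw) needs `Csp`. The number of cycles of `f * swap a b`. Proof: the sign of a permutation of `D` is `(-1)^(|D| - nc)` (cycle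
type plus fixed points), so `nc g` and `nc f` have different parity. If `f.SameCycle a b`: `g`-cycles are contained in `f`-cycles
(`Csp` (3)), so `nc g ≥ nc f`, and by `Csp` (1), (2) only the cycle of `a` can split, into at most two: `nc g ≤ nc f + 1`. If not: by `Csp` (1)
(for `a, b` and for `b, a`; `swap` is symmetric) and (2) the cycles other than those of `a` and `b` are the same, and the union of these two is
one or two `g`-cycles: `nc f - 1 ≤ nc g ≤ nc f`. (Or directly, without signs: in the second case `g.SameCycle a b`.) -/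
def St_Nsw : Prop := ∀ (D : Type) [Finite D] (f : Equiv.Perm D) (a b : D), a ≠ b →
  (f.SameCycle a b → nc (f * Equiv.swap a b) = nc f + 1) ∧
  (¬ f.SameCycle a b → nc (f * Equiv.swap a b) + 1 = nc f)

/-- (Nca) Proof: the cycles of `f` are those inside `p` and those outside `p`. -/
def St_Nca : Prop := ∀ (D : Type) [Finite D] (f : Equiv.Perm D) (p : D → Prop)
  (h : ∀ x, p (f x) ↔ p x) (h' : ∀ x, ¬ p (f x) ↔ ¬ p x),
    nc f = nc (f.subtypePerm h) + nc (f.subtypePerm (p := fun x => ¬ p x) h')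

/-- (Ncf) Proof: all fibres of `D → Quotient` have `2` (resp. `4`) elements `x, f x` (resp. `x, f x, f² x, f³ x`). -/
def St_Ncf : Prop := ∀ (D : Type) [Finite D] (f : Equiv.Perm D),
  ((∀ x, f (f x) = x) → (∀ x, f x ≠ x) → 2 * nc f = Nat.card D) ∧
  ((∀ x, f (f (f (f x))) = x) → (∀ x, f (f x) ≠ x) → 4 * nc f = Nat.card D)

/-- The product of the transpositions. -/
def pl {D : Type} (L : List (D × D)) : Equiv.Perm D := (L.map (fun p => Equiv.swap p.1 p.2)).prod

/-- The number of classes of the equivalence relation generated by `x ~ f x` and the pairs of `L`. -/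
def cl {D : Type} (f : Equiv.Perm D) (L : List (D × D)) : ℕ :=
  Nat.card (Quotient (Relation.EqvGen.setoid (fun x y : D => y = f x ∨ (x, y) ∈ L)))

/-- (Eul) needs `Nsw`. Euler's inequality, one transposition after the other. Proof: induction on `L'`; it is enough to treat `L' = [(a, b)]`
(`pl (L ++ [(a,b)]) = pl L * swap a b`). Let `h = f * pl L`. The cycles of `h` are contained in the classes of `L`. If `a, b` are in one class
of `L` then `cl` does not change and `nc (h * swap a b) ≤ nc h + 1`. If not, `cl` drops by one and `¬ h.SameCycle a b`, so `nc (h * swap a b) + 1 =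
nc h`. -/
def St_Eul : Prop := ∀ (D : Type) [Finite D] (f : Equiv.Perm D) (L L' : List (D × D)),
  (∀ p ∈ L', p.1 ≠ p.2) →
    2 * cl f L + nc (f * pl (L ++ L')) ≤ 2 * cl f (L ++ L') + L'.length + nc (f * pl L)

/-- The number of components of the submap with all vertices and the edges in `S`. -/
def cS {D : Type} (M : CMap D) (S : Set D) : ℕ :=
  Nat.card (Quotient (Relation.EqvGen.setoid (fun x y : D => y = M.nx x ∨ (x ∈ S ∧ y = M.iv x))))

/-- `S` is a union of edges and `g` is the face permutation of the submap `S` (the darts outside `S` are kept as half-edges). -/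
def SubF {D : Type} (M : CMap D) (S : Set D) (g : Equiv.Perm D) : Prop :=
  (∀ x ∈ S, M.iv x ∈ S) ∧ ∀ x, g x = if x ∈ S then M.nx (M.iv x) else M.nx x

/-- (Gex) Proof: `x ↦ if x ∈ S then iv x else x` is an involution; multiply by `nx`. -/
def St_Gex : Prop := ∀ (D : Type) [Finite D] (M : CMap D) (S : Set D), (∀ x ∈ S, M.iv x ∈ S) →
  ∃ g : Equiv.Perm D, SubF M S g

/-- (EuM) needs `Eul`, `Ncf`. Euler for submaps. Proof: choose one dart in every edge contained in `S`; let `L` be the list of the pairs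
`(d, iv d)` for these `d`, and `L'` the same for the edges outside `S`. Then `pl L x = if x ∈ S then iv x else x`, `g = nx * pl L`,
`pl (L ++ L') = iv`, `2 L.length = |S|`, `2 L'.length = |D| - |S|`, `cl nx L = cS M S`, `cl nx (L ++ L') = cS M univ`, `cl nx [] = nc nx`.
(a) is `Eul` for `[]`, `L`: `2 nc nx + nc g ≤ 2 cS M S + |S|/2 + nc nx`. (b) `Eul` for `L`, `L'`: `2 cS M S + nc fc ≤ 2 cS M univ + (|D|-|S|)/2 +
nc g`; insert `2 nc iv = |D|` (`Ncf`) and the hypothesis: `4 cS M S + |S| ≤ 2 nc nx + 2 nc g`. -/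
def St_EuM : Prop := ∀ (D : Type) [Finite D] (M : CMap D) (S : Set D) (g : Equiv.Perm D), SubF M S g →
  (2 * nc M.nx + 2 * nc g ≤ S.ncard + 4 * cS M S) ∧
  (nc M.nx + nc M.fc = nc M.iv + 2 * cS M Set.univ → 2 * nc M.nx + 2 * nc g = S.ncard + 4 * cS M S)

/-- (Col) needs `EuM`, `Ncf`. A planar quadrangulation is bipartite. Proof: the double cover `M2` on `D × Bool`: `nx (d,i) = (nx d, i)`,
`iv (d,i) = (iv d, !i)`, so `fc (d,i) = (fc d, !i)`. `nc M2.nx = 2 nc nx`; all cycles of `M2.fc` have four elements, so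
`4 nc M2.fc = 2|D| = 8 nc fc` (`Ncf`), and `2 nc M2.iv = 2|D|`. `EuM` (a) with `S = univ`, `g = M2.fc`: `4 nc nx + 4 nc fc ≤ 2|D| + 4 c2`, and
`nc nx + nc fc = nc iv + 2 = |D|/2 + 2`, so `c2 ≥ 2`: `M2` is not connected. Fix `ρ` (if `D` is empty nothing is to prove). Since `M` is
connected every `(d, i)` is connected to `(ρ, true)` or to `(ρ, false)`, so these two are not connected to each other; the flip
`(d,i) ↦ (d,!i)` preserves the connection. `col d = true` iff `(d, true)` is connected to `(ρ, true)` has the two properties. -/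
def St_Col : Prop := ∀ (D : Type) [Finite D] (M : CMap D), IsQuad M →
  ∃ col : D → Bool, ∀ d, col (M.nx d) = col d ∧ col (M.iv d) = !col d

/-! ### D. Two edges with the same ends: cut and zip -/

/-- Exchanges `d1` with `iv d2`, and `d2` with `iv d1`. -/
def tau {D : Type} (M : CMap D) (d1 d2 : D) : Equiv.Perm D :=
  Equiv.swap d1 (M.iv d2) * Equiv.swap d2 (M.iv d1)

/-- The new rotation. -/
def sn {D : Type} (M : CMap D) (d1 d2 : D) : Equiv.Perm D := M.nx * tau M d1 d2

/-- The new reversal: `d1 ↔ d2`, `iv d1 ↔ iv d2`, otherwise `iv`. -/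
def si {D : Type} (M : CMap D) (d1 d2 : D) : Equiv.Perm D := tau M d1 d2 * M.iv

/-- The side of `d1`: the component of `d1` in the map `(sn, si)`. -/
def Sd {D : Type} (M : CMap D) (d1 d2 : D) : Set D :=
  {x | Relation.EqvGen (fun x y => y = sn M d1 d2 x ∨ y = si M d1 d2 x) d1 x}

/-- `d1` (from `u` to `v`) and `d2` (from `v` to `u`) belong to two different edges. -/
def Par {D : Type} (M : CMap D) (d1 d2 : D) : Prop :=
  M.nx.SameCycle d1 (M.iv d2) ∧ M.nx.SameCycle d2 (M.iv d1) ∧ d2 ≠ M.iv d1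

/-- (Sga) needs `Col`. Elementary facts. Proof: `col d2 = !col d1`, so `d1`, `iv d2` and `d2`, `iv d1` are in different cycles of `nx`;
`d1 ≠ iv d2` because `iv d1 ≠ d2`. The rest is computation: `si` maps `d1` to `tau (iv d1) = d2`, etc., it is an involution without
fixed points, and `sn * si = nx * tau * tau * iv = fc`. -/
def St_Sga : Prop := ∀ (D : Type) [Finite D] (M : CMap D), IsQuad M → ∀ d1 d2, Par M d1 d2 →
  [d1, M.iv d2, d2, M.iv d1].Nodup ∧ ¬ M.nx.SameCycle d1 d2 ∧
  (∀ x, tau M d1 d2 (tau M d1 d2 x) = x) ∧ tau M d1 d2 d1 = M.iv d2 ∧ tau M d1 d2 d2 = M.iv d1 ∧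
  tau M d1 d2 (M.iv d1) = d2 ∧ tau M d1 d2 (M.iv d2) = d1 ∧
  (∀ x, x ≠ d1 → x ≠ d2 → x ≠ M.iv d1 → x ≠ M.iv d2 → tau M d1 d2 x = x) ∧
  (∀ x, M.nx.SameCycle (tau M d1 d2 x) x) ∧
  (Par M (M.iv d2) (M.iv d1) ∧ tau M (M.iv d2) (M.iv d1) = tau M d1 d2) ∧
  (Par M d2 d1 ∧ tau M d2 d1 = tau M d1 d2) ∧
  ∃ N : CMap D, N.nx = sn M d1 d2 ∧ N.iv = si M d1 d2 ∧ N.fc = M.fc

/-- (Sgb) needs `Csp`, `Nsw`, `Sga`. Proof: `sn = (nx * swap d1 (iv d2)) * swap d2 (iv d1)`; `d1, iv d2` are in one cycle of `nx`; the cycle of `d2`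
(which contains `iv d1` but not `d1`, `iv d2`) is not changed by the first transposition (`Csp` (2)); `Nsw` twice. -/
def St_Sgb : Prop := ∀ (D : Type) [Finite D] (M : CMap D), IsQuad M → ∀ d1 d2, Par M d1 d2 →
  nc (sn M d1 d2) = nc M.nx + 2

/-- (Sgc) needs `EuM`, `Ncf`, `Sga`, `Sgb`. There are exactly two sides. Proof: (ii) every `x` is connected by `nx`, `iv` to `d1`; look at the first
moment when one of the four darts `d1, d2, iv d1, iv d2` is met (or: the set of the `x` in one of the two sides contains the four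
darts, and is closed under `nx`, `nx⁻¹` and `iv`, because `nx x = sn (tau x)` and `iv x = tau (si x)`, where `tau` permutes the four darts
and fixes the others). (i) `EuM` (a) for the map `N` of `Sga`, `S = univ`, `g = fc`: `2 (nc nx + 2) + 2 nc fc ≤ |D| + 4 c`, and
`2 nc nx + 2 nc fc = |D| + 4`, so `c ≥ 2`. If the two sides had a common dart they would be equal and everything would be
connected by (ii), `c = 1`. -/
def St_Sgc : Prop := ∀ (D : Type) [Finite D] (M : CMap D), IsQuad M → ∀ d1 d2, Par M d1 d2 →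
  (∀ x, x ∈ Sd M d1 d2 → x ∉ Sd M (M.iv d2) (M.iv d1)) ∧
  (∀ x, x ∈ Sd M d1 d2 ∨ x ∈ Sd M (M.iv d2) (M.iv d1)) ∧
  d1 ∈ Sd M d1 d2 ∧ d2 ∈ Sd M d1 d2 ∧ M.iv d1 ∈ Sd M (M.iv d2) (M.iv d1) ∧ M.iv d2 ∈ Sd M (M.iv d2) (M.iv d1)

/-- (Sgd) needs `Csp`, `Nca`, `EuM`, `Ncf`, `Sga`, `Sgb`, `Sgc`. Each side is a planar quadrangulation. Proof: let `A = Sd M d1 d2`, `B = Aᶜ` (the
other side). `sn` and `si` preserve `A` and `B`; let `MA`, `MB` be the restrictions (`subtypePerm`); they are connected, their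
faces are faces of `M`. `EuM` (a) (`S = univ`, one component): `nc MA.nx + nc MA.fc ≤ nc MA.iv + 2` and the same for `MB`; the sum
of the two is `nc sn + nc fc ≤ nc si + 4` (`Nca`), which is an equality by `Sgb` (`nc si = nc iv` by `Ncf`), so both are equalities.
SameCycle: `M'.nx.SameCycle x y ↔ (sn).SameCycle x y`. If `M.nx.SameCycle x y` with `x, y ∈ A`: if the cycle contains none of the four
darts then `sn = nx` on it. If it is the cycle of `d1` (and `iv d2`), by `Csp` (1) (for the two transpositions; the second one does not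
touch it) `x` is in the `sn`-cycle of `d1` or of `iv d2`, the latter is in the other side; the same for `y`. The same for the
cycle of `d2`. The converse: `sn x` is in the `nx`-cycle of `x`. Finally `iv d1 ∉ A`. -/
def St_Sgd : Prop := ∀ (D : Type) [Finite D] (M : CMap D), IsQuad M → ∀ d1 d2, Par M d1 d2 →
  ∃ M' : CMap (Sd M d1 d2), IsQuad M' ∧ (∀ x : Sd M d1 d2, ((M'.nx x : Sd M d1 d2) : D) = sn M d1 d2 x) ∧
    (∀ x : Sd M d1 d2, ((M'.iv x : Sd M d1 d2) : D) = si M d1 d2 x) ∧
    (∀ x y : Sd M d1 d2, M'.nx.SameCycle x y ↔ M.nx.SameCycle (x : D) (y : D)) ∧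
    Nat.card (Sd M d1 d2) < Nat.card D

/-! ### E. The sum over the paths from an edge `e` to a set `B` -/

/-- The vertices. -/
def Vx {D : Type} (M : CMap D) : Type := Quotient (Equiv.Perm.SameCycle.setoid M.nx)

/-- The tail of a dart. -/
def vx {D : Type} (M : CMap D) (d : D) : Vx M := Quotient.mk _ d

theorem vx_eq {D : Type} (M : CMap D) (x y : D) : vx M x = vx M y ↔ M.nx.SameCycle x y :=
  ⟨fun h => Quotient.exact h, fun h => Quotient.sound h⟩

instance {D : Type} [Finite D] (M : CMap D) : Finite (Vx M) :=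
  inferInstanceAs (Finite (Quotient (Equiv.Perm.SameCycle.setoid M.nx)))

instance {D : Type} [Finite D] (M : CMap D) : Fintype (Vx M) := Fintype.ofFinite _

/-- The number of darts from `x` to `y`. -/
def mm {D : Type} (M : CMap D) (x y : Vx M) : ℕ := Nat.card {d : D // vx M d = x ∧ vx M (M.iv d) = y}

/-- The sum over the simple paths which start at one end of the edge `e`, avoid the other end, and stop at the first vertex
in `B`, of `2^(-length)`. -/
def TT {D : Type} [Finite D] (M : CMap D) (e : D) (B : Finset (Vx M)) : ℝ :=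
  ps (hf (mm M)) B (Finset.univ \ {vx M e, vx M (M.iv e)}) (vx M e) +
    ps (hf (mm M)) B (Finset.univ \ {vx M e, vx M (M.iv e)}) (vx M (M.iv e))

/-- (Mmb) needs `Col`, `Ncf`. Proof: `iv` exchanges the darts from `x` to `y` with those from `y` to `x`; `vx d ≠ vx (iv d)` by the colouring;
(2) is the partition of the darts by their ends; (3) `4 nc nx + 4 nc fc = 4 nc iv + 8` with `4 nc fc = |D|`, `2 nc iv = |D|`
and `es (mm M) univ = |D|`, `Fintype.card (Vx M) = nc nx`. -/
def St_Mmb : Prop := ∀ (D : Type) [Finite D] (M : CMap D), IsQuad M →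
  MG (mm M) ∧ (∀ X : Finset (Vx M), es (mm M) X = {d | vx M d ∈ X ∧ vx M (M.iv d) ∈ X}.ncard) ∧
  es (mm M) Finset.univ + 8 = 4 * Fintype.card (Vx M) ∧ Fintype.card (Vx M) = nc M.nx

/-- (Ste) needs `Psm`, `Sga`. A side has a smaller sum. Proof: `f : Vx M' → Vx M`, `vx M' x ↦ vx M x` is well defined and injective. For `x` in the
side, `vx M (M'.iv x) = vx M (tau (iv x)) = vx M (iv x)` (`Sga`: `tau` preserves the tails), so the inclusion maps the darts from `p` to
`q` injectively to darts from `f p` to `f q`: `mm M' p q ≤ mm M (f p) (f q)`. `f` maps the complement of the ends of `e` into the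
complement of the ends of `e` by injectivity. Use `Psm` for both summands. The last statement: exchange the summands. -/
def St_Ste : Prop := ∀ (D : Type) [Finite D] (M : CMap D), IsQuad M →
  (∀ d1 d2, Par M d1 d2 → ∀ M' : CMap (Sd M d1 d2),
    (∀ x : Sd M d1 d2, ((M'.iv x : Sd M d1 d2) : D) = si M d1 d2 x) →
    (∀ x y : Sd M d1 d2, M'.nx.SameCycle x y ↔ M.nx.SameCycle (x : D) (y : D)) →
    ∀ (e : Sd M d1 d2) (B' : Finset (Vx M')) (B : Finset (Vx M)),
      (∀ x : Sd M d1 d2, vx M' x ∈ B' ↔ vx M (x : D) ∈ B) → TT M' e B' ≤ TT M (e : D) B) ∧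
  ∀ (e : D) (B : Finset (Vx M)), TT M (M.iv e) B = TT M e B

/-- No pair of parallel edges has (a copy of) the edge of `e` and (a copy of) the edge of `e'` on the same side. -/
def NoJ {D : Type} (M : CMap D) (e e' : D) : Prop := ∀ d1 d2, Par M d1 d2 →
  ¬ ((e ∈ Sd M d1 d2 ∨ M.iv e ∈ Sd M d1 d2) ∧ (e' ∈ Sd M d1 d2 ∨ M.iv e' ∈ Sd M d1 d2))

/-- (Exc) needs `Sga`, `Sgc`. Proof: `Par M (iv d2) (iv d1)` and its side is the complement `A'` of `A = Sd M d1 d2`. Say that an edge
appears in a set if one of its darts is in it. Each of `e`, `e'` appears in `A` or in `A'`; by `NoJ` not both in `A`, not both in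
`A'`. So one of them appears only in `A` and the other one only in `A'`. (2) If `d ≠ e` has the ends of `e` then `Par M d (iv e)`;
`iv e = si d` is in `Sd M d (iv e)`, but `e = si (iv d)` is in the other side (`Sgc`), which contradicts (1). -/
def St_Exc : Prop := ∀ (D : Type) [Finite D] (M : CMap D), IsQuad M → ∀ e e', NoJ M e e' →
  (∀ d1 d2, Par M d1 d2 →
    (e ∈ Sd M d1 d2 ∧ M.iv e ∈ Sd M d1 d2 ∧ e' ∉ Sd M d1 d2 ∧ M.iv e' ∉ Sd M d1 d2) ∨
    (e ∉ Sd M d1 d2 ∧ M.iv e ∉ Sd M d1 d2 ∧ e' ∈ Sd M d1 d2 ∧ M.iv e' ∈ Sd M d1 d2)) ∧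
  mm M (vx M e) (vx M (M.iv e)) = 1

/-! ### F. Faces of submaps with two darts -/

/-- `d1 ≠ d2` are the only darts of `S` in a cycle of `g`. -/
def TwoF {D : Type} (S : Set D) (g : Equiv.Perm D) (d1 d2 : D) : Prop :=
  d1 ≠ d2 ∧ d1 ∈ S ∧ d2 ∈ S ∧ g.SameCycle d1 d2 ∧ ∀ x ∈ S, g.SameCycle d1 x → x = d1 ∨ x = d2

/-- The darts of `S` are connected in the submap `S`. -/
def SCn {D : Type} (M : CMap D) (S : Set D) : Prop :=
  ∀ x ∈ S, ∀ y ∈ S, Relation.EqvGen (fun x y => y = M.nx x ∨ (x ∈ S ∧ y = M.iv x)) x y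

/-- (Tfa) needs `Csp`, `Sga`. Proof: let `k ≥ 1` be minimal with `g^k d1 ∈ S`. For `1 ≤ j < k`: `g^j d1 ∉ S`, so `g^k d1 = nx^k (iv d1)` and `nx^j (iv d1) = g^j d1 ∉ S` for
`1 ≤ j < k`. `g^k d1 = d1` is impossible (the cycle of `d1` would contain no other dart of `S`), so `d2 = nx^k (iv d1)`. By symmetry
`d1 = nx^l (iv d2)`, and `nx^j (iv d2) ∉ S` for `1 ≤ j < l`. (i) If `d2 ≠ iv d1` then `Par M d1 d2` and `sn d2 = nx (iv d1)`, `sn = nx` outside the
four darts (which are in `S`), so the `sn`-cycle of `d2` is `{nx^j (iv d1) : 1 ≤ j ≤ k}`, whose only dart in `S` is `d2`. If `x ∈ S`,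
`nx.SameCycle d2 x` and `x ≠ d2`: by `Csp` (1) applied as in `Sgd` (or directly) `x` is in the `sn`-cycle of `d2` or of `iv d1`, so of `iv d1`. The
same for `d1`. (ii) If `d2 = iv d1` then `nx^k d2 = d2` and `nx^j d2 ∉ S` for `1 ≤ j < k`: `d2` is the only dart of `S` in its `nx`-cycle; the same
for `d1`. -/
def St_Tfa : Prop := ∀ (D : Type) [Finite D] (M : CMap D), IsQuad M → ∀ (S : Set D) (g : Equiv.Perm D),
  SubF M S g → ∀ d1 d2, TwoF S g d1 d2 →
    M.nx.SameCycle (M.iv d1) d2 ∧ M.nx.SameCycle (M.iv d2) d1 ∧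
    (d2 ≠ M.iv d1 →
      (∀ x ∈ S, M.nx.SameCycle d2 x → x = d2 ∨ (sn M d1 d2).SameCycle (M.iv d1) x) ∧
      (∀ x ∈ S, M.nx.SameCycle d1 x → x = d1 ∨ (sn M d1 d2).SameCycle (M.iv d2) x)) ∧
    (d2 = M.iv d1 →
      (∀ x ∈ S, M.nx.SameCycle d1 x → x = d1) ∧ (∀ x ∈ S, M.nx.SameCycle d2 x → x = d2))

/-- (Tfb) needs `Sga`, `Sgc`, `Tfa`. Only `d1`, `d2` are darts of `S` on the side of `d1`. Proof: let `B = Sd M (iv d2) (iv d1)` (it contains `iv d1`, `iv d2`), and
for a dart `z` let `P z`: every `x ∈ S` in the `nx`-cycle of `z` is `d1` or `d2` or in `B`. If `z` is in the cycle of `d2` or of `d1`, `P z` holds by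
`Tfa`. `P z ↔ P (nx z)` is clear. For `z ∈ S`: `P z → P (iv z)` (and conversely, as `iv z ∈ S`): if `iv z` is in the cycle of `d1` or `d2` this is
clear; otherwise `z ≠ d1, d2` (`iv d1` is in the cycle of `d2`, `iv d2` in that of `d1`), so `z ∈ B` by `P z`; `z` is none of the four darts, so
`si z = tau (iv z) = iv z` is in `B`; and on the cycle of `iv z`, which contains none of the four darts, `sn = nx`, so it is contained in
`B`. Since `S` is connected and `P d1`, `P x` holds for all `x ∈ S`. -/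
def St_Tfb : Prop := ∀ (D : Type) [Finite D] (M : CMap D), IsQuad M → ∀ (S : Set D) (g : Equiv.Perm D),
  SubF M S g → SCn M S → ∀ d1 d2, TwoF S g d1 d2 → d2 ≠ M.iv d1 →
    ∀ x ∈ S, x = d1 ∨ x = d2 ∨ x ∈ Sd M (M.iv d2) (M.iv d1)

/-- (Tfc) needs `Sga`, `Sgc`, `Tfa`, `Tfb`. Different faces have disjoint sides. Proof: let `A = Sd M d1 d2`, `B' = Sd M (iv c2) (iv c1)`, the complement of
`Sd M c1 c2`. Show: for all `z` connected to `d1` by `sn M d1 d2`, `si M d1 d2`, `(z ∈ A → z ∈ B')`; `d1 ∈ B'` by `Tfb` (`d1 ≠ c1, c2` since the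
cycles of `g` are different). The darts of `S` in `A` are `d1`, `d2` (`Tfb`, `Sgc`); both are in `B'`. Let `z ∈ A`. Step `si`: if
`z = d1` or `d2` then `si z` is the other one. Otherwise `z ∉ S`, `iv z ∉ S`, and both `si M d1 d2 z` and `si M c1 c2 z` are `iv z` (the eight darts
are in `S`). Step `sn`: if `z ∉ S`, both new rotations map `z` to `nx z`. If `z = d1`: `sn M d1 d2 d1 = nx (iv d2) = sn M c1 c2 (tau M c1 c2 (iv d2))`,
and `tau M c1 c2 (iv d2)` is in `B'`: it is `iv d2` (in `S`, not `c1`, `c2`) if `iv d2` is none of the four darts of `c`; it is `iv c2` if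
`iv d2 = c1` and `iv c1` if `iv d2 = c2`; and `iv d2 = iv c1`, `iv d2 = iv c2` are impossible. The same for `z = d2`. (The steps are equivalences: use the
statement `(z ∈ A → z ∈ B')` for both ends of a step, both ends being in `A` or none.) -/
def St_Tfc : Prop := ∀ (D : Type) [Finite D] (M : CMap D), IsQuad M → ∀ (S : Set D) (g : Equiv.Perm D),
  SubF M S g → SCn M S → ∀ d1 d2 c1 c2, TwoF S g d1 d2 → d2 ≠ M.iv d1 → TwoF S g c1 c2 → c2 ≠ M.iv c1 →
    ¬ g.SameCycle d1 c1 → ∀ x, x ∈ Sd M d1 d2 → x ∉ Sd M c1 c2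

/-- (Tfd) needs `Tfa`. A face `d, iv d`. Proof: for a dart `z` let `P z`: every `x ∈ S` in the `nx`-cycle of `z` is `d` or `iv d`. By `Tfa` it holds for
`z = d`, `iv d`. `P z ↔ P (nx z)`; for `z ∈ S` with `P z`: `z = d` or `iv d`, so `iv z` is one of them and `P (iv z)`. Connectedness. -/
def St_Tfd : Prop := ∀ (D : Type) [Finite D] (M : CMap D), IsQuad M → ∀ (S : Set D) (g : Equiv.Perm D),
  SubF M S g → SCn M S → ∀ d, TwoF S g d (M.iv d) → S = {d, M.iv d}

/-- The number of cycles of `g` without elements of `S`. -/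
def N0 {D : Type} (g : Equiv.Perm D) (S : Set D) : ℕ :=
  Nat.card {q : Quotient (Equiv.Perm.SameCycle.setoid g) // ∀ y ∈ S, (Quotient.mk _ y : Quotient _) ≠ q}

/-- The number of cycles of `g` with exactly two elements of `S`. -/
def N2 {D : Type} (g : Equiv.Perm D) (S : Set D) : ℕ :=
  Nat.card {q : Quotient (Equiv.Perm.SameCycle.setoid g) // {y | y ∈ S ∧ (Quotient.mk _ y : Quotient _) = q}.ncard = 2}

/-- (Cnt) Proof: for an even number `c`: `4 ≤ c + 4 [c = 0] + 2 [c = 2]`; sum over the cycles `q`, `c` = number of elements of `S` in `q`. -/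
def St_Cnt : Prop := ∀ (D : Type) [Finite D] (g : Equiv.Perm D) (S : Set D),
  (∀ x, Even {y | y ∈ S ∧ g.SameCycle x y}.ncard) → 4 * nc g ≤ S.ncard + 4 * N0 g S + 2 * N2 g S

/-- (Pty) needs `Col`. Every face of a submap has an even number of darts. Proof: let `q` be the `g`-cycle of `x`. For `y ∈ S`,
`col (g y) = !col y`, for `y ∉ S`, `col (g y) = col y`. `g` permutes `q`, so `#{y ∈ q : col y} = #{y ∈ q : col (g y)}`, hence
`#{y ∈ q : col y, ¬ col (g y)} = #{y ∈ q : ¬ col y, col (g y)}`, and the number of `y ∈ q ∩ S` is the sum of the two. -/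
def St_Pty : Prop := ∀ (D : Type) [Finite D] (M : CMap D), IsQuad M → ∀ (S : Set D) (g : Equiv.Perm D),
  SubF M S g → ∀ x, Even {y | y ∈ S ∧ g.SameCycle x y}.ncard

/-- (N0b) Proof: if a `g`-cycle contains no dart of `S` then `g = nx` on it, so it is a cycle of `nx`, that is a vertex, which is not in `X`
(every vertex in `X` has a dart in `S`). This is an injection of the set of these cycles to the complement of `X`. -/
def St_N0b : Prop := ∀ (D : Type) [Finite D] (M : CMap D) (X : Finset (Vx M)) (S : Set D) (g : Equiv.Perm D),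
  SubF M S g → (∀ x ∈ X, ∃ d ∈ S, vx M d = x) → N0 g S + X.card ≤ nc M.nx

/-- (N2b) needs `Sga`, `Sgc`, `Exc`, `Tfa`, `Tfb`, `Tfc`, `Tfd`. Proof: let `q` be a cycle of `g` with exactly two darts `d1 ≠ d2` of `S`: `TwoF S g d1 d2`, and
`d2 ≠ iv d1` by `Tfd`, so `Par M d1 d2` (`Tfa`). Let `A q = Sd M d1 d2` (it does not depend on the order, as `Sd M d2 d1 = Sd M d1 d2`). The sets
`A q` are pairwise disjoint (`Tfc`), and each contains `e` and `iv e`, or `e'` and `iv e'`, but not both (`Exc`). If `e ∈ S` then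
`e ∉ A q`: otherwise `e ∈ {d1, d2}` by `Tfb`, `Sgc`, and then `iv e ∉ A q` by `Sgc`, contradicting `Exc`. So `e ∈ S` implies `e' ∈ A q` for all `q`, and the same
with `e'`, `e` exchanged. Hence: the map `q ↦ [e ∈ A q]` is injective, so `N2 ≤ 2`; if `e ∈ S` or `e' ∈ S` it is constant, so `N2 ≤ 1`; if
both are in `S` there is no such `q`. -/
def St_N2b : Prop := ∀ (D : Type) [Finite D] (M : CMap D), IsQuad M → ∀ e e', NoJ M e e' →
  ∀ (S : Set D) (g : Equiv.Perm D), SubF M S g → SCn M S → (∀ d, S ≠ {d, M.iv d}) →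
    N2 g S + ((if e ∈ S then 1 else 0) + (if e' ∈ S then 1 else 0)) ≤ 2

/-- (Csx) Proof: the classes of the relation are: all darts with tail in `X` (one class, by hypothesis), and for every vertex outside `X`
its darts. -/
def St_Csx : Prop := ∀ (D : Type) [Finite D] (M : CMap D) (X : Finset (Vx M)), X.Nonempty →
  (∀ x y : D, vx M x ∈ X → vx M y ∈ X → Relation.EqvGen (fun x y => y = M.nx x ∨
    (x ∈ {d | vx M d ∈ X ∧ vx M (M.iv d) ∈ X} ∧ y = M.iv x)) x y) →
  cS M {d | vx M d ∈ X ∧ vx M (M.iv d) ∈ X} + X.card = nc M.nx + 1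

/-- The correction term. -/
def kk {D : Type} (M : CMap D) (e e' : D) (X : Finset (Vx M)) : ℕ :=
  (if vx M e ∈ X ∧ vx M (M.iv e) ∈ X then 1 else 0) + (if vx M e' ∈ X ∧ vx M (M.iv e') ∈ X then 1 else 0)

/-- (Bnc) needs `Gex`, `EuM`, `Mmb`, `Cnt`, `Pty`, `N0b`, `N2b`, `Csx`. The bound for connected `X`. Proof: let `S = {d | vx d ∈ X ∧ vx (iv d) ∈ X}`,
`g` from `Gex`; `es (mm M) X = |S|` (`Mmb`). If `|X| = 1` then `|S| = 0` and `kk = 0` (no loops): `4 ≤ 4`. Let `|X| ≥ 2`. Every `x ∈ X` has a dart in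
`S` (otherwise its darts would be a class of the relation, but there are darts with tail in `X` at other vertices). `cS M univ = 1`,
so `EuM` (b): `2 nc nx + 2 nc g = |S| + 4 cS M S`, `Csx`: `cS M S + |X| = nc nx + 1`, `Cnt`: `4 nc g ≤ |S| + 4 N0 + 2 N2`,
`N0b`: `N0 + |X| ≤ nc nx`. Together: `|S| + 8 ≤ 4|X| + 2 N2`. If `S ≠ {d, iv d}` for all `d`, `N2b`: `N2 + kk ≤ 2` (`e ∈ S` iff both
ends are in `X`), so `|S| + 4 + 2 kk ≤ 4|X|`. If `S = {d, iv d}` then `|X| = 2`, `|S| = 2`, and `kk ≤ 1` because `e`, `e'` have no common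
vertex: `2 + 4 + 2 ≤ 8`. -/
def St_Bnc : Prop := ∀ (D : Type) [Finite D] (M : CMap D), IsQuad M → ∀ e e', NoJ M e e' →
  vx M e ≠ vx M e' → vx M e ≠ vx M (M.iv e') → vx M (M.iv e) ≠ vx M e' → vx M (M.iv e) ≠ vx M (M.iv e') →
  ∀ X : Finset (Vx M), X.Nonempty →
  (∀ x y : D, vx M x ∈ X → vx M y ∈ X → Relation.EqvGen (fun x y => y = M.nx x ∨
    (x ∈ {d | vx M d ∈ X ∧ vx M (M.iv d) ∈ X} ∧ y = M.iv x)) x y) →
  es (mm M) X + 4 + 2 * kk M e e' X ≤ 4 * X.card

/-- (Bna) needs `Esa`, `Mmb`, `Bnc`. The bound for all `X`. Proof: induction on `|X|`. If `X` is not connected, choose a dart `x0` with tail in `X`, let `Y` be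
the set of the vertices of `X` whose darts are connected to `x0` and `Z = X \ Y`, nonempty; there are no edges between `Y` and `Z`, so
`es X = es Y + es Z` (`Esa` (4)) and `kk X = kk Y + kk Z` (an edge with both ends in `X` has both in `Y` or both in `Z`). Add the two
inequalities. -/
def St_Bna : Prop := ∀ (D : Type) [Finite D] (M : CMap D), IsQuad M → ∀ e e', NoJ M e e' →
  vx M e ≠ vx M e' → vx M e ≠ vx M (M.iv e') → vx M (M.iv e) ≠ vx M e' → vx M (M.iv e) ≠ vx M (M.iv e') →
  ∀ X : Finset (Vx M), X.Nonempty → es (mm M) X + 4 + 2 * kk M e e' X ≤ 4 * X.card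

/-- (T1) needs `Sga`, `Sgd`, `Mmb`, `Ste`, `Exc`, `Bna`, `Ctr`. The theorem for finite planar quadrangulations. Proof: induction on `Nat.card D`. If `NoJ M e e'`
fails, there are `d1, d2` with `Par` and darts `e0 ∈ {e, iv e}`, `e0' ∈ {e', iv e'}` in `Sd M d1 d2`. Take `M'` from `Sgd` and `B'` = the vertices
`vx M' x` with `vx M x ∈ B` (well defined). `vx M (M'.iv x) = vx M (iv x)` by `Sga`, so the hypotheses hold for `M'`, `e0`, `e0'`, `B'`, and
`1 ≤ TT M' e0 B' ≤ TT M e0 B = TT M e B` by induction and `Ste`. If `NoJ M e e'` holds: `Ctr` with `m = mm M`, `a, b` the ends of `e`, `c, c'` those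
of `e'`, by `Mmb`, `Exc` (2), `Bna` (`kk` is the correction term). -/
def St_T1 : Prop := ∀ (D : Type) [Finite D] (M : CMap D), IsQuad M → ∀ (e e' : D) (B : Finset (Vx M)),
  vx M e ∉ B → vx M (M.iv e) ∉ B → vx M e' ∈ B → vx M (M.iv e') ∈ B → 1 ≤ TT M e B

/-! ### G. Infinite quadrangulations -/

/-- The list of darts `l` is a simple path from `s` which goes on inside `U` and stops at its first vertex in `B`. -/
def PL {D : Type} (M : CMap D) (B : Finset (Vx M)) : List D → Finset (Vx M) → Vx M → Prop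
  | [], _, s => s ∈ B
  | d :: l, U, s => s ∉ B ∧ vx M d = s ∧ vx M (M.iv d) ∈ U ∧
      PL M B l (U.erase (vx M (M.iv d))) (vx M (M.iv d))

/-- (Psl) Proof: induction on `U.card`. If `s ∈ B` the only list is `[]`. If not, the lists are `d :: l`, where `d` is a dart from `s` to some `y ∈ U` (there
are `mm M s y` of them) and `l` is a list for `(U.erase y, y)`. -/
def St_Psl : Prop := ∀ (D : Type) [Finite D] (M : CMap D) (B U : Finset (Vx M)) (s : Vx M),
  ENNReal.ofReal (ps (hf (mm M)) B U s) = ∑' l : {l : List D // PL M B l U s}, (2 : ENNReal)⁻¹ ^ l.1.length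

/-- (Plw) needs `Col`. The paths are self-avoiding walks. Proof: let `v0 = s`, `v1, …, vn` be the vertices of the path. By definition `v1, …, vn` are
different and in `U = univ \ {a, b}`, `a = vx ρ`, `b = vx (iv ρ)`, and `v0, …, v(n-1) ∉ B`, `vn ∈ B`. So for `s = a` it is a self-avoiding walk, and for
`s = b` it is one after adding the step `ρ` (`a ≠ b` by `Col`). `vi ∉ B` means that the darts are in `reach M ρ r`. The distance from
the origin changes by at most one in every step (`d ∈ reach r` implies `iv d ∈ reach (r+1)`), is `0` at `a`, at most `1` at `b`, and is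
at least `r + 1` at `vn`. -/
def St_Plw : Prop := ∀ (D : Type) [Finite D] (M : CMap D), IsQuad M → ∀ (ρ : D) (r : ℕ) (B : Finset (Vx M)),
  (∀ d, vx M d ∈ B ↔ d ∉ reach M ρ r) → ∀ l : List D,
    (PL M B l (Finset.univ \ {vx M ρ, vx M (M.iv ρ)}) (vx M ρ) →
      IsSAW M ρ l ∧ (∀ d ∈ l, d ∈ reach M ρ r) ∧ r + 1 ≤ l.length) ∧
    (PL M B l (Finset.univ \ {vx M ρ, vx M (M.iv ρ)}) (vx M (M.iv ρ)) →
      IsSAW M ρ (ρ :: l) ∧ (∀ d ∈ ρ :: l, d ∈ reach M ρ r) ∧ r + 1 ≤ (ρ :: l).length)

/-- `f` is an isomorphism of the pattern `p` with the ball of radius `r` (see `Match`). -/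
def MB {D : Type} (r : ℕ) (M : CMap D) (ρ : D) (p : Pat) (f : Fin p.k → D) : Prop :=
  Function.Injective f ∧ Set.range f = reach M ρ r ∧ f p.rt = ρ ∧
    (∀ i, f (p.nx i) = M.nx (f i)) ∧ ∀ i j, p.iv i = some j ↔ M.iv (f i) = f j

/-- (Rcr) Two maps with the same ball. Proof: `f ((p.nx ^ n) i) = (M.nx ^ n) (f i)` for all integers `n`, so `M.nx.SameCycle (f i) (f j) ↔
p.nx.SameCycle i j` (`f` injective). `reach` is increasing in `q` and closed under `SameCycle`. Second part by induction on `q`: `q = 0`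
is the first part with `ρ = f p.rt`. `q + 1 ≤ R`: `f i ∈ reach M ρ (q+1)` iff there is `d' ∈ reach M ρ q` with `SameCycle d' (f i)` or
`SameCycle (iv d') (f i)`; `d' = f j` (it is in `reach M ρ R`), and in the second case `iv d'` is in the cycle of `f i`, so in `reach M ρ R`,
`iv d' = f l`, `p.iv j = some l`; these conditions are the same for `M'`. -/
def St_Rcr : Prop := ∀ (D D' : Type) (M : CMap D) (M' : CMap D') (ρ : D) (ρ' : D') (R : ℕ) (p : Pat)
  (f : Fin p.k → D) (f' : Fin p.k → D'), MB R M ρ p f → MB R M' ρ' p f' →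
    (∀ i j, M.nx.SameCycle (f i) (f j) ↔ M'.nx.SameCycle (f' i) (f' j)) ∧
    ∀ q ≤ R, ∀ i, f i ∈ reach M ρ q ↔ f' i ∈ reach M' ρ' q

/-- (Trf) needs `Rcr`. Self-avoiding walks in the ball are the same. Proof: `F = List.map φ` with `φ (f' i) = f i` (`φ` arbitrary outside the range of `f'`). The
darts `d` of `l` and the darts `iv d` are in `reach M' ρ' (r+1) ⊆ range f'`; if `d = f' i` then `iv d = f' j` with `p.iv i = some j`, so
`iv (φ d) = φ (iv d)`. All conditions of `IsSAW` are about `SameCycle` of such darts: `Rcr`. `φ` is injective on the range of `f'`. -/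
def St_Trf : Prop := ∀ (D D' : Type) (M : CMap D) (M' : CMap D') (ρ : D) (ρ' : D') (r : ℕ) (p : Pat),
  Match (r + 2) M ρ p → Match (r + 2) M' ρ' p → ∃ F : List D' → List D,
    (∀ l, IsSAW M' ρ' l → (∀ d ∈ l, d ∈ reach M' ρ' r) → IsSAW M ρ (F l) ∧ (F l).length = l.length) ∧
    Set.InjOn F {l | ∀ d ∈ l, d ∈ reach M' ρ' r}

/-- (Fsw) Proof: induction on `n`: the first `n` darts form one of finitely many lists, and the last one is in the (finite) `nx`-cycle of
`iv` of the previous one (of `ρ` if `n = 0`). -/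
def St_Fsw : Prop := ∀ (D : Type) (M : CMap D) (ρ : D), (∀ d, {d' | M.nx.SameCycle d d'}.Finite) →
  ∀ n : ℕ, Finite {l : List D // l.length = n ∧ IsSAW M ρ l}

/-- (Far) needs `Rcr`. There is an edge far from the origin. Proof: `reach M ρ q` is finite for all `q` (local finiteness). If
`reach M ρ (r+2) = reach M ρ (r+1)` then this set is closed under `nx`, `nx⁻¹`, `iv`, so it is everything, but `D` is infinite. So there is `d` in
`reach M ρ (r+2)`, not in `reach M ρ (r+1)`, hence one in `M'` too (`Rcr`). There is `e' ∈ reach M' ρ' (r+1)` with `SameCycle (iv e') d`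
(`SameCycle e' d` would give `d ∈ reach (r+1)`). `iv e' ∉ reach (r+1)`, and `e' ∉ reach r` (otherwise `iv e' ∈ reach (r+1)`). -/
def St_Far : Prop := ∀ (D D' : Type) (M : CMap D) (M' : CMap D') (ρ : D) (ρ' : D') (r : ℕ) (p : Pat),
  Infinite D → M.Conn → (∀ d, {d' | M.nx.SameCycle d d'}.Finite) →
  Match (r + 2) M ρ p → Match (r + 2) M' ρ' p →
    ∃ e' : D', e' ∉ reach M' ρ' r ∧ M'.iv e' ∉ reach M' ρ' r

/-- (Ser) needs `T1`, `Psl`, `Plw`, `Trf`, `Fsw`, `Far`. Proof: let `r = N + 1`, take the finite quadrangulation `M'` (root `0`) with the same ball of radius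
`r + 2`, `B` = the vertices whose darts are not in `reach M' 0 r` (`reach` is closed under `SameCycle`). `0` and `iv 0` are in `reach M' 0 r`; `e'` from
`Far`. `T1`: `1 ≤ TT M' 0 B`. By `Psl` this is `1 ≤ ∑' l ∈ 𝓐, 2^(-|l|) + ∑' l ∈ 𝓑, 2^(-|l|)`, `𝓐`, `𝓑` the two sets of lists. By `Plw` the lists of
`𝓐`, and the lists `0 :: l` with `l ∈ 𝓑`, are self-avoiding walks of length `≥ r + 1 > N` with darts in `reach M' 0 r`, and by `Trf`, `Fsw` the number
of such walks of length `n` is at most `saws M ρ n`. So both `∑' l ∈ 𝓐, 2^(-|l|)` and `∑' l ∈ 𝓑, 2^(-|0 :: l|)` are at most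
`∑' n, saws M ρ (N + n) / 2^(N + n)`, and `2^(-|l|) = 2 * 2^(-|0 :: l|)`. -/
def St_Ser : Prop := ∀ (D : Type) (M : CMap D) (ρ : D), IsInfQuad M ρ → ∀ N : ℕ,
  1 ≤ 3 * ∑' n : ℕ, (saws M ρ (N + n) : ENNReal) / 2 ^ (N + n)

/-- (Lim) Proof: otherwise there is a real `c` with `0 ≤ c < 2` and `s n ^ (1/n) ≤ c`, so `s n ≤ c ^ n`, for all large `n`; then the sum from
`N` on is at most `∑' n, (c/2)^(N+n)`, which tends to `0`. -/
def St_Lim : Prop := ∀ s : ℕ → ℕ, (∀ N : ℕ, 1 ≤ 3 * ∑' n : ℕ, (s (N + n) : ENNReal) / 2 ^ (N + n)) →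
  (2 : ENNReal) ≤ Filter.limsup (fun n : ℕ => (s n : ENNReal) ^ (1 / (n : ℝ))) Filter.atTop

/-- (Pex) Proof: `reach M ρ r` is finite (induction on `r`), closed under `nx` and `nx⁻¹`; number its elements by `Fin k`. -/
def St_Pex : Prop := ∀ (D : Type) (M : CMap D) (ρ : D), (∀ d, {d' | M.nx.SameCycle d d'}.Finite) →
  ∀ r : ℕ, ∃ p : Pat, Match r M ρ p

open MeasureTheory in
/-- (UIa) needs `Pex`. Proof: `Pat` is countable. Almost surely `Q ω` is connected and locally finite and, for all `r`, `p` with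
`P.real {Match r (Q ω) 0 p} = 0` (countably many null sets), `Match r (Q ω) 0 p` fails. Fix such an `ω` and `r`; take `p` from `Pex`. The limit in
`IsUIPQ.ball` is not `0`, so for some `n` the number of `M'` with `IsQuad M' ∧ Match r M' 0 p` is not `0`. -/
def St_UIa : Prop := ∀ (Ω : Type) [MeasurableSpace Ω] (P : Measure Ω) [IsProbabilityMeasure P]
  (Q : Ω → CMap ℕ), IsUIPQ P Q → ∀ᵐ ω ∂P, IsInfQuad (Q ω) 0

open MeasureTheory in
/-- (Fin) needs `Ser`, `Lim`, `UIa`. The result. -/
def St_Fin : Prop :=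
  (∀ (D : Type) (M : CMap D) (ρ : D), IsInfQuad M ρ → 2 ≤ mu M ρ) ∧
  ∀ (Ω : Type) [MeasurableSpace Ω] (P : Measure Ω) [IsProbabilityMeasure P] (Q : Ω → CMap ℕ),
    IsUIPQ P Q → ∀ᵐ ω ∂P, 2 ≤ mu (Q ω) 0

end Pool.Agent.UQC
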